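import Pool.Agent.Y133.Half.Index2

/-!
# Systems of classes given by a property of homogeneous classes
-/

open CategoryTheory AlgebraicGeometry Filter Topology

open scoped ENNReal

universe u v

namespace Pool.Agent.Y133.Half

open Module
open Pool.Agent.H914 Pool.Agent.H914.VarClass Pool.Agent.H914.VarClass.Obj
  Pool.Agent.H914.WeilCohomology Pool.Agent.W458.MF Pool.Agent.W536.RR Pool.Agent.H281R3.HT

variable {k : Type u} [Field k] {𝒱 : VarClass k} {ops : CycleOps 𝒱}
  {W : WeilCohomology.{u, v} ops} {X Y Z : 𝒱.Obj}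

/-- A property of homogeneous classes of even degree which is stable under linear combinations,
products, pull-backs and push-forwards and holds for the classes of algebraic cycles. -/
structure ClassPred (W : WeilCohomology.{u, v} ops) where
  /-- the property of the classes of degree `2 j` on `X` -/
  P : ∀ X : 𝒱.Obj, ℕ → W.H X → Prop
  gr : ∀ {X : 𝒱.Obj} {j : ℕ} {c : W.H X}, P X j c → c ∈ W.gr X (2 * j)
  zero : ∀ {X : 𝒱.Obj} {j : ℕ}, P X j 0
  add : ∀ {X : 𝒱.Obj} {j : ℕ} {a b : W.H X}, P X j a → P X j b → P X j (a + b)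
  smul : ∀ {X : 𝒱.Obj} {j : ℕ} (r : W.K) {a : W.H X}, P X j a → P X j (r • a)
  cl : ∀ {X : 𝒱.Obj} {j : ℕ} {z : X.Cycles}, X.IsCyc j z → P X j (W.cl X z)
  mul : ∀ {X : 𝒱.Obj} {i j : ℕ} {a b : W.H X}, P X i a → P X j b → P X (i + j) (a * b)
  map : ∀ {X Y : 𝒱.Obj} (f : X ⟶ Y) {j : ℕ} {a : W.H Y}, P Y j a → P X j (W.map f a)
  push : ∀ {X Y : 𝒱.Obj} (f : X ⟶ Y) {j l : ℕ}, l + X.dim = j + Y.dim → ∀ {a : W.H X},
    P X j a → P Y l (W.push f a)

namespace ClassPred

variable (Q : ClassPred W)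

/-- The space of the classes. -/
noncomputable def sp (Z : 𝒱.Obj) : Submodule W.K (W.H Z) :=
  Submodule.span W.K {c | ∃ j, Q.P Z j c}

variable {Q}

lemma sp_of {j : ℕ} {c : W.H Z} (hc : Q.P Z j c) : c ∈ Q.sp Z := Submodule.subset_span ⟨j, hc⟩

lemma sp_ind {q : W.H Z → Prop} (h : ∀ j x, Q.P Z j x → q x) (h0 : q 0)
    (hadd : ∀ a b, q a → q b → q (a + b)) {x : W.H Z} (hx : x ∈ Q.sp Z) : q x := by
  have key : ∀ z, z ∈ Q.sp Z → (q z ∧ ∀ c : W.K, q (c • z)) := by
    intro z hz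
    induction hz using Submodule.span_induction with
    | mem x hx => obtain ⟨j, hj⟩ := hx; exact ⟨h j x hj, fun c => h j _ (Q.smul c hj)⟩
    | zero => exact ⟨h0, fun c => by rw [smul_zero]; exact h0⟩
    | add x y _ _ hx hy =>
      exact ⟨hadd x y hx.1 hy.1, fun c => by rw [smul_add]; exact hadd _ _ (hx.2 c) (hy.2 c)⟩
    | smul c x _ hx => exact ⟨hx.2 c, fun d => by rw [smul_smul]; exact hx.2 _⟩
  exact (key x hx).1

lemma sp_proj {x : W.H X} (hx : x ∈ Q.sp X) (j : ℕ) :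
    Q.P X j (H914.proj (W.isInternal X) (2 * j) x) := by
  refine sp_ind (q := fun x => Q.P X j (H914.proj (W.isInternal X) (2 * j) x))
    ?_ ?_ ?_ hx
  · intro i x hx
    by_cases h : i = j
    · subst h
      rw [proj_same _ (Q.gr hx)]; exact hx
    · rw [proj_ne _ (Q.gr hx) (by omega)]; exact Q.zero
  · rw [map_zero]; exact Q.zero
  · intro x y hx hy
    rw [map_add]; exact Q.add hx hy

lemma sp_even {x : W.H X} (hx : x ∈ Q.sp X) : x ∈ PH W X 0 := by
  refine sp_ind (q := fun x => x ∈ PH W X 0) ?_ ?_ ?_ hx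
  · intro j x hx; exact PH.of' (b := 0) (Nat.mul_mod_right 2 j) (Q.gr hx)
  · exact Submodule.zero_mem _
  · intro x y hx hy; exact Submodule.add_mem _ hx hy

lemma span_le {j : ℕ} {c : W.H X} (hc : c ∈ spanCycles W X j) : Q.P X j c := by
  induction hc using Submodule.span_induction with
  | mem x hx =>
    obtain ⟨p, hp, z, hz, rfl⟩ := hx
    obtain rfl : p = j := by exact_mod_cast hp
    exact Q.cl hz
  | zero => exact Q.zero
  | add a b _ _ ha hb => exact Q.add ha hb
  | smul r a _ ha => exact Q.smul r ha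

lemma alg_le : algSpan W Z ≤ Q.sp Z := by
  intro c hc
  refine algSpan_induction (p := fun c => c ∈ Q.sp Z) ?_ ?_ ?_ ?_ hc
  · exact Submodule.zero_mem _
  · intro a b ha hb; exact Submodule.add_mem _ ha hb
  · intro t a ha; exact Submodule.smul_mem _ _ ha
  · intro j z hz
    exact sp_of (Q.cl hz)

variable (Q)

/-- The system of the classes. -/
noncomputable def sys : Sys W where
  C Z := Q.sp Z
  even := sp_even
  one Z := alg_le one_mem_algSpan
  mul {Z c d} hc hd := by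
    refine sp_ind (q := fun c => c * d ∈ Q.sp Z) ?_ ?_ ?_ hc
    · intro j x hx
      refine sp_ind (q := fun d => x * d ∈ Q.sp Z) ?_ ?_ ?_ hd
      · intro l y hy; exact sp_of (Q.mul hx hy)
      · rw [mul_zero]; exact Submodule.zero_mem _
      · intro a b ha hb; rw [mul_add]; exact Submodule.add_mem _ ha hb
    · rw [zero_mul]; exact Submodule.zero_mem _
    · intro a b ha hb; rw [add_mul]; exact Submodule.add_mem _ ha hb
  map {X Y} f c hc := by
    refine sp_ind (q := fun c => W.map f c ∈ Q.sp X) ?_ ?_ ?_ hc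
    · intro j x hx; exact sp_of (Q.map f hx)
    · rw [map_zero]; exact Submodule.zero_mem _
    · intro a b ha hb; rw [map_add]; exact Submodule.add_mem _ ha hb
  push {X Y} f c hc := by
    refine sp_ind (q := fun c => W.push f c ∈ Q.sp Y) ?_ ?_ ?_ hc
    · intro j x hx
      by_cases hd : X.dim ≤ j + Y.dim
      · exact sp_of (Q.push f (l := j + Y.dim - X.dim) (by omega) hx)
      · have h2 := W.push_mem f (Q.gr hx)
        rw [grZ_of_neg (by push_cast; omega), Submodule.mem_bot] at h2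
        rw [h2]
        exact Submodule.zero_mem _
    · rw [map_zero]; exact Submodule.zero_mem _
    · intro a b ha hb; rw [map_add]; exact Submodule.add_mem _ ha hb

variable {Q}

lemma sp_finrank (Z : 𝒱.Obj) : finrank W.K (Q.sys.C Z) = dimOf W {c | ∃ j, Q.P Z j c} := rfl

/-- All classes with the property are algebraic. -/
lemma sp_eq_iff (Z : 𝒱.Obj) : Q.sys.C Z = algSpan W Z ↔
    ∀ j c, Q.P Z j c → c ∈ spanCycles W Z j := by
  constructor
  · intro h j c hc
    refine spanCycles_of_algSpan ?_ (Q.gr hc)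
    rw [← h]
    exact sp_of hc
  · intro h
    apply le_antisymm _ alg_le
    intro c hc
    refine sp_ind (q := fun c => c ∈ algSpan W Z) ?_ ?_ ?_ hc
    · intro j x hx
      exact Pool.Agent.Y129.span_le_algSpan j (h j x hx)
    · exact Submodule.zero_mem _
    · intro a b ha hb; exact Submodule.add_mem _ ha hb

variable (Q)

/-- **The index law for a class of cohomology classes.** -/
theorem index (X : 𝒱.Obj) [Nontrivial (W.H X)] : ∃ N : ℕ∞, 1 ≤ N ∧
      Tendsto (fun n => (dimOf W {c | ∃ j, Q.P (Pool.Agent.Y129.pw X n) j c} : ℝ≥0∞) /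
        cycRank ops (Pool.Agent.Y129.pw X n)) atTop (𝓝 (N : ℝ≥0∞)) ∧
      (∀ n, (dimOf W {c | ∃ j, Q.P (Pool.Agent.Y129.pw X (2 * n + 1)) j c} : ℝ≥0∞) /
        cycRank ops (Pool.Agent.Y129.pw X (2 * n + 1)) ≤ (N : ℝ≥0∞)) ∧
      (N = 1 ↔ ∀ n, (∀ j c, Q.P (Pool.Agent.Y129.pw X n) j c →
        c ∈ spanCycles W (Pool.Agent.Y129.pw X n) j) ∧
        HomEqNum W (Pool.Agent.Y129.pw X n)) ∧
      (N ≠ ⊤ → (∀ n, HomEqNum W (Pool.Agent.Y129.pw X n)) ∧
        ∃ (r : ℕ) (c : Fin r → Σ m, W.H (Pool.Agent.Y129.pw X m)), (r : ℕ∞) + 1 ≤ N ∧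
          (∀ i, ∃ j, Q.P (Pool.Agent.Y129.pw X (c i).1) j (c i).2) ∧
          ∀ n j z, Q.P (Pool.Agent.Y129.pw X n) j z → z ∈ Pool.Agent.Y129.genBy W X c n) := by
  obtain ⟨N, h1, h2, h3, h4, h5⟩ := Q.sys.full_index (fun _ => alg_le) X
  refine ⟨N, h1, h2, h3, h4.trans (forall_congr' fun n => and_congr_left' (sp_eq_iff _)),
    fun hN => ⟨(h5 hN).1, ?_⟩⟩
  obtain ⟨r, c, hr, hc, hG⟩ := (h5 hN).2
    (fun n => {c | ∃ j, Q.P (Pool.Agent.Y129.pw X n) j c}) fun n => rfl
  exact ⟨r, c, hr, hc, fun n j z hz => hG n (sp_of hz)⟩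

end ClassPred

end Pool.Agent.Y133.Half
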