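import Pool.Agent.Y133.Half.Main

/-!
# Zero-one laws without nondegeneracy
-/

open CategoryTheory AlgebraicGeometry

universe u v

namespace Pool.Agent.Y133.Half

open Module
open Pool.Agent.H914 Pool.Agent.H914.VarClass Pool.Agent.H914.VarClass.Obj
  Pool.Agent.H914.WeilCohomology

variable {k : Type u} [Field k] {𝒱 : VarClass k} {ops : CycleOps 𝒱}
  {W : WeilCohomology.{u, v} ops} {X : 𝒱.Obj}

namespace Sys

variable (S T : Sys W)

lemma a_eq_zero_of (hZ : ∀ l ∈ S.C X, W.tr X l = 0) (n : ℕ) : S.a (pw X n) = 0 := by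
  have h1 : ∀ c ∈ S.C (pw X n), W.tr (pw X n) c = 0 := by
    intro c hc
    have h2 := W.tr_push (prj X n 0) c 1
    rw [mul_one, map_one, mul_one] at h2
    rw [← h2]
    exact hZ _ (S.push _ hc)
  have h3 : S.F (pw X n) 1 = 0 := by
    apply LinearMap.ext
    intro c
    apply LinearMap.ext
    intro d
    exact h1 _ (S.mul c.2 d.2)
  rw [a, h3, rk]
  simp

/-- **Zero-infinity law for numerical equivalence.** For a system `S ≤ T` of classes: either no
nonzero class of `S` on a power of `X` is numerically trivial, or the rank of the intersection form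
on the classes of `S` on `X^n` is negligible with respect to the dimension of the classes of `T`. -/
theorem num_or (hST : ∀ X, S.C X ≤ T.C X) (X : 𝒱.Obj) :
    (∀ n, S.Num (pw X n) = ⊥) ∨ ∀ N : ℕ, ∃ n₀ : ℕ, ∀ n ≥ n₀,
      N * S.a (pw X n) ≤ finrank W.K (T.C (pw X n)) := by
  by_cases hN : ∀ q, S.Num (pw X q) = ⊥
  · exact Or.inl hN
  right
  intro N
  by_cases hZ : ∀ l ∈ S.C X, W.tr X l = 0
  · exact ⟨0, fun n _ => by rw [S.a_eq_zero_of hZ n, mul_zero]; exact Nat.zero_le _⟩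
  push Not at hZ
  obtain ⟨l', hl', hl'0⟩ := hZ
  obtain ⟨l, hl, hl1⟩ : ∃ l ∈ S.C X, W.tr X l = 1 :=
    ⟨(W.tr X l')⁻¹ • l', Submodule.smul_mem _ _ hl', by
      rw [map_smul, smul_eq_mul, inv_mul_cancel₀ hl'0]⟩
  have h1 : (1 : W.H X) ≠ 0 := one_ne_zero_of (ne_zero_of_tr hl1)
  have hX : 0 < finrank W.K (W.H X) := by
    have : Nontrivial (W.H X) := ⟨⟨1, 0, h1⟩⟩
    exact Module.finrank_pos
  have hpos : ∀ n, 0 < S.al X n := by
    intro n
    obtain ⟨m, hm, hm1⟩ := S.exists_lam hl hl1 n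
    refine S.a_pos (xp_mem_C S hm hm) ?_
    rw [tr_xp, hm1, mul_one]
  rcases ratio_dichotomy hpos (S.al_convex X) ((finrank W.K (W.H X) : ℝ) ^ 2) with
    ⟨c, hc, hcB, h⟩ | hB
  · have hN0 : (0 : ℝ) < N + 1 := by positivity
    obtain ⟨n₀, hn₀⟩ := small_of (T := T) hc hcB h hX (ε := 1 / (N + 1)) (by positivity)
    refine ⟨n₀, fun n hn => ?_⟩
    have h2 := hn₀ n hn
    have h3 : (N : ℝ) * S.a (pw X n) ≤ finrank W.K (T.C (pw X n)) := by
      have h4 : (0 : ℝ) ≤ finrank W.K (T.C (pw X n)) := Nat.cast_nonneg _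
      have h5 : ((N : ℝ) + 1) * S.a (pw X n) ≤ finrank W.K (T.C (pw X n)) := by
        calc ((N : ℝ) + 1) * S.a (pw X n) ≤ ((N : ℝ) + 1) *
              (1 / (N + 1) * finrank W.K (T.C (pw X n))) := mul_le_mul_of_nonneg_left h2 hN0.le
          _ = _ := by field_simp
      have h6 : (0 : ℝ) ≤ S.a (pw X n) := Nat.cast_nonneg _
      linarith
    exact_mod_cast h3
  push Not at hN
  obtain ⟨q, hq⟩ := hN
  obtain ⟨z, hz, hz0⟩ := Submodule.exists_mem_ne_zero_of_ne_bot hq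
  obtain ⟨m, hm, hm1⟩ := S.exists_lam hl hl1 q
  obtain ⟨n₀, hn₀⟩ := lower_parity hST hB hX (N + 1) (fun p => by
    obtain ⟨m', P, hm', ⟨θ⟩, hP⟩ := exists_desc hST h1 hz hz0 hm hm1 N p
    have h1P : (1 : W.H P) ≠ 0 := by
      have : Nontrivial (W.H P) := by
        apply Module.nontrivial_of_finrank_pos (R := W.K)
        rw [finrank_iso θ, finrank_pw]
        exact Nat.pow_pos hX
      exact one_ne_zero
    obtain ⟨M, hM, hlt, hMT⟩ := hP.chain hST fun x hx => S.nilpotent_iso hpos hB hX θ h1P hx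
    exact ⟨m', P, M, hm', ⟨θ⟩, hM, hlt, hMT⟩) one_pos
  refine ⟨n₀, fun n hn => ?_⟩
  have h2 := hn₀ n hn
  have h3 : (((N + 1 : ℕ) : ℝ) - 1) = N := by push_cast; ring
  rw [h3] at h2
  exact_mod_cast h2

/-- **The law of the factor two.** For systems `S ≤ T` of classes (without any assumption of
nondegeneracy): either all classes of `T` on all powers of `X` belong to `S` and no nonzero class of
`S` on a power of `X` is numerically trivial, or asymptotically the dimension of the classes of `T`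
on `X^n` is at least twice the rank of the intersection form on the classes of `S`. -/
theorem factor_two (hST : ∀ X, S.C X ≤ T.C X) (X : 𝒱.Obj) :
    (∀ n, S.C (pw X n) = T.C (pw X n) ∧ S.Num (pw X n) = ⊥) ∨
      ∀ ε : ℝ, 0 < ε → ∃ n₀ : ℕ, ∀ n ≥ n₀,
        (2 - ε) * S.a (pw X n) ≤ finrank W.K (T.C (pw X n)) := by
  rcases S.num_or T hST X with hN | hN
  swap
  · right
    intro ε hε
    obtain ⟨n₀, hn₀⟩ := hN 2
    refine ⟨n₀, fun n hn => ?_⟩
    have h1 : (2 : ℝ) * S.a (pw X n) ≤ finrank W.K (T.C (pw X n)) := by exact_mod_cast hn₀ n hn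
    have h2 : (0 : ℝ) ≤ S.a (pw X n) := Nat.cast_nonneg _
    nlinarith
  by_cases heq : ∀ n, S.C (pw X n) = T.C (pw X n)
  · exact Or.inl fun n => ⟨heq n, hN n⟩
  right
  intro ε hε
  by_cases hZ : ∀ l ∈ S.C X, W.tr X l = 0
  · exact ⟨0, fun n _ => by
      rw [S.a_eq_zero_of hZ n, Nat.cast_zero, mul_zero]; exact Nat.cast_nonneg _⟩
  push Not at hZ
  obtain ⟨l', hl', hl'0⟩ := hZ
  obtain ⟨l, hl, hl1⟩ : ∃ l ∈ S.C X, W.tr X l = 1 :=
    ⟨(W.tr X l')⁻¹ • l', Submodule.smul_mem _ _ hl', by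
      rw [map_smul, smul_eq_mul, inv_mul_cancel₀ hl'0]⟩
  have h1 : (1 : W.H X) ≠ 0 := one_ne_zero_of (ne_zero_of_tr hl1)
  have hX : 0 < finrank W.K (W.H X) := by
    have : Nontrivial (W.H X) := ⟨⟨1, 0, h1⟩⟩
    exact Module.finrank_pos
  have hpos : ∀ n, 0 < S.al X n := by
    intro n
    obtain ⟨m, hm, hm1⟩ := S.exists_lam hl hl1 n
    refine S.a_pos (xp_mem_C S hm hm) ?_
    rw [tr_xp, hm1, mul_one]
  rcases ratio_dichotomy hpos (S.al_convex X) ((finrank W.K (W.H X) : ℝ) ^ 2) with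
    ⟨c, hc, hcB, h⟩ | hB
  · obtain ⟨n₀, hn₀⟩ := small_of (T := T) hc hcB h hX (ε := 1 / 2) (by positivity)
    refine ⟨n₀, fun n hn => ?_⟩
    have h2 := hn₀ n hn
    have h6 : (0 : ℝ) ≤ S.a (pw X n) := Nat.cast_nonneg _
    nlinarith
  push Not at heq
  obtain ⟨m, hm⟩ := heq
  have hm' : S.C (pw X m) < T.C (pw X m) := lt_of_le_of_ne (hST _) hm
  obtain ⟨n₀, hn₀⟩ := lower_parity (T := T) hST hB hX 2 (fun p => by
    obtain ⟨m', hm'p, hlt⟩ : ∃ m', m' % 2 = p % 2 ∧ S.C (pw X m') < T.C (pw X m') := by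
      by_cases h : m % 2 = p % 2
      · exact ⟨m, h, hm'⟩
      · exact ⟨m + 1, by omega, lt_succ hST hl hl1 hm'⟩
    refine ⟨m', pw X m', fun n => match n with
      | 0 => ⊥
      | 1 => S.C (pw X m')
      | _ + 2 => T.C (pw X m'), hm'p, ⟨Iso.refl _⟩, ?_, ?_, le_rfl⟩
    · rintro (_ | _ | n) a ha x hx
      · rw [(Submodule.mem_bot _).1 hx, map_zero]; exact Submodule.zero_mem _
      · exact Op.apply (T := S) (fun _ => le_rfl) ha hx
      · exact Op.apply hST ha hx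
    · intro n hn
      interval_cases n
      · rw [bot_lt_iff_ne_bot]
        intro h
        obtain ⟨y, hy, hy1⟩ := S.exists_lam hl hl1 m'
        change S.C (pw X m') = ⊥ at h
        rw [h, Submodule.mem_bot] at hy
        exact ne_zero_of_tr hy1 hy
      · exact hlt) hε
  refine ⟨n₀, fun n hn => ?_⟩
  have h2 := hn₀ n hn
  push_cast at h2
  exact h2

end Sys

end Pool.Agent.Y133.Half
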