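import Pool.Agent.Y133.Half.HalfDefs
import Pool.Agent.W534.PoleDefs

/-!
# The spaces of Tate classes: definitions
-/

open CategoryTheory AlgebraicGeometry

universe u v

namespace Pool.Agent.Y133.Half

open Pool.Agent.H914 Pool.Agent.H914.VarClass Pool.Agent.H914.VarClass.Obj
  Pool.Agent.H914.WeilCohomology Pool.Agent.W534

variable {k : Type u} [Field k] {𝒱 : VarClass k} {ops : CycleOps 𝒱}
  {W : WeilCohomology.{u, v} ops} {p : ℕ} (Φ : FrobSystem W p)

/-- The Frobenius endomorphism acts semisimply on the cohomology. -/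
def FrobSemisimple (X : 𝒱.Obj) : Prop :=
  Module.End.IsSemisimple (M := W.H X) (W.map (Φ.Fr X)).toLinearMap

/-- The Tate classes of all degrees. -/
def tateSet (X : 𝒱.Obj) : Set (W.H X) := {c | ∃ j, IsTate Φ X j c}

/-- The generalised Tate classes of all degrees. -/
def genTateSet (X : 𝒱.Obj) : Set (W.H X) := {c | ∃ s j, 0 < s ∧ c ∈ genTate Φ X s j}

/-- The dimension of the space spanned by the Tate classes. -/
noncomputable def tateDim (X : 𝒱.Obj) : ℕ := dimOf W (tateSet Φ X)

/-- The dimension of the space spanned by the generalised Tate classes. -/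
noncomputable def genTateDim (X : 𝒱.Obj) : ℕ := dimOf W (genTateSet Φ X)

end Pool.Agent.Y133.Half
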