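import Pool.Agent.Y133.Half.TateSys
import Pool.Agent.Y133.Half.Main2
import Pool.Agent.Y133.Half.TateHalfDefs

/-!
# Semisimple Frobenius endomorphisms
-/

open CategoryTheory AlgebraicGeometry

universe u v

namespace Pool.Agent.Y133.Half

open Module Polynomial
open Pool.Agent.H914 Pool.Agent.H914.VarClass Pool.Agent.H914.VarClass.Obj
  Pool.Agent.H914.WeilCohomology Pool.Agent.W534 Pool.Agent.W458.MF Pool.Agent.W536.RR
  Pool.Agent.H281R3.HT

variable {k : Type u} [Field k] {𝒱 : VarClass k} {ops : CycleOps 𝒱}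
  {W : WeilCohomology.{u, v} ops} {X Y Z : 𝒱.Obj}

/-- The operator `a ⊗ 1`, as an algebra homomorphism. -/
noncomputable def leftHom (W : WeilCohomology.{u, v} ops) (X Y : 𝒱.Obj) :
    Module.End W.K (W.H X) →ₐ[W.K] Module.End W.K (W.H (X.prod Y)) :=
  AlgHom.ofLinearMap
    { toFun := fun a => extOp W a 1
      map_add' := fun a b => extOp_add_left a b 1
      map_smul' := fun c a => extOp_smul_left c a 1 }
    extOp_one fun a b => by
      change extOp W (a * b) 1 = extOp W a 1 * extOp W b 1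
      rw [extOp_mul, mul_one]

/-- The operator `1 ⊗ b`, as an algebra homomorphism. -/
noncomputable def rightHom (W : WeilCohomology.{u, v} ops) (X Y : 𝒱.Obj) :
    Module.End W.K (W.H Y) →ₐ[W.K] Module.End W.K (W.H (X.prod Y)) :=
  AlgHom.ofLinearMap
    { toFun := fun b => extOp W 1 b
      map_add' := fun a b => extOp_add_right 1 a b
      map_smul' := fun c a => extOp_smul_right c 1 a }
    extOp_one fun a b => by
      change extOp W 1 (a * b) = extOp W 1 a * extOp W 1 b
      rw [extOp_mul, mul_one]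

lemma semisimple_hom {A B : 𝒱.Obj} (φ : Module.End W.K (W.H A) →ₐ[W.K] Module.End W.K (W.H B))
    {a : Module.End W.K (W.H A)} (ha : a.IsSemisimple) : (φ a).IsSemisimple := by
  refine Module.End.isSemisimple_of_squarefree_aeval_eq_zero (p := minpoly W.K a)
    ha.minpoly_squarefree ?_
  rw [Polynomial.aeval_algHom_apply, minpoly.aeval, map_zero]

lemma semisimple_ext {a : Module.End W.K (W.H X)} {b : Module.End W.K (W.H Y)}
    (ha : a.IsSemisimple) (hb : b.IsSemisimple) : (extOp W a b).IsSemisimple := by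
  have h1 := semisimple_hom (leftHom W X Y) ha
  have h2 := semisimple_hom (rightHom W X Y) hb
  have h3 : leftHom W X Y a * rightHom W X Y b = extOp W a b := by
    change extOp W a 1 * extOp W 1 b = _
    rw [extOp_mul, mul_one, one_mul]
  have h4 : Commute (leftHom W X Y a) (rightHom W X Y b) := by
    change extOp W a 1 * extOp W 1 b = extOp W 1 b * extOp W a 1
    rw [extOp_mul, extOp_mul, mul_one, one_mul, one_mul, mul_one]
  rw [← h3]
  exact h1.mul_of_commute h4 h2

section Frob

variable {p : ℕ} (Φ : FrobSystem W p)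

lemma frob_semisimple (h : FrobSemisimple Φ X) (s : ℕ) : (frob Φ X s).IsSemisimple := by
  have h1 : frob Φ X s = (W.map (Φ.Fr X)).toLinearMap ^ s := by
    apply LinearMap.ext
    intro x
    rw [Module.End.pow_apply, frob_apply, W534.map_iter]
    rfl
  rw [h1]
  exact h.pow s

lemma frob_prod_semisimple {r s : ℕ} (hr : 0 < r) (hs : 0 < s)
    (hX : ∀ t, (frob Φ X (r * t)).IsSemisimple) (hY : ∀ t, (frob Φ Y (s * t)).IsSemisimple) :
    ∃ m, 0 < m ∧ ∀ t, (frob Φ (X.prod Y) (m * t)).IsSemisimple := by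
  obtain ⟨a, b, ha, hb, hab, h⟩ := frob_comm Φ (fst X Y)
  obtain ⟨c, d, hc, hd, hcd, h'⟩ := frob_comm Φ (snd X Y)
  refine ⟨a * r * (c * s), by positivity, fun t => ?_⟩
  have e : frob Φ (X.prod Y) (a * r * (c * s) * t) =
      extOp W (frob Φ X (r * (b * c * s * t))) (frob Φ Y (s * (a * r * d * t))) := by
    apply xp_ext
    intro i j x _ y _
    have e1 := h (r * (c * s) * t) x
    have e2 := h' (a * r * s * t) y
    rw [extOp_xp, frob_apply, xp, map_mul]
    have e3 : a * r * (c * s) * t = a * (r * (c * s) * t) := by ring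
    have e4 : a * r * (c * s) * t = c * (a * r * s * t) := by ring
    have e5 : b * (r * (c * s) * t) = r * (b * c * s * t) := by ring
    have e6 : d * (a * r * s * t) = s * (a * r * d * t) := by ring
    rw [e5] at e1
    rw [e6] at e2
    conv_lhs => rw [e3, e1, ← e3, e4, e2]
    rfl
  rw [e]
  exact semisimple_ext (hX _) (hY _)

lemma frob_pw_semisimple (h : FrobSemisimple Φ X) : ∀ n, ∃ m, 0 < m ∧
    ∀ t, (frob Φ (pw X n) (m * t)).IsSemisimple
  | 0 => ⟨1, one_pos, fun t => frob_semisimple Φ h _⟩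
  | n + 1 => by
    obtain ⟨m, hm, h1⟩ := frob_pw_semisimple h n
    exact frob_prod_semisimple Φ hm one_pos h1 fun t => frob_semisimple Φ h _

/-- The span of the Tate classes. -/
noncomputable def TSpan (Z : 𝒱.Obj) : Submodule W.K (W.H Z) :=
  Submodule.span W.K (tateSet Φ Z)

lemma tateDim_eq (Z : 𝒱.Obj) : tateDim Φ Z = finrank W.K (TSpan Φ Z) := rfl

lemma genSpan_eq (Z : 𝒱.Obj) : Submodule.span W.K (genTateSet Φ Z) = TC Φ Z := by
  apply le_antisymm
  · rw [Submodule.span_le]
    rintro c ⟨s, j, hs, hc⟩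
    exact TC.of hs hc
  · intro x hx
    refine TC.ind (q := fun x => x ∈ Submodule.span W.K (genTateSet Φ Z)) ?_ ?_ ?_ hx
    · intro s j hs x hx; exact Submodule.subset_span ⟨s, j, hs, hx⟩
    · exact Submodule.zero_mem _
    · intro x y hx hy; exact Submodule.add_mem _ hx hy

lemma genTateDim_eq (Z : 𝒱.Obj) : genTateDim Φ Z = finrank W.K (TC Φ Z) := by
  rw [genTateDim, dimOf, Set.finrank, genSpan_eq]

lemma TSpan_le (Z : 𝒱.Obj) : TSpan Φ Z ≤ TC Φ Z := by
  rw [TSpan, Submodule.span_le]
  rintro c ⟨j, hc⟩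
  obtain ⟨s, hs, h⟩ := hc.mem
  exact TC.of hs h

lemma TSpan_eq (h : FrobSemisimple Φ X) (n : ℕ) : TSpan Φ (pw X n) = TC Φ (pw X n) := by
  refine le_antisymm (TSpan_le Φ _) ?_
  intro x hx
  obtain ⟨m, hm, hss⟩ := frob_pw_semisimple Φ h n
  refine TC.ind (q := fun x => x ∈ TSpan Φ (pw X n)) ?_ ?_ ?_ hx
  · intro s j hs x hx
    have h1 := genTate_mono' Φ s m j hx
    apply Submodule.subset_span
    refine ⟨j, hx.2, m * s, Nat.mul_pos hm hs, ?_⟩
    have h2 := (hss s).isFinitelySemisimple.maxGenEigenspace_eq_eigenspace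
      ((card Φ (pw X n) (m * s) : W.K) ^ j)
    have h3 : x ∈ (frob Φ (pw X n) (m * s)).maxGenEigenspace
      ((card Φ (pw X n) (m * s) : W.K) ^ j) := h1.1
    rw [h2, Module.End.mem_eigenspace_iff] at h3
    rw [← card_pow]
    exact h3
  · exact Submodule.zero_mem _
  · intro x y hx hy; exact Submodule.add_mem _ hx hy

end Frob

lemma algSet_span (W : WeilCohomology.{u, v} ops) (Z : 𝒱.Obj) :
    Submodule.span W.K (algSet W Z) = algSpan W Z := by
  have h : algSet W Z = ⋃ j, algClasses W Z j := by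
    ext c
    simp only [algSet, algClasses, Set.mem_setOf_eq, Set.mem_iUnion]
  rw [h]
  rfl

lemma algDim_eq (W : WeilCohomology.{u, v} ops) (Z : 𝒱.Obj) :
    algDim W Z = finrank W.K (algSpan W Z) := by
  rw [algDim, dimOf, Set.finrank, algSet_span]

lemma orthAlg_iff {c : W.H Z} : OrthAlg W Z c ↔ ∀ d ∈ algSpan W Z, W.tr Z (c * d) = 0 := by
  constructor
  · intro h d hd
    refine algSpan_induction (p := fun d => W.tr Z (c * d) = 0) ?_ ?_ ?_ ?_ hd
    · rw [mul_zero, map_zero]
    · intro a b ha hb; rw [mul_add, map_add, ha, hb, add_zero]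
    · intro t a ha; rw [mul_smul_comm, map_smul, ha, smul_zero]
    · intro j z hz; exact h j z hz
  · intro h j z hz
    exact h _ (by rw [← algSet_span]; exact Submodule.subset_span ⟨j, z, hz, rfl⟩)

lemma numTrivial_eq (W : WeilCohomology.{u, v} ops) (Z : 𝒱.Obj) :
    numTrivial W Z = ((algSys W).Num Z : Set (W.H Z)) := by
  ext c
  change (c ∈ Submodule.span W.K (algSet W Z) ∧ OrthAlg W Z c) ↔
    (c ∈ algSpan W Z ∧ ∀ d ∈ algSpan W Z, W.tr Z (c * d) = 0)
  rw [algSet_span, orthAlg_iff]

lemma numDim_eq (W : WeilCohomology.{u, v} ops) (Z : 𝒱.Obj) :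
    numDim W Z = (algSys W).a Z := by
  have h := (algSys W).a_add_num Z
  have h1 : dimOf W (numTrivial W Z) = finrank W.K ((algSys W).Num Z) := by
    rw [dimOf, Set.finrank, numTrivial_eq, Submodule.span_eq]
  rw [numDim, algDim_eq, h1]
  exact (Nat.eq_sub_of_add_eq h).symm

/-- Homogeneous elements of the span of the algebraic classes. -/
lemma spanCycles_of_algSpan {j : ℕ} {c : W.H Z} (hc : c ∈ algSpan W Z) (hj : c ∈ W.gr Z (2 * j)) :
    c ∈ spanCycles W Z j := by
  have h1 : H914.proj (W.isInternal Z) (2 * j) c ∈ spanCycles W Z j := by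
    refine algSpan_induction (p := fun c => H914.proj (W.isInternal Z) (2 * j) c ∈
      spanCycles W Z j) ?_ ?_ ?_ ?_ hc
    · rw [map_zero]; exact Submodule.zero_mem _
    · intro a b ha hb
      rw [map_add]; exact Submodule.add_mem _ ha hb
    · intro r a ha
      rw [map_smul]; exact Submodule.smul_mem _ _ ha
    · intro i z hz
      by_cases h : i = j
      · subst h
        rw [proj_same _ (W.cl_mem hz)]
        exact Submodule.subset_span ⟨i, rfl, z, hz, rfl⟩
      · rw [proj_ne _ (W.cl_mem hz) (by omega)]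
        exact Submodule.zero_mem _
  rwa [proj_same _ hj] at h1

end Pool.Agent.Y133.Half
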