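import Pool.Agent.Y133.Half.HodgeDefs
import Pool.Agent.Y133.Half.TateSS

/-!
# The system of the Hodge classes
-/

open CategoryTheory AlgebraicGeometry

open scoped TensorProduct

universe u v

namespace Pool.Agent.Y133.Half

open Module
open Pool.Agent.H914 Pool.Agent.H914.VarClass Pool.Agent.H914.VarClass.Obj
  Pool.Agent.H914.WeilCohomology Pool.Agent.W536.RR Pool.Agent.H281R3.HT

variable {k : Type u} [Field k] {𝒱 : VarClass k} {ops : CycleOps 𝒱}
  {W : WeilCohomology.{u, v} ops} [Algebra W.K ℝ] {X Y Z : 𝒱.Obj}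

/-- The orientation with real coefficients. -/
noncomputable def trR (W : WeilCohomology.{u, v} ops) [Algebra W.K ℝ] (X : 𝒱.Obj) :
    HR W X →ₗ[ℝ] ℝ :=
  (TensorProduct.AlgebraTensorModule.rid W.K ℝ ℝ).toLinearMap ∘ₗ (W.tr X).baseChange ℝ

lemma trR_tmul (r : ℝ) (c : W.H X) :
    trR W X (r ⊗ₜ[W.K] c) = r * algebraMap W.K ℝ (W.tr X c) := by
  rw [trR, LinearMap.comp_apply, LinearMap.baseChange_tmul]
  change TensorProduct.AlgebraTensorModule.rid W.K ℝ ℝ (r ⊗ₜ[W.K] W.tr X c) = _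
  rw [TensorProduct.AlgebraTensorModule.rid_tmul, Algebra.smul_def, mul_comm]

/-- The push-forward with real coefficients. -/
noncomputable def pushR (W : WeilCohomology.{u, v} ops) [Algebra W.K ℝ] (f : X ⟶ Y) :
    HR W X →ₗ[ℝ] HR W Y := (W.push f).baseChange ℝ

lemma pushR_tmul (f : X ⟶ Y) (r : ℝ) (c : W.H X) :
    pushR W f (r ⊗ₜ[W.K] c) = r ⊗ₜ[W.K] W.push f c := LinearMap.baseChange_tmul _ _ _

lemma mapR_tmul (f : X ⟶ Y) (r : ℝ) (c : W.H Y) :
    mapR W f (r ⊗ₜ[W.K] c) = r ⊗ₜ[W.K] W.map f c := Algebra.TensorProduct.map_tmul _ _ _ _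

lemma tr_pushR (f : X ⟶ Y) (a : HR W X) (b : HR W Y) :
    trR W Y (pushR W f a * b) = trR W X (a * mapR W f b) := by
  induction a using TensorProduct.induction_on with
  | zero => rw [map_zero, zero_mul, zero_mul, map_zero, map_zero]
  | add a a' ha ha' => rw [map_add, add_mul, map_add, ha, ha', add_mul, map_add]
  | tmul r c =>
    induction b using TensorProduct.induction_on with
    | zero => rw [map_zero, mul_zero, mul_zero, map_zero, map_zero]
    | add b b' hb hb' => rw [mul_add, map_add, hb, hb', map_add, mul_add, map_add]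
    | tmul s d =>
      rw [pushR_tmul, mapR_tmul, Algebra.TensorProduct.tmul_mul_tmul,
        Algebra.TensorProduct.tmul_mul_tmul, trR_tmul, trR_tmul, W.tr_push]

/-- Dual bases. -/
lemma exists_dual_class (W : WeilCohomology.{u, v} ops) (φ : Dual W.K (W.H X)) :
    ∃ y : W.H X, ∀ x, W.tr X (x * y) = φ x := by
  have hs : Function.Surjective (pd W X).flip := by
    apply (LinearMap.injective_iff_surjective_of_finrank_eq_finrank
      (Subspace.dual_finrank_eq).symm).1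
    rw [← LinearMap.ker_eq_bot, LinearMap.ker_eq_bot']
    intro y hy
    exact nondeg_right fun x => congrArg (fun f : Dual W.K (W.H X) => f x) hy
  obtain ⟨y, hy⟩ := hs φ
  exact ⟨y, fun x => congrArg (fun f : Dual W.K (W.H X) => f x) hy⟩

lemma trR_nondeg {a : HR W X} (h : ∀ b, trR W X (a * b) = 0) : a = 0 := by
  let e := Module.finBasis W.K (W.H X)
  have h1 : ∀ i, (e.baseChange ℝ).repr a i = 0 := by
    intro i
    obtain ⟨y, hy⟩ := exists_dual_class W (e.coord i)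
    have h2 := h (1 ⊗ₜ[W.K] y)
    have h3 : a = ∑ l, (e.baseChange ℝ).repr a l • (e.baseChange ℝ) l := (Basis.sum_repr _ a).symm
    rw [h3, Finset.sum_mul, map_sum] at h2
    rw [← h2, Finset.sum_eq_single i]
    · rw [smul_mul_assoc, map_smul, Basis.baseChange_apply,
        Algebra.TensorProduct.tmul_mul_tmul, trR_tmul, hy]
      simp
    · intro l _ hl
      rw [smul_mul_assoc, map_smul, Basis.baseChange_apply,
        Algebra.TensorProduct.tmul_mul_tmul, trR_tmul, hy]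
      simp [Finsupp.single_apply, hl]
    · intro h; exact absurd (Finset.mem_univ i) h
  rw [← (e.baseChange ℝ).sum_repr a]
  simp [h1]

lemma trR_ext {a b : HR W X} (h : ∀ c, trR W X (a * c) = trR W X (b * c)) : a = b := by
  rw [← sub_eq_zero]
  apply trR_nondeg
  intro c
  rw [sub_mul, map_sub, h, sub_self]

/-- Multiplication by a class which is injective in degree `i`. -/
lemma mulR_inj {i : ℕ} {w : W.H X} (hw : ∀ x ∈ W.gr X i, w * x = 0 → x = 0) {z : HR W X}
    (hz : z ∈ (W.gr X i).baseChange ℝ) (h : (1 ⊗ₜ[W.K] w) * z = 0) : z = 0 := by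
  have h1 : z ∈ LinearMap.range ((W.gr X i).subtype.baseChange ℝ) := hz
  obtain ⟨z', rfl⟩ := h1
  let g : W.gr X i →ₗ[W.K] W.H X := LinearMap.mulLeft W.K w ∘ₗ (W.gr X i).subtype
  have hg : Function.Injective g := by
    rw [← LinearMap.ker_eq_bot, LinearMap.ker_eq_bot']
    rintro ⟨x, hx⟩ h0
    exact Subtype.ext (hw x hx h0)
  have h2 : g.baseChange ℝ z' = 0 := by
    rw [← h]
    have h3 : ∀ z' : ℝ ⊗[W.K] W.gr X i, g.baseChange ℝ z' =
        (1 ⊗ₜ[W.K] w) * ((W.gr X i).subtype.baseChange ℝ z') := by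
      intro z'
      induction z' using TensorProduct.induction_on with
      | zero => rw [map_zero, map_zero, mul_zero]
      | add a b ha hb => rw [map_add, map_add, ha, hb, mul_add]
      | tmul r c =>
        rw [LinearMap.baseChange_tmul, LinearMap.baseChange_tmul,
          Algebra.TensorProduct.tmul_mul_tmul, one_mul]
        rfl
    exact h3 z'
  have h4 : Function.Injective (g.baseChange ℝ) :=
    Module.Flat.lTensor_preserves_injective_linearMap (M := ℝ) g hg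
  have h5 : z' = 0 := h4 (h2.trans (map_zero _).symm)
  rw [h5, map_zero]

section Sys

variable (Ψ : HodgeSystem W)

lemma trR_gr {i : ℕ} (hi : i ≠ 2 * X.dim) {z : HR W X} (hz : z ∈ (W.gr X i).baseChange ℝ) :
    trR W X z = 0 := by
  have h1 : z ∈ LinearMap.range ((W.gr X i).subtype.baseChange ℝ) := hz
  obtain ⟨z', rfl⟩ := h1
  induction z' using TensorProduct.induction_on with
  | zero => rw [map_zero, map_zero]
  | add a b ha hb => rw [map_add, map_add, ha ⟨a, rfl⟩, hb ⟨b, rfl⟩, add_zero]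
  | tmul r c =>
    rw [LinearMap.baseChange_tmul, trR_tmul]
    change r * algebraMap W.K ℝ (W.tr X (c : W.H X)) = 0
    rw [W.tr_eq_zero c.2 hi, map_zero, mul_zero]

lemma tr_h (t : ℂˣ) (a : HR W X) :
    trR W X (Ψ.h X t a) = ‖(t : ℂ)‖ ^ (2 * X.dim) * trR W X a := by
  induction a using TensorProduct.induction_on with
  | zero => rw [map_zero, map_zero, mul_zero]
  | add a b ha hb => rw [map_add, map_add, ha, hb, map_add, mul_add]
  | tmul r c =>
    have h1 : r ⊗ₜ[W.K] c = r • ((1 : ℝ) ⊗ₜ[W.K] c) := by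
      rw [TensorProduct.smul_tmul', smul_eq_mul, mul_one]
    rw [h1, map_smul, map_smul, map_smul, smul_eq_mul, smul_eq_mul, mul_left_comm]
    congr 1
    refine gr_induction (W.isInternal X) (p := fun c => trR W X (Ψ.h X t (1 ⊗ₜ[W.K] c)) =
      ‖(t : ℂ)‖ ^ (2 * X.dim) * trR W X (1 ⊗ₜ[W.K] c)) ?_ ?_ c
    · intro i c hc
      by_cases hi : i = 2 * X.dim
      · subst hi
        rw [Ψ.deg hc, map_smul, smul_eq_mul]
      · rw [trR_gr hi (Ψ.gr_mem t hc), trR_tmul, W.tr_eq_zero hc hi]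
        simp
    · intro a b ha hb
      rw [TensorProduct.tmul_add, map_add, map_add, ha, hb, map_add, mul_add]

lemma norm_ne (t : ℂˣ) (n : ℕ) : ‖(t : ℂ)‖ ^ n ≠ 0 :=
  pow_ne_zero _ (norm_ne_zero_iff.2 t.ne_zero)

lemma h_injective (t : ℂˣ) : Function.Injective (Ψ.h X t) := by
  rw [injective_iff_map_eq_zero]
  intro a ha
  apply trR_nondeg
  intro b
  have h1 := tr_h Ψ t (a * b)
  rw [map_mul, ha, zero_mul, map_zero] at h1
  exact (mul_eq_zero.1 h1.symm).resolve_left (norm_ne t _)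

lemma h_surjective (t : ℂˣ) : Function.Surjective (Ψ.h X t) := by
  have h1 : Function.Injective (Ψ.h X t).toLinearMap := h_injective Ψ t
  exact LinearMap.injective_iff_surjective.1 h1

variable {Ψ}

lemma IsHodge.one : IsHodge Ψ X 0 1 := by
  refine ⟨W.one_mem X, fun t => ?_⟩
  rw [mul_zero, pow_zero, one_smul]
  exact map_one (Ψ.h X t)

lemma IsHodge.mul {i j : ℕ} {x y : W.H X} (hx : IsHodge Ψ X i x) (hy : IsHodge Ψ X j y) :
    IsHodge Ψ X (i + j) (x * y) := by
  refine ⟨by rw [mul_add]; exact W.mul_mem hx.1 hy.1, fun t => ?_⟩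
  have h1 : (1 : ℝ) ⊗ₜ[W.K] (x * y) = (1 ⊗ₜ[W.K] x) * (1 ⊗ₜ[W.K] y) := by
    rw [Algebra.TensorProduct.tmul_mul_tmul, one_mul]
  rw [h1, map_mul, hx.2, hy.2, smul_mul_assoc, mul_smul_comm, smul_smul, ← pow_add, mul_add]

lemma IsHodge.map (f : X ⟶ Y) {j : ℕ} {y : W.H Y} (hy : IsHodge Ψ Y j y) :
    IsHodge Ψ X j (W.map f y) := by
  refine ⟨W.map_mem f hy.1, fun t => ?_⟩
  rw [← mapR_tmul, Ψ.nat, hy.2, map_smul]

lemma IsHodge.push (f : X ⟶ Y) {j : ℕ} {x : W.H X} (hx : IsHodge Ψ X j x)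
    (hd : X.dim ≤ j + Y.dim) : IsHodge Ψ Y (j + Y.dim - X.dim) (W.push f x) := by
  refine ⟨?_, fun t => ?_⟩
  · have h5 := W.push_mem f hx.1
    have h6 : ((2 * j : ℕ) : ℤ) + 2 * ((Y.dim : ℤ) - X.dim) =
        ((2 * (j + Y.dim - X.dim) : ℕ) : ℤ) := by omega
    rw [h6, grZ_natCast] at h5
    exact h5
  · rw [← pushR_tmul]
    apply trR_ext
    intro b
    obtain ⟨b', rfl⟩ := h_surjective Ψ t b
    rw [← map_mul, tr_h, tr_pushR, smul_mul_assoc, map_smul, tr_pushR, ← Ψ.nat, smul_eq_mul]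
    have h1 := tr_h Ψ t ((1 ⊗ₜ[W.K] x) * mapR W f b')
    rw [map_mul, hx.2, smul_mul_assoc, map_smul, smul_eq_mul] at h1
    have h2 : ‖(t : ℂ)‖ ^ (2 * j) ≠ 0 := norm_ne t _
    apply mul_left_cancel₀ h2
    rw [mul_left_comm (‖(t : ℂ)‖ ^ (2 * j)) (‖(t : ℂ)‖ ^ (2 * (j + Y.dim - X.dim))), h1,
      ← mul_assoc, ← mul_assoc, ← pow_add, ← pow_add]
    congr 2
    omega

lemma IsHodge.cl {j : ℕ} {z : X.Cycles} (hz : X.IsCyc j z) : IsHodge Ψ X j (W.cl X z) :=
  ⟨W.cl_mem hz, Ψ.cyc hz⟩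

lemma IsHodge.add {j : ℕ} {x y : W.H X} (hx : IsHodge Ψ X j x) (hy : IsHodge Ψ X j y) :
    IsHodge Ψ X j (x + y) :=
  ⟨Submodule.add_mem _ hx.1 hy.1, fun t => by
    rw [TensorProduct.tmul_add, map_add, hx.2, hy.2, smul_add]⟩

lemma IsHodge.zero {j : ℕ} : IsHodge Ψ X j (0 : W.H X) :=
  ⟨Submodule.zero_mem _, fun t => by rw [TensorProduct.tmul_zero, map_zero, smul_zero]⟩

lemma IsHodge.neg {j : ℕ} {x : W.H X} (hx : IsHodge Ψ X j x) : IsHodge Ψ X j (-x) :=
  ⟨Submodule.neg_mem _ hx.1, fun t => by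
    rw [TensorProduct.tmul_neg, map_neg, hx.2, smul_neg]⟩

lemma IsHodge.sub {j : ℕ} {x y : W.H X} (hx : IsHodge Ψ X j x) (hy : IsHodge Ψ X j y) :
    IsHodge Ψ X j (x - y) := by
  rw [sub_eq_add_neg]; exact hx.add hy.neg

lemma IsHodge.pow {i : ℕ} {x : W.H X} (hx : IsHodge Ψ X i x) (n : ℕ) :
    IsHodge Ψ X (i * n) (x ^ n) := by
  induction n with
  | zero => rw [pow_zero, mul_zero]; exact IsHodge.one
  | succ n ih => rw [pow_succ, mul_add, mul_one]; exact ih.mul hx

end Sys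

end Pool.Agent.Y133.Half
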