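import Pool.Agent.Y133.Half.PwDefs

/-!
# At most half: definitions
-/

open CategoryTheory AlgebraicGeometry

universe u v

namespace Pool.Agent.Y133.Half

open Pool.Agent.H914 Pool.Agent.H914.VarClass Pool.Agent.H914.VarClass.Obj
  Pool.Agent.H914.WeilCohomology

variable {k : Type u} [Field k] {𝒱 : VarClass k} {ops : CycleOps 𝒱}

/-- For every `ε > 0` we have `a n ≤ (1/2 + ε) t n` for all sufficiently large `n`. -/
def AtMostHalf (a t : ℕ → ℕ) : Prop :=
  ∀ ε : ℝ, 0 < ε → ∃ n₀ : ℕ, ∀ n ≥ n₀, (a n : ℝ) ≤ (1 / 2 + ε) * t n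

/-- The dimension of the subspace of `H(X)` spanned by the set `s`. -/
noncomputable def dimOf (W : WeilCohomology.{u, v} ops) {X : 𝒱.Obj} (s : Set (W.H X)) : ℕ :=
  Set.finrank W.K s

/-- The classes of the algebraic cycles of all codimensions on `X`. -/
def algSet (W : WeilCohomology.{u, v} ops) (X : 𝒱.Obj) : Set (W.H X) :=
  {c | ∃ j z, X.IsCyc j z ∧ W.cl X z = c}

/-- The dimension of the space spanned by the classes of the algebraic cycles of all
codimensions on `X`. -/
noncomputable def algDim (W : WeilCohomology.{u, v} ops) (X : 𝒱.Obj) : ℕ :=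
  dimOf W (algSet W X)

/-- The class `c` is orthogonal to all classes of algebraic cycles. -/
def OrthAlg (W : WeilCohomology.{u, v} ops) (X : 𝒱.Obj) (c : W.H X) : Prop :=
  ∀ j z, X.IsCyc j z → W.tr X (c * W.cl X z) = 0

/-- The numerically trivial linear combinations of classes of algebraic cycles. -/
def numTrivial (W : WeilCohomology.{u, v} ops) (X : 𝒱.Obj) : Set (W.H X) :=
  {c | c ∈ Submodule.span W.K (algSet W X) ∧ OrthAlg W X c}

/-- The dimension of the space spanned by the classes of the algebraic cycles of all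
codimensions on `X`, modulo numerical equivalence. -/
noncomputable def numDim (W : WeilCohomology.{u, v} ops) (X : 𝒱.Obj) : ℕ :=
  algDim W X - dimOf W (numTrivial W X)

end Pool.Agent.Y133.Half
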