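import Pool.Agent.Y133.Half.HalfDefs
import Pool.Agent.W534.PoleDefs
import Pool.Agent.H914R2.DDefs

/-!
# Rank of the cycles modulo numerical equivalence: definition
-/

open CategoryTheory AlgebraicGeometry

universe u v

namespace Pool.Agent.Y133.Half

open Pool.Agent.H914 Pool.Agent.H914.VarClass Pool.Agent.H914.VarClass.Obj
  Pool.Agent.H914.WeilCohomology

variable {k : Type u} [Field k] {𝒱 : VarClass k}

/-- The dimension of the space of the cycles of all codimensions on `X` with rational
coefficients modulo numerical equivalence. -/
noncomputable def cycRank (ops : CycleOps 𝒱) (X : 𝒱.Obj) : ℕ :=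
  ∑ j ∈ Finset.range (X.dim + 1), Pool.Agent.W534.numRank ops X j

end Pool.Agent.Y133.Half
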