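import Pool.Agent.H914R2.KDefs
import Pool.Agent.Y133.Half.HalfDefs
import Pool.Agent.Y133.Half.DDefs
import Pool.Agent.Y129.GDefs

/-!
# Classes generated over a system of classes: definitions
-/

open CategoryTheory AlgebraicGeometry Filter Topology

open scoped ENNReal

universe u v

namespace Pool.Agent.Y133.Half

open Pool.Agent.H914 Pool.Agent.H914.VarClass Pool.Agent.H914.VarClass.Obj
  Pool.Agent.H914.WeilCohomology

variable {k : Type u} [Field k] {𝒱 : VarClass k} {ops : CycleOps 𝒱}

/-- The quotients `t n / s n` converge to `N`, an element of `ℕ ∪ {∞}`. -/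
def HasIndex (t s : ℕ → ℕ) (N : ℕ∞) : Prop :=
  Tendsto (fun n => (t n : ℝ≥0∞) / s n) atTop (𝓝 (N : ℝ≥0∞))

/-- The images of the class `c` on a power of `X`, in the cohomology of the product of `n + 1`
copies of `X`, under the correspondences `x ↦ pr₂_* (z · pr₁^* x)` given by the classes `z` with the
property `P`. -/
noncomputable def imagesBy (W : WeilCohomology.{u, v} ops)
    (P : ∀ Z : 𝒱.Obj, ℕ → W.H Z → Prop) (X : 𝒱.Obj) (c : Σ m, W.H (pw X m)) (n : ℕ) :
    Set (W.H (pw X n)) :=
  Pool.Agent.Y129.corrImages (W.map (fst (pw X c.1) (pw X n))) (W.push (snd (pw X c.1) (pw X n)))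
    (fun j => {z | P ((pw X c.1).prod (pw X n)) j z}) c.2

/-- The space of the classes on the product of `n + 1` copies of `X` which is spanned by the classes
with the property `P` and by the images of the classes `c i` on powers of `X` under correspondences
given by classes with the property `P`. -/
noncomputable def genOver (W : WeilCohomology.{u, v} ops) (P : ∀ Z : 𝒱.Obj, ℕ → W.H Z → Prop)
    (X : 𝒱.Obj) {r : ℕ} (c : Fin r → Σ m, W.H (pw X m)) (n : ℕ) : Submodule W.K (W.H (pw X n)) :=
  Submodule.span W.K ({z | ∃ j, P (pw X n) j z} ∪ ⋃ i, imagesBy W P X (c i) n)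

/-- There are `r` classes with the property `P'` on powers of `X`, where `r + 1 ≤ N`, such that all
classes with the property `P'` on all powers of `X` are linear combinations of classes with the
property `P` and of images of these `r` classes under correspondences given by classes with the
property `P`. -/
def GeneratedOver (W : WeilCohomology.{u, v} ops) (P P' : ∀ Z : 𝒱.Obj, ℕ → W.H Z → Prop)
    (X : 𝒱.Obj) (N : ℕ∞) : Prop :=
  ∃ (r : ℕ) (c : Fin r → Σ m, W.H (pw X m)), (r : ℕ∞) + 1 ≤ N ∧
    (∀ i, ∃ j, P' (pw X (c i).1) j (c i).2) ∧ ∀ n j z, P' (pw X n) j z → z ∈ genOver W P X c n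

/-- The dimension of the space spanned by the classes with the property `P`. -/
noncomputable def dimBy (W : WeilCohomology.{u, v} ops) (P : ∀ Z : 𝒱.Obj, ℕ → W.H Z → Prop)
    (X : 𝒱.Obj) : ℕ :=
  dimOf W {c : W.H X | ∃ j, P X j c}

end Pool.Agent.Y133.Half
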