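import Pool.Agent.Y133.Half.PairLaw

/-!
# Finite generation of stable families over a nondegenerate system
-/

open CategoryTheory AlgebraicGeometry Filter Topology

open scoped ENNReal TensorProduct

universe u v

namespace Pool.Agent.Y133.Half

open Module
open Pool.Agent.H914 Pool.Agent.H914.VarClass Pool.Agent.H914.VarClass.Obj
  Pool.Agent.H914.WeilCohomology

variable {k : Type u} [Field k] {𝒱 : VarClass k} {ops : CycleOps 𝒱}
  {W : WeilCohomology.{u, v} ops} {X Y Z Z' P Q : 𝒱.Obj} {S T : Sys W}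

namespace Sys

lemma IsInd.mono {G' G : ∀ n, Submodule W.K (W.H (pw X n))} (hle : ∀ n, G' n ≤ G n)
    {N' N : ℕ∞} (h1 : S.IsInd X G' N') (h2 : S.IsInd X G N) : N' ≤ N := by
  have h3 : (N' : ℝ≥0∞) ≤ (N : ℝ≥0∞) := by
    refine le_of_tendsto_of_tendsto' h1 h2 fun n => ?_
    apply ENNReal.div_le_div_right
    exact_mod_cast Submodule.finrank_mono (hle n)
  exact_mod_cast h3

lemma IsInd.real [Nontrivial (W.H X)] {G : ∀ n, Submodule W.K (W.H (pw X n))} {n : ℕ}
    (h : S.IsInd X G (n : ℕ∞)) :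
    Tendsto (fun n => (finrank W.K (G n) : ℝ) / finrank W.K (S.C (pw X n))) atTop
      (𝓝 (n : ℝ)) := by
  have h2 := (ENNReal.tendsto_toReal (a := ((n : ℕ∞) : ℝ≥0∞)) (by simp)).comp h
  have h3 : (((n : ℕ∞) : ℝ≥0∞)).toReal = (n : ℝ) := by simp
  rw [h3] at h2
  refine h2.congr fun m => ?_
  rw [Function.comp_apply, ENNReal.toReal_div, ENNReal.toReal_natCast, ENNReal.toReal_natCast]

/-- **The gap between the indices.** -/
theorem ind_gap [Nontrivial (W.H X)] (hS : ∀ n, Nondeg S (pw X n))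
    {G' G : ∀ n, Submodule W.K (W.H (pw X n))} (hG' : S.Stab X G') (hG : S.Stab X G)
    (hle : ∀ n, G' n ≤ G n) {m : ℕ} (hne : G' m ≠ G m) {N' N : ℕ∞}
    (h1 : S.IsInd X G' N') (h2 : S.IsInd X G N) : N' + 1 ≤ N := by
  by_cases hN : N = ⊤
  · rw [hN]; exact le_top
  have hle' : N' ≤ N := h1.mono hle h2
  have hN' : N' ≠ ⊤ := fun h => hN (top_le_iff.1 (h ▸ hle'))
  obtain ⟨n', rfl⟩ := ENat.ne_top_iff_exists.1 hN'
  obtain ⟨n, rfl⟩ := ENat.ne_top_iff_exists.1 hN
  have h5 := stab_gap hS hG' hG hle hne h1.real h2.real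
  exact_mod_cast h5

/-- The family generated by finitely many classes. -/
noncomputable def genS (S : Sys W) (X : 𝒱.Obj) {r : ℕ} (c : Fin r → Σ n, W.H (pw X n)) (n : ℕ) :
    Submodule W.K (W.H (pw X n)) :=
  S.C (pw X n) ⊔ ⨆ i, (S.Op (pw X (c i).1) (pw X n)).map (LinearMap.applyₗ (c i).2)

lemma genS_stab {r : ℕ} (c : Fin r → Σ n, W.H (pw X n)) : S.Stab X (S.genS X c) := by
  intro a b f hf x hx
  have h1 : S.genS X c a ≤ (S.genS X c b).comap f := by
    apply sup_le
    · intro y hy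
      exact Submodule.mem_sup_left (Op.apply (fun _ => le_rfl) hf hy)
    · apply iSup_le
      rintro i _ ⟨g, hg, rfl⟩
      apply Submodule.mem_sup_right
      exact Submodule.mem_iSup_of_mem i ⟨f ∘ₗ g, Op.comp hf hg, rfl⟩
  exact h1 hx

lemma genS_le {G : ∀ n, Submodule W.K (W.H (pw X n))} (hG : S.Stab X G)
    (hA : ∀ n, S.C (pw X n) ≤ G n) {r : ℕ} {c : Fin r → Σ n, W.H (pw X n)}
    (hc : ∀ i, (c i).2 ∈ G (c i).1) (n : ℕ) : S.genS X c n ≤ G n := by
  apply sup_le (hA n)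
  apply iSup_le
  rintro i _ ⟨g, hg, rfl⟩
  exact hG _ _ g hg _ (hc i)

lemma mem_genS {r : ℕ} (c : Fin r → Σ n, W.H (pw X n)) (i : Fin r) :
    (c i).2 ∈ S.genS X c (c i).1 := by
  apply Submodule.mem_sup_right
  exact Submodule.mem_iSup_of_mem i ⟨LinearMap.id, Op.id, rfl⟩

/-- **Finite generation**: a stable family with a finite index `N` is generated by the classes of
the nondegenerate system and at most `N - 1` members, which can be chosen in given spanning sets. -/
theorem ind_generators [Nontrivial (W.H X)] (hS : ∀ n, Nondeg S (pw X n))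
    {G : ∀ n, Submodule W.K (W.H (pw X n))} (hG : S.Stab X G)
    (hA : ∀ n, S.C (pw X n) ≤ G n) {N : ℕ∞} (hN : S.IsInd X G N) (hN' : N ≠ ⊤)
    (P : ∀ n, Set (W.H (pw X n))) (hP : ∀ n, G n = Submodule.span W.K (P n)) :
    ∃ (r : ℕ) (c : Fin r → Σ n, W.H (pw X n)), ((r : ℕ∞) + 1 ≤ N) ∧
      (∀ i, (c i).2 ∈ P (c i).1) ∧ ∀ n, G n = S.genS X c n := by
  have hind : ∀ G' : ∀ n, Submodule W.K (W.H (pw X n)), S.Stab X G' →
      (∀ n, S.C (pw X n) ≤ G' n) → ∃ N' : ℕ∞, 1 ≤ N' ∧ S.IsInd X G' N' := by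
    intro G' hG' hA'
    obtain ⟨N', h1, h2, -, -⟩ := stab_index hS hG' hA'
    exact ⟨N', h1, h2⟩
  have hAgen : ∀ {r : ℕ} (c : Fin r → Σ n, W.H (pw X n)) (n : ℕ),
      S.C (pw X n) ≤ S.genS X c n := fun c n => le_sup_left
  have hcG : ∀ {r : ℕ} {c : Fin r → Σ n, W.H (pw X n)}, (∀ i, (c i).2 ∈ P (c i).1) →
      ∀ i, (c i).2 ∈ G (c i).1 := by
    intro r c hc i
    rw [hP]
    exact Submodule.subset_span (hc i)
  have hmono : ∀ {r : ℕ} {c : Fin r → Σ n, W.H (pw X n)}, (∀ i, (c i).2 ∈ P (c i).1) →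
      ∀ {N' : ℕ∞}, S.IsInd X (S.genS X c) N' → N' ≤ N := by
    intro r c hc N' h1
    exact h1.mono (genS_le hG hA (hcG hc)) hN
  by_contra hcon
  push Not at hcon
  -- longer and longer chains
  have key : ∀ r : ℕ, ∃ c : Fin r → Σ n, W.H (pw X n), (∀ i, (c i).2 ∈ P (c i).1) ∧
      ∃ N' : ℕ∞, S.IsInd X (S.genS X c) N' ∧ (r : ℕ∞) + 1 ≤ N' := by
    intro r
    induction r with
    | zero =>
      refine ⟨Fin.elim0, fun i => i.elim0, ?_⟩
      obtain ⟨N', h1, h2⟩ := hind _ (genS_stab (S := S) (X := X) Fin.elim0) (hAgen _)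
      refine ⟨N', h2, ?_⟩
      rw [Nat.cast_zero, zero_add]
      exact h1
    | succ r ih =>
      obtain ⟨c, hc, N', h1, h2⟩ := ih
      obtain ⟨n, hn⟩ := hcon r c (h2.trans (hmono hc h1)) hc
      -- a new class
      obtain ⟨x, hx, hx'⟩ : ∃ x ∈ P n, x ∉ S.genS X c n := by
        by_contra hcon2
        push Not at hcon2
        apply hn
        apply le_antisymm _ (genS_le hG hA (hcG hc) n)
        rw [hP n, Submodule.span_le]
        exact hcon2
      let c' : Fin (r + 1) → Σ n, W.H (pw X n) := Fin.snoc (α := fun _ => Σ n, W.H (pw X n)) c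
        ⟨n, x⟩
      have e1 : ∀ i : Fin r, c' i.castSucc = c i := fun i => Fin.snoc_castSucc _ _ _
      have e2 : c' (Fin.last r) = ⟨n, x⟩ := Fin.snoc_last _ _
      have hc' : ∀ i, (c' i).2 ∈ P (c' i).1 := by
        intro i
        refine Fin.lastCases ?_ (fun i => ?_) i
        · rw [e2]; exact hx
        · rw [e1]; exact hc i
      obtain ⟨N'', h3, h4⟩ := hind _ (genS_stab c') (hAgen c')
      refine ⟨c', hc', N'', h4, ?_⟩
      have hle : ∀ l, S.genS X c l ≤ S.genS X c' l := by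
        intro l
        apply genS_le (genS_stab c') (hAgen c')
        intro i
        rw [← e1]
        exact mem_genS c' i.castSucc
      have h5 : N' + 1 ≤ N'' := by
        refine ind_gap hS (genS_stab c) (genS_stab c') hle (m := n) ?_ h1 h4
        intro h6
        apply hx'
        rw [h6]
        have h7 := mem_genS (S := S) c' (Fin.last r)
        rw [e2] at h7
        exact h7
      push_cast
      exact (add_le_add_left h2 1).trans h5
  obtain ⟨n, rfl⟩ := ENat.ne_top_iff_exists.1 hN'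
  obtain ⟨c, hc, N', h1, h2⟩ := key n
  have h3 := h2.trans (hmono hc h1)
  have h4 : n + 1 ≤ n := by exact_mod_cast h3
  omega

end Sys

end Pool.Agent.Y133.Half
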