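import Pool.Agent.Y133.Half.HRPred
import Pool.Agent.Y133.Half.PairGen
import Pool.Agent.Y133.Half.PairDefs

/-!
# The index law for two classes of cohomology classes
-/

open CategoryTheory AlgebraicGeometry Filter Topology

open scoped ENNReal

universe u v

namespace Pool.Agent.Y133.Half

open Module
open Pool.Agent.H914 Pool.Agent.H914.VarClass Pool.Agent.H914.VarClass.Obj
  Pool.Agent.H914.WeilCohomology Pool.Agent.W458.MF Pool.Agent.W536.RR Pool.Agent.H281R3.HT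

variable {k : Type u} [Field k] {𝒱 : VarClass k} {ops : CycleOps 𝒱}
  {W : WeilCohomology.{u, v} ops} {X Y Z : 𝒱.Obj}

namespace ClassPred

variable {Q R : ClassPred W}

lemma dimBy_eq (Q : ClassPred W) (Z : 𝒱.Obj) : dimBy W Q.P Z = finrank W.K (Q.sys.C Z) := rfl

lemma sys_le (hQR : ∀ {Z : 𝒱.Obj} {j : ℕ} {c : W.H Z}, Q.P Z j c → R.P Z j c) (Z : 𝒱.Obj) :
    Q.sys.C Z ≤ R.sys.C Z := by
  intro c hc
  refine sp_ind (Q := Q) (q := fun c => c ∈ R.sp Z) ?_ ?_ ?_ hc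
  · intro j x hx; exact sp_of (hQR hx)
  · exact Submodule.zero_mem _
  · intro a b ha hb; exact Submodule.add_mem _ ha hb

lemma of_sp {j : ℕ} {c : W.H Z} (hc : c ∈ Q.sp Z) (hj : c ∈ W.gr Z (2 * j)) : Q.P Z j c := by
  have h := sp_proj hc j
  rwa [proj_same _ hj] at h

lemma sys_eq_iff (hQR : ∀ {Z : 𝒱.Obj} {j : ℕ} {c : W.H Z}, Q.P Z j c → R.P Z j c) (Z : 𝒱.Obj) :
    R.sys.C Z = Q.sys.C Z ↔ ∀ j c, R.P Z j c → Q.P Z j c := by
  constructor
  · intro h j c hc
    have h1 : c ∈ R.sys.C Z := sp_of hc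
    rw [h] at h1
    exact of_sp h1 (R.gr hc)
  · intro h
    apply le_antisymm _ (sys_le hQR Z)
    intro c hc
    refine sp_ind (Q := R) (q := fun c => c ∈ Q.sp Z) ?_ ?_ ?_ hc
    · intro j x hx; exact sp_of (h j x hx)
    · exact Submodule.zero_mem _
    · intro a b ha hb; exact Submodule.add_mem _ ha hb

lemma genS_le_genOver (Q : ClassPred W) {r : ℕ} (c : Fin r → Σ m, W.H (pw X m)) (n : ℕ) :
    Q.sys.genS X c n ≤ genOver W Q.P X c n := by
  apply sup_le
  · intro z hz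
    refine sp_ind (Q := Q) (q := fun z => z ∈ genOver W Q.P X c n) ?_ ?_ ?_ hz
    · intro j x hx
      exact Submodule.subset_span (Or.inl ⟨j, hx⟩)
    · exact Submodule.zero_mem _
    · intro a b ha hb; exact Submodule.add_mem _ ha hb
  · apply iSup_le
    intro i
    rintro _ ⟨g, hg, rfl⟩
    obtain ⟨z, hz, rfl⟩ := Sys.mem_Op.1 hg
    change W.corr z (c i).2 ∈ _
    refine sp_ind (Q := Q) (q := fun z => W.corr z (c i).2 ∈ genOver W Q.P X c n) ?_ ?_ ?_ hz
    · intro j x hx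
      apply Submodule.subset_span
      refine Or.inr (Set.mem_iUnion.2 ⟨i, ?_⟩)
      exact ⟨j, x, hx, rfl⟩
    · rw [corr_zero, LinearMap.zero_apply]
      exact Submodule.zero_mem _
    · intro a b ha hb
      rw [corr_add, LinearMap.add_apply]
      exact Submodule.add_mem _ ha hb

end ClassPred

lemma atMostHalf_of_index {t r : ℕ → ℕ} {N : ℕ∞} (h1 : 1 ≤ N) (hN : N ≠ 1)
    (h : HasIndex t r N) : AtMostHalf r t := by
  intro ε hε
  have h2 : (2 : ℝ≥0∞) ≤ N := by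
    have h3 : (2 : ℕ∞) ≤ N := by
      have h4 : (1 : ℕ∞) < N := lt_of_le_of_ne h1 (Ne.symm hN)
      exact Order.add_one_le_of_lt h4
    exact_mod_cast h3
  set δ : ℝ := min ε 1 with hδ
  have hδ0 : 0 < δ := lt_min hε one_pos
  have hδ1 : δ ≤ 1 := min_le_right _ _
  have hδ2 : δ ≤ ε := min_le_left _ _
  have h3 : ENNReal.ofReal (2 - δ) < (N : ℝ≥0∞) := by
    refine lt_of_lt_of_le ?_ h2
    have h4 : (2 : ℝ≥0∞) = ENNReal.ofReal 2 := by simp
    rw [h4]
    exact (ENNReal.ofReal_lt_ofReal_iff (by norm_num)).2 (by linarith)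
  have h4 := h.eventually (lt_mem_nhds h3)
  obtain ⟨n₀, hn₀⟩ := eventually_atTop.1 h4
  refine ⟨n₀, fun n hn => ?_⟩
  have h5 := hn₀ n hn
  rcases Nat.eq_zero_or_pos (r n) with h6 | h6
  · rw [h6, Nat.cast_zero]
    positivity
  · have h7 : ENNReal.ofReal (2 - δ) * (r n : ℝ≥0∞) ≤ t n := by
      rw [← ENNReal.le_div_iff_mul_le (Or.inl (by exact_mod_cast h6.ne'))
        (Or.inl (ENNReal.natCast_ne_top _))]
      exact h5.le
    have h8 : (2 - δ) * (r n : ℝ) ≤ t n := by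
      have h9 : ENNReal.ofReal ((2 - δ) * (r n : ℝ)) ≤ ENNReal.ofReal (t n : ℝ) := by
        rw [ENNReal.ofReal_mul (by linarith), ENNReal.ofReal_natCast, ENNReal.ofReal_natCast]
        exact h7
      exact (ENNReal.ofReal_le_ofReal_iff (Nat.cast_nonneg _)).1 h9
    have h10 : (0 : ℝ) ≤ r n := Nat.cast_nonneg _
    have h11 : (1 : ℝ) ≤ (1 / 2 + ε) * (2 - δ) := by nlinarith
    calc (r n : ℝ) = 1 * r n := (one_mul _).symm
      _ ≤ ((1 / 2 + ε) * (2 - δ)) * r n := mul_le_mul_of_nonneg_right h11 h10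
      _ = (1 / 2 + ε) * ((2 - δ) * r n) := by ring
      _ ≤ _ := mul_le_mul_of_nonneg_left h8 (by positivity)

/-- **The tower law**: the indices of two classes of cohomology classes, one contained in the other,
the smaller one being nondegenerate. -/
theorem ClassPred.tower (Q R : ClassPred W)
    (hQR : ∀ {Z : 𝒱.Obj} {j : ℕ} {c : W.H Z}, Q.P Z j c → R.P Z j c) (X : 𝒱.Obj)
    [Nontrivial (W.H X)] (hQ : ∀ n, Q.sys.Nondeg (pw X n)) :
    ∃ N M : ℕ∞, 1 ≤ N ∧ 1 ≤ M ∧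
      HasIndex (fun n => dimBy W R.P (pw X n)) (fun n => dimBy W Q.P (pw X n)) N ∧
      HasIndex (fun n => dimBy W Q.P (pw X n)) (fun n => cycRank ops (pw X n)) M ∧
      HasIndex (fun n => dimBy W R.P (pw X n)) (fun n => cycRank ops (pw X n)) (N * M) ∧
      (N = 1 ↔ ∀ n j c, R.P (pw X n) j c → Q.P (pw X n) j c) ∧
      (M = 1 ↔ ∀ n j c, Q.P (pw X n) j c → c ∈ spanCycles W (pw X n) j) ∧
      (N ≠ 1 → AtMostHalf (fun n => dimBy W Q.P (pw X n)) (fun n => dimBy W R.P (pw X n))) ∧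
      (M ≠ 1 → AtMostHalf (fun n => algDim W (pw X n)) (fun n => dimBy W Q.P (pw X n))) ∧
      (N ≠ ⊤ → GeneratedOver W Q.P R.P X N) ∧
      (M ≠ ⊤ → ∀ n, HomEqNum W (pw X n)) := by
  have hst := Sys.stab_of_le (S := Q.sys) (T := R.sys) (ClassPred.sys_le hQR) (X := X)
  obtain ⟨N, h1, h2, -, h4⟩ := Sys.stab_index hQ hst fun n => ClassPred.sys_le hQR _
  obtain ⟨M, k1, k2, -, k4, k5⟩ := Q.sys.index (fun _ => ClassPred.alg_le) X
  have k4' : M = 1 ↔ ∀ n j c, Q.P (pw X n) j c → c ∈ spanCycles W (pw X n) j := by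
    rw [k4]
    constructor
    · intro h n j c hc
      exact (sp_eq_iff (Q := Q) _).1 (h n).1 j c hc
    · intro h n
      have e1 := (ClassPred.sp_eq_iff (Q := Q) (pw X n)).2 (h n)
      refine ⟨e1, ?_⟩
      rw [homEqNum_iff, eq_bot_iff]
      rintro c ⟨hc1, hc2⟩
      rw [Submodule.mem_bot]
      refine hQ n c (ClassPred.alg_le hc1) fun y hy => hc2 y ?_
      rw [e1] at hy
      exact hy
  have hNI : HasIndex (fun n => dimBy W R.P (pw X n)) (fun n => dimBy W Q.P (pw X n)) N := h2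
  refine ⟨N, M, h1, k1, hNI, k2, ?_, ?_, k4', fun hN => atMostHalf_of_index h1 hN hNI, ?_, ?_, k5⟩
  · -- the product
    have hpos : ∀ n, 0 < finrank W.K (Q.sys.C (pw X n)) := Q.sys.finrank_pos_pw
    have hmul := ENNReal.Tendsto.mul h2 (Or.inl (by
      have : (1 : ℝ≥0∞) ≤ N := by exact_mod_cast h1
      exact (lt_of_lt_of_le one_pos this).ne')) k2 (Or.inl (by
      have : (1 : ℝ≥0∞) ≤ M := by exact_mod_cast k1
      exact (lt_of_lt_of_le one_pos this).ne'))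
    unfold HasIndex
    rw [ENat.toENNReal_mul]
    refine hmul.congr fun n => ?_
    have e0 : ((finrank W.K (Q.sys.C (pw X n)) : ℕ) : ℝ≥0∞) ≠ 0 := by
      exact_mod_cast (hpos n).ne'
    have e1 : ((finrank W.K (Q.sys.C (pw X n)) : ℕ) : ℝ≥0∞) ≠ ⊤ := ENNReal.natCast_ne_top _
    change _ / _ * (_ / _) = ((finrank W.K (R.sys.C (pw X n)) : ℕ) : ℝ≥0∞) / _
    rw [div_eq_mul_inv, div_eq_mul_inv, div_eq_mul_inv, mul_assoc,
      ← mul_assoc (((finrank W.K (Q.sys.C (pw X n)) : ℕ) : ℝ≥0∞)⁻¹),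
      ENNReal.inv_mul_cancel e0 e1, one_mul]
  · rw [h4]
    exact forall_congr' fun n => ClassPred.sys_eq_iff hQR _
  · intro hM
    rcases (algSys W).half Q.sys (fun _ => ClassPred.alg_le) X hQ with h | h
    · exfalso
      apply hM
      rw [k4']
      intro n
      exact (ClassPred.sp_eq_iff (Q := Q) (pw X n)).1 (h n).symm
    · intro ε hε
      obtain ⟨n₀, hn₀⟩ := h ε hε
      refine ⟨n₀, fun n hn => ?_⟩
      change (algDim W (pw X n) : ℝ) ≤ (1 / 2 + ε) * (dimBy W Q.P (pw X n) : ℝ)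
      rw [algDim_eq]
      exact hn₀ n hn
  · intro hN
    obtain ⟨r, c, hr, hc, hG⟩ := Sys.ind_generators hQ hst (fun n => ClassPred.sys_le hQR _) h2 hN
      (fun n => {c | ∃ j, R.P (pw X n) j c}) fun n => rfl
    refine ⟨r, c, hr, hc, fun n j z hz => ?_⟩
    apply ClassPred.genS_le_genOver
    rw [← hG n]
    exact ClassPred.sp_of hz

end Pool.Agent.Y133.Half
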