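import Pool.Agent.Y133.Half.SS

/-!
# The dimension of a module over a semisimple algebra and its commutant
-/

set_option linter.unusedSectionVars false

namespace Pool.Agent.Y133.Half

open Module

variable (K C M : Type*) [Field K] [AddCommGroup M] [Module K M] [FiniteDimensional K M]
  [Ring C] [Algebra K C] [FiniteDimensional K C] [Module C M] [IsScalarTower K C M]

section

/-- The algebra of endomorphisms of `C × M`. -/
abbrev RR : Type _ := Module.End C (C × M)

noncomputable instance algRR : Algebra K (RR C M) := Module.End.instAlgebra K C (C × M)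

/-- The underlying linear map. -/
def resL : RR C M →ₗ[K] Module.End K (C × M) where
  toFun x := x.restrictScalars K
  map_add' _ _ := rfl
  map_smul' _ _ := rfl

lemma resL_injective : Function.Injective (resL K C M) := by
  intro x y h
  apply LinearMap.ext
  intro z
  exact congrArg (fun f : Module.End K (C × M) => f z) h

instance finRR : FiniteDimensional K (RR C M) :=
  FiniteDimensional.of_injective (resL K C M) (resL_injective K C M)

/-- The projector to `C`. -/
def eC : RR C M := LinearMap.inl C C M ∘ₗ LinearMap.fst C C M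

/-- The projector to `M`. -/
def eM : RR C M := LinearMap.inr C C M ∘ₗ LinearMap.snd C C M

lemma eC_idem : eC C M * eC C M = eC C M := by
  apply LinearMap.ext; intro z; rfl

lemma eM_idem : eM C M * eM C M = eM C M := by
  apply LinearMap.ext; intro z; rfl

/-- The endomorphism `(c, m') ↦ (0, c m)`. -/
def toR : M →ₗ[K] RR C M where
  toFun m := LinearMap.inr C C M ∘ₗ (LinearMap.toSpanSingleton C M m) ∘ₗ LinearMap.fst C C M
  map_add' m m' := by
    apply LinearMap.ext
    intro z
    simp [LinearMap.toSpanSingleton_apply]
  map_smul' r m := by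
    apply LinearMap.ext
    intro z
    simp only [LinearMap.comp_apply, LinearMap.toSpanSingleton_apply, LinearMap.fst_apply,
      LinearMap.inr_apply, RingHom.id_apply, LinearMap.smul_apply, Prod.smul_mk, smul_zero]
    rw [smul_comm]

lemma finrank_le_dm : finrank K M ≤ dm K (eM C M) (eC C M) := by
  have h1 : ∀ m, toR K C M m ∈ LinearMap.range (pc (K := K) (eM C M) (eC C M)) := by
    intro m
    exact ⟨toR K C M m, by apply LinearMap.ext; intro z; rfl⟩
  let f : M →ₗ[K] LinearMap.range (pc (K := K) (eM C M) (eC C M)) := (toR K C M).codRestrict _ h1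
  refine LinearMap.finrank_le_finrank_of_injective (f := f) ?_
  intro m m' h
  have h2 : toR K C M m = toR K C M m' := congrArg Subtype.val h
  have h3 := congrArg (fun x : RR C M => (x (1, 0)).2) h2
  simpa [toR, LinearMap.toSpanSingleton_apply] using h3

lemma dm_le_C : dm K (eC C M) (eC C M) ≤ finrank K C := by
  let f : LinearMap.range (pc (K := K) (eC C M) (eC C M)) →ₗ[K] C :=
    { toFun := fun x => ((x : RR C M) (1, 0)).1
      map_add' := fun x y => rfl
      map_smul' := fun r x => rfl }
  refine LinearMap.finrank_le_finrank_of_injective (f := f) ?_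
  rintro ⟨x, y, rfl⟩ ⟨x', y', rfl⟩ h
  apply Subtype.ext
  apply LinearMap.ext
  intro z
  have h1 : (y (1, 0)).1 = (y' (1, 0)).1 := h
  change ((y (z.1, 0)).1, (0 : M)) = ((y' (z.1, 0)).1, (0 : M))
  have h2 : ∀ y : RR C M, y (z.1, 0) = z.1 • y (1, 0) := by
    intro y
    rw [← map_smul]
    simp
  rw [h2, h2, Prod.smul_fst, Prod.smul_fst, h1]

lemma dm_le_D (D : Submodule K (Module.End K M))
    (hD : ∀ u : Module.End K M, (∀ (c : C) (m : M), u (c • m) = c • u m) → u ∈ D) :
    dm K (eM C M) (eM C M) ≤ finrank K D := by
  let g : RR C M →ₗ[K] Module.End K M :=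
    { toFun := fun x => (LinearMap.snd C C M ∘ₗ x ∘ₗ LinearMap.inr C C M).restrictScalars K
      map_add' := fun x y => by apply LinearMap.ext; intro z; rfl
      map_smul' := fun r x => by apply LinearMap.ext; intro z; rfl }
  have hg : ∀ x, g x ∈ D := by
    intro x
    apply hD
    intro c z
    exact (LinearMap.snd C C M ∘ₗ x ∘ₗ LinearMap.inr C C M).map_smul c z
  let f : LinearMap.range (pc (K := K) (eM C M) (eM C M)) →ₗ[K] D :=
    (g.codRestrict D hg) ∘ₗ (LinearMap.range (pc (K := K) (eM C M) (eM C M))).subtype
  refine LinearMap.finrank_le_finrank_of_injective (f := f) ?_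
  rintro ⟨x, y, rfl⟩ ⟨x', y', rfl⟩ h
  apply Subtype.ext
  apply LinearMap.ext
  intro z
  have h1 := congrArg (fun u : D => (u : Module.End K M) z.2) h
  have h2 : (y (0, z.2)).2 = (y' (0, z.2)).2 := h1
  change ((0 : C), (y (0, z.2)).2) = ((0 : C), (y' (0, z.2)).2)
  rw [h2]

variable [IsAlgClosed K] [CharZero K]

/-- The square of the dimension of a module over a semisimple algebra is at most the product of the
dimensions of the algebra and of its commutant. -/
theorem sq_le_mul_commutant [IsSemisimpleRing C] (D : Submodule K (Module.End K M))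
    (hD : ∀ u : Module.End K M, (∀ (c : C) (m : M), u (c • m) = c • u m) → u ∈ D) :
    finrank K M ^ 2 ≤ finrank K C * finrank K D := by
  have hfin : Module.Finite C M := Module.Finite.of_restrictScalars_finite K C M
  have hss : IsSemisimpleRing (RR C M) := IsSemisimpleRing.moduleEnd C (C × M)
  have h1 := dm_sq_le (K := K) (eM_idem C M) (eC_idem C M)
  calc finrank K M ^ 2 ≤ dm K (eM C M) (eC C M) ^ 2 := Nat.pow_le_pow_left (finrank_le_dm K C M) 2
    _ ≤ dm K (eM C M) (eM C M) * dm K (eC C M) (eC C M) := h1
    _ ≤ finrank K D * finrank K C := Nat.mul_le_mul (dm_le_D K C M D hD) (dm_le_C K C M)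
    _ = _ := mul_comm _ _

end

end Pool.Agent.Y133.Half
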