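import Pool.Agent.Y133.Half.BC
import Pool.Agent.Y133.Half.Words
import Pool.Agent.Y133.Half.Cent

/-!
# The dimension of the span of the permutation operators
-/

set_option linter.unusedSectionVars false

namespace Pool.Agent.Y133.Half

open Module
open scoped TensorProduct

section closed

variable {K M ι : Type*} [Field K] [AddCommGroup M] [Module K M] [FiniteDimensional K M]
  [Fintype ι] [DecidableEq ι] {N : ℕ}

/-- The algebra spanned by a representation. -/
noncomputable def repAlg (ρ : Equiv.Perm (Fin N) →* Module.End K M) :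
    Subalgebra K (Module.End K M) :=
  (MonoidAlgebra.lift K _ _ ρ).range

instance repAlg_ss [CharZero K] (ρ : Equiv.Perm (Fin N) →* Module.End K M) :
    IsSemisimpleRing (repAlg ρ) := by
  have hne : NeZero ((Nat.card (Equiv.Perm (Fin N)) : K)) :=
    ⟨Nat.cast_ne_zero.2 Nat.card_pos.ne'⟩
  have h1 : IsSemisimpleRing (MonoidAlgebra K (Equiv.Perm (Fin N))) := by
    unfold IsSemisimpleRing
    infer_instance
  let f : MonoidAlgebra K (Equiv.Perm (Fin N)) →+* repAlg ρ :=
    ((MonoidAlgebra.lift K _ _ ρ).rangeRestrict).toRingHom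
  have hf : Function.Surjective f := AlgHom.rangeRestrict_surjective _
  exact RingHom.isSemisimpleRing_of_surjective f hf

lemma rep_mem (ρ : Equiv.Perm (Fin N) →* Module.End K M) (σ : Equiv.Perm (Fin N)) :
    ρ σ ∈ repAlg ρ :=
  ⟨MonoidAlgebra.single σ 1, by
    change MonoidAlgebra.lift K _ _ ρ (MonoidAlgebra.single σ 1) = _
    rw [MonoidAlgebra.lift_single, one_smul]⟩

lemma repAlg_le (ρ : Equiv.Perm (Fin N) →* Module.End K M) :
    Subalgebra.toSubmodule (repAlg ρ) ≤ Submodule.span K (Set.range ρ) := by
  rintro _ ⟨x, rfl⟩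
  change MonoidAlgebra.lift K _ _ ρ x ∈ _
  rw [MonoidAlgebra.lift_apply, Finsupp.sum]
  exact Submodule.sum_mem _ fun σ _ => Submodule.smul_mem _ _ (Submodule.subset_span ⟨σ, rfl⟩)

theorem span_perm_closed [IsAlgClosed K] [CharZero K] (e : Basis (Fin N → ι) K M)
    (ρ : Equiv.Perm (Fin N) →* Module.End K M)
    (hP : ∀ σ w, ∃ s : K, s ≠ 0 ∧ ρ σ (e (w ∘ σ)) = s • e w) :
    finrank K M ^ 2 ≤ finrank K (Submodule.span K (Set.range ρ)) *
      (N + 1) ^ (Fintype.card ι ^ 2) := by
  let D : Submodule K (Module.End K M) :=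
    { carrier := {u | ∀ σ m, u (ρ σ m) = ρ σ (u m)}
      zero_mem' := fun σ m => by rw [LinearMap.zero_apply, LinearMap.zero_apply, map_zero]
      add_mem' := fun {a b} ha hb σ m => by
        rw [LinearMap.add_apply, LinearMap.add_apply, ha σ m, hb σ m, map_add]
      smul_mem' := fun c a ha σ m => by
        rw [LinearMap.smul_apply, LinearMap.smul_apply, ha σ m, map_smul] }
  have h1 := commutant_le e (fun σ => ρ σ) hP D fun u hu σ m => hu σ m
  have h2 := sq_le_mul_commutant K (repAlg ρ) M D fun u hu σ m => hu ⟨_, rep_mem ρ σ⟩ m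
  have h3 : finrank K (repAlg ρ) ≤ finrank K (Submodule.span K (Set.range ρ)) :=
    Submodule.finrank_mono (repAlg_le ρ)
  exact h2.trans (Nat.mul_le_mul h3 h1)

end closed

section general

variable {K M ι : Type*} [Field K] [AddCommGroup M] [Module K M] [FiniteDimensional K M]
  [Fintype ι] [DecidableEq ι] {N : ℕ}

lemma finrank_span_bc (L : Type*) [Field L] [Algebra K L] (S : Set (Module.End K M)) :
    finrank L (Submodule.span L ((fun u : Module.End K M => u.baseChange L) '' S)) ≤
      finrank K (Submodule.span K S) := by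
  obtain ⟨v, -, hv⟩ := exists_fam (V := Module.End K M) (Submodule.span K S)
  have h1 : Submodule.span L ((fun u : Module.End K M => u.baseChange L) '' S) ≤
      Submodule.span L (Set.range fun i => (v i).baseChange L) := by
    rw [Submodule.span_le]
    rintro _ ⟨u, hu, rfl⟩
    have h0 : u ∈ Submodule.span K (Set.range v) := by rw [hv]; exact Submodule.subset_span hu
    obtain ⟨c, hc⟩ := (Submodule.mem_span_range_iff_exists_fun K).1 h0
    have h2 : u.baseChange L = ∑ i, algebraMap K L (c i) • (v i).baseChange L := by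
      apply TensorProduct.AlgebraTensorModule.curry_injective
      apply LinearMap.ext_ring
      apply LinearMap.ext
      intro m
      change u.baseChange L ((1 : L) ⊗ₜ[K] m) =
        (∑ i, algebraMap K L (c i) • (v i).baseChange L) ((1 : L) ⊗ₜ[K] m)
      rw [LinearMap.sum_apply, LinearMap.baseChange_tmul, ← hc, LinearMap.sum_apply,
        TensorProduct.tmul_sum]
      refine Finset.sum_congr rfl fun i _ => ?_
      rw [LinearMap.smul_apply, LinearMap.smul_apply, LinearMap.baseChange_tmul,
        TensorProduct.tmul_smul, algebraMap_smul]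
    change u.baseChange L ∈ _
    rw [h2]
    exact Submodule.sum_mem _ fun i _ => Submodule.smul_mem _ _ (Submodule.subset_span ⟨i, rfl⟩)
  refine (Submodule.finrank_mono h1).trans ?_
  refine (finrank_range_le_card _).trans ?_
  rw [Fintype.card_fin]

/-- **The dimension of the span of the permutation operators.** -/
theorem span_perm [CharZero K] (e : Basis (Fin N → ι) K M)
    (ρ : Equiv.Perm (Fin N) →* Module.End K M)
    (hP : ∀ σ w, ∃ s : K, s ≠ 0 ∧ ρ σ (e (w ∘ σ)) = s • e w) :
    finrank K M ^ 2 ≤ finrank K (Submodule.span K (Set.range ρ)) *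
      (N + 1) ^ (Fintype.card ι ^ 2) := by
  have hc : CharZero (AlgebraicClosure K) :=
    charZero_of_injective_algebraMap (algebraMap K (AlgebraicClosure K)).injective
  let ρ' : Equiv.Perm (Fin N) →* Module.End (AlgebraicClosure K) (AlgebraicClosure K ⊗[K] M) :=
    { toFun := fun σ => (ρ σ).baseChange (AlgebraicClosure K)
      map_one' := by rw [map_one, LinearMap.baseChange_one]
      map_mul' := fun σ τ => by rw [map_mul, LinearMap.baseChange_mul] }
  have h := span_perm_closed (e.baseChange (AlgebraicClosure K)) ρ' (by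
    intro σ w
    obtain ⟨s, hs, h⟩ := hP σ w
    refine ⟨algebraMap K _ s, (map_ne_zero _).2 hs, ?_⟩
    rw [Basis.baseChange_apply, Basis.baseChange_apply]
    change (ρ σ).baseChange (AlgebraicClosure K) _ = _
    rw [LinearMap.baseChange_tmul, h, TensorProduct.tmul_smul, algebraMap_smul])
  have h1 := finrank_span_bc (AlgebraicClosure K) (Set.range ρ)
  have h2 : (fun u : Module.End K M => u.baseChange (AlgebraicClosure K)) '' Set.range ρ =
      Set.range ρ' := by
    rw [← Set.range_comp]; rfl
  rw [h2] at h1
  rw [Module.finrank_baseChange] at h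
  exact h.trans (Nat.mul_le_mul_right _ h1)

end general

end Pool.Agent.Y133.Half
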