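import Pool.Agent.Y133.Half.Blk

/-!
# Extension of the field of coefficients
-/

set_option linter.unusedSectionVars false

namespace Pool.Agent.Y133.Half

open Module
open scoped TensorProduct

section Rk

variable {K L A B A' B' : Type*} [Field K] [Field L] [Algebra K L]
  [AddCommGroup A] [Module K A] [AddCommGroup B] [Module K B]
  [AddCommGroup A'] [Module L A'] [AddCommGroup B'] [Module L B']
  [FiniteDimensional K A] [FiniteDimensional K B]

/-- Dual vectors of linearly independent linear forms. -/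
lemma exists_dual_vectors {r : ℕ} {v : Fin r → Dual K B} (hv : LinearIndependent K v) :
    ∃ y : Fin r → B, ∀ i j, v i (y j) = if i = j then 1 else 0 := by
  have hs : Function.Surjective (LinearMap.pi v) := by
    rw [← LinearMap.dualMap_injective_iff, ← LinearMap.ker_eq_bot, LinearMap.ker_eq_bot']
    intro φ hφ
    have h1 : ∑ i, φ (Pi.single i 1) • v i = 0 := by
      apply LinearMap.ext
      intro b
      have h2 := congrArg (fun f : Dual K B => f b) hφ
      simp only [LinearMap.dualMap_apply, LinearMap.zero_apply] at h2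
      refine Eq.trans ?_ h2
      have h3 : LinearMap.pi v b = ∑ i, v i b • (Pi.single i (1 : K) : Fin r → K) := by
        funext j
        simp [Finset.sum_apply, Pi.single_apply]
      rw [h3, map_sum, LinearMap.sum_apply]
      refine Finset.sum_congr rfl fun i _ => ?_
      rw [map_smul, LinearMap.smul_apply, smul_eq_mul, smul_eq_mul, mul_comm]
    have h4 := Fintype.linearIndependent_iff.1 hv _ h1
    apply LinearMap.pi_ext'
    intro i
    apply LinearMap.ext_ring
    simpa using h4 i
  choose y hy using fun j : Fin r => hs (Pi.single j 1)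
  refine ⟨y, fun i j => ?_⟩
  have := congrFun (hy j) i
  rw [LinearMap.pi_apply] at this
  rw [this, Pi.single_apply]

lemma exists_fam {V : Type*} [AddCommGroup V] [Module K V] [FiniteDimensional K V]
    (R : Submodule K V) : ∃ v : Fin (finrank K R) → V,
    LinearIndependent K v ∧ Submodule.span K (Set.range v) = R := by
  let w : Basis (Fin (finrank K R)) K R := Module.finBasis K R
  refine ⟨R.subtype ∘ w, w.linearIndependent.map' R.subtype R.ker_subtype, ?_⟩
  rw [Set.range_comp, Submodule.span_image, w.span_eq, Submodule.map_top, Submodule.range_subtype]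

/-- The rank of a bilinear form does not change under extensions of the field. -/
lemma rk_bc {β : A →ₗ[K] B →ₗ[K] K} {β' : A' →ₗ[L] B' →ₗ[L] L} (a : A → A') (b : B → B')
    (ha : Submodule.span L (Set.range a) = ⊤) (hb : Submodule.span L (Set.range b) = ⊤)
    (h : ∀ x y, β' (a x) (b y) = algebraMap K L (β x y)) : rk β' = rk β := by
  classical
  obtain ⟨v, hv, hspan⟩ := exists_fam (V := Dual K B) (LinearMap.range β)
  have hvr : ∀ i, ∃ x, β x = v i := fun i => by
    have : v i ∈ LinearMap.range β := by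
      rw [← hspan]; exact Submodule.subset_span ⟨i, rfl⟩
    exact this
  choose x hx using hvr
  let v' : Fin (finrank K (LinearMap.range β)) → Dual L B' := fun i => β' (a (x i))
  have hval : ∀ z, ∃ c : Fin (finrank K (LinearMap.range β)) → K,
      β' (a z) = ∑ i, algebraMap K L (c i) • v' i := by
    intro z
    have h0 : β z ∈ Submodule.span K (Set.range v) := by rw [hspan]; exact ⟨z, rfl⟩
    obtain ⟨c, hc⟩ := (Submodule.mem_span_range_iff_exists_fun K).1 h0
    refine ⟨c, ?_⟩
    apply LinearMap.ext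
    intro y
    have hy : y ∈ Submodule.span L (Set.range b) := by rw [hb]; trivial
    induction hy using Submodule.span_induction with
    | mem y hy =>
      obtain ⟨t, rfl⟩ := hy
      rw [h, ← hc, LinearMap.sum_apply, LinearMap.sum_apply, map_sum]
      refine Finset.sum_congr rfl fun i _ => ?_
      rw [LinearMap.smul_apply, LinearMap.smul_apply, smul_eq_mul, smul_eq_mul, map_mul, h, hx]
    | zero => rw [map_zero, map_zero]
    | add y y' _ _ hy hy' => rw [map_add, map_add, hy, hy']
    | smul c y _ hy => rw [map_smul, map_smul, hy]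
  have h1 : LinearMap.range β' = Submodule.span L (Set.range v') := by
    apply le_antisymm
    · rintro _ ⟨u, rfl⟩
      have hu : u ∈ Submodule.span L (Set.range a) := by rw [ha]; trivial
      induction hu using Submodule.span_induction with
      | mem u hu =>
        obtain ⟨z, rfl⟩ := hu
        obtain ⟨c, hc⟩ := hval z
        rw [hc]
        exact Submodule.sum_mem _ fun i _ => Submodule.smul_mem _ _
          (Submodule.subset_span ⟨i, rfl⟩)
      | zero => rw [map_zero]; exact Submodule.zero_mem _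
      | add u u' _ _ hu hu' => rw [map_add]; exact Submodule.add_mem _ hu hu'
      | smul c u _ hu => rw [map_smul]; exact Submodule.smul_mem _ _ hu
    · rw [Submodule.span_le]
      rintro _ ⟨i, rfl⟩
      exact ⟨_, rfl⟩
  have h2 : LinearIndependent L v' := by
    obtain ⟨y, hy⟩ := exists_dual_vectors hv
    rw [Fintype.linearIndependent_iff]
    intro c hc j
    have h3 : (∑ i, c i • v' i) (b (y j)) = 0 := by rw [hc]; rfl
    have h4 : ∀ i, v' i (b (y j)) = if i = j then 1 else 0 := by
      intro i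
      change β' (a (x i)) (b (y j)) = _
      rw [h, hx, hy]
      split_ifs <;> simp
    rw [LinearMap.sum_apply] at h3
    simp only [LinearMap.smul_apply, smul_eq_mul, h4, mul_ite, mul_one, mul_zero,
      Finset.sum_ite_eq', Finset.mem_univ, if_true] at h3
    exact h3
  rw [rk, h1, finrank_span_eq_card h2, Fintype.card_fin]
  rfl

end Rk


/-- The extended spaces. -/
abbrev VL {ι : Type*} (K L : Type*) [Field K] [Field L] [Algebra K L] (V : ι → Type*)
    [∀ i, AddCommGroup (V i)] [∀ i, Module K (V i)] (i : ι) : Type _ := L ⊗[K] V i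

namespace Cat

variable {ι K : Type*} [Fintype ι] [DecidableEq ι] [Field K] {V : ι → Type*}
  [∀ i, AddCommGroup (V i)] [∀ i, Module K (V i)] [∀ i, FiniteDimensional K (V i)]
  (L : Type*) [Field L] [Algebra K L]

/-- The spaces of the extended operators. -/
noncomputable def bcS (C : Cat K V) (i j : ι) : Submodule L ((VL K L V j) →ₗ[L] (VL K L V i)) :=
  Submodule.span L {u | ∃ a ∈ C.S i j, u = a.baseChange L}

lemma bcS_ind {C : Cat K V} {i j : ι} {q : ((VL K L V j) →ₗ[L] (VL K L V i)) → Prop}
    (h : ∀ a ∈ C.S i j, q (a.baseChange L)) (h0 : q 0) (hadd : ∀ x y, q x → q y → q (x + y))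
    (hs : ∀ (c : L) x, q x → q (c • x)) {u : (VL K L V j) →ₗ[L] (VL K L V i)}
    (hu : u ∈ C.bcS L i j) : q u := by
  unfold bcS at hu
  induction hu using Submodule.span_induction with
  | mem u hu => obtain ⟨a, ha, rfl⟩ := hu; exact h a ha
  | zero => exact h0
  | add x y _ _ hx hy => exact hadd x y hx hy
  | smul c x _ hx => exact hs c x hx

/-- The extension of the field of coefficients. -/
noncomputable def bc (C : Cat K V) : Cat L (VL K L V) where
  p i := (C.p i).baseChange L
  p_sq i := by rw [← LinearMap.baseChange_comp, C.p_sq, LinearMap.baseChange_id]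
  S i j := C.bcS L i j
  one i := Submodule.subset_span ⟨_, C.one i, LinearMap.baseChange_id.symm⟩
  mul := by
    intro i j k a b ha hb
    refine bcS_ind L (q := fun a => a ∘ₗ b ∈ C.bcS L i k) ?_ ?_ ?_ ?_ ha
    · intro a ha
      refine bcS_ind L (q := fun b => a.baseChange L ∘ₗ b ∈ C.bcS L i k) ?_ ?_ ?_ ?_ hb
      · intro b hb
        rw [← LinearMap.baseChange_comp]
        exact Submodule.subset_span ⟨_, C.mul ha hb, rfl⟩
      · rw [LinearMap.comp_zero]; exact Submodule.zero_mem _
      · intro b b' hb hb'; rw [LinearMap.comp_add]; exact Submodule.add_mem _ hb hb'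
      · intro c b hb; rw [LinearMap.comp_smul]; exact Submodule.smul_mem _ _ hb
    · rw [LinearMap.zero_comp]; exact Submodule.zero_mem _
    · intro a a' ha ha'; rw [LinearMap.add_comp]; exact Submodule.add_mem _ ha ha'
    · intro c a ha; rw [LinearMap.smul_comp]; exact Submodule.smul_mem _ _ ha
  comm := by
    intro i j a ha
    refine bcS_ind L (q := fun a => (C.p i).baseChange L ∘ₗ a = a ∘ₗ (C.p j).baseChange L)
      ?_ ?_ ?_ ?_ ha
    · intro a ha
      rw [← LinearMap.baseChange_comp, ← LinearMap.baseChange_comp, C.comm ha]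
    · rw [LinearMap.comp_zero, LinearMap.zero_comp]
    · intro a a' ha ha'; rw [LinearMap.comp_add, LinearMap.add_comp, ha, ha']
    · intro c a ha; rw [LinearMap.comp_smul, LinearMap.smul_comp, ha]

/-- The extension of an operator. -/
noncomputable def ex (C : Cat K V) (i j : ι) (x : C.S i j) : (C.bc L).S i j :=
  ⟨(x : V j →ₗ[K] V i).baseChange L, Submodule.subset_span ⟨_, x.2, rfl⟩⟩

lemma ex_span (C : Cat K V) (i j : ι) :
    Submodule.span L (Set.range (C.ex L i j)) = ⊤ := by
  rw [eq_top_iff]
  rintro ⟨u, hu⟩ _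
  have key : ∃ u' : (C.bc L).S i j, (u' : (VL K L V j) →ₗ[L] (VL K L V i)) = u ∧
      u' ∈ Submodule.span L (Set.range (C.ex L i j)) := by
    refine bcS_ind L (q := fun u => ∃ u' : (C.bc L).S i j,
      (u' : (VL K L V j) →ₗ[L] (VL K L V i)) = u ∧
      u' ∈ Submodule.span L (Set.range (C.ex L i j))) ?_ ?_ ?_ ?_ hu
    · intro a ha
      exact ⟨_, rfl, Submodule.subset_span ⟨⟨a, ha⟩, rfl⟩⟩
    · exact ⟨0, rfl, Submodule.zero_mem _⟩
    · rintro u v ⟨u', hu1, hu2⟩ ⟨v', hv1, hv2⟩
      exact ⟨u' + v', by rw [Submodule.coe_add, hu1, hv1], Submodule.add_mem _ hu2 hv2⟩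
    · rintro c u ⟨u', hu1, hu2⟩
      exact ⟨c • u', by rw [Submodule.coe_smul, hu1], Submodule.smul_mem _ _ hu2⟩
  obtain ⟨u', hu1, hu2⟩ := key
  have : u' = ⟨u, hu⟩ := Subtype.ext hu1
  rwa [this] at hu2

end Cat

namespace Cat

section gen
variable {ι K L : Type*} [Fintype ι] [DecidableEq ι] [Field K] {V : ι → Type*}
  [∀ i, AddCommGroup (V i)] [∀ i, Module K (V i)] [∀ i, FiniteDimensional K (V i)]
  [Field L] [Algebra K L] {V' : ι → Type*}
  [∀ i, AddCommGroup (V' i)] [∀ i, Module L (V' i)] [∀ i, FiniteDimensional L (V' i)]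

/-- The rank of the form. -/
noncomputable def rkB (C : Cat K V) (i j : ι) (g : V i →ₗ[K] V i) (g' : V j →ₗ[K] V j) : ℕ :=
  rk (C.B i j g g')

lemma rkB_eq (C : Cat K V) (C' : Cat L V') (i j : ι) {g : V i →ₗ[K] V i} {g' : V j →ₗ[K] V j}
    {h : V' i →ₗ[L] V' i} {h' : V' j →ₗ[L] V' j} (e : ∀ i j, C.S i j → C'.S i j)
    (he : ∀ i j, Submodule.span L (Set.range (e i j)) = ⊤)
    (hB : ∀ x y, C'.B i j h h' (e i j x) (e j i y) = algebraMap K L (C.B i j g g' x y)) :
    C'.rkB i j h h' = C.rkB i j g g' :=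
  rk_bc (e i j) (e j i) (he i j) (he j i) hB

/-- The Cauchy-Schwarz inequality. -/
theorem rkB_sq_le [IsAlgClosed K] [CharZero K] (C : Cat K V) {i j : ι} {g : V i →ₗ[K] V i}
    (hg : g ∈ C.S i i) (hgg : g ∘ₗ g = g)
    {g' : V j →ₗ[K] V j} (hg' : g' ∈ C.S j j) (hgg' : g' ∘ₗ g' = g') :
    C.rkB i j g g' ^ 2 ≤ C.rkB i i g g * C.rkB j j g' g' := C.rk_B_sq_le hg hgg hg' hgg'

end gen

variable {ι K : Type*} [Fintype ι] [DecidableEq ι] [Field K] {V : ι → Type*}
  [∀ i, AddCommGroup (V i)] [∀ i, Module K (V i)] [∀ i, FiniteDimensional K (V i)]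
  (L : Type*) [Field L] [Algebra K L]

lemma rkB_bc (C : Cat K V) (i j : ι) (g : V i →ₗ[K] V i) (g' : V j →ₗ[K] V j) :
    (C.bc L).rkB i j (g.baseChange L) (g'.baseChange L) = C.rkB i j g g' := by
  refine rkB_eq C (C.bc L) i j (C.ex L) (C.ex_span L) fun x y => ?_
  rw [B_apply, B_apply]
  change LinearMap.trace L (L ⊗[K] V i) ((C.p i).baseChange L ∘ₗ g.baseChange L ∘ₗ
    (x : V j →ₗ[K] V i).baseChange L ∘ₗ g'.baseChange L ∘ₗ
      (y : V i →ₗ[K] V j).baseChange L) = _
  rw [← LinearMap.baseChange_comp, ← LinearMap.baseChange_comp, ← LinearMap.baseChange_comp,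
    ← LinearMap.baseChange_comp, LinearMap.trace_baseChange]

/-- **The Cauchy-Schwarz inequality** over any field of characteristic zero. -/
theorem rk_B_sq_le' [CharZero K] (C : Cat K V) {i j : ι} {g : V i →ₗ[K] V i} (hg : g ∈ C.S i i)
    (hgg : g ∘ₗ g = g) {g' : V j →ₗ[K] V j} (hg' : g' ∈ C.S j j) (hgg' : g' ∘ₗ g' = g') :
    rk (C.B i j g g') ^ 2 ≤ rk (C.B i i g g) * rk (C.B j j g' g') := by
  have hc : CharZero (AlgebraicClosure K) :=
    charZero_of_injective_algebraMap (algebraMap K (AlgebraicClosure K)).injective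
  have h := (C.bc (AlgebraicClosure K)).rkB_sq_le (i := i) (j := j)
    (g := g.baseChange (AlgebraicClosure K))
    (Submodule.subset_span ⟨g, hg, rfl⟩) (by rw [← LinearMap.baseChange_comp, hgg])
    (g' := g'.baseChange (AlgebraicClosure K)) (Submodule.subset_span ⟨g', hg', rfl⟩)
    (by rw [← LinearMap.baseChange_comp, hgg'])
  rw [rkB_bc, rkB_bc, rkB_bc] at h
  exact h
end Cat
end Pool.Agent.Y133.Half
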