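import Pool.Agent.Y133.Half.DLaw
import Pool.Agent.Y129.Idx

/-!
# The index of a system of classes
-/

open CategoryTheory AlgebraicGeometry Filter Topology

open scoped ENNReal

universe u v

namespace Pool.Agent.Y133.Half

open Module
open Pool.Agent.H914 Pool.Agent.H914.VarClass Pool.Agent.H914.VarClass.Obj
  Pool.Agent.H914.WeilCohomology Pool.Agent.H281R3.HT

variable {k : Type u} [Field k] {𝒱 : VarClass k} {ops : CycleOps 𝒱}
  {W : WeilCohomology.{u, v} ops} {X Z Z' : 𝒱.Obj}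

/-- The two definitions of the powers. -/
noncomputable def pwIso129 (X : 𝒱.Obj) : ∀ n, Pool.Agent.Y129.pw X n ≅ pw X n
  | 0 => Iso.refl _
  | n + 1 => prodCongr (Iso.refl X) (pwIso129 X n) ≪≫ prodComm X (pw X n)

lemma KOp_apply {T : Sys W} (hT : ∀ Z, algSpan W Z ≤ T.C Z) {d : ℤ}
    {f : W.H Z →ₗ[W.K] W.H Z'} (hf : f ∈ KOp W Z Z' d) {a : W.H Z} (ha : a ∈ T.C Z) :
    f a ∈ T.C Z' := by
  induction hf using Submodule.span_induction with
  | mem f hf =>
    obtain ⟨p, _, z, hz, rfl⟩ := hf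
    rw [corr_apply]
    exact T.push _ (T.mul (hT _ (Submodule.subset_span
      (Set.mem_iUnion.2 ⟨p, z, hz, rfl⟩))) (T.map _ ha))
  | zero => exact Submodule.zero_mem _
  | add x y _ _ hx hy => exact Submodule.add_mem _ hx hy
  | smul r x _ hx => exact Submodule.smul_mem _ _ hx

lemma stable_of_sys {T : Sys W} (hT : ∀ Z, algSpan W Z ≤ T.C Z) (X : 𝒱.Obj) :
    Pool.Agent.Y129.StableSystem W X fun n => T.C (Pool.Agent.Y129.pw X n) := by
  intro m n f hf a ha
  refine Submodule.iSup_induction (fun d : ℤ => KOp W _ _ d)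
    (motive := fun f => f a ∈ T.C (Pool.Agent.Y129.pw X n)) hf ?_ ?_ ?_
  · intro d f hf
    exact KOp_apply hT hf ha
  · exact Submodule.zero_mem _
  · intro f g hf hg
    exact Submodule.add_mem _ hf hg

lemma homEqNum_iff (Z : 𝒱.Obj) : HomEqNum W Z ↔ (algSys W).Num Z = ⊥ := by
  constructor
  · intro h
    rw [eq_bot_iff]
    intro c hc
    obtain ⟨h1, h2⟩ := mem_algNum.1 hc
    exact Pool.Agent.Y129.homEqNum_algSpan h h1 h2
  · intro h
    apply Pool.Agent.Y129.homEqNum_of_algSpan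
    intro c hc hc'
    have h1 : c ∈ (algSys W).Num Z := mem_algNum.2 ⟨hc, hc'⟩
    rw [h, Submodule.mem_bot] at h1
    exact h1

lemma homEqNum_iff' (Z : 𝒱.Obj) : HomEqNum W Z ↔ cycRank ops Z = finrank W.K (algSpan W Z) := by
  rw [homEqNum_iff, ← Submodule.finrank_eq_zero, ← numDim_eq_cycRank W Z]
  have h1 := (algSys W).a_add_num Z
  have h2 : (algSys W).C Z = algSpan W Z := rfl
  rw [h2] at h1
  omega

lemma cycRank_iso (W : WeilCohomology.{u, v} ops) (θ : Z' ≅ Z) :
    cycRank ops Z' = cycRank ops Z := by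
  rw [← numDim_eq_cycRank W, ← numDim_eq_cycRank W]
  exact (algSys W).a_iso θ

lemma homEqNum_iso (θ : Z' ≅ Z) : HomEqNum W Z' ↔ HomEqNum W Z := by
  rw [homEqNum_iff', homEqNum_iff', cycRank_iso W θ]
  have h2 : finrank W.K (algSpan W Z') = finrank W.K (algSpan W Z) :=
    (algSys W).finrank_C_iso θ
  rw [h2]

lemma eq_alg_iff {T : Sys W} (hT : ∀ Z, algSpan W Z ≤ T.C Z) (Z : 𝒱.Obj) :
    T.C Z = algSpan W Z ↔ finrank W.K (T.C Z) = finrank W.K (algSpan W Z) := by
  constructor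
  · intro h; rw [h]
  · intro h
    exact (Submodule.eq_of_le_of_finrank_le (hT Z) h.le).symm

/-- If homological and numerical equivalence differ on some power of `X`, the ratio of the dimension
of any family of spaces containing the algebraic classes and of the rank of the cycles modulo
numerical equivalence tends to infinity. -/
lemma tendsto_top_of_not [Nontrivial (W.H X)] (hX : ¬ ∀ n, HomEqNum W (pw X n)) {t : ℕ → ℕ}
    (ht : ∀ n, finrank W.K (algSpan W (pw X n)) ≤ t n) :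
    Tendsto (fun n => (t n : ℝ≥0∞) / cycRank ops (pw X n)) atTop (𝓝 ⊤) := by
  have h1 : ∀ N : ℕ, ∃ n₀ : ℕ, ∀ n ≥ n₀, N * cycRank ops (pw X n) ≤ t n := by
    rcases (algSys W).num_or (algSys W) (fun _ => le_rfl) X with h | h
    · exact absurd (fun n => (homEqNum_iff (pw X n)).2 (h n)) hX
    · intro N
      obtain ⟨n₀, hn₀⟩ := h N
      refine ⟨n₀, fun n hn => le_trans ?_ (ht n)⟩
      have h2 := hn₀ n hn
      rw [numDim_eq_cycRank] at h2
      exact h2
  rw [ENNReal.tendsto_nhds_top_iff_nat]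
  intro N
  obtain ⟨n₀, hn₀⟩ := h1 (N + 1)
  filter_upwards [eventually_ge_atTop n₀] with n hn
  have h2 := hn₀ n hn
  have htn : 0 < t n := by
    refine lt_of_lt_of_le ?_ (ht n)
    have h3 : Nontrivial (W.H (pw X n)) := by
      apply Module.nontrivial_of_finrank_pos (R := W.K)
      rw [finrank_pw]
      exact pow_pos Module.finrank_pos _
    rw [Module.finrank_pos_iff]
    exact ⟨⟨⟨1, (algSys W).one (pw X n)⟩, 0, fun h => one_ne_zero (congrArg Subtype.val h)⟩⟩
  rcases Nat.eq_zero_or_pos (cycRank ops (pw X n)) with h3 | h3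
  · rw [h3, Nat.cast_zero, ENNReal.div_zero (by exact_mod_cast htn.ne')]
    exact ENNReal.natCast_lt_top N
  · have h4 : ((N + 1 : ℕ) : ℝ≥0∞) ≤ (t n : ℝ≥0∞) / cycRank ops (pw X n) := by
      rw [ENNReal.le_div_iff_mul_le (Or.inl (by exact_mod_cast h3.ne'))
        (Or.inl (ENNReal.natCast_ne_top _))]
      exact_mod_cast h2
    exact lt_of_lt_of_le (by exact_mod_cast Nat.lt_succ_self N) h4

/-- **The index of a system of classes** which contains the algebraic classes: the ratio of the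
dimension of the space of classes of the system on `X^n` and of the rank of the cycles modulo
numerical equivalence converges to an integer `N ≥ 1` or to infinity. -/
theorem Sys.index (T : Sys W) (hT : ∀ Z, algSpan W Z ≤ T.C Z) (X : 𝒱.Obj)
    [Nontrivial (W.H X)] : ∃ N : ℕ∞, 1 ≤ N ∧
      Tendsto (fun n => (finrank W.K (T.C (pw X n)) : ℝ≥0∞) / cycRank ops (pw X n)) atTop
        (𝓝 (N : ℝ≥0∞)) ∧
      (∀ n, (finrank W.K (T.C (pw X (2 * n + 1))) : ℝ≥0∞) / cycRank ops (pw X (2 * n + 1)) ≤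
        (N : ℝ≥0∞)) ∧
      (N = 1 ↔ ∀ n, T.C (pw X n) = algSpan W (pw X n) ∧ HomEqNum W (pw X n)) ∧
      (N ≠ ⊤ → ∀ n, HomEqNum W (pw X n)) := by
  obtain ⟨N, h1, h2, h3, h4⟩ := Pool.Agent.Y129.exists_index (stable_of_sys hT X)
    (fun n => hT (Pool.Agent.Y129.pw X n))
  have e1 : ∀ n, finrank W.K (T.C (Pool.Agent.Y129.pw X n)) = finrank W.K (T.C (pw X n)) :=
    fun n => T.finrank_C_iso (pwIso129 X n)
  have e2 : ∀ n, Pool.Agent.Y129.numRank W (Pool.Agent.Y129.pw X n) = cycRank ops (pw X n) := by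
    intro n
    rw [Pool.Agent.Y129.numRank_eq_sum, ← cycRank_iso W (pwIso129 X n), cycRank]
  simp only [e1, e2] at h2 h3
  refine ⟨N, h1, h2, h3, h4.trans (forall_congr' fun n => and_congr ?_ ?_), ?_⟩
  · rw [eq_alg_iff hT, eq_alg_iff hT, e1 n]
    have h5 : finrank W.K (algSpan W (Pool.Agent.Y129.pw X n)) =
        finrank W.K (algSpan W (pw X n)) := (algSys W).finrank_C_iso (pwIso129 X n)
    rw [h5]
  · exact homEqNum_iso (pwIso129 X n)
  · intro hN
    by_contra h5
    apply hN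
    have h6 := tendsto_nhds_unique h2
      (tendsto_top_of_not h5 fun n => Submodule.finrank_mono (hT (pw X n)))
    exact ENat.toENNReal_eq_top.1 h6

/-- **The index of a stable system of classes.** -/
theorem stable_index [Nontrivial (W.H X)]
    {G : ∀ n, Submodule W.K (W.H (Pool.Agent.Y129.pw X n))}
    (hG : Pool.Agent.Y129.StableSystem W X G)
    (hA : ∀ n, algSpan W (Pool.Agent.Y129.pw X n) ≤ G n) : ∃ N : ℕ∞, 1 ≤ N ∧
      Tendsto (fun n => (finrank W.K (G n) : ℝ≥0∞) / cycRank ops (Pool.Agent.Y129.pw X n)) atTop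
        (𝓝 (N : ℝ≥0∞)) ∧
      (∀ n, (finrank W.K (G (2 * n + 1)) : ℝ≥0∞) /
        cycRank ops (Pool.Agent.Y129.pw X (2 * n + 1)) ≤ (N : ℝ≥0∞)) ∧
      (N = 1 ↔ ∀ n, G n = algSpan W (Pool.Agent.Y129.pw X n) ∧
        HomEqNum W (Pool.Agent.Y129.pw X n)) ∧
      (N ≠ ⊤ → ∀ n, HomEqNum W (Pool.Agent.Y129.pw X n)) := by
  obtain ⟨N, h1, h2, h3, h4⟩ := Pool.Agent.Y129.exists_index hG hA
  simp only [Pool.Agent.Y129.numRank_eq_sum] at h2 h3
  refine ⟨N, h1, h2, h3, h4, ?_⟩
  intro hN n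
  by_contra h5
  apply hN
  have h5' : ¬ ∀ n, HomEqNum W (pw X n) := fun h =>
    h5 ((homEqNum_iso (pwIso129 X n)).2 (h n))
  have h6 := tendsto_top_of_not (t := fun n => finrank W.K (G n)) h5' fun n => by
    have h7 := Submodule.finrank_mono (hA n)
    have h8 : finrank W.K (algSpan W (Pool.Agent.Y129.pw X n)) =
        finrank W.K (algSpan W (pw X n)) := (algSys W).finrank_C_iso (pwIso129 X n)
    rw [← h8]
    exact h7
  have h7 : ∀ n, cycRank ops (pw X n) = ∑ j ∈ Finset.range ((Pool.Agent.Y129.pw X n).dim + 1),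
      Pool.Agent.W534.numRank ops (Pool.Agent.Y129.pw X n) j := fun n =>
    (cycRank_iso W (pwIso129 X n)).symm
  simp only [h7] at h6
  exact ENat.toENNReal_eq_top.1 (tendsto_nhds_unique h2 h6)

end Pool.Agent.Y133.Half
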