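import Pool.Agent.H914R2.StdDefs

/-!
# Powers of a variety: definition
-/

open CategoryTheory AlgebraicGeometry

universe u v

namespace Pool.Agent.Y133.Half

open Pool.Agent.H914 Pool.Agent.H914.VarClass Pool.Agent.H914.VarClass.Obj

variable {k : Type u} [Field k] {𝒱 : VarClass k}

/-- `pw X n` is the product of `n + 1` copies of `X`. -/
noncomputable def pw (X : 𝒱.Obj) : ℕ → 𝒱.Obj
  | 0 => X
  | n + 1 => (pw X n).prod X

end Pool.Agent.Y133.Half
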