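import Pool.Agent.H914R2.KDefs
import Pool.Agent.Y133.Half.DDefs
import Pool.Agent.Y133.Half.HalfDefs
import Pool.Agent.Y129.GDefs

/-!
# Tate classes over a finite field for two cohomology theories: definitions

In the intended use `k` is a finite field with `q` elements, the varieties are the smooth projective
geometrically irreducible ones over `k`, `W` is the crystalline cohomology with coefficients in the
field of fractions of the ring of Witt vectors, and `V` is the `l`-adic cohomology.
-/

open CategoryTheory AlgebraicGeometry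

universe u v

namespace Pool.Agent.Y133.Crys

open Pool.Agent.H914

section Alg

variable {K A : Type*} [Field K] [Ring A] [Algebra K A]

/-- The element `x` of degree `2 j` satisfies `F x = q ^ j x`. -/
def IsEigen (gr : ℕ → Submodule K A) (F : A →ₐ[K] A) (q j : ℕ) (x : A) : Prop :=
  x ∈ gr (2 * j) ∧ F x = (q ^ j : K) • x

/-- The multiplicity of the eigenvalue `q ^ j` of `F` on the elements of degree `2 j`. -/
noncomputable def mult [Module.Finite K A] (gr : ℕ → Submodule K A) (F : A →ₐ[K] A) (q j : ℕ) : ℕ :=
  (Pool.Agent.W534.charpolyOn F.toLinearMap (gr (2 * j))).rootMultiplicity ((q : K) ^ j)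

/-- The endomorphism is semisimple. -/
def IsSemisimple (F : A →ₐ[K] A) : Prop := Module.End.IsSemisimple (M := A) F.toLinearMap

end Alg

open Pool.Agent.H914.VarClass Pool.Agent.H914.VarClass.Obj Pool.Agent.H914.WeilCohomology
open Pool.Agent.Y133.Half (dimOf cycRank)

variable {k : Type u} [Field k] {𝒱 : VarClass k} {ops : CycleOps 𝒱}

/-- Endomorphisms of all varieties which commute with all morphisms (the Frobenius endomorphisms
relative to the finite base field). -/
structure Frobenii (𝒱 : VarClass k) where
  /-- the endomorphism of `X` -/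
  Fr : ∀ X : 𝒱.Obj, X ⟶ X
  nat : ∀ {X Y : 𝒱.Obj} (f : X ⟶ Y), Fr X ≫ f = f ≫ Fr Y

/-- The action of the Frobenius endomorphism on the cohomology. -/
noncomputable def frob (φ : Frobenii 𝒱) (W : WeilCohomology.{u, v} ops) (X : 𝒱.Obj) :
    W.H X →ₐ[W.K] W.H X := W.map (φ.Fr X)

/-- The base field has `q` elements: the Frobenius endomorphisms multiply the classes of cycles of
codimension `j` by `q ^ j` and the trace by `q ^ dim X`. -/
structure Acts (φ : Frobenii 𝒱) (q : ℕ) (W : WeilCohomology.{u, v} ops) : Prop where
  pos : 0 < q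
  cyc : ∀ {X : 𝒱.Obj} {j : ℕ} {z : X.Cycles}, X.IsCyc j z → IsEigen (W.gr X) (frob φ W X) q j
    (W.cl X z)
  tr : ∀ (X : 𝒱.Obj) (a : W.H X), W.tr X (frob φ W X a) = (q ^ X.dim : W.K) * W.tr X a

/-- The characteristic polynomials of the Frobenius endomorphisms in the two cohomologies are the
images of the same polynomials with integral coefficients. -/
def SamePolynomials (φ : Frobenii 𝒱) (W V : WeilCohomology.{u, v} ops) : Prop :=
  ∀ (X : 𝒱.Obj) (i : ℕ), ∃ P : Polynomial ℤ,
    Pool.Agent.W534.charpolyOn (frob φ W X).toLinearMap (W.gr X i) = P.map (Int.castRingHom W.K) ∧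
    Pool.Agent.W534.charpolyOn (frob φ V X).toLinearMap (V.gr X i) = P.map (Int.castRingHom V.K)

/-- The Tate classes of degree `2 j`: the classes `c` of degree `2 j` such that the Frobenius
endomorphism maps `c` to `q ^ j c`. -/
def TateClass (φ : Frobenii 𝒱) (q : ℕ) (W : WeilCohomology.{u, v} ops) (X : 𝒱.Obj) (j : ℕ)
    (c : W.H X) : Prop :=
  IsEigen (W.gr X) (frob φ W X) q j c

/-- The Tate conjecture for `X` in codimension `j`, for the cohomology `W`. -/
def Tate (φ : Frobenii 𝒱) (q : ℕ) (W : WeilCohomology.{u, v} ops) (X : 𝒱.Obj) (j : ℕ) : Prop :=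
  ∀ c, TateClass φ q W X j c → c ∈ spanCycles W X j

/-- The dimension of the space of the Tate classes of all degrees. -/
noncomputable def tateDim (φ : Frobenii 𝒱) (q : ℕ) (W : WeilCohomology.{u, v} ops) (X : 𝒱.Obj) :
    ℕ :=
  dimOf W {c | ∃ j, TateClass φ q W X j c}

/-- The sum over `j` of the multiplicities of the eigenvalue `q ^ j` of the Frobenius endomorphism
on the cohomology of degree `2 j` (the sum of the orders of the poles of the zeta function of `X` at
all integers). -/
noncomputable def poleOrder (φ : Frobenii 𝒱) (q : ℕ) (W : WeilCohomology.{u, v} ops) (X : 𝒱.Obj) :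
    ℕ :=
  ∑ j ∈ Finset.range (X.dim + 1), mult (W.gr X) (frob φ W X) q j

end Pool.Agent.Y133.Crys
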