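import Pool.Agent.Y133.Half.Index
import Pool.Agent.Y129.Pair

/-!
# The formal properties of the powers of a variety for a nondegenerate system of classes
-/

open CategoryTheory AlgebraicGeometry Filter Topology

universe u v

namespace Pool.Agent.Y133.Half

open Module
open Pool.Agent.H914 Pool.Agent.H914.VarClass Pool.Agent.H914.VarClass.Obj
  Pool.Agent.H914.WeilCohomology
open Pool.Agent.Y129 (IsCat perp nd sand IsPowers IsStable sand_one)

variable {k : Type u} [Field k] {𝒱 : VarClass k} {ops : CycleOps 𝒱}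
  {W : WeilCohomology.{u, v} ops} {X Y Z Z' P Q : 𝒱.Obj} {S T : Sys W}

namespace Sys

lemma Op.pow {f : Module.End W.K (W.H P)} (hf : f ∈ S.Op P P) (r : ℕ) : f ^ r ∈ S.Op P P := by
  induction r with
  | zero => exact Op.id
  | succ r ih => rw [pow_succ]; exact Op.comp ih hf

/-- An operator of a nondegenerate system which is orthogonal to all operators is zero. -/
lemma eq_zero_of_trace (hS : Nondeg S (P.prod Q)) {u : W.H P →ₗ[W.K] W.H Q} (hu : u ∈ S.Op P Q)
    (h : ∀ g ∈ S.Op Q P, LinearMap.trace W.K (W.H P) (g ∘ₗ u) = 0) : u = 0 := by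
  obtain ⟨c, hc, rfl⟩ := mem_Op.1 hu
  have h0 : c = 0 := by
    refine hS c hc fun d hd => ?_
    set g := W.corr (W.map (swap Q P) d) with hg
    have hgS : g ∈ S.Op Q P := Op.corr (S.map _ hd)
    set f : Module.End W.K (W.H P) := g ∘ₗ W.corr c with hf
    have hfS : f ∈ S.Op P P := Op.comp hgS hu
    have h1 : IsNilpotent f := by
      apply isNilpotent_of_trace_pow
      intro r
      rw [pow_succ]
      have e3 : f ^ r * f = ((f ^ r : Module.End W.K (W.H P)) ∘ₗ g) ∘ₗ W.corr c := rfl
      rw [e3]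
      exact h _ (Op.comp (Op.pow hfS r) hgS)
    have h2 : Commute (par (W.isInternal P)) f := (Op.ev hfS).par_comm
    have h3 := Pool.Agent.Y129.trace_nil (h2.isNilpotent_mul_left h1)
    have h4 : par (W.isInternal P) * f = par (W.isInternal P) ∘ₗ g ∘ₗ W.corr c := rfl
    rw [h4, hg, trace_corr_corr, ← map_mul, tr_swap] at h3
    rw [PH.even_comm (S.even hc)]
    exact h3
  rw [h0, corr_zero]

lemma nondeg_iff : Nondeg S Z ↔ S.a Z = finrank W.K (S.C Z) := by
  have h1 := S.a_add_num Z
  constructor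
  · intro h
    have h2 : S.Num Z = ⊥ := by
      rw [eq_bot_iff]
      rintro c ⟨hc, hc'⟩
      exact h c hc hc'
    rw [h2, finrank_bot] at h1
    omega
  · intro h c hc hc'
    have h2 : finrank W.K (S.Num Z) = 0 := by omega
    have h3 : c ∈ S.Num Z := ⟨hc, hc'⟩
    rw [Submodule.finrank_eq_zero.1 h2, Submodule.mem_bot] at h3
    exact h3

lemma Nondeg.iso (h : Nondeg S Z) (θ : Z' ≅ Z) : Nondeg S Z' := by
  rw [nondeg_iff] at h ⊢
  rw [S.a_iso θ, S.finrank_C_iso θ, h]

lemma nondeg_pw (hS : ∀ n, Nondeg S (pw X n)) (m n : ℕ) :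
    Nondeg S ((pw X m).prod (pw X n)) := (hS _).iso (pwAdd X m n)

/-- The rank of the form of an operator of a nondegenerate system. -/
lemma rk_F_eq (hS : Nondeg S Z) {u : Module.End W.K (W.H Z)} (hu : u ∈ S.Op Z Z) :
    rk (S.F Z u) = finrank W.K ((S.C Z).map u) := by
  have h1 := LinearMap.finrank_range_add_finrank_ker (S.F Z u)
  have h2 := LinearMap.finrank_range_add_finrank_ker (u.domRestrict (S.C Z))
  have h3 : LinearMap.ker (S.F Z u) = LinearMap.ker (u.domRestrict (S.C Z)) := by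
    ext c
    rw [LinearMap.mem_ker, LinearMap.mem_ker, LinearMap.domRestrict_apply]
    constructor
    · intro h
      refine hS _ (Op.apply (fun _ => le_rfl) hu c.2) fun d hd => ?_
      exact congrArg (fun f : S.C Z →ₗ[W.K] W.K => f ⟨d, hd⟩) h
    · intro h
      apply LinearMap.ext
      intro d
      rw [F_apply, h, zero_mul, map_zero]
      rfl
  have h4 : LinearMap.range (u.domRestrict (S.C Z)) = (S.C Z).map u := by
    ext y
    constructor
    · rintro ⟨c, rfl⟩; exact ⟨c, c.2, rfl⟩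
    · rintro ⟨c, hc, rfl⟩; exact ⟨⟨c, hc⟩, rfl⟩
  rw [h3] at h1
  rw [h4] at h2
  rw [rk]
  omega

/-- The correspondences of the system between the powers of `X`. -/
noncomputable def CP (S : Sys W) (X : 𝒱.Obj) (m n : ℕ) :
    Submodule W.K (W.H (pw X m) →ₗ[W.K] W.H (pw X n)) :=
  S.Op (pw X m) (pw X n)

lemma isCat_CP : IsCat (S.CP X) := ⟨fun _ => Op.id, fun hg hf => Op.comp hg hf⟩

/-- For a nondegenerate system the numerical dimension is the dimension. -/
lemma nd_eq_finrank (hS : ∀ n, Nondeg S (pw X n)) {m n : ℕ}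
    {M : Submodule W.K (W.H (pw X m) →ₗ[W.K] W.H (pw X n))} (hM : M ≤ S.CP X m n) :
    nd (H := fun n => W.H (pw X n)) (S.CP X) m n M = finrank W.K M := by
  have h1 : ∀ u ∈ M, u ∈ perp (H := fun n => W.H (pw X n)) (S.CP X) m n → u = 0 := by
    intro u hu hu'
    exact eq_zero_of_trace (nondeg_pw hS m n) (hM hu) hu'
  have h2 : Function.Bijective
      ((perp (H := fun n => W.H (pw X n)) (S.CP X) m n).mkQ.submoduleMap M) := by
    refine ⟨?_, LinearMap.submoduleMap_surjective _ _⟩
    intro u u' h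
    have h3 := congrArg Subtype.val h
    change (perp (H := fun n => W.H (pw X n)) (S.CP X) m n).mkQ (u : _) =
      (perp (H := fun n => W.H (pw X n)) (S.CP X) m n).mkQ (u' : _) at h3
    rw [← sub_eq_zero, ← map_sub, Submodule.mkQ_apply, Submodule.Quotient.mk_eq_zero] at h3
    have h4 := h1 _ (Submodule.sub_mem _ u.2 u'.2) h3
    exact Subtype.ext (sub_eq_zero.1 h4)
  exact (LinearEquiv.ofBijective _ h2).finrank_eq.symm

lemma finrank_CP (m n : ℕ) :
    finrank W.K (S.CP X m n) = finrank W.K (S.C (pw X (m + n + 1))) := by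
  rw [← S.finrank_C_iso (pwAdd X m n)]
  have h1 : Function.Injective (corrL W (pw X m) (pw X n)) := by
    rw [← LinearMap.ker_eq_bot, LinearMap.ker_eq_bot']
    intro c hc
    exact corr_inj hc
  exact (Submodule.equivMapOfInjective _ h1 _).finrank_eq.symm

/-- The dimension of the operators cut out by an idempotent. -/
lemma finrank_sand (hS : ∀ n, Nondeg S (pw X n)) {m n : ℕ} {e a : Module.End W.K (W.H (pw X m))}
    (he : e ∈ S.Op (pw X m) (pw X m)) (ha : a ∈ S.Op (pw X m) (pw X m)) (hadj : Adj W a e) :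
    nd (H := fun n => W.H (pw X n)) (S.CP X) m n
      (sand (H := fun n => W.H (pw X n)) (S.CP X) m n LinearMap.id e) =
      S.r (pw X m) a (pw X n) := by
  rw [nd_eq_finrank hS (Pool.Agent.Y129.sand_le (H := fun n => W.H (pw X n)) isCat_CP
    (isCat_CP.id_mem n) he)]
  have hA : extOp W a (1 : Module.End W.K (W.H (pw X n))) ∈
      S.Op ((pw X m).prod (pw X n)) ((pw X m).prod (pw X n)) := Op.ext ha Op.id
  rw [r, rk_F_eq (nondeg_pw hS m n) hA]
  have h1 : Function.Injective (corrL W (pw X m) (pw X n)) := by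
    rw [← LinearMap.ker_eq_bot, LinearMap.ker_eq_bot']
    intro c hc
    exact corr_inj hc
  have h2 : sand (H := fun n => W.H (pw X n)) (S.CP X) m n LinearMap.id e =
      ((S.C ((pw X m).prod (pw X n))).map
        (extOp W a (1 : Module.End W.K (W.H (pw X n))))).map (corrL W (pw X m) (pw X n)) := by
    ext u
    rw [Pool.Agent.Y129.mem_sand]
    constructor
    · rintro ⟨w, hw, rfl⟩
      obtain ⟨c, hc, rfl⟩ := mem_Op.1 hw
      refine ⟨_, ⟨c, hc, rfl⟩, ?_⟩
      change W.corr (extOp W a 1 c) = _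
      have h3 := corr_extOp hadj (Op.ev he) (b := (1 : Module.End W.K (W.H (pw X n)))) Ev.id c
      rw [h3]
      rfl
    · rintro ⟨_, ⟨c, hc, rfl⟩, rfl⟩
      refine ⟨W.corr c, Op.corr hc, ?_⟩
      change _ = W.corr (extOp W a 1 c)
      have h3 := corr_extOp hadj (Op.ev he) (b := (1 : Module.End W.K (W.H (pw X n)))) Ev.id c
      rw [h3]
      rfl
  rw [h2]
  exact (Submodule.equivMapOfInjective _ h1 _).finrank_eq.symm

/-- There is a class of degree one. -/
lemma exists_tr_one [Nontrivial (W.H X)] (hS : Nondeg S X) : ∃ z ∈ S.C X, W.tr X z = 1 := by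
  by_contra hcon
  push Not at hcon
  apply one_ne_zero (α := W.H X)
  refine hS 1 (S.one X) fun y hy => ?_
  rw [one_mul]
  by_contra hne
  apply hcon ((W.tr X y)⁻¹ • y) (Submodule.smul_mem _ _ hy)
  rw [map_smul, smul_eq_mul, inv_mul_cancel₀ hne]

/-- The operator `a ↦ f_*(z a)`. -/
lemma Op.pushMul (f : P ⟶ Q) {z : W.H P} (hz : z ∈ S.C P) :
    W.push f ∘ₗ LinearMap.mulLeft W.K z ∈ S.Op P Q := by
  have h1 : W.corr (W.push (Obj.lift (𝟙 P) f) z) = W.push f ∘ₗ LinearMap.mulLeft W.K z := by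
    apply LinearMap.ext
    intro a
    have e1 : Obj.lift (𝟙 P) f ≫ fst P Q = 𝟙 P := Obj.lift_fst _ _
    have e2 : Obj.lift (𝟙 P) f ≫ snd P Q = f := Obj.lift_snd _ _
    rw [corr_apply, ← W.push_mul, ← W.map_comp, e1, ← W.push_comp, e2, W.map_id]
    rfl
  rw [← h1]
  exact Op.corr (S.push _ hz)

/-- `X^(m+1) = X^(m+1)` is a retract of `P × Q`. -/
lemma push_fst_mul (a : W.H P) {z : W.H Q} (hz : z ∈ S.C Q) (hz1 : W.tr Q z = 1) :
    W.push (fst P Q) (W.map (snd P Q) z * W.map (fst P Q) a) = a := by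
  rw [PH.even_comm (S.even (S.map _ hz))]
  have := push_fst (W := W) a z (S.even hz)
  rw [hz1, one_smul] at this
  exact this

/-- The powers of `X` and a nondegenerate system of classes satisfy the formal properties used in
the asymptotic argument. -/
theorem isPowers [Nontrivial (W.H X)] (hS : ∀ n, Nondeg S (pw X n)) :
    IsPowers (H := fun n => W.H (pw X n)) (S.CP X) (fun n => finrank W.K (S.C (pw X n)))
      (finrank W.K (W.H X)) where
  cat := isCat_CP
  b_pos := Module.finrank_pos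
  finrank_eq m := finrank_pw X m
  nd_eq m n := by
    rw [nd_eq_finrank hS le_rfl, finrank_CP]
  nd_le m p ε hε hε' := by
    obtain ⟨a, ha, hadj⟩ := S.exists_adj' hε
    rw [finrank_sand hS hε ha hadj]
    have hi : IsIdempotentElem a := hadj.idem hε'
    have θ := pwAdd X p p
    rw [show p + p + 1 = 2 * p + 1 by ring] at θ
    rw [S.r_iso a θ.symm]
    refine (S.r_le_rank ha hi _).trans ?_
    rw [hadj.finrank_eq, S.a_iso θ, nondeg_iff.1 (hS _)]
  nd_le' m p ε hε hε' := by
    obtain ⟨a, ha, hadj⟩ := S.exists_adj' hε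
    rw [finrank_sand hS hε ha hadj]
    have hi : a ∘ₗ a = a := hadj.idem hε'
    have h11 : (1 : Module.End W.K (W.H X)) ∘ₗ 1 = 1 := rfl
    have θ := pwAdd X p p
    rw [show p + p + 1 = 2 * p + 1 by ring] at θ
    let θ' : X.prod ((pw X p).prod (pw X p)) ≅ pw X (2 * p + 2) :=
      prodCongr (Iso.refl X) θ ≪≫ prodComm X (pw X (2 * p + 1))
    rw [S.r_iso a θ'.symm, ← S.r_assoc]
    have hE : extOp W a (1 : Module.End W.K (W.H X)) ∘ₗ extOp W a 1 = extOp W a 1 := by
      have := extOp_mul (W := W) a a (1 : Module.End W.K (W.H X)) 1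
      change extOp W a 1 * extOp W a 1 = _
      rw [this, mul_one]
      change extOp W (a ∘ₗ a) 1 = _
      rw [hi]
    have hEm : extOp W a (1 : Module.End W.K (W.H X)) ∈ S.Op ((pw X m).prod X)
      ((pw X m).prod X) := Op.ext ha Op.id
    refine (S.r_le_rank hEm hE _).trans ?_
    rw [finrank_extOp hi h11, rank_one, hadj.finrank_eq, S.a_iso θ, nondeg_iff.1 (hS _),
      mul_assoc]
  grow n := by
    have h := S.growth X n
    have θ := pwAdd X n n
    rw [show n + n + 1 = 2 * n + 1 by ring] at θ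
    rw [S.finrank_C_iso θ, pow_mul, mul_comm] at h
    exact h
  retract := by
    have hX : Nondeg S X := hS 0
    obtain ⟨z, hz, hz1⟩ := exists_tr_one hX
    refine ⟨(W.map (fst X X)).toLinearMap, Op.map _,
      W.push (fst X X) ∘ₗ LinearMap.mulLeft W.K (W.map (snd X X) z),
      Op.pushMul _ (S.map _ hz), ?_⟩
    apply LinearMap.ext
    intro a
    exact push_fst_mul a hz hz1

end Sys

end Pool.Agent.Y133.Half
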