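import Pool.Agent.Y133.Half.Main
import Pool.Agent.W536.RBase
import Pool.Agent.W458.MF.Geo1

/-!
# The systems of algebraic classes and of generalised Tate classes
-/

open CategoryTheory AlgebraicGeometry

universe u v

namespace Pool.Agent.Y133.Half

open Module
open Pool.Agent.H914 Pool.Agent.H914.VarClass Pool.Agent.H914.VarClass.Obj
  Pool.Agent.H914.WeilCohomology Pool.Agent.W534 Pool.Agent.W458.MF Pool.Agent.W536.RR
  Pool.Agent.H281R3.HT

section Lin

variable {K A B C : Type*} [Field K] [AddCommGroup A] [Module K A] [AddCommGroup B] [Module K B]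
  [AddCommGroup C] [Module K C] {f : Module.End K A} {g : Module.End K B} {h : Module.End K C}
  {β : A →ₗ[K] B →ₗ[K] C}

/-- The product of generalised eigenvectors. -/
theorem gen_bilin (hβ : ∀ a b, β (f a) (g b) = h (β a b)) {l m : K} {a : A} {b : B}
    (ha : a ∈ f.maxGenEigenspace l) (hb : b ∈ g.maxGenEigenspace m) :
    β a b ∈ h.maxGenEigenspace (l * m) := by
  have key : ∀ (N i j : ℕ) (a : A) (b : B), i + j ≤ N → ((f - l • 1) ^ i) a = 0 →
      ((g - m • 1) ^ j) b = 0 → ((h - (l * m) • 1) ^ N) (β a b) = 0 := by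
    intro N
    induction N with
    | zero =>
      intro i j a b hij ha hb
      obtain rfl : i = 0 := by omega
      rw [pow_zero, Module.End.one_apply] at ha
      rw [ha, map_zero, LinearMap.zero_apply, map_zero]
    | succ N ih =>
      intro i j a b hij ha hb
      rcases Nat.eq_zero_or_pos i with hi | hi
      · subst hi
        rw [pow_zero, Module.End.one_apply] at ha
        rw [ha, map_zero, LinearMap.zero_apply, map_zero]
      rcases Nat.eq_zero_or_pos j with hj | hj
      · subst hj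
        rw [pow_zero, Module.End.one_apply] at hb
        rw [hb, map_zero, map_zero]
      obtain ⟨i', rfl⟩ : ∃ i', i = i' + 1 := ⟨i - 1, by omega⟩
      obtain ⟨j', rfl⟩ : ∃ j', j = j' + 1 := ⟨j - 1, by omega⟩
      have h1 : (h - (l * m) • 1) (β a b) =
          β ((f - l • 1) a) (g b) + l • β a ((g - m • 1) b) := by
        simp only [LinearMap.sub_apply, LinearMap.smul_apply, Module.End.one_apply, map_sub,
          map_smul, ← hβ]
        module
      have h2 : ((g - m • 1) ^ (j' + 1)) (g b) = 0 := by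
        have hc : Commute ((g - m • 1) ^ (j' + 1)) g :=
          (((Commute.refl g).sub_left ((Commute.one_left g).smul_left m))).pow_left _
        rw [← Module.End.mul_apply, hc.eq, Module.End.mul_apply, hb, map_zero]
      rw [pow_succ, Module.End.mul_apply, h1, map_add, map_smul,
        ih i' (j' + 1) _ _ (by omega) _ h2, ih (i' + 1) j' _ _ (by omega) ha _, smul_zero, add_zero]
      · rw [pow_succ, Module.End.mul_apply] at hb
        exact hb
      · rw [pow_succ, Module.End.mul_apply] at ha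
        exact ha
  rw [Module.End.mem_maxGenEigenspace] at ha hb ⊢
  obtain ⟨i, hi⟩ := ha
  obtain ⟨j, hj⟩ := hb
  exact ⟨i + j, key _ i j a b le_rfl hi hj⟩

end Lin

variable {k : Type u} [Field k] {𝒱 : VarClass k} {ops : CycleOps 𝒱}
  {W : WeilCohomology.{u, v} ops} {X Y Z : 𝒱.Obj}

/-- The system of the algebraic classes. -/
noncomputable def algSys (W : WeilCohomology.{u, v} ops) : Sys W where
  C X := algSpan W X
  even hc := by
    refine algSpan_induction (p := fun c => c ∈ PH W _ 0) ?_ ?_ ?_ ?_ hc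
    · exact Submodule.zero_mem _
    · intro a b ha hb; exact Submodule.add_mem _ ha hb
    · intro t a ha; exact Submodule.smul_mem _ _ ha
    · intro j z hz; exact PH.of' (by omega) (W.cl_mem hz)
  one _ := one_mem_algSpan
  mul := algSpan_mul
  map f _ hc := algSpan_map f hc
  push f _ hc := algSpan_push f hc

section Tate

variable {p : ℕ} (Φ : FrobSystem W p)

/-- The space of generalised Tate classes: the sum over all degrees `2 j` and all finite fields of
the generalised eigenspaces of the Frobenius endomorphisms for the eigenvalue `q ^ j`. -/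
noncomputable def TC (Z : 𝒱.Obj) : Submodule W.K (W.H Z) :=
  ⨆ (s : ℕ) (_ : 0 < s) (j : ℕ), genTate Φ Z s j

variable {Φ}

lemma TC.of {s j : ℕ} (hs : 0 < s) {x : W.H Z} (hx : x ∈ genTate Φ Z s j) : x ∈ TC Φ Z :=
  Submodule.mem_iSup_of_mem s (Submodule.mem_iSup_of_mem hs (Submodule.mem_iSup_of_mem j hx))

lemma TC.ind {q : W.H Z → Prop} (h : ∀ s j, 0 < s → ∀ x ∈ genTate Φ Z s j, q x) (h0 : q 0)
    (hadd : ∀ x y, q x → q y → q (x + y)) {x : W.H Z} (hx : x ∈ TC Φ Z) : q x := by
  refine Submodule.iSup_induction _ (motive := q) hx (fun s x hx => ?_) h0 hadd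
  refine Submodule.iSup_induction _ (motive := q) hx (fun hs x hx => ?_) h0 hadd
  exact Submodule.iSup_induction _ (motive := q) hx (fun j x hx => h s j hs x hx) h0 hadd

lemma TC.level {x : W.H Z} (hx : x ∈ TC Φ Z) : ∃ s, 0 < s ∧ ∀ j,
    proj (W.isInternal Z) (2 * j) x ∈ genTate Φ Z s j := by
  refine TC.ind (q := fun x => ∃ s, 0 < s ∧ ∀ j,
    proj (W.isInternal Z) (2 * j) x ∈ genTate Φ Z s j) ?_ ?_ ?_ hx
  · intro s j hs x hx
    refine ⟨s, hs, fun i => ?_⟩
    by_cases h : i = j
    · subst h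
      rw [proj_same _ hx.2]; exact hx
    · rw [proj_ne _ hx.2 (by omega)]; exact Submodule.zero_mem _
  · exact ⟨1, one_pos, fun i => by rw [map_zero]; exact Submodule.zero_mem _⟩
  · rintro x y ⟨s, hs, h⟩ ⟨s', hs', h'⟩
    refine ⟨s * s', Nat.mul_pos hs hs', fun i => ?_⟩
    rw [map_add]
    exact Submodule.add_mem _ (genTate_mono Φ s s' i (h i)) (genTate_mono' Φ s' s i (h' i))

lemma TC.even {x : W.H Z} (hx : x ∈ TC Φ Z) : x ∈ PH W Z 0 := by
  refine TC.ind (q := fun x => x ∈ PH W Z 0) ?_ ?_ ?_ hx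
  · intro s j _ x hx; exact PH.of' (by omega) hx.2
  · exact Submodule.zero_mem _
  · intro x y hx hy; exact Submodule.add_mem _ hx hy

/-- The trace pairing is nondegenerate on the generalised Tate classes. -/
lemma TC.nondeg {x : W.H Z} (hx : x ∈ TC Φ Z) (h : ∀ y ∈ TC Φ Z, W.tr Z (x * y) = 0) : x = 0 := by
  obtain ⟨s, hs, hl⟩ := TC.level hx
  have key : ∀ (j l : ℕ), j + l = Z.dim → ∀ y ∈ W.gr Z (2 * l),
      W.tr Z (x * y) = W.tr Z (proj (W.isInternal Z) (2 * j) x * y) := by
    intro j l hjl y hy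
    refine gr_induction (W.isInternal Z) (p := fun x => W.tr Z (x * y) =
      W.tr Z (proj (W.isInternal Z) (2 * j) x * y)) ?_ ?_ x
    · intro i a ha
      by_cases hi : i = 2 * j
      · subst hi
        rw [proj_same _ ha]
      · rw [proj_ne _ ha hi, zero_mul, map_zero]
        exact W.tr_eq_zero (W.mul_mem ha hy) (by omega)
    · intro a b ha hb
      rw [add_mul, map_add, ha, hb, map_add, add_mul, map_add]
  have h0 : ∀ j l, j + l = Z.dim → proj (W.isInternal Z) (2 * j) x = 0 := by
    intro j l hjl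
    refine genTate_nondeg Φ hjl (hl j) fun y hy => ?_
    rw [← key j l hjl y hy.2]
    exact h y (TC.of hs hy)
  apply W.nondeg
  intro b
  refine gr_induction (W.isInternal Z) (p := fun b => W.tr Z (x * b) = 0) ?_ ?_ b
  · intro i b hb
    rcases Nat.even_or_odd' i with ⟨l, rfl | rfl⟩
    · by_cases hl' : l ≤ Z.dim
      · rw [key (Z.dim - l) l (by omega) b hb, h0 (Z.dim - l) l (by omega), zero_mul, map_zero]
      · rw [W.gr_eq_bot Z (2 * l) (by omega)] at hb
        rw [(Submodule.mem_bot _).1 hb, mul_zero, map_zero]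
    · exact PH.tr_odd (PH.mul (TC.even hx) (PH.of hb)) (by omega)
  · intro a b ha hb
    rw [mul_add, map_add, ha, hb, add_zero]

lemma TC.one : (1 : W.H Z) ∈ TC Φ Z := by
  refine TC.of (s := 1) (j := 0) one_pos ⟨?_, W.one_mem Z⟩
  apply eig_mem_gen
  rw [AlgHom.toLinearMap_apply, map_one, pow_zero, one_smul]

lemma genTate_mul {s j l : ℕ} {x y : W.H Z} (hx : x ∈ genTate Φ Z s j)
    (hy : y ∈ genTate Φ Z s l) : x * y ∈ genTate Φ Z s (j + l) := by
  refine ⟨?_, ?_⟩
  · rw [pow_add]
    exact gen_bilin (β := LinearMap.mul W.K (W.H Z)) (fun a b =>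
      (map_mul (W.map (W534.iter (Φ.Fr Z) s)) a b).symm) hx.1 hy.1
  · rw [mul_add]
    exact W.mul_mem hx.2 hy.2

lemma TC.mul {x y : W.H Z} (hx : x ∈ TC Φ Z) (hy : y ∈ TC Φ Z) : x * y ∈ TC Φ Z := by
  refine TC.ind (q := fun x => x * y ∈ TC Φ Z) ?_ ?_ ?_ hx
  · intro s j hs x hx
    refine TC.ind (q := fun y => x * y ∈ TC Φ Z) ?_ ?_ ?_ hy
    · intro s' j' hs' y hy
      exact TC.of (Nat.mul_pos hs hs')
        (genTate_mul (genTate_mono Φ s s' j hx) (genTate_mono' Φ s' s j' hy))
    · rw [mul_zero]; exact Submodule.zero_mem _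
    · intro a b ha hb; rw [mul_add]; exact Submodule.add_mem _ ha hb
  · rw [zero_mul]; exact Submodule.zero_mem _
  · intro a b ha hb; rw [add_mul]; exact Submodule.add_mem _ ha hb

lemma TC.map (f : X ⟶ Y) {y : W.H Y} (hy : y ∈ TC Φ Y) : W.map f y ∈ TC Φ X := by
  refine TC.ind (q := fun y => W.map f y ∈ TC Φ X) ?_ ?_ ?_ hy
  · intro s j hs y hy
    obtain ⟨a, b, ha, hb, hab, h⟩ := frob_comm Φ f
    refine TC.of (Nat.mul_pos ha hs) (j := j) ⟨?_, W.map_mem f hy.2⟩
    have h1 := genTate_mono' Φ s b j hy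
    have h2 : (card Φ X (a * s) : W.K) ^ j = 1 * (card Φ Y (b * s) : W.K) ^ j := by
      have : b * s * Φ.e Y = a * s * Φ.e X := by
        calc b * s * Φ.e Y = (b * Φ.e Y) * s := by ring
          _ = _ := by rw [← hab]; ring
      rw [card_eq_of Φ this, one_mul]
    rw [h2]
    refine gen_map (θ := (W.map f).toLinearMap) (fun x => ?_) h1.1
    rw [one_smul]
    exact h s x
  · rw [map_zero]; exact Submodule.zero_mem _
  · intro a b ha hb; rw [map_add]; exact Submodule.add_mem _ ha hb

/-- The push-forward and the Frobenius endomorphisms. -/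
lemma push_frob (f : X ⟶ Y) {a b : ℕ} (hab : a * Φ.e X = b * Φ.e Y)
    (h : ∀ y : W.H Y, W.map (W534.iter (Φ.Fr X) a) (W.map f y) =
      W.map f (W.map (W534.iter (Φ.Fr Y) b) y)) (x : W.H X) :
    ((card Φ Y b : W.K) ^ Y.dim) • W.push f (W.map (W534.iter (Φ.Fr X) a) x) =
      ((card Φ Y b : W.K) ^ X.dim) • W.map (W534.iter (Φ.Fr Y) b) (W.push f x) := by
  have hc : card Φ X a = card Φ Y b := (card_eq_of Φ hab).symm ▸ (card_eq_of Φ hab.symm).symm
  apply W.tr_ext
  intro z
  obtain ⟨y, rfl⟩ := map_iter_surjective Φ b z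
  rw [smul_mul_assoc, smul_mul_assoc, map_smul, map_smul, W.tr_push, ← h, ← map_mul, ← map_mul,
    tr_iter, tr_iter, W.tr_push, ← card_pow, ← card_pow, hc, smul_eq_mul, smul_eq_mul]
  ring

lemma TC.push (f : X ⟶ Y) {x : W.H X} (hx : x ∈ TC Φ X) : W.push f x ∈ TC Φ Y := by
  refine TC.ind (q := fun x => W.push f x ∈ TC Φ Y) ?_ ?_ ?_ hx
  · intro s j hs x hx
    by_cases hd : X.dim ≤ j + Y.dim
    · obtain ⟨a, b, ha, hb, hab, h⟩ := frob_comm Φ f
      have hab' : a * s * Φ.e X = b * s * Φ.e Y := by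
        calc a * s * Φ.e X = (a * Φ.e X) * s := by ring
          _ = _ := by rw [hab]; ring
      have h1 := genTate_mono' Φ s a j hx
      have hc : card Φ X (a * s) = card Φ Y (b * s) := card_eq_of Φ hab'
      refine TC.of (Nat.mul_pos hb hs) (j := j + Y.dim - X.dim) ⟨?_, ?_⟩
      · have hq : (card Φ Y (b * s) : W.K) ≠ 0 := card_ne Φ _
        have h2 : (card Φ Y (b * s) : W.K) ^ (j + Y.dim - X.dim) =
            ((card Φ Y (b * s) : W.K) ^ Y.dim * ((card Φ Y (b * s) : W.K) ^ X.dim)⁻¹) *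
              (card Φ X (a * s) : W.K) ^ j := by
          have h3 : (card Φ Y (b * s) : W.K) ^ (j + Y.dim - X.dim) *
              (card Φ Y (b * s) : W.K) ^ X.dim = (card Φ Y (b * s) : W.K) ^ (j + Y.dim) := by
            rw [← pow_add]; congr 1; omega
          have h7 : ((card Φ Y (b * s) : W.K) ^ X.dim) ≠ 0 := pow_ne_zero _ hq
          rw [hc]
          apply mul_right_cancel₀ h7
          rw [h3, pow_add]
          field_simp
        rw [h2]
        refine gen_map (θ := W.push f) (fun x => ?_) h1.1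
        have h4 := push_frob (Φ := Φ) f hab' (fun y => h s y) x
        rw [mul_comm ((card Φ Y (b * s) : W.K) ^ Y.dim), mul_smul]
        change W.map (W534.iter (Φ.Fr Y) (b * s)) (W.push f x) =
          ((card Φ Y (b * s) : W.K) ^ X.dim)⁻¹ • (card Φ Y (b * s) : W.K) ^ Y.dim •
            W.push f (W.map (W534.iter (Φ.Fr X) (a * s)) x)
        rw [h4, inv_smul_smul₀ (pow_ne_zero _ hq)]
      · have h5 := W.push_mem f hx.2
        have h6 : ((2 * j : ℕ) : ℤ) + 2 * ((Y.dim : ℤ) - X.dim) =
            ((2 * (j + Y.dim - X.dim) : ℕ) : ℤ) := by omega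
        rw [h6, grZ_natCast] at h5
        exact h5
    · have h1 := W.push_mem f hx.2
      rw [grZ_of_neg (by push_cast; omega)] at h1
      rw [(Submodule.mem_bot _).1 h1]
      exact Submodule.zero_mem _
  · rw [map_zero]; exact Submodule.zero_mem _
  · intro a b ha hb; rw [map_add]; exact Submodule.add_mem _ ha hb

variable (Φ)

/-- The system of the generalised Tate classes. -/
noncomputable def tateSys : Sys W where
  C X := TC Φ X
  even := TC.even
  one _ := TC.one
  mul := TC.mul
  map f _ hc := TC.map f hc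
  push f _ hc := TC.push f hc

lemma alg_le_tate (Z : 𝒱.Obj) : (algSys W).C Z ≤ (tateSys Φ).C Z := by
  intro c hc
  refine algSpan_induction (p := fun c => c ∈ TC Φ Z) ?_ ?_ ?_ ?_ hc
  · exact Submodule.zero_mem _
  · intro a b ha hb; exact Submodule.add_mem _ ha hb
  · intro t a ha; exact Submodule.smul_mem _ _ ha
  · intro j z hz
    obtain ⟨s, hs, h⟩ := Φ.cyc hz
    refine TC.of hs (j := j) ⟨eig_mem_gen ?_, W.cl_mem hz⟩
    rw [card_pow]
    exact h

end Tate

end Pool.Agent.Y133.Half
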