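import Pool.Agent.Y133.Half.PredSys
import Pool.Agent.Y133.Half.PairPow
import Pool.Agent.Y133.Half.TateSys
import Pool.Agent.H914R2.Span
import Pool.Agent.Y133.Half.CrysDefs

/-!
# The index law for Tate classes over a finite field and for two cohomology theories
-/

open CategoryTheory AlgebraicGeometry Filter Topology

open scoped ENNReal

universe u v

namespace Pool.Agent.Y133.Crys

open Module
open Pool.Agent.H914 Pool.Agent.H914.VarClass Pool.Agent.H914.VarClass.Obj
  Pool.Agent.H914.WeilCohomology Pool.Agent.H281R3.HT Pool.Agent.W536.RR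
open Pool.Agent.Y133.Half (ClassPred cycRank dimOf algDim AtMostHalf Sys gen_bilin)

variable {k : Type u} [Field k] {𝒱 : VarClass k} {ops : CycleOps 𝒱}
  {W V : WeilCohomology.{u, v} ops} {φ : Frobenii 𝒱} {q : ℕ} {X Y Z : 𝒱.Obj}

/-- The Frobenius as a linear endomorphism. -/
noncomputable def Fl (φ : Frobenii 𝒱) (W : WeilCohomology.{u, v} ops) (X : 𝒱.Obj) :
    Module.End W.K (W.H X) := (frob φ W X).toLinearMap

lemma Fl_apply (a : W.H X) : Fl φ W X a = frob φ W X a := rfl

lemma Fl_mul (a b : W.H X) : Fl φ W X (a * b) = Fl φ W X a * Fl φ W X b :=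
  map_mul (frob φ W X) a b

lemma Fl_gr {i : ℕ} {a : W.H X} (ha : a ∈ W.gr X i) : Fl φ W X a ∈ W.gr X i :=
  W.map_mem _ ha

lemma map_frob (f : X ⟶ Y) (a : W.H Y) : W.map f (frob φ W Y a) = frob φ W X (W.map f a) := by
  unfold frob
  rw [← W.map_comp, ← W.map_comp, φ.nat]

lemma q_ne (h : Acts φ q W) : (q : W.K) ≠ 0 := by
  have := h.pos
  exact_mod_cast (show q ≠ 0 by omega)

lemma frob_injective (h : Acts φ q W) : Function.Injective (Fl φ W X) := by
  rw [injective_iff_map_eq_zero]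
  intro a ha
  apply W.nondeg
  intro b
  have h1 := h.tr X (a * b)
  have h2 : frob φ W X (a * b) = Fl φ W X a * Fl φ W X b := Fl_mul a b
  rw [h2, ha, zero_mul, map_zero] at h1
  have h3 : ((q : W.K) ^ X.dim) ≠ 0 := pow_ne_zero _ (q_ne h)
  exact ((mul_eq_zero.1 h1.symm).resolve_left h3)

lemma frob_surjective (h : Acts φ q W) : Function.Surjective (Fl φ W X) :=
  LinearMap.injective_iff_surjective.1 (frob_injective h)

lemma push_frob (h : Acts φ q W) (f : X ⟶ Y) (x : W.H X) :
    ((q : W.K) ^ Y.dim) • W.push f (Fl φ W X x) = ((q : W.K) ^ X.dim) • Fl φ W Y (W.push f x) := by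
  apply W.tr_ext
  intro z
  obtain ⟨y, rfl⟩ := frob_surjective h z
  have e1 : W.tr X (frob φ W X (x * W.map f y)) = (q ^ X.dim : W.K) * W.tr X (x * W.map f y) :=
    h.tr X _
  have e2 : W.tr Y (frob φ W Y (W.push f x * y)) = (q ^ Y.dim : W.K) * W.tr Y (W.push f x * y) :=
    h.tr Y _
  rw [map_mul, ← map_frob] at e1
  rw [map_mul, W.tr_push] at e2
  rw [smul_mul_assoc, smul_mul_assoc, map_smul, map_smul, W.tr_push, Fl_apply, Fl_apply,
    Fl_apply, e1, e2, smul_eq_mul, smul_eq_mul]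
  ring

/-! ### The Tate classes -/

/-- The Tate classes. -/
noncomputable def tatePred (h : Acts φ q W) : ClassPred W where
  P X j c := TateClass φ q W X j c
  gr hc := hc.1
  zero := ⟨Submodule.zero_mem _, by rw [map_zero, smul_zero]⟩
  add ha hb := ⟨Submodule.add_mem _ ha.1 hb.1, by rw [map_add, ha.2, hb.2, smul_add]⟩
  smul r a ha := ⟨Submodule.smul_mem _ _ ha.1, by rw [map_smul, ha.2, smul_comm]⟩
  cl hz := h.cyc hz
  mul {X i j a b} ha hb := ⟨by rw [mul_add]; exact W.mul_mem ha.1 hb.1, by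
    rw [map_mul, ha.2, hb.2, smul_mul_assoc, mul_smul_comm, smul_smul, pow_add]⟩
  map f j a ha := ⟨W.map_mem f ha.1, by rw [← map_frob, ha.2, map_smul]⟩
  push {X Y} f {j l} hl a ha := by
    refine ⟨?_, ?_⟩
    · have h5 := W.push_mem f ha.1
      rwa [show ((2 * j : ℕ) : ℤ) + 2 * ((Y.dim : ℤ) - X.dim) = ((2 * l : ℕ) : ℤ) by
        push_cast; omega, grZ_natCast] at h5
    · have h1 := push_frob h f a
      rw [Fl_apply, ha.2, map_smul, smul_smul, ← pow_add] at h1
      have h2 : ((q : W.K) ^ X.dim) ≠ 0 := pow_ne_zero _ (q_ne h)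
      rw [show Y.dim + j = X.dim + l by omega, pow_add, mul_smul] at h1
      exact (smul_right_injective _ h2 h1).symm

/-- The generalised Tate classes of degree `2 j`. -/
noncomputable def gen (φ : Frobenii 𝒱) (q : ℕ) (W : WeilCohomology.{u, v} ops) (X : 𝒱.Obj)
    (j : ℕ) : Submodule W.K (W.H X) :=
  (Fl φ W X).maxGenEigenspace ((q : W.K) ^ j) ⊓ W.gr X (2 * j)

lemma maxGen_map {K A B : Type*} [Field K] [AddCommGroup A] [Module K A] [AddCommGroup B]
    [Module K B] {f : Module.End K A} {g : Module.End K B} (u : A →ₗ[K] B) {c l : K}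
    (h : ∀ a, g (u a) = c • u (f a)) {a : A} (ha : a ∈ f.maxGenEigenspace l) :
    u a ∈ g.maxGenEigenspace (c * l) := by
  rw [Module.End.mem_maxGenEigenspace] at ha ⊢
  obtain ⟨m, hm⟩ := ha
  refine ⟨m, ?_⟩
  have key : ∀ (n : ℕ) (a : A), ((g - (c * l) • 1) ^ n) (u a) = c ^ n • u (((f - l • 1) ^ n) a) := by
    intro n
    induction n with
    | zero => intro a; simp
    | succ n ih =>
      intro a
      have e1 : (g - (c * l) • 1) (u a) = c • u ((f - l • 1) a) := by
        simp only [LinearMap.sub_apply, LinearMap.smul_apply, Module.End.one_apply, map_sub,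
          map_smul, h]
        rw [smul_sub, smul_smul]
      rw [pow_succ, Module.End.mul_apply, e1, map_smul, ih, pow_succ (f - l • 1),
        Module.End.mul_apply, smul_smul, pow_succ']
  rw [key, hm, map_zero, smul_zero]

/-- The generalised Tate classes. -/
noncomputable def genPred (h : Acts φ q W) : ClassPred W where
  P X j c := c ∈ gen φ q W X j
  gr hc := hc.2
  zero := Submodule.zero_mem _
  add ha hb := Submodule.add_mem _ ha hb
  smul r a ha := Submodule.smul_mem _ _ ha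
  cl {X j z} hz := by
    refine ⟨(Module.End.mem_maxGenEigenspace _ _ _).2 ⟨1, ?_⟩, (h.cyc hz).1⟩
    rw [pow_one, LinearMap.sub_apply, LinearMap.smul_apply, Module.End.one_apply, Fl_apply,
      (h.cyc hz).2, sub_self]
  mul {X i j a b} ha hb := by
    refine ⟨?_, by rw [mul_add]; exact W.mul_mem ha.2 hb.2⟩
    rw [pow_add]
    exact gen_bilin (β := LinearMap.mul W.K (W.H X)) (fun a b => (Fl_mul a b).symm) ha.1 hb.1
  map {X Y} f j a ha := by
    refine ⟨?_, W.map_mem f ha.2⟩
    have h1 := maxGen_map (W.map f).toLinearMap (c := 1) (f := Fl φ W Y) (g := Fl φ W X)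
      (fun a => by rw [one_smul]; exact (map_frob f a).symm) ha.1
    rwa [one_mul] at h1
  push {X Y} f {j l} hl a ha := by
    have h2 : ((q : W.K) ^ X.dim) ≠ 0 := pow_ne_zero _ (q_ne h)
    refine ⟨?_, ?_⟩
    · have h1 := maxGen_map (W.push f) (c := ((q : W.K) ^ X.dim)⁻¹ * (q : W.K) ^ Y.dim)
        (f := Fl φ W X) (g := Fl φ W Y) (fun a => by
          rw [mul_smul, push_frob h, smul_smul, inv_mul_cancel₀ h2, one_smul]) ha.1
      rwa [mul_assoc, ← pow_add, show Y.dim + j = X.dim + l by omega, pow_add, ← mul_assoc,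
        inv_mul_cancel₀ h2, one_mul] at h1
    · have h5 := W.push_mem f ha.2
      rwa [show ((2 * j : ℕ) : ℤ) + 2 * ((Y.dim : ℤ) - X.dim) = ((2 * l : ℕ) : ℤ) by
        push_cast; omega, grZ_natCast] at h5

lemma tate_le_gen {j : ℕ} {c : W.H X} (hc : TateClass φ q W X j c) : c ∈ gen φ q W X j := by
  refine ⟨(Module.End.mem_maxGenEigenspace _ _ _).2 ⟨1, ?_⟩, hc.1⟩
  rw [pow_one, LinearMap.sub_apply, LinearMap.smul_apply, Module.End.one_apply, Fl_apply,
    hc.2, sub_self]

/-! ### Dimensions -/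

lemma finrank_iSup_graded {K A : Type*} [Field K] [AddCommGroup A] [Module K A]
    [Module.Finite K A] {gr : ℕ → Submodule K A} (h : DirectSum.IsInternal gr) {N : ℕ}
    (hbd : ∀ j, N ≤ j → gr (2 * j) = ⊥) (G : ℕ → Submodule K A) (hG : ∀ j, G j ≤ gr (2 * j)) :
    finrank K (⨆ j, G j : Submodule K A) = ∑ j ∈ Finset.range N, finrank K (G j) := by
  let f : (∀ j : Fin N, G j) →ₗ[K] A := ∑ j : Fin N, (G j).subtype ∘ₗ LinearMap.proj j
  have hf : ∀ x, f x = ∑ j : Fin N, (x j : A) := by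
    intro x
    simp [f, LinearMap.sum_apply]
  have hinj : LinearMap.ker f = ⊥ := by
    rw [eq_bot_iff]
    intro x hx
    rw [LinearMap.mem_ker, hf] at hx
    rw [Submodule.mem_bot]
    funext i
    apply Subtype.ext
    have h1 := congrArg (H914.proj h (2 * (i : ℕ))) hx
    rw [map_sum, map_zero, Finset.sum_eq_single i] at h1
    · rw [proj_same _ (hG _ (x i).2)] at h1
      exact h1
    · intro j _ hj
      apply proj_ne _ (hG _ (x j).2)
      intro h2
      apply hj
      apply Fin.ext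
      omega
    · intro h2; exact absurd (Finset.mem_univ _) h2
  have hrange : LinearMap.range f = ⨆ j, G j := by
    apply le_antisymm
    · rintro _ ⟨x, rfl⟩
      rw [hf]
      exact Submodule.sum_mem _ fun j _ => Submodule.mem_iSup_of_mem (j : ℕ) (x j).2
    · apply iSup_le
      intro j x hx
      by_cases hj : j < N
      · refine ⟨Pi.single (⟨j, hj⟩ : Fin N) ⟨x, hx⟩, ?_⟩
        rw [hf, Finset.sum_eq_single (⟨j, hj⟩ : Fin N)]
        · rw [Pi.single_eq_same]
        · intro i _ hi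
          rw [Pi.single_eq_of_ne hi]; rfl
        · intro h2; exact absurd (Finset.mem_univ _) h2
      · have h1 := hG j hx
        rw [hbd j (by omega), Submodule.mem_bot] at h1
        rw [h1]
        exact Submodule.zero_mem _
  rw [← hrange, LinearMap.finrank_range_of_inj (LinearMap.ker_eq_bot.1 hinj),
    Module.finrank_pi_fintype, Finset.sum_range]

lemma mult_eq (X : 𝒱.Obj) (j : ℕ) :
    mult (W.gr X) (frob φ W X) q j = finrank W.K (gen φ q W X j) := by
  have hinv : ∀ x ∈ W.gr X (2 * j), (frob φ W X).toLinearMap x ∈ W.gr X (2 * j) :=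
    fun x hx => Fl_gr hx
  unfold mult Pool.Agent.W534.charpolyOn
  rw [dif_pos hinv, ← LinearMap.finrank_maxGenEigenspace_eq]
  have h1 : (Module.End.maxGenEigenspace ((frob φ W X).toLinearMap.restrict hinv)
      ((q : W.K) ^ j)).map (W.gr X (2 * j)).subtype = gen φ q W X j := by
    ext x
    constructor
    · rintro ⟨y, hy, rfl⟩
      refine ⟨?_, y.2⟩
      have h2 := maxGen_map (W.gr X (2 * j)).subtype (c := 1) (g := Fl φ W X)
        (fun a => by rw [one_smul]; rfl) hy
      rwa [one_mul] at h2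
    · rintro ⟨hx, hx'⟩
      obtain ⟨m, hm⟩ := (Module.End.mem_maxGenEigenspace _ _ _).1 hx
      refine ⟨⟨x, hx'⟩, ?_, rfl⟩
      refine (Module.End.mem_maxGenEigenspace _ _ _).2 ⟨m, ?_⟩
      apply Subtype.ext
      have key : ∀ (n : ℕ) (y : W.gr X (2 * j)),
          (((((frob φ W X).toLinearMap.restrict hinv : Module.End W.K (W.gr X (2 * j))) -
            ((q : W.K) ^ j) • 1) ^ n) y : W.H X) = ((Fl φ W X - ((q : W.K) ^ j) • 1) ^ n) y := by
        intro n
        induction n with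
        | zero => intro y; rfl
        | succ n ih =>
          intro y
          rw [pow_succ, Module.End.mul_apply, ih, pow_succ, Module.End.mul_apply]
          rfl
      rw [key]
      exact hm
  rw [← h1, Submodule.finrank_map_subtype_eq]

lemma sp_gen (h : Acts φ q W) (X : 𝒱.Obj) : (genPred h).sp X = ⨆ j, gen φ q W X j := by
  apply le_antisymm
  · unfold ClassPred.sp
    rw [Submodule.span_le]
    rintro c ⟨j, hc⟩
    exact Submodule.mem_iSup_of_mem j hc
  · apply iSup_le
    intro j c hc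
    exact ClassPred.sp_of (Q := genPred h) (j := j) hc

lemma poleOrder_eq (h : Acts φ q W) (X : 𝒱.Obj) :
    poleOrder φ q W X = finrank W.K ((genPred h).sys.C X) := by
  have h1 : (genPred h).sys.C X = ⨆ j, gen φ q W X j := sp_gen h X
  rw [h1, finrank_iSup_graded (W.isInternal X) (N := X.dim + 1)
    (fun j hj => W.gr_eq_bot X (2 * j) (by omega)) (gen φ q W X) fun j => inf_le_right]
  exact Finset.sum_congr rfl fun j _ => mult_eq X j

lemma tateDim_eq (h : Acts φ q W) (X : 𝒱.Obj) :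
    tateDim φ q W X = finrank W.K ((tatePred h).sys.C X) := rfl

/-! ### Semisimplicity -/

lemma sq_frob (c : W.H (X.prod X)) :
    W.map (squareMap (φ.Fr X)) c = Fl φ W (X.prod X) c := by
  refine W.kunneth_induction (p := fun c => W.map (squareMap (φ.Fr X)) c =
    Fl φ W (X.prod X) c) ?_ ?_ c
  · intro a b ha hb; rw [map_add, ha, hb, map_add]
  · intro i j a _ b _
    rw [map_squareMap, Fl_mul, Fl_apply, Fl_apply, ← map_frob, ← map_frob]; rfl

lemma comm_alg (h : Acts φ q W) {z : (X.prod X).Cycles} (hz : (X.prod X).IsCyc X.dim z) :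
    Commute (W.corr (W.cl _ z)) (Fl φ W X) := by
  have hq : ((q : W.K) ^ X.dim) ≠ 0 := pow_ne_zero _ (q_ne h)
  apply LinearMap.ext
  intro a
  have h1 := corr_squareMap (φ := φ.Fr X) (h.tr X) (W.cl _ z) a
  rw [sq_frob, Fl_apply, (h.cyc hz).2, corr_smul, LinearMap.smul_apply] at h1
  exact smul_right_injective _ hq h1

/-- The Frobenius endomorphism is semisimple if homological and numerical equivalence agree. -/
theorem semisimple_of (h : Acts φ q W) (hN : (Half.algSys W).Nondeg (X.prod X)) :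
    (Fl φ W X).IsSemisimple := by
  obtain ⟨n, hn, s, hs, hnil, hss, hsum⟩ :=
    Module.End.exists_isNilpotent_isSemisimple (K := W.K) (f := Fl φ W X)
  have hnOp : n ∈ (Half.algSys W).Op X X := by
    refine Algebra.adjoin_induction (p := fun n _ => n ∈ (Half.algSys W).Op X X)
      ?_ ?_ ?_ ?_ hn
    · rintro x hx
      rw [Set.mem_singleton_iff.1 hx]
      exact Sys.Op.map _
    · intro r
      rw [Algebra.algebraMap_eq_smul_one]
      exact Submodule.smul_mem _ _ Sys.Op.id
    · intro x y _ _ hx hy; exact Submodule.add_mem _ hx hy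
    · intro x y _ _ hx hy; exact Sys.Op.comp hx hy
  have hnHom : IsHom (W.gr X) 0 n := by
    refine Algebra.adjoin_induction (p := fun n _ => IsHom (W.gr X) 0 n) ?_ ?_ ?_ ?_ hn
    · rintro x hx
      rw [Set.mem_singleton_iff.1 hx]
      intro i a ha
      by_cases hi : 0 ≤ i
      · lift i to ℕ using hi
        rw [add_zero]
        rw [grZ_natCast] at ha ⊢
        exact Fl_gr ha
      · rw [grZ_of_neg (by omega), Submodule.mem_bot] at ha
        rw [ha, map_zero]
        exact Submodule.zero_mem _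
    · intro r i a ha
      rw [Algebra.algebraMap_eq_smul_one, LinearMap.smul_apply, Module.End.one_apply, add_zero]
      exact Submodule.smul_mem _ _ ha
    · intro x y _ _ hx hy; exact hx.add hy
    · intro x y _ _ hx hy
      have h1 := hx.mul hy
      rwa [add_zero] at h1
  have hnComm : ∀ g : Module.End W.K (W.H X), Commute g (Fl φ W X) → Commute g n := by
    intro g hg
    refine Algebra.adjoin_induction (p := fun n _ => Commute g n) ?_ ?_ ?_ ?_ hn
    · rintro x hx
      rw [Set.mem_singleton_iff.1 hx]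
      exact hg
    · intro r; exact Algebra.commute_algebraMap_right r g
    · intro x y _ _ hx hy; exact hx.add_right hy
    · intro x y _ _ hx hy; exact hx.mul_right hy
  have hn0 : n = 0 := by
    apply Sys.eq_zero_of_trace hN hnOp
    intro g hg
    obtain ⟨c, hc, rfl⟩ := Sys.mem_Op.1 hg
    refine algSpan_induction (p := fun c => LinearMap.trace W.K (W.H X) (W.corr c ∘ₗ n) = 0)
      ?_ ?_ ?_ ?_ hc
    · rw [corr_zero, LinearMap.zero_comp, map_zero]
    · intro a b ha hb
      rw [corr_add, LinearMap.add_comp, map_add, ha, hb, add_zero]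
    · intro t a ha
      rw [corr_smul, LinearMap.smul_comp, map_smul, ha, smul_zero]
    · intro j z hz
      by_cases hj : j = X.dim
      · subst hj
        exact Pool.Agent.Y129.trace_nil
          ((hnComm _ (comm_alg h hz)).isNilpotent_mul_left hnil)
      · have h1 := (W.corr_isHom (h.cyc hz).1).mul hnHom
        exact trace_of_isHom (W.isInternal X) (by omega) h1
  rw [hn0, zero_add] at hsum
  rw [hsum]
  exact hss

lemma semisimple_of_D (h : Acts φ q W) (hX : ∀ n, HomEqNum W (Half.pw X n)) (n : ℕ) :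
    (Fl φ W (Half.pw X n)).IsSemisimple := by
  apply semisimple_of h
  apply Sys.nondeg_pw
  intro m x hx hx'
  have h1 := (Half.homEqNum_iff (Half.pw X m)).1 (hX m)
  have h2 : x ∈ (Half.algSys W).Num (Half.pw X m) := ⟨hx, hx'⟩
  rwa [h1, Submodule.mem_bot] at h2

lemma gen_eq_tate (hss : (Fl φ W X).IsSemisimple) {j : ℕ} {c : W.H X}
    (hc : c ∈ gen φ q W X j) : TateClass φ q W X j c := by
  refine ⟨hc.2, ?_⟩
  have h1 := hc.1
  have h2 := Module.End.IsFinitelySemisimple.maxGenEigenspace_eq_eigenspace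
    (Module.End.isFinitelySemisimple_iff_isSemisimple.2 hss) ((q : W.K) ^ j)
  have h3 : c ∈ (Fl φ W X).maxGenEigenspace ((q : W.K) ^ j) := h1
  rw [h2, Module.End.mem_eigenspace_iff] at h3
  exact h3

/-! ### The index -/

lemma sys_eq (h : Acts φ q W) (hX : ∀ n, HomEqNum W (Half.pw X n)) (n : ℕ) :
    (genPred h).sys.C (Half.pw X n) = (tatePred h).sys.C (Half.pw X n) := by
  apply le_antisymm
  · change (genPred h).sp _ ≤ (tatePred h).sp _
    unfold ClassPred.sp
    rw [Submodule.span_le]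
    rintro c ⟨j, hc⟩
    exact Submodule.subset_span ⟨j, gen_eq_tate (semisimple_of_D h hX n) hc⟩
  · change (tatePred h).sp _ ≤ (genPred h).sp _
    unfold ClassPred.sp
    rw [Submodule.span_le]
    rintro c ⟨j, hc⟩
    exact Submodule.subset_span ⟨j, tate_le_gen hc⟩

/-- **The index law for one cohomology theory.** -/
theorem index_one (h : Acts φ q W) (X : 𝒱.Obj) [Nontrivial (W.H X)] : ∃ N : ℕ∞, 1 ≤ N ∧
      Tendsto (fun n => (poleOrder φ q W (Half.pw X n) : ℝ≥0∞) / cycRank ops (Half.pw X n)) atTop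
        (𝓝 (N : ℝ≥0∞)) ∧
      Tendsto (fun n => (tateDim φ q W (Half.pw X n) : ℝ≥0∞) / cycRank ops (Half.pw X n)) atTop
        (𝓝 (N : ℝ≥0∞)) ∧
      (N = 1 ↔ ∀ n, (∀ j, Tate φ q W (Half.pw X n) j) ∧ HomEqNum W (Half.pw X n)) ∧
      (N ≠ ⊤ → ∀ n, HomEqNum W (Half.pw X n) ∧ IsSemisimple (frob φ W (Half.pw X n))) := by
  obtain ⟨N, h1, h2, -, h4, h5⟩ := (tatePred h).sys.index (fun _ => ClassPred.alg_le) X
  refine ⟨N, h1, ?_, h2, h4.trans (forall_congr' fun n =>
    and_congr_left' (ClassPred.sp_eq_iff _)), fun hN n => ⟨h5 hN n, semisimple_of_D h (h5 hN) n⟩⟩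
  by_cases hX : ∀ n, HomEqNum W (Half.pw X n)
  · refine h2.congr fun n => ?_
    rw [poleOrder_eq h, sys_eq h hX]
  · have h6 : N = ⊤ := by
      by_contra h7
      exact hX (h5 h7)
    rw [h6]
    refine Half.tendsto_top_of_not hX fun n => ?_
    rw [poleOrder_eq h]
    exact Submodule.finrank_mono ClassPred.alg_le

lemma poleOrder_same (hWV : SamePolynomials φ W V) (X : 𝒱.Obj) :
    poleOrder φ q W X = poleOrder φ q V X := by
  refine Finset.sum_congr rfl fun j _ => ?_
  obtain ⟨P, h1, h2⟩ := hWV X (2 * j)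
  have e1 : ∀ (F : Type v) [Field F] [CharZero F],
      (P.map (Int.castRingHom F)).rootMultiplicity ((q : F) ^ j) =
        P.rootMultiplicity ((q : ℤ) ^ j) := by
    intro F _ _
    have h3 := Polynomial.eq_rootMultiplicity_map (p := P) (f := Int.castRingHom F)
      (Int.cast_injective) ((q : ℤ) ^ j)
    rw [h3]
    congr 1
    simp
  unfold mult
  rw [h1, h2, e1, e1]

lemma half_of_index {t r : ℕ → ℕ} {N : ℕ∞} (h1 : 1 ≤ N) (hN : N ≠ 1)
    (h : Tendsto (fun n => (t n : ℝ≥0∞) / r n) atTop (𝓝 (N : ℝ≥0∞))) : AtMostHalf r t := by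
  intro ε hε
  have h2 : (2 : ℝ≥0∞) ≤ N := by
    have h3 : (2 : ℕ∞) ≤ N := by
      have h4 : (1 : ℕ∞) < N := lt_of_le_of_ne h1 (Ne.symm hN)
      exact Order.add_one_le_of_lt h4
    exact_mod_cast h3
  set δ : ℝ := min ε 1 with hδ
  have hδ0 : 0 < δ := lt_min hε one_pos
  have hδ1 : δ ≤ 1 := min_le_right _ _
  have hδ2 : δ ≤ ε := min_le_left _ _
  have h3 : ENNReal.ofReal (2 - δ) < (N : ℝ≥0∞) := by
    refine lt_of_lt_of_le ?_ h2
    have h4 : (2 : ℝ≥0∞) = ENNReal.ofReal 2 := by simp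
    rw [h4]
    exact (ENNReal.ofReal_lt_ofReal_iff (by norm_num)).2 (by linarith)
  have h4 := h.eventually (lt_mem_nhds h3)
  obtain ⟨n₀, hn₀⟩ := eventually_atTop.1 h4
  refine ⟨n₀, fun n hn => ?_⟩
  have h5 := hn₀ n hn
  rcases Nat.eq_zero_or_pos (r n) with h6 | h6
  · rw [h6, Nat.cast_zero]
    positivity
  · have h7 : ENNReal.ofReal (2 - δ) * (r n : ℝ≥0∞) ≤ t n := by
      rw [← ENNReal.le_div_iff_mul_le (Or.inl (by exact_mod_cast h6.ne'))
        (Or.inl (ENNReal.natCast_ne_top _))]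
      exact h5.le
    have h8 : (2 - δ) * (r n : ℝ) ≤ t n := by
      have h9 : ENNReal.ofReal ((2 - δ) * (r n : ℝ)) ≤ ENNReal.ofReal (t n : ℝ) := by
        rw [ENNReal.ofReal_mul (by linarith), ENNReal.ofReal_natCast, ENNReal.ofReal_natCast]
        exact h7
      exact (ENNReal.ofReal_le_ofReal_iff (Nat.cast_nonneg _)).1 h9
    have h10 : (0 : ℝ) ≤ r n := Nat.cast_nonneg _
    have h11 : (1 : ℝ) ≤ (1 / 2 + ε) * (2 - δ) := by nlinarith
    calc (r n : ℝ) = 1 * r n := (one_mul _).symm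
      _ ≤ ((1 / 2 + ε) * (2 - δ)) * r n := mul_le_mul_of_nonneg_right h11 h10
      _ = (1 / 2 + ε) * ((2 - δ) * r n) := by ring
      _ ≤ _ := mul_le_mul_of_nonneg_left h8 (by positivity)

/-- **The index law for two cohomology theories.** -/
theorem same_index (hW : Acts φ q W) (hV : Acts φ q V) (hWV : SamePolynomials φ W V)
    (X : 𝒱.Obj) [Nontrivial (W.H X)] [Nontrivial (V.H X)] : ∃ N : ℕ∞, 1 ≤ N ∧
      Tendsto (fun n => (poleOrder φ q W (Half.pw X n) : ℝ≥0∞) / cycRank ops (Half.pw X n)) atTop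
        (𝓝 (N : ℝ≥0∞)) ∧
      Tendsto (fun n => (tateDim φ q W (Half.pw X n) : ℝ≥0∞) / cycRank ops (Half.pw X n)) atTop
        (𝓝 (N : ℝ≥0∞)) ∧
      Tendsto (fun n => (tateDim φ q V (Half.pw X n) : ℝ≥0∞) / cycRank ops (Half.pw X n)) atTop
        (𝓝 (N : ℝ≥0∞)) ∧
      (N = 1 ↔ ∀ n, (∀ j, Tate φ q W (Half.pw X n) j) ∧ HomEqNum W (Half.pw X n)) ∧
      (N = 1 ↔ ∀ n, (∀ j, Tate φ q V (Half.pw X n) j) ∧ HomEqNum V (Half.pw X n)) ∧
      (N ≠ 1 → AtMostHalf (fun n => cycRank ops (Half.pw X n))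
        (fun n => tateDim φ q W (Half.pw X n))) ∧
      (N ≠ ⊤ → ∀ n, HomEqNum W (Half.pw X n) ∧ HomEqNum V (Half.pw X n) ∧
        IsSemisimple (frob φ W (Half.pw X n)) ∧ IsSemisimple (frob φ V (Half.pw X n))) := by
  obtain ⟨N, h1, h2, h3, h4, h5⟩ := index_one hW X
  obtain ⟨M, k1, k2, k3, k4, k5⟩ := index_one hV X
  have hNM : N = M := by
    simp only [← poleOrder_same hWV] at k2
    exact_mod_cast tendsto_nhds_unique h2 k2
  subst hNM
  exact ⟨N, h1, h2, h3, k3, h4, k4, fun hN => half_of_index h1 hN h3,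
    fun hN n => ⟨(h5 hN n).1, (k5 hN n).1, (h5 hN n).2, (k5 hN n).2⟩⟩

end Pool.Agent.Y133.Crys
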