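import Pool.Agent.Y133.Half.HdgDefs

/-!
# Absolute Hodge classes: definitions

In the intended use `k` is an algebraically closed field with a fixed embedding into `ℂ`, the
varieties are the smooth projective ones over `k`, `W` is the cohomology with rational coefficients
of the complex manifolds obtained by the fixed embedding, and the Weil cohomology `V s` is the one
obtained by another embedding `s` of `k` into `ℂ`. Classes `a` of `H^(2 j)` for `W` and `b` for `V s`
are related if `(2 π i) ^ j a` and `(2 π i) ^ j b` have the same de Rham component (and the twisted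
classes have the same étale component).
-/

open CategoryTheory AlgebraicGeometry

universe u v

namespace Pool.Agent.Y133.Abs

open Pool.Agent.H914

section Alg

/-- The formal properties of the relation `R j` between the elements of degree `2 j` of two algebras
over two fields: it is stable under sums, scalar multiplication and products, and contains the pairs
in `Z j` (the pairs of the two classes of an algebraic cycle of codimension `j`). -/
structure IsRelation (K L : Type*) {A B : Type*} [Field K] [Field L] [Ring A] [Algebra K A]
    [Ring B] [Algebra L B] (Z R : ℕ → A → B → Prop) : Prop where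
  add : ∀ {j a a' b b'}, R j a b → R j a' b' → R j (a + a') (b + b')
  smul : ∀ r : K, ∃ t : L, ∀ {j a b}, R j a b → R j (r • a) (t • b)
  mul : ∀ {i j a a' b b'}, R i a b → R j a' b' → R (i + j) (a * a') (b * b')
  cyc : ∀ {j a b}, Z j a b → R j a b

variable {K L A B : Type*} [Field K] [Field L] [Ring A] [Algebra K A] [Ring B] [Algebra L B]

/-- The element `M` satisfies the hard Lefschetz theorem, and elements of degree `2 j` are related
if their products with `L ^ (d - 2 j)` and `M ^ (d - 2 j)` are related. -/
structure IsDivisible (G : ℕ → Submodule K A) (G' : ℕ → Submodule L B) (d : ℕ)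
    (R : ℕ → A → B → Prop) (l : A) (m : B) : Prop where
  hard : HardLef G' d (LinearMap.mulLeft L m)
  div : ∀ j, 2 * j ≤ d → ∀ a ∈ G (2 * j), ∀ b ∈ G' (2 * j),
    R (d - j) (l ^ (d - 2 * j) * a) (m ^ (d - 2 * j) * b) → R j a b

variable {A' B' : Type*} [Ring A'] [Algebra K A'] [Ring B'] [Algebra L B']

/-- If `a` and `b` are related in degree `2 j` then `f a` and `g b` are related in degree `2 j`. -/
def Preserves (R : ℕ → A → B → Prop) (R' : ℕ → A' → B' → Prop) (f : A →ₐ[K] A')
    (g : B →ₐ[L] B') : Prop :=
  ∀ j a b, R j a b → R' j (f a) (g b)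

/-- If `a` and `b` are related in degree `2 j` then `f a` and `g b` are related in degree `2 l`,
where `l + m = j + n`. -/
def Shifts (R : ℕ → A → B → Prop) (R' : ℕ → A' → B' → Prop) (m n : ℕ) (f : A →ₗ[K] A')
    (g : B →ₗ[L] B') : Prop :=
  ∀ j l a b, l + m = j + n → R j a b → R' l (f a) (g b)

end Alg

open Pool.Agent.H914.VarClass Pool.Agent.H914.VarClass.Obj Pool.Agent.H914.WeilCohomology
open Pool.Agent.Y129 (pw genBy)
open Pool.Agent.Y133.Half (dimOf)
open Pool.Agent.Y133.Hdg

variable {k : Type u} [Field k] {𝒱 : VarClass k} {ops : CycleOps 𝒱}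

/-- The class of the cycle `z`. -/
noncomputable def cyc (W : WeilCohomology.{u, v} ops) (X : 𝒱.Obj) (z : X.Cycles) : W.H X := W.cl X z

/-- The elements `a` and `b` are the two classes of an algebraic cycle of codimension `j`. -/
def cycPair (W V : WeilCohomology.{u, v} ops) (X : 𝒱.Obj) (j : ℕ) (a : W.H X) (b : V.H X) : Prop :=
  ∃ z, X.IsCyc j z ∧ cyc W X z = a ∧ cyc V X z = b

/-- A comparison between two Weil cohomologies: relations between the classes of degree `2 j`,
stable under sums, scalar multiplication, products, pull-backs and push-forwards, which hold for the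
two classes of an algebraic cycle. -/
structure Comparison (W V : WeilCohomology.{u, v} ops) where
  /-- the relation for the classes of degree `2 j` on `X` -/
  rel : ∀ X : 𝒱.Obj, ℕ → W.H X → V.H X → Prop
  form : ∀ X, IsRelation W.K V.K (cycPair W V X) (rel X)
  map : ∀ {X Y : 𝒱.Obj} (f : X ⟶ Y), Preserves (rel Y) (rel X) (W.map f) (V.map f)
  push : ∀ {X Y : 𝒱.Obj} (f : X ⟶ Y), Shifts (rel X) (rel Y) X.dim Y.dim (W.push f) (V.push f)

/-- The other embeddings: Weil cohomologies `V s` with Hodge structures and comparisons with `W`,
such that each variety carries a divisor (an ample one) whose class in `W` satisfies the hard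
Lefschetz theorem and the Hodge-Riemann relations, and whose class in `V s` satisfies the hard
Lefschetz theorem and is compatible with the comparison. -/
structure Conjugates (W : WeilCohomology.{u, v} ops) [Algebra W.K ℝ] (Ψ : HodgeStr W) where
  /-- the set of the embeddings -/
  S : Type
  /-- the cohomology for another embedding -/
  V : S → WeilCohomology.{u, v} ops
  /-- its coefficients are real numbers -/
  real : ∀ s, Algebra (V s).K ℝ
  /-- its Hodge structures -/
  hodge : ∀ s, HodgeStr (V s)
  /-- the comparisons -/
  cmp : ∀ s, Comparison W (V s)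
  polar : ∀ X : 𝒱.Obj, ∃ z : X.Cycles, X.IsCyc 1 z ∧
    IsPolarization (W.gr X) X.dim (W.tr X) (Ψ.h X) (cyc W X z) ∧
    ∀ s, IsDivisible (W.gr X) ((V s).gr X) X.dim ((cmp s).rel X) (cyc W X z) (cyc (V s) X z)

variable {W : WeilCohomology.{u, v} ops} [Algebra W.K ℝ] {Ψ : HodgeStr W}

/-- The Hodge classes for the embedding `s`. -/
def ConjHodge (C : Conjugates W Ψ) (s : C.S) (X : 𝒱.Obj) (j : ℕ) (c : (C.V s).H X) : Prop :=
  letI := C.real s
  IsHodge (C.hodge s) X j c

/-- The absolute Hodge classes of degree `2 j`: the Hodge classes which for every embedding `s` are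
related to a Hodge class. -/
def IsAbsHodge (C : Conjugates W Ψ) (X : 𝒱.Obj) (j : ℕ) (c : W.H X) : Prop :=
  IsHodge Ψ X j c ∧ ∀ s, ∃ b, (C.cmp s).rel X j c b ∧ ConjHodge C s X j b

/-- All absolute Hodge classes of degree `2 j` on `X` are algebraic. -/
def AbsAlgebraic (C : Conjugates W Ψ) (X : 𝒱.Obj) (j : ℕ) : Prop :=
  ∀ c, IsAbsHodge C X j c → c ∈ spanCycles W X j

/-- The dimension of the space spanned by the absolute Hodge classes of all degrees. -/
noncomputable def absDim (C : Conjugates W Ψ) (X : 𝒱.Obj) : ℕ :=
  dimOf W {c | ∃ j, IsAbsHodge C X j c}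

/-- There are `r` absolute Hodge classes on powers of `X`, where `r + 1 ≤ N`, such that all absolute
Hodge classes on all powers of `X` are linear combinations of classes of algebraic cycles and of
images of these `r` classes under algebraic correspondences. -/
def AbsGenerated (C : Conjugates W Ψ) (X : 𝒱.Obj) (N : ℕ∞) : Prop :=
  ∃ (r : ℕ) (c : Fin r → Σ m, W.H (pw X m)), (r : ℕ∞) + 1 ≤ N ∧
    (∀ i, ∃ j, IsAbsHodge C (pw X (c i).1) j (c i).2) ∧
    ∀ n j z, IsAbsHodge C (pw X n) j z → z ∈ genBy W X c n

end Pool.Agent.Y133.Abs
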