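import Pool.Agent.Y133.Half.HodgeSys

/-!
# The intersection pairing on the Hodge classes is nondegenerate
-/

open CategoryTheory AlgebraicGeometry

open scoped TensorProduct

universe u v

namespace Pool.Agent.Y133.Half

open Module
open Pool.Agent.H914 Pool.Agent.H914.VarClass Pool.Agent.H914.VarClass.Obj
  Pool.Agent.H914.WeilCohomology Pool.Agent.W536.RR Pool.Agent.H281R3.HT

variable {k : Type u} [Field k] {𝒱 : VarClass k} {ops : CycleOps 𝒱}
  {W : WeilCohomology.{u, v} ops} [Algebra W.K ℝ] {X Y Z : 𝒱.Obj} {Ψ : HodgeSystem W}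

lemma hl_inj {D : X.Cycles} (hHL : HardLefschetz W X D) {i : ℕ} (hi : i ≤ X.dim) {x : W.H X}
    (hx : x ∈ W.gr X i) (h : W.cl X D ^ (X.dim - i) * x = 0) : x = 0 := by
  apply (hHL i hi).1 x hx
  rw [LinearMap.pow_mulLeft, LinearMap.mulLeft_apply, h]

lemma hl_surj {D : X.Cycles} (hHL : HardLefschetz W X D) {i : ℕ} (hi : i ≤ X.dim) {v : W.H X}
    (hv : v ∈ W.gr X (2 * X.dim - i)) : ∃ x ∈ W.gr X i, W.cl X D ^ (X.dim - i) * x = v := by
  obtain ⟨x, hx, h⟩ := (hHL i hi).2 v hv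
  rw [LinearMap.pow_mulLeft, LinearMap.mulLeft_apply] at h
  exact ⟨x, hx, h⟩

/-- The Lefschetz isomorphism is an isomorphism on the Hodge classes. -/
lemma hodge_lift {D : X.Cycles} (hD : X.IsCyc 1 D) (hHL : HardLefschetz W X D) {j : ℕ}
    (hj : 2 * j ≤ X.dim) {v : W.H X} (hv : IsHodge Ψ X (X.dim - j) v) :
    ∃ x, IsHodge Ψ X j x ∧ W.cl X D ^ (X.dim - 2 * j) * x = v := by
  have h0 : v ∈ W.gr X (2 * X.dim - 2 * j) := by
    have := hv.1
    rwa [show 2 * (X.dim - j) = 2 * X.dim - 2 * j by omega] at this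
  obtain ⟨x, hx, hxv⟩ := hl_surj hHL hj h0
  refine ⟨x, ⟨hx, fun t => ?_⟩, hxv⟩
  have hw : IsHodge Ψ X (1 * (X.dim - 2 * j)) (W.cl X D ^ (X.dim - 2 * j)) :=
    (IsHodge.cl hD).pow _
  rw [one_mul] at hw
  rw [← sub_eq_zero]
  apply mulR_inj (i := 2 * j) (w := W.cl X D ^ (X.dim - 2 * j))
    (fun y hy h => hl_inj hHL hj hy h)
  · exact Submodule.sub_mem _ (Ψ.gr_mem t hx)
      (Submodule.smul_mem _ _ (Submodule.tmul_mem_baseChange_of_mem _ hx))
  · have h1 := hv.2 t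
    have h2 : (1 : ℝ) ⊗ₜ[W.K] v = (1 ⊗ₜ[W.K] (W.cl X D ^ (X.dim - 2 * j))) * (1 ⊗ₜ[W.K] x) := by
      rw [Algebra.TensorProduct.tmul_mul_tmul, one_mul, hxv]
    rw [h2, map_mul, hw.2 t, smul_mul_assoc] at h1
    have h3 : ‖(t : ℂ)‖ ^ (2 * (X.dim - j)) =
        ‖(t : ℂ)‖ ^ (2 * (X.dim - 2 * j)) * ‖(t : ℂ)‖ ^ (2 * j) := by
      rw [← pow_add]; congr 1; omega
    rw [h3, mul_smul] at h1
    have h4 := smul_right_injective _ (norm_ne t (2 * (X.dim - 2 * j))) h1
    rw [mul_sub, sub_eq_zero, h4, mul_smul_comm]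

/-- The decomposition of a Hodge class. -/
lemma hodge_decomp {D : X.Cycles} (hD : X.IsCyc 1 D) (hHL : HardLefschetz W X D) {j : ℕ}
    (hj : 2 * (j + 1) ≤ X.dim) {x : W.H X} (hx : IsHodge Ψ X (j + 1) x) :
    ∃ y, IsHodge Ψ X j y ∧
      W.cl X D ^ (X.dim - 2 * (j + 1) + 1) * (x - W.cl X D * y) = 0 := by
  have hw : IsHodge Ψ X (1 * (X.dim - 2 * (j + 1) + 1)) (W.cl X D ^ (X.dim - 2 * (j + 1) + 1)) :=
    (IsHodge.cl hD).pow _
  have hv := hw.mul hx
  rw [show 1 * (X.dim - 2 * (j + 1) + 1) + (j + 1) = X.dim - j by omega] at hv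
  obtain ⟨y, hy, hyv⟩ := hodge_lift hD hHL (j := j) (by omega) hv
  refine ⟨y, hy, ?_⟩
  rw [mul_sub, ← mul_assoc, ← pow_succ, sub_eq_zero, ← hyv]
  congr 2
  omega

/-- **The Hodge index theorem** for the Hodge classes. -/
lemma hodge_star {D : X.Cycles} (hD : X.IsCyc 1 D) (hHL : HardLefschetz W X D)
    (hpos : ∀ j, 2 * j ≤ X.dim → ∀ x, IsHodge Ψ X j x →
      W.cl X D ^ (X.dim - 2 * j + 1) * x = 0 → x ≠ 0 →
      0 < (-1 : ℝ) ^ j * algebraMap W.K ℝ (W.tr X (W.cl X D ^ (X.dim - 2 * j) * x * x))) (j : ℕ) :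
    2 * j ≤ X.dim → ∀ x, IsHodge Ψ X j x → ∃ x', IsHodge Ψ X j x' ∧ (x ≠ 0 →
      0 < (-1 : ℝ) ^ j * algebraMap W.K ℝ
        (W.tr X (W.cl X D ^ (X.dim - 2 * j) * x * x'))) := by
  induction j with
  | zero =>
    intro hj x hx
    refine ⟨x, hx, hpos 0 hj x hx ?_⟩
    have hw : IsHodge Ψ X (1 * (X.dim - 2 * 0 + 1)) (W.cl X D ^ (X.dim - 2 * 0 + 1)) :=
      (IsHodge.cl hD).pow _
    have h1 := (hw.mul hx).1
    rw [W.gr_eq_bot X _ (by omega)] at h1
    exact (Submodule.mem_bot _).1 h1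
  | succ j ih =>
    intro hj x hx
    obtain ⟨y, hy, hprim⟩ := hodge_decomp hD hHL hj hx
    obtain ⟨y', hy', hyy⟩ := ih (by omega) y hy
    set w := W.cl X D with hw
    obtain ⟨x₀, hx₀⟩ : ∃ x₀, x₀ = x - w * y := ⟨_, rfl⟩
    rw [← hx₀] at hprim
    have hwH : IsHodge Ψ X 1 w := IsHodge.cl hD
    have hwy : IsHodge Ψ X (j + 1) (w * y) := by
      have := hwH.mul hy; rwa [add_comm] at this
    have hwy' : IsHodge Ψ X (j + 1) (w * y') := by
      have := hwH.mul hy'; rwa [add_comm] at this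
    have hx₀H : IsHodge Ψ X (j + 1) x₀ := by rw [hx₀]; exact hx.sub hwy
    refine ⟨x₀ - w * y', hx₀H.sub hwy', fun hne => ?_⟩
    set m := X.dim - 2 * (j + 1) with hm
    have hwc : ∀ a, w * a = a * w := W.even_comm hwH.1
    have hx₀c : ∀ a, x₀ * a = a * x₀ := W.even_comm hx₀H.1
    have e1 : w ^ m * x * (x₀ - w * y') = w ^ m * x₀ * x₀ - w ^ (m + 2) * y * y' := by
      have h1 : x = x₀ + w * y := by rw [hx₀]; abel
      have h2 : w ^ m * x₀ * (w * y') = 0 := by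
        rw [← mul_assoc, mul_assoc (w ^ m), ← hwc, ← mul_assoc, ← pow_succ, hprim, zero_mul]
      have h3 : w ^ m * (w * y) * x₀ = 0 := by
        rw [← mul_assoc, ← pow_succ, mul_assoc, ← hx₀c, ← mul_assoc, hprim, zero_mul]
      have h4 : w ^ m * (w * y) * (w * y') = w ^ (m + 2) * y * y' := by
        rw [← mul_assoc (w ^ m * (w * y)), ← mul_assoc (w ^ m), mul_assoc (w ^ m * w) y w, ← hwc y,
          ← mul_assoc (w ^ m * w), ← pow_succ, ← pow_succ]
      have h5 : w ^ m * x * (x₀ - w * y') = w ^ m * (x₀ + w * y) * (x₀ - w * y') := by rw [← h1]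
      rw [h5, mul_add, add_mul, mul_sub, mul_sub, h2, h3, h4]
      abel
    have e2 : m + 2 = X.dim - 2 * j := by omega
    rw [e1, e2, map_sub, map_sub, mul_sub, pow_succ]
    have e3 : (-1 : ℝ) ^ j * -1 * algebraMap W.K ℝ (W.tr X (w ^ m * x₀ * x₀)) -
        (-1 : ℝ) ^ j * -1 * algebraMap W.K ℝ (W.tr X (w ^ (X.dim - 2 * j) * y * y')) =
        (-1 : ℝ) ^ (j + 1) * algebraMap W.K ℝ (W.tr X (w ^ m * x₀ * x₀)) +
        (-1 : ℝ) ^ j * algebraMap W.K ℝ (W.tr X (w ^ (X.dim - 2 * j) * y * y')) := by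
      rw [pow_succ]; ring
    rw [e3]
    have hA : x₀ ≠ 0 → 0 < (-1 : ℝ) ^ (j + 1) *
        algebraMap W.K ℝ (W.tr X (w ^ m * x₀ * x₀)) := fun h => hpos (j + 1) hj x₀ hx₀H hprim h
    rcases eq_or_ne x₀ 0 with h0 | h0
    · rcases eq_or_ne y 0 with h1 | h1
      · exfalso
        apply hne
        have h2 : x = x₀ + w * y := by rw [hx₀]; abel
        rw [h2, h0, h1, mul_zero, add_zero]
      · have h2 := hyy h1
        rw [h0]
        simpa using h2
    · rcases eq_or_ne y 0 with h1 | h1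
      · have h2 := hA h0
        rw [h1]
        simpa using h2
      · exact add_pos (hA h0) (hyy h1)

/-- The intersection pairing on the Hodge classes is nondegenerate. -/
lemma hodge_nondeg {j l : ℕ} (hjl : j + l = X.dim) {x : W.H X} (hx : IsHodge Ψ X j x)
    (h : ∀ y, IsHodge Ψ X l y → W.tr X (x * y) = 0) : x = 0 := by
  obtain ⟨D, hD, hHL, hpos⟩ := Ψ.polar X
  have hpos' : ∀ j, 2 * j ≤ X.dim → ∀ x, IsHodge Ψ X j x →
      W.cl X D ^ (X.dim - 2 * j + 1) * x = 0 → x ≠ 0 →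
      0 < (-1 : ℝ) ^ j * algebraMap W.K ℝ (W.tr X (W.cl X D ^ (X.dim - 2 * j) * x * x)) :=
    fun j hj x hx => hpos j hj x hx.1 hx.2
  have hw : ∀ n, IsHodge Ψ X n (W.cl X D ^ n) := fun n => by
    have := (IsHodge.cl (Ψ := Ψ) hD).pow n; rwa [one_mul] at this
  by_cases h2j : 2 * j ≤ X.dim
  · by_contra hne
    obtain ⟨x', hx', hp⟩ := hodge_star hD hHL hpos' j h2j x hx
    have h1 := hp hne
    have h2 : IsHodge Ψ X l (W.cl X D ^ (X.dim - 2 * j) * x') := by
      have := (hw (X.dim - 2 * j)).mul hx'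
      rwa [show X.dim - 2 * j + j = l by omega] at this
    have h3 : W.cl X D ^ (X.dim - 2 * j) * x * x' = x * (W.cl X D ^ (X.dim - 2 * j) * x') := by
      rw [W.even_comm (hw _).1, mul_assoc]
    rw [h3, h _ h2, map_zero, mul_zero] at h1
    exact lt_irrefl _ h1
  · have hj' : j = X.dim - l := by omega
    subst hj'
    obtain ⟨x₁, hx₁, rfl⟩ := hodge_lift hD hHL (j := l) (by omega) hx
    obtain ⟨x', hx', hp⟩ := hodge_star hD hHL hpos' l (by omega) x₁ hx₁
    by_cases hne : x₁ = 0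
    · rw [hne, mul_zero]
    · have h1 := hp hne
      rw [h _ hx', map_zero, mul_zero] at h1
      exact absurd h1 (lt_irrefl _)

/-- The space spanned by the Hodge classes of all degrees. -/
def hodgeSpan (Ψ : HodgeSystem W) (X : 𝒱.Obj) : Submodule W.K (W.H X) :=
  Submodule.span W.K {c | ∃ j, IsHodge Ψ X j c}

lemma hodgeDim_eq : hodgeDim Ψ X = finrank W.K (hodgeSpan Ψ X) := rfl

lemma hodgeSpan.of {j : ℕ} {x : W.H X} (h : IsHodge Ψ X j x) : x ∈ hodgeSpan Ψ X :=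
  Submodule.subset_span ⟨j, h⟩

lemma IsHodge.smul {j : ℕ} {x : W.H X} (hx : IsHodge Ψ X j x) (c : W.K) :
    IsHodge Ψ X j (c • x) :=
  ⟨Submodule.smul_mem _ _ hx.1, fun t => by
    rw [TensorProduct.tmul_smul, ← algebraMap_smul ℝ c ((1 : ℝ) ⊗ₜ[W.K] x), map_smul, hx.2,
      smul_comm]⟩

lemma hodgeSpan.ind {q : W.H X → Prop} (h : ∀ j x, IsHodge Ψ X j x → q x) (h0 : q 0)
    (hadd : ∀ x y, q x → q y → q (x + y)) {x : W.H X} (hx : x ∈ hodgeSpan Ψ X) : q x := by
  have key : ∀ z, z ∈ Submodule.span W.K {c : W.H X | ∃ j, IsHodge Ψ X j c} →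
      (q z ∧ ∀ c : W.K, q (c • z)) := by
    intro z hz
    induction hz using Submodule.span_induction with
    | mem x hx => obtain ⟨j, hj⟩ := hx; exact ⟨h j x hj, fun c => h j _ (hj.smul c)⟩
    | zero => exact ⟨h0, fun c => by rw [smul_zero]; exact h0⟩
    | add x y _ _ hx hy =>
      exact ⟨hadd x y hx.1 hy.1, fun c => by rw [smul_add]; exact hadd _ _ (hx.2 c) (hy.2 c)⟩
    | smul c x _ hx => exact ⟨hx.2 c, fun d => by rw [smul_smul]; exact hx.2 _⟩
  exact (key x hx).1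

lemma hodgeSpan.proj {x : W.H X} (hx : x ∈ hodgeSpan Ψ X) (j : ℕ) :
    IsHodge Ψ X j (H914.proj (W.isInternal X) (2 * j) x) := by
  refine hodgeSpan.ind (q := fun x => IsHodge Ψ X j (H914.proj (W.isInternal X) (2 * j) x))
    ?_ ?_ ?_ hx
  · intro i x hx
    by_cases h : i = j
    · subst h
      rw [proj_same _ hx.1]; exact hx
    · rw [proj_ne _ hx.1 (by omega)]; exact IsHodge.zero
  · rw [map_zero]; exact IsHodge.zero
  · intro x y hx hy
    rw [map_add]; exact hx.add hy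

lemma hodgeSpan.even {x : W.H X} (hx : x ∈ hodgeSpan Ψ X) : x ∈ PH W X 0 := by
  refine hodgeSpan.ind (q := fun x => x ∈ PH W X 0) ?_ ?_ ?_ hx
  · intro j x hx; exact PH.of' (by omega) hx.1
  · exact Submodule.zero_mem _
  · intro x y hx hy; exact Submodule.add_mem _ hx hy

lemma hodgeSpan.nondeg {x : W.H X} (hx : x ∈ hodgeSpan Ψ X)
    (h : ∀ y ∈ hodgeSpan Ψ X, W.tr X (x * y) = 0) : x = 0 := by
  have key : ∀ (j l : ℕ), j + l = X.dim → ∀ y ∈ W.gr X (2 * l),
      W.tr X (x * y) = W.tr X (H914.proj (W.isInternal X) (2 * j) x * y) := by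
    intro j l hjl y hy
    refine gr_induction (W.isInternal X) (p := fun x => W.tr X (x * y) =
      W.tr X (H914.proj (W.isInternal X) (2 * j) x * y)) ?_ ?_ x
    · intro i a ha
      by_cases hi : i = 2 * j
      · subst hi
        rw [proj_same _ ha]
      · rw [proj_ne _ ha hi, zero_mul, map_zero]
        exact W.tr_eq_zero (W.mul_mem ha hy) (by omega)
    · intro a b ha hb
      rw [add_mul, map_add, ha, hb, map_add, add_mul, map_add]
  have h0 : ∀ j l, j + l = X.dim → H914.proj (W.isInternal X) (2 * j) x = 0 := by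
    intro j l hjl
    refine hodge_nondeg hjl (hodgeSpan.proj hx j) fun y hy => ?_
    rw [← key j l hjl y hy.1]
    exact h y (hodgeSpan.of hy)
  apply W.nondeg
  intro b
  refine gr_induction (W.isInternal X) (p := fun b => W.tr X (x * b) = 0) ?_ ?_ b
  · intro i b hb
    rcases Nat.even_or_odd' i with ⟨l, rfl | rfl⟩
    · by_cases hl' : l ≤ X.dim
      · rw [key (X.dim - l) l (by omega) b hb, h0 (X.dim - l) l (by omega), zero_mul, map_zero]
      · rw [W.gr_eq_bot X (2 * l) (by omega)] at hb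
        rw [(Submodule.mem_bot _).1 hb, mul_zero, map_zero]
    · exact PH.tr_odd (PH.mul (hodgeSpan.even hx) (PH.of hb)) (by omega)
  · intro a b ha hb
    rw [mul_add, map_add, ha, hb, add_zero]

variable (Ψ)

/-- The system of the Hodge classes. -/
noncomputable def hodgeSys : Sys W where
  C Z := hodgeSpan Ψ Z
  even := hodgeSpan.even
  one Z := hodgeSpan.of IsHodge.one
  mul {Z c d} hc hd := by
    refine hodgeSpan.ind (q := fun c => c * d ∈ hodgeSpan Ψ Z) ?_ ?_ ?_ hc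
    · intro j x hx
      refine hodgeSpan.ind (q := fun d => x * d ∈ hodgeSpan Ψ Z) ?_ ?_ ?_ hd
      · intro l y hy; exact hodgeSpan.of (hx.mul hy)
      · rw [mul_zero]; exact Submodule.zero_mem _
      · intro a b ha hb; rw [mul_add]; exact Submodule.add_mem _ ha hb
    · rw [zero_mul]; exact Submodule.zero_mem _
    · intro a b ha hb; rw [add_mul]; exact Submodule.add_mem _ ha hb
  map {X Y} f c hc := by
    refine hodgeSpan.ind (q := fun c => W.map f c ∈ hodgeSpan Ψ X) ?_ ?_ ?_ hc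
    · intro j x hx; exact hodgeSpan.of (hx.map f)
    · rw [map_zero]; exact Submodule.zero_mem _
    · intro a b ha hb; rw [map_add]; exact Submodule.add_mem _ ha hb
  push {X Y} f c hc := by
    refine hodgeSpan.ind (q := fun c => W.push f c ∈ hodgeSpan Ψ Y) ?_ ?_ ?_ hc
    · intro j x hx
      by_cases hd : X.dim ≤ j + Y.dim
      · exact hodgeSpan.of (hx.push f hd)
      · have h1 := W.push_mem f hx.1
        rw [grZ_of_neg (by push_cast; omega)] at h1
        rw [(Submodule.mem_bot _).1 h1]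
        exact Submodule.zero_mem _
    · rw [map_zero]; exact Submodule.zero_mem _
    · intro a b ha hb; rw [map_add]; exact Submodule.add_mem _ ha hb

lemma alg_le_hodge (Z : 𝒱.Obj) : (algSys W).C Z ≤ (hodgeSys Ψ).C Z := by
  intro c hc
  change c ∈ hodgeSpan Ψ Z
  refine algSpan_induction (p := fun c => c ∈ hodgeSpan Ψ Z) ?_ ?_ ?_ ?_ hc
  · exact Submodule.zero_mem _
  · intro a b ha hb; exact Submodule.add_mem _ ha hb
  · intro t a ha; exact Submodule.smul_mem _ _ ha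
  · intro j z hz
    exact hodgeSpan.of (IsHodge.cl hz)

/-- **The zero-one-half law for Hodge classes.** -/
theorem hodge_half (X : 𝒱.Obj) :
    (∀ n j, HodgeIn Ψ (pw X n) j) ∨ ∀ ε : ℝ, 0 < ε → ∃ n₀ : ℕ, ∀ n ≥ n₀,
      (finrank W.K (algSpan W (pw X n)) : ℝ) ≤
        (1 / 2 + ε) * finrank W.K (hodgeSpan Ψ (pw X n)) := by
  rcases (algSys W).half (hodgeSys Ψ) (alg_le_hodge Ψ) X fun n x hx h =>
    hodgeSpan.nondeg hx h with h | h
  · left
    intro n j c hc
    refine spanCycles_of_algSpan ?_ hc.1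
    have h1 : c ∈ (hodgeSys Ψ).C (pw X n) := hodgeSpan.of hc
    rw [← h n] at h1
    exact h1
  · exact Or.inr h

end Pool.Agent.Y133.Half
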