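import Pool.Agent.Y133.Half.PredSys
import Pool.Agent.Y133.Half.HodgeHR

/-!
# Classes of cohomology classes with Hodge-Riemann relations
-/

open CategoryTheory AlgebraicGeometry Filter Topology

open scoped ENNReal

universe u v

namespace Pool.Agent.Y133.Half

open Module
open Pool.Agent.H914 Pool.Agent.H914.VarClass Pool.Agent.H914.VarClass.Obj
  Pool.Agent.H914.WeilCohomology Pool.Agent.W458.MF Pool.Agent.W536.RR Pool.Agent.H281R3.HT

variable {k : Type u} [Field k] {𝒱 : VarClass k} {ops : CycleOps 𝒱}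
  {W : WeilCohomology.{u, v} ops} [Algebra W.K ℝ] {X Y Z : 𝒱.Obj}

namespace ClassPred

variable {Q : ClassPred W}

omit [Algebra W.K ℝ] in
lemma neg {j : ℕ} {a : W.H X} (ha : Q.P X j a) : Q.P X j (-a) := by
  have := Q.smul (-1 : W.K) ha; simpa using this

omit [Algebra W.K ℝ] in
lemma sub {j : ℕ} {a b : W.H X} (ha : Q.P X j a) (hb : Q.P X j b) : Q.P X j (a - b) := by
  rw [sub_eq_add_neg]; exact Q.add ha (neg hb)

omit [Algebra W.K ℝ] in
lemma one (X : 𝒱.Obj) : Q.P X 0 (1 : W.H X) := by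
  rw [← W.cl_fund]
  exact Q.cl X.V.fundCycle_mem

omit [Algebra W.K ℝ] in
lemma pow {i : ℕ} {a : W.H X} (ha : Q.P X i a) (n : ℕ) : Q.P X (i * n) (a ^ n) := by
  induction n with
  | zero => rw [pow_zero, Nat.mul_zero]; exact one X
  | succ n ih => rw [pow_succ]; exact Q.mul ih ha

/-- The classes of `Q` on `X` are stable under the inverses of the Lefschetz isomorphisms for the
divisor `D`, and the primitive ones satisfy the Hodge-Riemann relations. -/
structure HR (Q : ClassPred W) (X : 𝒱.Obj) (D : X.Cycles) : Prop where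
  cyc : X.IsCyc 1 D
  lift : ∀ j, 2 * j ≤ X.dim → ∀ v, Q.P X (X.dim - j) v →
    ∃ x, Q.P X j x ∧ W.cl X D ^ (X.dim - 2 * j) * x = v
  pos : ∀ j, 2 * j ≤ X.dim → ∀ x, Q.P X j x → W.cl X D ^ (X.dim - 2 * j + 1) * x = 0 → x ≠ 0 →
    0 < (-1 : ℝ) ^ j * algebraMap W.K ℝ (W.tr X (W.cl X D ^ (X.dim - 2 * j) * x * x))

lemma HR.decomp {D : X.Cycles} (h : HR Q X D) {j : ℕ}
    (hj : 2 * (j + 1) ≤ X.dim) {x : W.H X} (hx : Q.P X (j + 1) x) :
    ∃ y, Q.P X j y ∧ W.cl X D ^ (X.dim - 2 * (j + 1) + 1) * (x - W.cl X D * y) = 0 := by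
  have hw : Q.P X (1 * (X.dim - 2 * (j + 1) + 1)) (W.cl X D ^ (X.dim - 2 * (j + 1) + 1)) :=
    pow (Q.cl h.cyc) _
  have hv := Q.mul hw hx
  rw [show 1 * (X.dim - 2 * (j + 1) + 1) + (j + 1) = X.dim - j by omega] at hv
  obtain ⟨y, hy, hyv⟩ := h.lift j (by omega) _ hv
  refine ⟨y, hy, ?_⟩
  rw [mul_sub, ← mul_assoc, ← pow_succ, sub_eq_zero, ← hyv]
  congr 2
  omega

/-- **The Hodge index theorem.** -/
lemma HR.star {D : X.Cycles} (h : HR Q X D) (j : ℕ) :
    2 * j ≤ X.dim → ∀ x, Q.P X j x → ∃ x', Q.P X j x' ∧ (x ≠ 0 →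
      0 < (-1 : ℝ) ^ j * algebraMap W.K ℝ
        (W.tr X (W.cl X D ^ (X.dim - 2 * j) * x * x'))) := by
  induction j with
  | zero =>
    intro hj x hx
    refine ⟨x, hx, h.pos 0 hj x hx ?_⟩
    have hw : Q.P X (1 * (X.dim - 2 * 0 + 1)) (W.cl X D ^ (X.dim - 2 * 0 + 1)) :=
      pow (Q.cl h.cyc) _
    have h1 := Q.gr (Q.mul hw hx)
    rw [W.gr_eq_bot X _ (by omega)] at h1
    exact (Submodule.mem_bot _).1 h1
  | succ j ih =>
    intro hj x hx
    obtain ⟨y, hy, hprim⟩ := h.decomp hj hx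
    obtain ⟨y', hy', hyy⟩ := ih (by omega) y hy
    set w := W.cl X D with hw
    obtain ⟨x₀, hx₀⟩ : ∃ x₀, x₀ = x - w * y := ⟨_, rfl⟩
    rw [← hx₀] at hprim
    have hwH : Q.P X 1 w := Q.cl h.cyc
    have hwy : Q.P X (j + 1) (w * y) := by
      have := Q.mul hwH hy; rwa [add_comm] at this
    have hwy' : Q.P X (j + 1) (w * y') := by
      have := Q.mul hwH hy'; rwa [add_comm] at this
    have hx₀H : Q.P X (j + 1) x₀ := by rw [hx₀]; exact sub hx hwy
    refine ⟨x₀ - w * y', sub hx₀H hwy', fun hne => ?_⟩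
    set m := X.dim - 2 * (j + 1) with hm
    have hwc : ∀ a, w * a = a * w := W.even_comm (Q.gr hwH)
    have hx₀c : ∀ a, x₀ * a = a * x₀ := W.even_comm (Q.gr hx₀H)
    have e1 : w ^ m * x * (x₀ - w * y') = w ^ m * x₀ * x₀ - w ^ (m + 2) * y * y' := by
      have h1 : x = x₀ + w * y := by rw [hx₀]; abel
      have h2 : w ^ m * x₀ * (w * y') = 0 := by
        rw [← mul_assoc, mul_assoc (w ^ m), ← hwc, ← mul_assoc, ← pow_succ, hprim, zero_mul]
      have h3 : w ^ m * (w * y) * x₀ = 0 := by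
        rw [← mul_assoc, ← pow_succ, mul_assoc, ← hx₀c, ← mul_assoc, hprim, zero_mul]
      have h4 : w ^ m * (w * y) * (w * y') = w ^ (m + 2) * y * y' := by
        rw [← mul_assoc (w ^ m * (w * y)), ← mul_assoc (w ^ m), mul_assoc (w ^ m * w) y w, ← hwc y,
          ← mul_assoc (w ^ m * w), ← pow_succ, ← pow_succ]
      have h5 : w ^ m * x * (x₀ - w * y') = w ^ m * (x₀ + w * y) * (x₀ - w * y') := by rw [← h1]
      rw [h5, mul_add, add_mul, mul_sub, mul_sub, h2, h3, h4]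
      abel
    have e2 : m + 2 = X.dim - 2 * j := by omega
    rw [e1, e2, map_sub, map_sub, mul_sub, pow_succ]
    have e3 : (-1 : ℝ) ^ j * -1 * algebraMap W.K ℝ (W.tr X (w ^ m * x₀ * x₀)) -
        (-1 : ℝ) ^ j * -1 * algebraMap W.K ℝ (W.tr X (w ^ (X.dim - 2 * j) * y * y')) =
        (-1 : ℝ) ^ (j + 1) * algebraMap W.K ℝ (W.tr X (w ^ m * x₀ * x₀)) +
        (-1 : ℝ) ^ j * algebraMap W.K ℝ (W.tr X (w ^ (X.dim - 2 * j) * y * y')) := by
      rw [pow_succ]; ring
    rw [e3]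
    have hA : x₀ ≠ 0 → 0 < (-1 : ℝ) ^ (j + 1) *
        algebraMap W.K ℝ (W.tr X (w ^ m * x₀ * x₀)) := fun h' => h.pos (j + 1) hj x₀ hx₀H hprim h'
    rcases eq_or_ne x₀ 0 with h0 | h0
    · rcases eq_or_ne y 0 with h1 | h1
      · exfalso
        apply hne
        have h2 : x = x₀ + w * y := by rw [hx₀]; abel
        rw [h2, h0, h1, mul_zero, add_zero]
      · have h2 := hyy h1
        rw [h0]
        simpa using h2
    · rcases eq_or_ne y 0 with h1 | h1
      · have h2 := hA h0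
        rw [h1]
        simpa using h2
      · exact add_pos (hA h0) (hyy h1)

/-- The intersection pairing on the classes is nondegenerate. -/
lemma HR.nondeg_aux {D : X.Cycles} (hHR : HR Q X D) {j l : ℕ} (hjl : j + l = X.dim) {x : W.H X}
    (hx : Q.P X j x) (h : ∀ y, Q.P X l y → W.tr X (x * y) = 0) : x = 0 := by
  have hw : ∀ n, Q.P X n (W.cl X D ^ n) := fun n => by
    have := pow (Q.cl hHR.cyc) n; rwa [one_mul] at this
  by_cases h2j : 2 * j ≤ X.dim
  · by_contra hne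
    obtain ⟨x', hx', hp⟩ := hHR.star j h2j x hx
    have h1 := hp hne
    have h2 : Q.P X l (W.cl X D ^ (X.dim - 2 * j) * x') := by
      have := Q.mul (hw (X.dim - 2 * j)) hx'
      rwa [show X.dim - 2 * j + j = l by omega] at this
    have h3 : W.cl X D ^ (X.dim - 2 * j) * x * x' = x * (W.cl X D ^ (X.dim - 2 * j) * x') := by
      rw [W.even_comm (Q.gr (hw _)), mul_assoc]
    rw [h3, h _ h2, map_zero, mul_zero] at h1
    exact lt_irrefl _ h1
  · have hj' : j = X.dim - l := by omega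
    subst hj'
    obtain ⟨x₁, hx₁, rfl⟩ := hHR.lift l (by omega) _ hx
    obtain ⟨x', hx', hp⟩ := hHR.star l (by omega) x₁ hx₁
    by_cases hne : x₁ = 0
    · rw [hne, mul_zero]
    · have h1 := hp hne
      rw [h _ hx', map_zero, mul_zero] at h1
      exact absurd h1 (lt_irrefl _)

lemma HR.nondeg {D : X.Cycles} (hHR : HR Q X D) : Sys.Nondeg Q.sys X := by
  intro x hx h
  have key : ∀ (j l : ℕ), j + l = X.dim → ∀ y ∈ W.gr X (2 * l),
      W.tr X (x * y) = W.tr X (H914.proj (W.isInternal X) (2 * j) x * y) := by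
    intro j l hjl y hy
    refine gr_induction (W.isInternal X) (p := fun x => W.tr X (x * y) =
      W.tr X (H914.proj (W.isInternal X) (2 * j) x * y)) ?_ ?_ x
    · intro i a ha
      by_cases hi : i = 2 * j
      · subst hi
        rw [proj_same _ ha]
      · rw [proj_ne _ ha hi, zero_mul, map_zero]
        exact W.tr_eq_zero (W.mul_mem ha hy) (by omega)
    · intro a b ha hb
      rw [add_mul, map_add, ha, hb, map_add, add_mul, map_add]
  have h0 : ∀ j l, j + l = X.dim → H914.proj (W.isInternal X) (2 * j) x = 0 := by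
    intro j l hjl
    refine hHR.nondeg_aux hjl (sp_proj hx j) fun y hy => ?_
    rw [← key j l hjl y (Q.gr hy)]
    exact h y (sp_of hy)
  apply W.nondeg
  intro b
  refine gr_induction (W.isInternal X) (p := fun b => W.tr X (x * b) = 0) ?_ ?_ b
  · intro i b hb
    rcases Nat.even_or_odd' i with ⟨l, rfl | rfl⟩
    · by_cases hl' : l ≤ X.dim
      · rw [key (X.dim - l) l (by omega) b hb, h0 (X.dim - l) l (by omega), zero_mul, map_zero]
      · rw [W.gr_eq_bot X (2 * l) (by omega)] at hb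
        rw [(Submodule.mem_bot _).1 hb, mul_zero, map_zero]
    · exact PH.tr_odd (PH.mul (sp_even hx) (PH.of hb)) (by omega)
  · intro a b ha hb
    rw [mul_add, map_add, ha, hb, add_zero]

end ClassPred

omit [Algebra W.K ℝ] in
lemma algDim_pw' (X : 𝒱.Obj) (n : ℕ) : algDim W (Pool.Agent.Y129.pw X n) =
    finrank W.K (algSpan W (pw X n)) := by
  rw [algDim_eq]
  exact (algSys W).finrank_C_iso (pwIso129 X n)

omit [Algebra W.K ℝ] in
/-- The space spanned by the classes of `Q`. -/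
lemma ClassPred.dim_pw (Q : ClassPred W) (X : 𝒱.Obj) (n : ℕ) :
    dimOf W {c | ∃ j, Q.P (Pool.Agent.Y129.pw X n) j c} = finrank W.K (Q.sys.C (pw X n)) :=
  Q.sys.finrank_C_iso (pwIso129 X n)

/-- **The index and half law** for a class of cohomology classes with Hodge-Riemann relations. -/
theorem ClassPred.hr_index (Q : ClassPred W) (hHR : ∀ X, ∃ D, Q.HR X D) (X : 𝒱.Obj)
    [Nontrivial (W.H X)] : ∃ N : ℕ∞, 1 ≤ N ∧
      Tendsto (fun n => (dimOf W {c | ∃ j, Q.P (Pool.Agent.Y129.pw X n) j c} : ℝ≥0∞) /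
        cycRank ops (Pool.Agent.Y129.pw X n)) atTop (𝓝 (N : ℝ≥0∞)) ∧
      (∀ n, (dimOf W {c | ∃ j, Q.P (Pool.Agent.Y129.pw X (2 * n + 1)) j c} : ℝ≥0∞) /
        cycRank ops (Pool.Agent.Y129.pw X (2 * n + 1)) ≤ (N : ℝ≥0∞)) ∧
      (N = 1 ↔ ∀ n j c, Q.P (Pool.Agent.Y129.pw X n) j c →
        c ∈ spanCycles W (Pool.Agent.Y129.pw X n) j) ∧
      (N ≠ 1 → AtMostHalf (fun n => algDim W (Pool.Agent.Y129.pw X n))
        (fun n => dimOf W {c | ∃ j, Q.P (Pool.Agent.Y129.pw X n) j c})) ∧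
      (N ≠ ⊤ → (∀ n, HomEqNum W (Pool.Agent.Y129.pw X n)) ∧
        ∃ (r : ℕ) (c : Fin r → Σ m, W.H (Pool.Agent.Y129.pw X m)), (r : ℕ∞) + 1 ≤ N ∧
          (∀ i, ∃ j, Q.P (Pool.Agent.Y129.pw X (c i).1) j (c i).2) ∧
          ∀ n j z, Q.P (Pool.Agent.Y129.pw X n) j z → z ∈ Pool.Agent.Y129.genBy W X c n) := by
  obtain ⟨N, h1, h2, h3, h4, h5⟩ := Q.index X
  have h4' : N = 1 ↔ ∀ n j c, Q.P (Pool.Agent.Y129.pw X n) j c →
      c ∈ spanCycles W (Pool.Agent.Y129.pw X n) j := by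
    rw [h4]
    constructor
    · intro h n j c hc
      exact (h n).1 j c hc
    · intro h n
      refine ⟨fun j c hc => h n j c hc, ?_⟩
      rw [homEqNum_iff, eq_bot_iff]
      intro c hc
      obtain ⟨hc1, hc2⟩ := hc
      rw [Submodule.mem_bot]
      obtain ⟨D, hD⟩ := hHR (Pool.Agent.Y129.pw X n)
      have e1 := (sp_eq_iff (Q := Q) (Pool.Agent.Y129.pw X n)).2 (h n)
      refine hD.nondeg c (alg_le hc1) fun y hy => hc2 y ?_
      rw [e1] at hy
      exact hy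
  refine ⟨N, h1, h2, h3, h4', ?_, h5⟩
  intro hN ε hε
  rcases (algSys W).half Q.sys (fun _ => alg_le) X (fun n => by
    obtain ⟨D, hD⟩ := hHR (pw X n)
    exact hD.nondeg) with h | h
  · exfalso
    apply hN
    rw [h4']
    intro n
    have e1 : Q.sys.C (Pool.Agent.Y129.pw X n) = algSpan W (Pool.Agent.Y129.pw X n) := by
      apply (eq_alg_iff (T := Q.sys) (fun Z => alg_le) _).2
      have h7 := (eq_alg_iff (T := Q.sys) (fun Z => alg_le) _).1 (h n).symm
      have h8 := Q.dim_pw X n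
      have h9 := algDim_pw' (W := W) X n
      rw [algDim_eq] at h9
      rw [h9, ← h7]
      exact h8
    exact (sp_eq_iff (Q := Q) (Pool.Agent.Y129.pw X n)).1 e1
  · obtain ⟨n₀, hn₀⟩ := h ε hε
    refine ⟨n₀, fun n hn => ?_⟩
    change (algDim W (Pool.Agent.Y129.pw X n) : ℝ) ≤ (1 / 2 + ε) *
      (dimOf W {c | ∃ j, Q.P (Pool.Agent.Y129.pw X n) j c} : ℝ)
    rw [Q.dim_pw X n, algDim_pw']
    exact hn₀ n hn

end Pool.Agent.Y133.Half
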