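import Pool.Agent.Y133.Half.Hdg
import Pool.Agent.Y133.Half.HRPred
import Pool.Agent.Y133.Half.AbsDefs

/-!
# The index law for absolute Hodge classes
-/

open CategoryTheory AlgebraicGeometry Filter Topology

open scoped ENNReal

universe u v

namespace Pool.Agent.Y133.Abs

open Module
open Pool.Agent.H914 Pool.Agent.H914.VarClass Pool.Agent.H914.VarClass.Obj
  Pool.Agent.H914.WeilCohomology Pool.Agent.H281R3.HT
open Pool.Agent.Y133.Half (ClassPred cycRank dimOf algDim AtMostHalf)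
open Pool.Agent.Y133.Hdg
open Pool.Agent.Y129 (pw genBy)

variable {k : Type u} [Field k] {𝒱 : VarClass k} {ops : CycleOps 𝒱}
  {W : WeilCohomology.{u, v} ops} [Algebra W.K ℝ] {Ψ : HodgeStr W} {X Y Z : 𝒱.Obj}

variable (C : Conjugates W Ψ)

/-- The Hodge classes for the embedding `s`, as a class of cohomology classes. -/
noncomputable def conjPred (s : C.S) : ClassPred (C.V s) :=
  letI := C.real s
  hodgePred (C.hodge s)

lemma conj_iff {s : C.S} {j : ℕ} {c : (C.V s).H X} :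
    ConjHodge C s X j c ↔ (conjPred C s).P X j c := Iff.rfl

/-- The Lefschetz isomorphism and the Hodge classes. -/
lemma hodge_lift (Ψ : HodgeStr W) {D : X.Cycles} (hD : X.IsCyc 1 D)
    (hHL : HardLefschetz W X D) {j : ℕ} (hj : 2 * j ≤ X.dim) {c : W.H X}
    (hc : IsHodge Ψ X (X.dim - j) c) :
    ∃ x, IsHodge Ψ X j x ∧ W.cl X D ^ (X.dim - 2 * j) * x = c := by
  obtain ⟨x, hx, h⟩ := Half.hodge_lift (Ψ := Ψ.sys) hD hHL hj (isHodge_iff.1 hc)
  exact ⟨x, isHodge_iff.2 hx, h⟩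

lemma conj_lift (s : C.S) {D : X.Cycles} (hD : X.IsCyc 1 D)
    (hHL : HardLefschetz (C.V s) X D) {j : ℕ} (hj : 2 * j ≤ X.dim) {c : (C.V s).H X}
    (hc : ConjHodge C s X (X.dim - j) c) :
    ∃ x, ConjHodge C s X j x ∧ (C.V s).cl X D ^ (X.dim - 2 * j) * x = c := by
  let := C.real s
  exact hodge_lift (C.hodge s) hD hHL hj hc

/-- The absolute Hodge classes. -/
noncomputable def absPred : ClassPred W where
  P := IsAbsHodge C
  gr h := h.1.1
  zero {X j} := by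
    refine ⟨(hodgePred Ψ).zero, fun s => ⟨0, ?_, (conjPred C s).zero⟩⟩
    have h1 := ((C.cmp s).form X).cyc (j := j) ⟨0, SmVar.IsCyc.zero _ _, rfl, rfl⟩
    rw [cyc, cyc, map_zero, map_zero] at h1
    exact h1
  add {X j a b} ha hb := by
    refine ⟨(hodgePred Ψ).add ha.1 hb.1, fun s => ?_⟩
    obtain ⟨a', h1, h2⟩ := ha.2 s
    obtain ⟨b', h3, h4⟩ := hb.2 s
    exact ⟨a' + b', ((C.cmp s).form X).add h1 h3, (conjPred C s).add h2 h4⟩
  smul {X j} r a ha := by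
    refine ⟨(hodgePred Ψ).smul r ha.1, fun s => ?_⟩
    obtain ⟨a', h1, h2⟩ := ha.2 s
    obtain ⟨t, ht⟩ := ((C.cmp s).form X).smul r
    exact ⟨t • a', ht h1, (conjPred C s).smul t h2⟩
  cl {X j z} hz :=
    ⟨(hodgePred Ψ).cl hz, fun s => ⟨(C.V s).cl X z, ((C.cmp s).form X).cyc ⟨z, hz, rfl, rfl⟩,
      (conjPred C s).cl hz⟩⟩
  mul {X i j a b} ha hb := by
    refine ⟨(hodgePred Ψ).mul ha.1 hb.1, fun s => ?_⟩
    obtain ⟨a', h1, h2⟩ := ha.2 s
    obtain ⟨b', h3, h4⟩ := hb.2 s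
    exact ⟨a' * b', ((C.cmp s).form X).mul h1 h3, (conjPred C s).mul h2 h4⟩
  map {X Y} f {j a} ha := by
    refine ⟨(hodgePred Ψ).map f ha.1, fun s => ?_⟩
    obtain ⟨a', h1, h2⟩ := ha.2 s
    exact ⟨(C.V s).map f a', (C.cmp s).map f j _ _ h1, (conjPred C s).map f h2⟩
  push {X Y} f {j l} hl a ha := by
    refine ⟨(hodgePred Ψ).push f hl ha.1, fun s => ?_⟩
    obtain ⟨a', h1, h2⟩ := ha.2 s
    exact ⟨(C.V s).push f a', (C.cmp s).push f j l _ _ hl h1, (conjPred C s).push f hl h2⟩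

lemma abs_hr (X : 𝒱.Obj) : ∃ D, (absPred C).HR X D := by
  obtain ⟨D, hD, hpol, hdiv⟩ := C.polar X
  refine ⟨D, hD, ?_, ?_⟩
  · intro j hj c hc
    obtain ⟨x, hx, hxc⟩ := hodge_lift Ψ hD hpol.hard hj hc.1
    refine ⟨x, ⟨hx, fun s => ?_⟩, hxc⟩
    obtain ⟨b, h1, h2⟩ := hc.2 s
    obtain ⟨y, hy, hyb⟩ := conj_lift C s hD (hdiv s).hard hj h2
    refine ⟨y, (hdiv s).div j hj x hx.1 y ((conjPred C s).gr hy) ?_, hy⟩
    rw [cyc, cyc, hxc, hyb]
    exact h1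
  · intro j hj x hx
    exact hpol.pos j hj x hx.1.1 hx.1.2

/-- **The index and half law for absolute Hodge classes.** -/
theorem abs_index (X : 𝒱.Obj) [Nontrivial (W.H X)] : ∃ N : ℕ∞, 1 ≤ N ∧
      Tendsto (fun n => (absDim C (pw X n) : ℝ≥0∞) / cycRank ops (pw X n)) atTop
        (𝓝 (N : ℝ≥0∞)) ∧
      (∀ n, (absDim C (pw X (2 * n + 1)) : ℝ≥0∞) / cycRank ops (pw X (2 * n + 1)) ≤
        (N : ℝ≥0∞)) ∧
      (N = 1 ↔ ∀ n j, AbsAlgebraic C (pw X n) j) ∧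
      (N ≠ 1 → AtMostHalf (fun n => algDim W (pw X n)) (fun n => absDim C (pw X n))) ∧
      (N ≠ ⊤ → (∀ n, HomEqNum W (pw X n)) ∧ AbsGenerated C X N) :=
  (absPred C).hr_index (abs_hr C) X

end Pool.Agent.Y133.Abs
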