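import Pool.Agent.Y133.Half.DDefs
import Pool.Agent.Y133.Half.TateSS
import Pool.Agent.Y133.Half.Main2
import Pool.Agent.Y129.Law

/-!
# Zero-infinity law for numerical equivalence
-/

open CategoryTheory AlgebraicGeometry Filter Topology

universe u v

namespace Pool.Agent.Y133.Half

open Module
open Pool.Agent.H914 Pool.Agent.H914.VarClass Pool.Agent.H914.VarClass.Obj
  Pool.Agent.H914.WeilCohomology Pool.Agent.H281R3.HT

variable {k : Type u} [Field k] {𝒱 : VarClass k} {ops : CycleOps 𝒱}

lemma mem_algNum {W : WeilCohomology.{u, v} ops} {Z : 𝒱.Obj} {c : W.H Z} :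
    c ∈ (algSys W).Num Z ↔ c ∈ algSpan W Z ⊓ transcendental W Z := by
  constructor
  · rintro ⟨h1, h2⟩
    refine ⟨h1, Pool.Agent.Y129.mem_transcendental.2 fun d hd => ?_⟩
    rw [← Pool.Agent.Y129.algSpan_even h1]
    exact h2 d hd
  · rintro ⟨h1, h2⟩
    refine ⟨h1, fun d hd => ?_⟩
    rw [Pool.Agent.Y129.algSpan_even h1]
    exact Pool.Agent.Y129.mem_transcendental.1 h2 d hd

lemma numRank_add (W : WeilCohomology.{u, v} ops) (X : 𝒱.Obj) :
    Pool.Agent.Y129.numRank W X +
      Module.finrank W.K (algSpan W X ⊓ transcendental W X : Submodule W.K (W.H X)) =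
      Module.finrank W.K (algSpan W X) := by
  have h1 := LinearMap.finrank_range_add_finrank_ker
    ((transcendental W X).mkQ.domRestrict (algSpan W X))
  rw [LinearMap.range_domRestrict] at h1
  have h2 : Module.finrank W.K
      (LinearMap.ker ((transcendental W X).mkQ.domRestrict (algSpan W X))) =
      Module.finrank W.K (algSpan W X ⊓ transcendental W X : Submodule W.K (W.H X)) := by
    have h3 : (LinearMap.ker ((transcendental W X).mkQ.domRestrict (algSpan W X))).map
        (algSpan W X).subtype = algSpan W X ⊓ transcendental W X := by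
      ext x
      constructor
      · rintro ⟨⟨c, hc⟩, hc', rfl⟩
        refine ⟨hc, ?_⟩
        rw [SetLike.mem_coe, LinearMap.mem_ker, LinearMap.domRestrict_apply,
          Submodule.mkQ_apply, Submodule.Quotient.mk_eq_zero] at hc'
        exact hc'
      · rintro ⟨hx, hx'⟩
        refine ⟨⟨x, hx⟩, ?_, rfl⟩
        rw [SetLike.mem_coe, LinearMap.mem_ker, LinearMap.domRestrict_apply,
          Submodule.mkQ_apply, Submodule.Quotient.mk_eq_zero]
        exact hx'
    rw [← h3]
    exact (Submodule.equivMapOfInjective _ (Submodule.subtype_injective _) _).finrank_eq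
  rw [h2] at h1
  exact h1

lemma numDim_eq_cycRank (W : WeilCohomology.{u, v} ops) (Z : 𝒱.Obj) :
    (algSys W).a Z = cycRank ops Z := by
  have h1 := (algSys W).a_add_num Z
  have h2 := numRank_add W Z
  have h3 : (algSys W).Num Z = algSpan W Z ⊓ transcendental W Z := by
    ext c; exact mem_algNum
  have h4 : (algSys W).C Z = algSpan W Z := rfl
  rw [h3, h4] at h1
  rw [cycRank, ← Pool.Agent.Y129.numRank_eq_sum W Z]
  omega

/-- **Zero-infinity law for conjecture D.** -/
theorem d_law (W : WeilCohomology.{u, v} ops) (X : 𝒱.Obj) :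
    (∀ n, HomEqNum W (pw X n)) ∨
      Tendsto (fun n => (cycRank ops (pw X n) : ℝ) / algDim W (pw X n)) atTop (𝓝 0) := by
  rcases (algSys W).num_or (algSys W) (fun _ => le_rfl) X with h | h
  · left
    intro n
    apply Pool.Agent.Y129.homEqNum_of_algSpan
    intro c hc hc'
    have h1 : c ∈ (algSys W).Num (pw X n) := mem_algNum.2 ⟨hc, hc'⟩
    rw [h n, Submodule.mem_bot] at h1
    exact h1
  · right
    rw [Metric.tendsto_atTop]
    intro ε hε
    obtain ⟨N, hN⟩ := exists_nat_gt (1 / ε)
    obtain ⟨n₀, hn₀⟩ := h (N + 1)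
    refine ⟨n₀, fun n hn => ?_⟩
    have h1 := hn₀ n hn
    rw [numDim_eq_cycRank] at h1
    change (N + 1) * cycRank ops (pw X n) ≤ finrank W.K (algSpan W (pw X n)) at h1
    rw [← algDim_eq] at h1
    have h2 : ((N : ℝ) + 1) * cycRank ops (pw X n) ≤ algDim W (pw X n) := by exact_mod_cast h1
    have h3 : (0 : ℝ) ≤ cycRank ops (pw X n) := Nat.cast_nonneg _
    rw [Real.dist_eq, sub_zero, abs_of_nonneg (div_nonneg h3 (Nat.cast_nonneg _))]
    rcases Nat.eq_zero_or_pos (algDim W (pw X n)) with h4 | h4
    · rw [h4, Nat.cast_zero, div_zero]; exact hε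
    have h5 : (0 : ℝ) < algDim W (pw X n) := by exact_mod_cast h4
    rw [div_lt_iff₀ h5]
    have h6 : 1 < ε * N := by
      have := mul_lt_mul_of_pos_left hN hε
      rwa [mul_one_div_cancel hε.ne'] at this
    calc (cycRank ops (pw X n) : ℝ) ≤ ε * N * cycRank ops (pw X n) := by nlinarith
      _ < ε * algDim W (pw X n) := by
          rw [mul_assoc]
          apply mul_lt_mul_of_pos_left _ hε
          rcases h3.lt_or_eq with h7 | h7
          · nlinarith
          · rw [← h7]; simpa using h5

end Pool.Agent.Y133.Half
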