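import Pool.Agent.Y133.Half.Chain

/-!
# Descending sequences of classes, and lower bounds
-/

open CategoryTheory AlgebraicGeometry

universe u v

namespace Pool.Agent.Y133.Half

open Module
open Pool.Agent.H914 Pool.Agent.H914.VarClass Pool.Agent.H914.VarClass.Obj
  Pool.Agent.H914.WeilCohomology

variable {k : Type u} [Field k] {𝒱 : VarClass k} {ops : CycleOps 𝒱}
  {W : WeilCohomology.{u, v} ops} {P Q Z P' : 𝒱.Obj}

lemma xp_eq_zero_right {x : W.H P} {z : W.H Q} (hz : z ≠ 0) (h : xp W x z = 0) : x = 0 := by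
  have h1 : kappa W P Q (TensorProduct.tmul W.K x z) = 0 := by rw [kappa_tmul]; exact h
  have h2 : (TensorProduct.tmul W.K x z : TensorProduct W.K (W.H P) (W.H Q)) = 0 :=
    (kappa W P Q).map_eq_zero_iff.1 h1
  obtain ⟨f, hf⟩ := Module.Projective.exists_dual_ne_zero W.K hz
  have h3 := congrArg ((TensorProduct.rid W.K (W.H P)).toLinearMap ∘ₗ
    LinearMap.lTensor (W.H P) f) h2
  simp only [LinearMap.comp_apply, LinearMap.lTensor_tmul, map_zero, LinearEquiv.coe_coe,
    TensorProduct.rid_tmul] at h3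
  exact (smul_eq_zero.1 h3).resolve_left hf

lemma xp_eq_zero_left {x : W.H P} {z : W.H Q} (hx : x ≠ 0) (h : xp W x z = 0) : z = 0 := by
  have h1 : kappa W P Q (TensorProduct.tmul W.K x z) = 0 := by rw [kappa_tmul]; exact h
  have h2 : (TensorProduct.tmul W.K x z : TensorProduct W.K (W.H P) (W.H Q)) = 0 :=
    (kappa W P Q).map_eq_zero_iff.1 h1
  obtain ⟨f, hf⟩ := Module.Projective.exists_dual_ne_zero W.K hx
  have h3 := congrArg ((TensorProduct.lid W.K (W.H Q)).toLinearMap ∘ₗ
    LinearMap.rTensor (W.H Q) f) h2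
  simp only [LinearMap.comp_apply, LinearMap.rTensor_tmul, map_zero, LinearEquiv.coe_coe,
    TensorProduct.lid_tmul] at h3
  exact (smul_eq_zero.1 h3).resolve_left hf

lemma PH.one : (1 : W.H P) ∈ PH W P 0 := PH.of' rfl (W.one_mem P)

namespace Sys

variable (S T : Sys W)

/-- There is a descending sequence of `n + 1` classes of `T` on `P`, each obtained from the
preceding one by a numerically trivial operator, the last one not zero. -/
def Desc (P : 𝒱.Obj) (n : ℕ) : Prop :=
  ∃ w : ℕ → W.H P, (∀ j ≤ n, w j ∈ T.C P) ∧ w n ≠ 0 ∧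
    ∀ j < n, ∃ x ∈ S.NOp P P, w (j + 1) = x (w j)

variable {S T}

lemma Desc.zero (h : (1 : W.H P) ≠ 0) : Desc S T P 0 :=
  ⟨fun _ => 1, fun _ _ => T.one P, h, fun j hj => absurd hj (Nat.not_lt_zero j)⟩

lemma Desc.prod {n : ℕ} (h : Desc S T P n) (h1 : (1 : W.H Q) ≠ 0) :
    Desc S T (P.prod Q) n := by
  obtain ⟨w, hw, h0, hx⟩ := h
  refine ⟨fun j => xp W (w j) 1, fun j hj => xp_mem_C T (hw j hj) (T.one Q), fun h =>
    h0 (xp_eq_zero_right h1 h), fun j hj => ?_⟩
  obtain ⟨x, hx, e⟩ := hx j hj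
  exact ⟨_, NOp.ext_left hx, by simp only [extOp_xp, Module.End.one_apply, e]⟩

lemma Desc.succ {n : ℕ} (h : Desc S T P n) (hST : ∀ X, S.C X ≤ T.C X) {z : W.H Q}
    (hz : z ∈ S.Num Q) (hz0 : z ≠ 0) {l : W.H Q} (hl : l ∈ S.C Q) (hl1 : W.tr Q l = 1)
    : Desc S T (P.prod Q) (n + 1) := by
  obtain ⟨w, hw, h0, hx⟩ := h
  refine ⟨fun j => if j ≤ n then xp W (w j) 1 else xp W (w n) z, fun j hj => ?_, ?_,
    fun j hj => ?_⟩
  · dsimp only
    split_ifs with h
    · exact xp_mem_C T (hw j h) (T.one Q)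
    · exact xp_mem_C T (hw n le_rfl) (hST Q hz.1)
  · dsimp only
    rw [if_neg (by omega)]
    exact fun h => h0 (xp_eq_zero_right hz0 h)
  · rcases Nat.lt_succ_iff_lt_or_eq.1 hj with hj' | rfl
    · obtain ⟨x, hx, e⟩ := hx j hj'
      refine ⟨_, NOp.ext_left hx, ?_⟩
      dsimp only
      rw [if_pos (by omega), if_pos (by omega), extOp_xp, Module.End.one_apply, e]
    · refine ⟨extOp W (1 : Module.End W.K (W.H P)) (W.corr (xp W l z)), NOp.ext_right ?_, ?_⟩
      · exact NOp.corr (Num.mul' (S.map _ hl) (Num.map _ hz))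
      · dsimp only
        rw [if_neg (by omega), if_pos le_rfl, extOp_xp, Module.End.one_apply,
          corr_xp l (S.even hz.1) PH.one, mul_one, hl1, mul_zero, pow_zero, one_mul, one_smul]

/-- The subspace generated by a class. -/
noncomputable def orb (S : Sys W) (w : W.H P) : Submodule W.K (W.H P) :=
  (S.Op P P).map (LinearMap.applyₗ w)

lemma mem_orb {w x : W.H P} : x ∈ S.orb w ↔ ∃ a ∈ S.Op P P, a w = x := Submodule.mem_map

lemma orb_stable (w : W.H P) : ∀ a ∈ S.Op P P, ∀ m ∈ S.orb w, a m ∈ S.orb w := by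
  intro a ha m hm
  obtain ⟨u, hu, rfl⟩ := mem_orb.1 hm
  exact mem_orb.2 ⟨_, Op.comp ha hu, rfl⟩

lemma self_mem_orb (w : W.H P) : w ∈ S.orb w := mem_orb.2 ⟨_, Op.id, rfl⟩

/-- The chain of stable subspaces given by a descending sequence. -/
lemma Desc.chain {n : ℕ} (h : Desc S T P n) (hST : ∀ X, S.C X ≤ T.C X)
    (hnil : ∀ x ∈ S.NOp P P, IsNilpotent x) :
    ∃ M : ℕ → Submodule W.K (W.H P), (∀ j, ∀ a ∈ S.Op P P, ∀ m ∈ M j, a m ∈ M j) ∧
      (∀ j < n + 1, M j < M (j + 1)) ∧ M (n + 1) ≤ T.C P := by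
  obtain ⟨w, hw, h0, hx⟩ := h
  have hne : ∀ i, i ≤ n → w (n - i) ≠ 0 := by
    intro i
    induction i with
    | zero => intro _; simpa using h0
    | succ i ih =>
      intro hi h
      obtain ⟨x, _, e⟩ := hx (n - (i + 1)) (by omega)
      apply ih (by omega)
      have : n - i = n - (i + 1) + 1 := by omega
      rw [this, e, h, map_zero]
  refine ⟨fun j => if j = 0 then ⊥ else S.orb (w (n + 1 - j)), fun j a ha m hm => ?_,
    fun j hj => ?_, ?_⟩
  · dsimp only at hm ⊢
    split_ifs at hm ⊢ with h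
    · rw [(Submodule.mem_bot _).1 hm, map_zero]; exact Submodule.zero_mem _
    · exact orb_stable _ a ha m hm
  · dsimp only
    rw [if_neg (by omega : j + 1 ≠ 0)]
    rcases Nat.eq_zero_or_pos j with rfl | hj0
    · rw [if_pos rfl, bot_lt_iff_ne_bot]
      intro h
      have h1 := self_mem_orb (S := S) (w (n + 1 - (0 + 1)))
      rw [h, Submodule.mem_bot] at h1
      exact hne 0 (by omega) (by simpa using h1)
    · rw [if_neg (by omega)]
      obtain ⟨x, hxm, e⟩ := hx (n + 1 - (j + 1)) (by omega)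
      have e1 : n + 1 - (j + 1) + 1 = n + 1 - j := by omega
      rw [e1] at e
      refine lt_of_le_of_ne ?_ ?_
      · intro y hy
        obtain ⟨a, ha, rfl⟩ := mem_orb.1 hy
        rw [e]
        exact mem_orb.2 ⟨_, Op.comp ha (NOp.op hxm), rfl⟩
      · intro heq
        have h1 := self_mem_orb (S := S) (w (n + 1 - (j + 1)))
        rw [← heq] at h1
        obtain ⟨a, ha, h2⟩ := mem_orb.1 h1
        rw [e] at h2
        obtain ⟨N, hN⟩ := hnil _ (NOp.comp_left ha hxm)
        have h3 : ∀ i : ℕ, ((a ∘ₗ x : Module.End W.K (W.H P)) ^ i) (w (n + 1 - (j + 1))) =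
            w (n + 1 - (j + 1)) := by
          intro i
          induction i with
          | zero => rfl
          | succ i ih =>
            rw [pow_succ, Module.End.mul_apply, LinearMap.comp_apply, h2, ih]
        have h4 := h3 N
        rw [hN, LinearMap.zero_apply] at h4
        have h5 : n + 1 - (j + 1) = n - j := by omega
        rw [h5] at h4
        exact hne j (by omega) h4.symm
  · dsimp only
    rw [if_neg (by omega)]
    intro y hy
    obtain ⟨a, ha, rfl⟩ := mem_orb.1 hy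
    exact Op.apply hST ha (hw _ (by omega))

end Sys

end Pool.Agent.Y133.Half
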