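import Pool.Agent.Y133.Half.HdgDefs
import Pool.Agent.Y133.Half.PairDefs

/-!
# Motivated classes and Tate classes: definitions

In the intended use `k` is a finitely generated field of characteristic zero with an embedding into
`ℂ`, the varieties are the smooth projective geometrically irreducible ones over `k`, `V` is the
cohomology with rational coefficients of the complex manifolds obtained by the embedding, and `L` is
the field of `l`-adic numbers: the `l`-adic cohomology of `X` is `L ⊗ H(X)`. The set `Γ` is the
absolute Galois group of `k`, and `q` is the inverse of the cyclotomic character.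
-/

open CategoryTheory AlgebraicGeometry

open scoped TensorProduct

universe u v

namespace Pool.Agent.Y133.Gal

open Pool.Agent.H914 (HardLef)
open Pool.Agent.Y133.Hdg (RC IsType)

section Alg

/-- The algebra `A` with coefficients in the field `L`. -/
def Ext (L K A : Type*) [Field K] [Field L] [Algebra K L] [Ring A] [Algebra K A] := L ⊗[K] A

variable {L K : Type*} [Field K] [Field L] [Algebra K L] {A B C : Type*} [Ring A] [Algebra K A]
  [Ring B] [Algebra K B] [Ring C] [Algebra K C] {Γ : Type}

/-- The ring structure. -/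
noncomputable def extRing : Ring (Ext L K A) := (Algebra.TensorProduct.instRing : Ring (L ⊗[K] A))

noncomputable instance : Ring (Ext L K A) := extRing

/-- The structure of an algebra over `L`. -/
noncomputable def extAlgebra : Algebra L (Ext L K A) :=
  (Algebra.TensorProduct.leftAlgebra : Algebra L (L ⊗[K] A))

noncomputable instance : Algebra L (Ext L K A) := extAlgebra

/-- The element `c` of `A` as an element of the algebra with coefficients in `L`. -/
noncomputable def toExt (L : Type*) [Field L] [Algebra K L] (c : A) : Ext L K A := (1 : L) ⊗ₜ[K] c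

/-- The extension of an algebra homomorphism. -/
noncomputable def extMap (L : Type*) [Field L] [Algebra K L] (f : A →ₐ[K] B) :
    Ext L K A →ₐ[L] Ext L K B :=
  Algebra.TensorProduct.map (AlgHom.id L L) f

/-- The extension of a linear map. -/
noncomputable def extLin (L : Type*) [Field L] [Algebra K L] (f : A →ₗ[K] B) :
    Ext L K A →ₗ[L] Ext L K B :=
  (f.baseChange L : L ⊗[K] A →ₗ[L] L ⊗[K] B)

/-- The extension of a functional. -/
noncomputable def extTr (L : Type*) [Field L] [Algebra K L] (t : A →ₗ[K] K) :
    Ext L K A →ₗ[L] L :=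
  (TensorProduct.AlgebraTensorModule.rid K L L).toLinearMap ∘ₗ t.baseChange L

/-- The linear combinations of elements of `S` with coefficients in `L`. -/
noncomputable def extSpan (L : Type*) [Field L] [Algebra K L] (S : Set A) : Submodule L (Ext L K A) :=
  Submodule.span L (toExt L '' S)

/-- The endomorphisms of the algebra `A` with coefficients in `L`. -/
abbrev ExtEnd (L K A : Type*) [Field K] [Field L] [Algebra K L] [Ring A] [Algebra K A] :=
  Ext L K A →ₐ[L] Ext L K A

/-- The formal properties of the action `h` of the Galois group on the cohomology of a variety of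
dimension `d` with orientation `t`, where `q` is the inverse of the cyclotomic character: `h`
respects the degree, the element `γ` maps the elements `c` of `C j` (the classes of the algebraic
cycles of codimension `j`) to `q γ ^ j c`, and it multiplies the orientation by `q γ ^ d`. -/
structure IsGaloisAction (G : ℕ → Submodule K A) (d : ℕ) (C : ℕ → Set A) (t : A →ₗ[K] K)
    (q : Γ → L) (h : Γ → ExtEnd L K A) : Prop where
  gr : ∀ γ i, ∀ c ∈ G i, h γ (toExt L c) ∈ extSpan L (G i : Set A)
  cyc : ∀ γ j, ∀ c ∈ C j, h γ (toExt L c) = q γ ^ j • toExt L c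
  tr : ∀ γ a, extTr L t (h γ a) = q γ ^ d * extTr L t a

/-- The extension of `f` commutes with the actions. -/
def Commutes (f : A →ₐ[K] B) (h : Γ → ExtEnd L K A) (h' : Γ → ExtEnd L K B) : Prop :=
  ∀ γ a, h' γ (extMap L f a) = extMap L f (h γ a)

/-- The elements of degree `2 j` on which `γ` acts as multiplication by `q γ ^ j` for all `γ`. -/
def tateSet (G : ℕ → Submodule K A) (q : Γ → L) (h : Γ → ExtEnd L K A) (j : ℕ) :
    Set (Ext L K A) :=
  {c | c ∈ extSpan L (G (2 * j) : Set A) ∧ ∀ γ, h γ c = q γ ^ j • c}

/-- The dimension of the space spanned by the sets `T j`. -/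
noncomputable def rankAll (T : ℕ → Set (Ext L K A)) : ℕ := Set.finrank L {c | ∃ j, c ∈ T j}

/-- The elements of `T j` are linear combinations of elements of `S j`. -/
def SpannedBy (T : ℕ → Set (Ext L K A)) (S : ℕ → Set A) : Prop :=
  ∀ j, ∀ c ∈ T j, c ∈ extSpan L (S j)

/-- The elements of `P j` are of degree `2 j` and of type `(j, j)`. -/
def OfHodgeType [Algebra K ℝ] (G : ℕ → Submodule K A) (h : ℂˣ → (RC K A →ₐ[ℝ] RC K A))
    (P : ℕ → Set A) : Prop :=
  ∀ j, ∀ c ∈ P j, c ∈ G (2 * j) ∧ IsType h j c

/-- The elements of `P j` belong to `T j`. -/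
def ContainedIn (P : ℕ → Set A) (T : ℕ → Set (Ext L K A)) : Prop := ∀ j, ∀ c ∈ P j, toExt L c ∈ T j

/-- The elements of `P j` are linear combinations of elements of `C j`. -/
def InSpan (K : Type*) [Field K] [Algebra K A] (P C : ℕ → Set A) : Prop :=
  ∀ j, ∀ c ∈ P j, c ∈ Submodule.span K (C j)

/-- The elements `s (z * p a)` for the elements `z` of the sets `S j`. -/
def corrExt (p : A →ₐ[K] C) (s : C →ₗ[K] B) (S : ℕ → Set C) (a : Ext L K A) : Set (Ext L K B) :=
  {x | ∃ j, ∃ z ∈ S j, extLin L s (toExt L z * extMap L p a) = x}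

/-- The elements of `T j` are linear combinations of elements of the sets `S i` and `U i`. -/
def SpannedWith {ι : Type} (T : ℕ → Set (Ext L K A)) (S : ℕ → Set A) (U : ι → Set (Ext L K A)) :
    Prop :=
  ∀ j, ∀ c ∈ T j, c ∈ extSpan L {a | ∃ i, a ∈ S i} ⊔ Submodule.span L (⋃ i, U i)

/-- The sets `P j` contain `C j` and are stable under linear combinations, products and the
inverses of the Lefschetz isomorphisms `A^(2 j) → A^(2 (d - j))`, `x ↦ l ^ (d - 2 j) x`. -/
structure IsStable (G : ℕ → Submodule K A) (d : ℕ) (C P : ℕ → Set A) : Prop where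
  cyc : ∀ j, C j ⊆ P j
  add : ∀ j, ∀ a ∈ P j, ∀ b ∈ P j, a + b ∈ P j
  smul : ∀ j, ∀ r : K, ∀ a ∈ P j, r • a ∈ P j
  mul : ∀ i j, ∀ a ∈ P i, ∀ b ∈ P j, a * b ∈ P (i + j)
  lef : ∀ j, 2 * j ≤ d → ∀ l ∈ C 1, HardLef G d (LinearMap.mulLeft K l) → ∀ x ∈ G (2 * j),
    l ^ (d - 2 * j) * x ∈ P (d - j) → x ∈ P j

/-- The pull-back `f` and the push-forward `g` respect the sets `P j` and `Q j`. -/
structure IsStableMap (m n : ℕ) (f : B →ₐ[K] A) (g : A →ₗ[K] B) (P : ℕ → Set A)
    (Q : ℕ → Set B) : Prop where
  map : ∀ j, ∀ b ∈ Q j, f b ∈ P j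
  push : ∀ j l, l + m = j + n → ∀ a ∈ P j, g a ∈ Q l

end Alg

open Pool.Agent.H914 Pool.Agent.H914.VarClass Pool.Agent.H914.VarClass.Obj
  Pool.Agent.H914.WeilCohomology
open Pool.Agent.Y133.Half (pw)
open Pool.Agent.Y133.Hdg

variable {k : Type u} [Field k] {𝒱 : VarClass k} {ops : CycleOps 𝒱}

/-- The classes `P Z j` (in the intended use: of degree `2 j`) contain the classes of algebraic
cycles and are stable under linear combinations, products, pull-backs, push-forwards and the
inverses of the Lefschetz isomorphisms. -/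
structure IsSystem (V : WeilCohomology.{u, v} ops) (P : ∀ Z : 𝒱.Obj, ℕ → Set (V.H Z)) : Prop where
  stable : ∀ Z, IsStable (V.gr Z) Z.dim (algClasses V Z) (P Z)
  map : ∀ {Y Z : 𝒱.Obj} (f : Y ⟶ Z),
    IsStableMap Y.dim Z.dim (V.map f) (V.push f) (P Y) (P Z)

/-- The motivated classes of degree `2 j` (André): the smallest system of classes on all varieties
which contains the classes of algebraic cycles and which is stable under linear combinations,
products, pull-backs, push-forwards and the inverses of the Lefschetz isomorphisms. -/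
def Motivated (V : WeilCohomology.{u, v} ops) (Z : 𝒱.Obj) (j : ℕ) : Set (V.H Z) :=
  {c | ∀ P : (∀ Z : 𝒱.Obj, ℕ → Set (V.H Z)), IsSystem V P → c ∈ P Z j}

/-- The action of a set `Γ` (the Galois group) on the cohomology with coefficients in `L`, by
algebra endomorphisms which commute with pull-backs. -/
structure Galois (V : WeilCohomology.{u, v} ops) (L : Type v) [Field L] [Algebra V.K L]
    (Γ : Type) where
  /-- the inverse of the cyclotomic character -/
  q : Γ → L
  ne : ∀ γ, q γ ≠ 0
  /-- the action -/
  h : ∀ X : 𝒱.Obj, Γ → ExtEnd L V.K (V.H X)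
  action : ∀ X, IsGaloisAction (V.gr X) X.dim (algClasses V X) (V.tr X) q (h X)
  map : ∀ {X Y : 𝒱.Obj} (f : X ⟶ Y), Commutes (V.map f) (h Y) (h X)

variable {V : WeilCohomology.{u, v} ops} {L : Type v} [Field L] [Algebra V.K L] {Γ : Type}

/-- The `l`-adic cohomology. -/
abbrev ExtH (L : Type v) (V : WeilCohomology.{u, v} ops) [Field L] [Algebra V.K L] (X : 𝒱.Obj) :
    Type v :=
  Ext L V.K (V.H X)

/-- The Tate classes of degree `2 j`: the classes in the `l`-adic cohomology of degree `2 j` on
which every element of the Galois group acts as the `j`-th power of the inverse of the cyclotomic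
character. -/
def Tate (g : Galois V L Γ) (X : 𝒱.Obj) (j : ℕ) : Set (ExtH L V X) := tateSet (V.gr X) g.q (g.h X) j

/-- The dimension of the space spanned by the Tate classes of all degrees. -/
noncomputable def tateDim (g : Galois V L Γ) (X : 𝒱.Obj) : ℕ := rankAll (Tate g X)

/-- A system of classes as it is used to define a category of motives: it consists of Hodge classes
of degree `2 j`, which are Tate classes, and it is stable under the operations. (In the intended
use: the motivated classes, or the absolute Hodge classes over `k`.) -/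
structure IsMotivic [Algebra V.K ℝ] (Ψ : HodgeStr V) (g : Galois V L Γ)
    (P : ∀ Z : 𝒱.Obj, ℕ → Set (V.H Z)) : Prop where
  sys : IsSystem V P
  hodge : ∀ Z, OfHodgeType (V.gr Z) (Ψ.h Z) (P Z)
  tate : ∀ Z, ContainedIn (P Z) (Tate g Z)

/-- The images of the class `c` on a power of `X` under the correspondences given by the classes
in `P`. -/
def imagesExt (P : ∀ Z : 𝒱.Obj, ℕ → Set (V.H Z)) (X : 𝒱.Obj) (c : Σ m, ExtH L V (pw X m)) (n : ℕ) :
    Set (ExtH L V (pw X n)) :=
  corrExt (V.map (fst (pw X c.1) (pw X n))) (V.push (snd (pw X c.1) (pw X n)))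
    (P ((pw X c.1).prod (pw X n))) c.2

/-- There are `r` Tate classes on powers of `X`, where `r + 1 ≤ N`, such that all Tate classes on
all powers of `X` are linear combinations of classes in `P` and of images of these `r` classes under
correspondences given by classes in `P`. -/
def TateGenerated (g : Galois V L Γ) (P : ∀ Z : 𝒱.Obj, ℕ → Set (V.H Z)) (X : 𝒱.Obj) (N : ℕ∞) :
    Prop :=
  ∃ (r : ℕ) (c : Fin r → Σ m, ExtH L V (pw X m)), (r : ℕ∞) + 1 ≤ N ∧
    (∀ i, ∃ j, (c i).2 ∈ Tate g (pw X (c i).1) j) ∧
    ∀ n, SpannedWith (Tate g (pw X n)) (P (pw X n)) (fun i => imagesExt P X (c i) n)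

end Pool.Agent.Y133.Gal
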