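import Pool.Agent.Y133.Half.PairPred
import Pool.Agent.Y133.Half.Abs
import Pool.Agent.Y133.Half.MotDefs
import Pool.Agent.H914R2.PDesc

/-!
# The index law for Tate classes and motivated classes
-/

open CategoryTheory AlgebraicGeometry Filter Topology

open scoped ENNReal TensorProduct

universe u v

namespace Pool.Agent.Y133.Gal

open Module
open Pool.Agent.H914 Pool.Agent.H914.VarClass Pool.Agent.H914.VarClass.Obj
  Pool.Agent.H914.WeilCohomology Pool.Agent.H281R3.HT Pool.Agent.W458.MF Pool.Agent.W536.RR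
open Pool.Agent.Y133.Half (ClassPred cycRank dimOf algDim AtMostHalf pw Sys dimBy HasIndex
  GeneratedOver genOver imagesBy)
open Pool.Agent.Y133.Hdg Pool.Agent.Y133.Abs

variable {k : Type u} [Field k] {𝒱 : VarClass k} {ops : CycleOps 𝒱}

/-- A family of operators on the cohomology of all varieties. -/
structure OpFam (W : WeilCohomology.{u, v} ops) (Γ : Type) where
  q : Γ → W.K
  ne : ∀ γ, q γ ≠ 0
  h : ∀ X : 𝒱.Obj, Γ → (W.H X →ₐ[W.K] W.H X)
  gr : ∀ {X : 𝒱.Obj} (γ : Γ) {i : ℕ} {a : W.H X}, a ∈ W.gr X i → h X γ a ∈ W.gr X i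
  cyc : ∀ {X : 𝒱.Obj} (γ : Γ) {j : ℕ} {z : X.Cycles}, X.IsCyc j z →
    h X γ (W.cl X z) = q γ ^ j • W.cl X z
  tr : ∀ {X : 𝒱.Obj} (γ : Γ) (a : W.H X), W.tr X (h X γ a) = q γ ^ X.dim * W.tr X a
  nat : ∀ {X Y : 𝒱.Obj} (γ : Γ) (f : X ⟶ Y) (a : W.H Y), W.map f (h Y γ a) = h X γ (W.map f a)

section OpFam

variable {W : WeilCohomology.{u, v} ops} {Γ : Type} {Φ : OpFam W Γ} {X Y Z : 𝒱.Obj}

lemma OpFam.injective (Φ : OpFam W Γ) (X : 𝒱.Obj) (γ : Γ) : Function.Injective (Φ.h X γ) := by
  rw [injective_iff_map_eq_zero]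
  intro a ha
  apply W.nondeg
  intro b
  have h1 := Φ.tr γ (a * b)
  rw [map_mul, ha, zero_mul, map_zero] at h1
  exact (mul_eq_zero.1 h1.symm).resolve_left (pow_ne_zero _ (Φ.ne γ))

lemma OpFam.surjective (Φ : OpFam W Γ) (X : 𝒱.Obj) (γ : Γ) : Function.Surjective (Φ.h X γ) := by
  have h1 : Function.Injective (Φ.h X γ).toLinearMap := Φ.injective X γ
  exact LinearMap.injective_iff_surjective.1 h1

lemma hlInj {D : X.Cycles} (hHL : HardLefschetz W X D) {i : ℕ} (hi : i ≤ X.dim) {x : W.H X}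
    (hx : x ∈ W.gr X i) (h : W.cl X D ^ (X.dim - i) * x = 0) : x = 0 := by
  apply (hHL i hi).1 x hx
  rw [LinearMap.pow_mulLeft, LinearMap.mulLeft_apply, h]

lemma hlSurj {D : X.Cycles} (hHL : HardLefschetz W X D) {i : ℕ} (hi : i ≤ X.dim) {v : W.H X}
    (hv : v ∈ W.gr X (2 * X.dim - i)) : ∃ x ∈ W.gr X i, W.cl X D ^ (X.dim - i) * x = v := by
  obtain ⟨x, hx, h⟩ := (hHL i hi).2 v hv
  rw [LinearMap.pow_mulLeft, LinearMap.mulLeft_apply] at h
  exact ⟨x, hx, h⟩

lemma OpFam.push (Φ : OpFam W Γ) (γ : Γ) (f : X ⟶ Y) (x : W.H X) :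
    (Φ.q γ ^ Y.dim) • W.push f (Φ.h X γ x) = (Φ.q γ ^ X.dim) • Φ.h Y γ (W.push f x) := by
  apply W.tr_ext
  intro z
  obtain ⟨y, rfl⟩ := Φ.surjective Y γ z
  have e1 := Φ.tr γ (x * W.map f y)
  have e2 := Φ.tr γ (W.push f x * y)
  rw [map_mul, ← Φ.nat] at e1
  rw [map_mul, W.tr_push] at e2
  rw [smul_mul_assoc, smul_mul_assoc, map_smul, map_smul, W.tr_push, e1, e2, smul_eq_mul,
    smul_eq_mul]
  ring

/-- The classes of degree `2 j` on which `γ` acts as multiplication by `q γ ^ j`. -/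
def OpFam.P (Φ : OpFam W Γ) (X : 𝒱.Obj) (j : ℕ) (c : W.H X) : Prop :=
  c ∈ W.gr X (2 * j) ∧ ∀ γ, Φ.h X γ c = Φ.q γ ^ j • c

/-- These classes form a class of cohomology classes. -/
noncomputable def OpFam.pred (Φ : OpFam W Γ) : ClassPred W where
  P := Φ.P
  gr hc := hc.1
  zero := ⟨Submodule.zero_mem _, fun γ => by rw [map_zero, smul_zero]⟩
  add ha hb := ⟨Submodule.add_mem _ ha.1 hb.1, fun γ => by
    rw [map_add, ha.2, hb.2, smul_add]⟩
  smul r a ha := ⟨Submodule.smul_mem _ _ ha.1, fun γ => by rw [map_smul, ha.2, smul_comm]⟩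
  cl hz := ⟨W.cl_mem hz, fun γ => Φ.cyc γ hz⟩
  mul {X i j a b} ha hb := ⟨by rw [mul_add]; exact W.mul_mem ha.1 hb.1, fun γ => by
    rw [map_mul, ha.2, hb.2, smul_mul_assoc, mul_smul_comm, smul_smul, pow_add]⟩
  map f j a ha := ⟨W.map_mem f ha.1, fun γ => by rw [← Φ.nat, ha.2, map_smul]⟩
  push {X Y} f {j l} hl a ha := by
    refine ⟨?_, fun γ => ?_⟩
    · have h5 := W.push_mem f ha.1
      rwa [show ((2 * j : ℕ) : ℤ) + 2 * ((Y.dim : ℤ) - X.dim) = ((2 * l : ℕ) : ℤ) by
        push_cast; omega, grZ_natCast] at h5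
    · have h1 := Φ.push γ f a
      rw [ha.2, map_smul, smul_smul, ← pow_add] at h1
      have h2 : (Φ.q γ ^ X.dim) ≠ 0 := pow_ne_zero _ (Φ.ne γ)
      rw [show Y.dim + j = X.dim + l by omega, pow_add, mul_smul] at h1
      exact (smul_right_injective _ h2 h1).symm

/-- Division by a power of a Lefschetz operator. -/
lemma OpFam.div {D : X.Cycles} (hD : X.IsCyc 1 D) (hHL : HardLefschetz W X D) {j : ℕ}
    (hj : 2 * j ≤ X.dim) {x : W.H X} (hx : x ∈ W.gr X (2 * j))
    (h : Φ.P X (X.dim - j) (W.cl X D ^ (X.dim - 2 * j) * x)) : Φ.P X j x := by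
  refine ⟨hx, fun γ => ?_⟩
  rw [← sub_eq_zero]
  apply hlInj hHL hj (Submodule.sub_mem _ (Φ.gr γ hx) (Submodule.smul_mem _ _ hx))
  have h1 := h.2 γ
  rw [map_mul, map_pow, Φ.cyc γ hD, pow_one, smul_pow, smul_mul_assoc] at h1
  have h2 : (Φ.q γ ^ (X.dim - 2 * j)) ≠ 0 := pow_ne_zero _ (Φ.ne γ)
  rw [show X.dim - j = (X.dim - 2 * j) + j by omega, pow_add (Φ.q γ), mul_smul] at h1
  have h3 := smul_right_injective _ h2 h1
  rw [mul_sub, h3, mul_smul_comm, sub_self]

end OpFam

variable {V : WeilCohomology.{u, v} ops} {X Y Z : 𝒱.Obj}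

/-- The system of classes with the property `P`. -/
noncomputable def sysPred {P : ∀ Z : 𝒱.Obj, ℕ → Set (V.H Z)} (hP : IsSystem V P)
    (hgr : ∀ Z j, ∀ c ∈ P Z j, c ∈ V.gr Z (2 * j)) : ClassPred V where
  P Z j c := c ∈ P Z j
  gr {X j c} hc := hgr X j c hc
  zero {X j} := by
    have h := (hP.stable X).smul j 0 _ ((hP.stable X).cyc j ⟨_, SmVar.IsCyc.zero X.V j, rfl⟩)
    rwa [zero_smul] at h
  add {X j a b} ha hb := (hP.stable X).add j a ha b hb
  smul {X j} r {a} ha := (hP.stable X).smul j r a ha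
  cl {X j z} hz := (hP.stable X).cyc j ⟨z, hz, rfl⟩
  mul {X i j a b} ha hb := (hP.stable X).mul i j a ha b hb
  map {X Y} f {j a} ha := (hP.map f).map j a ha
  push {X Y} f {j l} hl {a} ha := (hP.map f).push j l hl a ha

/-- The classes in even degrees form a system. -/
lemma gr_system (V : WeilCohomology.{u, v} ops) :
    IsSystem V (fun Z j => {c | c ∈ V.gr Z (2 * j)}) where
  stable Z :=
    { cyc := by rintro j _ ⟨z, hz, rfl⟩; exact V.cl_mem hz
      add := fun j a ha b hb => Submodule.add_mem _ ha hb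
      smul := fun j r a ha => Submodule.smul_mem _ r ha
      mul := fun i j a ha b hb => by
        change a * b ∈ V.gr Z (2 * (i + j))
        rw [mul_add]; exact V.mul_mem ha hb
      lef := fun j _ l _ _ x hx _ => hx }
  map {Y Z} f :=
    { map := fun j b hb => V.map_mem f hb
      push := fun j l hl a ha => by
        have h5 := V.push_mem f (show a ∈ V.gr Y (2 * j) from ha)
        rwa [show ((2 * j : ℕ) : ℤ) + 2 * ((Z.dim : ℤ) - Y.dim) = ((2 * l : ℕ) : ℤ) by
          push_cast; omega, grZ_natCast] at h5 }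

/-- Motivated classes form a system. -/
lemma mot_system (V : WeilCohomology.{u, v} ops) : IsSystem V (Motivated V) where
  stable Z :=
    { cyc := fun j c hc P hP => (hP.stable Z).cyc j hc
      add := fun j a ha b hb P hP => (hP.stable Z).add j a (ha P hP) b (hb P hP)
      smul := fun j r a ha P hP => (hP.stable Z).smul j r a (ha P hP)
      mul := fun i j a ha b hb P hP => (hP.stable Z).mul i j a (ha P hP) b (hb P hP)
      lef := fun j hj l hl hHL x hx hlx P hP =>
        (hP.stable Z).lef j hj l hl hHL x hx (hlx P hP) }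
  map {Y Z} f :=
    { map := fun j b hb P hP => (hP.map f).map j b (hb P hP)
      push := fun j l hl a ha P hP => (hP.map f).push j l hl a (ha P hP) }

/-! ### Hodge-Riemann relations -/

lemma hodge_system [Algebra V.K ℝ] (Ψ : HodgeStr V) :
    IsSystem V (fun Z j => {c | IsHodge Ψ Z j c}) where
  stable Z :=
    { cyc := by rintro j _ ⟨z, hz, rfl⟩; exact (hodgePred Ψ).cl hz
      add := fun j a ha b hb => (hodgePred Ψ).add ha hb
      smul := fun j r a ha => (hodgePred Ψ).smul r ha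
      mul := fun i j a ha b hb => (hodgePred Ψ).mul ha hb
      lef := by
        rintro j hj _ ⟨D, hD, rfl⟩ hHL x hx h
        obtain ⟨y, hy, hyx⟩ := hodge_lift Ψ hD hHL hj h
        have h1 := hlInj hHL hj (Submodule.sub_mem _ hx hy.1) (by rw [mul_sub, hyx, sub_self])
        change IsHodge Ψ Z j x
        rw [sub_eq_zero.1 h1]
        exact hy }
  map {Y Z} f :=
    { map := fun j b hb => (hodgePred Ψ).map f hb
      push := fun j l hl a ha => (hodgePred Ψ).push f hl ha }

lemma sys_hr [Algebra V.K ℝ] (Ψ : HodgeStr V) {P : ∀ Z : 𝒱.Obj, ℕ → Set (V.H Z)}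
    (hP : IsSystem V P) (hH : ∀ Z j, ∀ c ∈ P Z j, IsHodge Ψ Z j c) (X : 𝒱.Obj) :
    ∃ D, (sysPred hP fun Z j c hc => (hH Z j c hc).1).HR X D := by
  obtain ⟨l, ⟨D, hD, rfl⟩, hpol⟩ := Ψ.polar X
  refine ⟨D, hD, fun j hj v hv => ?_, fun j hj x hx => ?_⟩
  · have h0 : v ∈ V.gr X (2 * X.dim - 2 * j) := by
      have := (hH _ _ _ hv).1
      rwa [show 2 * (X.dim - j) = 2 * X.dim - 2 * j by omega] at this
    obtain ⟨x, hx, hxv⟩ := hlSurj (W := V) hpol.hard hj h0
    refine ⟨x, (hP.stable X).lef j hj _ ⟨D, hD, rfl⟩ hpol.hard x hx ?_, hxv⟩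
    rw [hxv]
    exact hv
  · have h1 := hH _ _ _ hx
    exact hpol.pos j hj x h1.1 h1.2

/-! ### Extension of the coefficients -/

variable {L : Type v} [Field L] [Algebra V.K L] {Γ : Type}

/-- The element `c` with coefficients in `L`. -/
noncomputable abbrev te (L : Type v) [Field L] [Algebra V.K L] (c : V.H X) : Ext L V.K (V.H X) :=
  toExt L c

lemma toExt_add (a b : V.H X) : te L (a + b) = te L a + te L b :=
  TensorProduct.tmul_add _ _ _

lemma toExt_zero : te L (0 : V.H X) = 0 := TensorProduct.tmul_zero _ _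

lemma toExt_mul (a b : V.H X) : te L (a * b) = te L a * te L b := by
  have h : te L a * te L b = ((1 : L) * 1) ⊗ₜ[V.K] (a * b) :=
    Algebra.TensorProduct.tmul_mul_tmul _ _ _ _
  rw [h, mul_one]; rfl

lemma toExt_smul (r : V.K) (a : V.H X) : te L (r • a) = algebraMap V.K L r • te L a := by
  have h1 : te L (r • a) = (r • (1 : L)) ⊗ₜ[V.K] a := (TensorProduct.smul_tmul r 1 a).symm
  have h2 : algebraMap V.K L r • te L a = (algebraMap V.K L r • (1 : L)) ⊗ₜ[V.K] a :=
    TensorProduct.smul_tmul' _ _ _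
  rw [h1, h2, Algebra.smul_def, smul_eq_mul]

lemma base_map (f : X ⟶ Y) (a : V.H Y) :
    (baseW V L).map f (te L a : Ext L V.K (V.H Y)) = (te L (V.map f a) : Ext L V.K (V.H X)) :=
  Algebra.TensorProduct.map_tmul _ _ _ _

lemma base_push (f : X ⟶ Y) (a : V.H X) :
    (baseW V L).push f (te L a : Ext L V.K (V.H X)) =
      (te L (V.push f a) : Ext L V.K (V.H Y)) :=
  LinearMap.baseChange_tmul _ _ _

lemma extSpan_eq (G : Submodule V.K (V.H X)) :
    extSpan L (G : Set (V.H X)) = (G.baseChange L : Submodule L (L ⊗[V.K] V.H X)) := by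
  rw [Submodule.baseChange_eq_span]
  rfl

lemma extSpan_sp (S : Set (V.H X)) :
    extSpan L S = ((Submodule.span V.K S).baseChange L : Submodule L (L ⊗[V.K] V.H X)) := by
  rw [Submodule.baseChange_span]
  rfl

lemma extSpan_ind {S : Set (V.H X)} {p : Ext L V.K (V.H X) → Prop} (h : ∀ a ∈ S, p (te L a))
    (h0 : p 0) (hadd : ∀ a b, p a → p b → p (a + b)) (hs : ∀ (r : L) a, p a → p (r • a))
    {c : Ext L V.K (V.H X)} (hc : c ∈ extSpan L S) : p c := by
  unfold extSpan at hc
  induction hc using Submodule.span_induction with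
  | mem x hx => obtain ⟨a, ha, rfl⟩ := hx; exact h a ha
  | zero => exact h0
  | add a b _ _ ha hb => exact hadd a b ha hb
  | smul r a _ ha => exact hs r a ha

/-- The action of the Galois group as a family of operators. -/
noncomputable def galFam (g : Galois V L Γ) : OpFam (baseW V L) Γ where
  q := g.q
  ne := g.ne
  h := g.h
  gr {X} γ {i a} ha := by
    have h1 : a ∈ extSpan L (V.gr X i : Set (V.H X)) := by rw [extSpan_eq]; exact ha
    have h2 : g.h X γ a ∈ extSpan L (V.gr X i : Set (V.H X)) := by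
      refine extSpan_ind (p := fun a => g.h X γ a ∈ extSpan L (V.gr X i : Set (V.H X)))
        ?_ ?_ ?_ ?_ h1
      · intro a ha; exact (g.action X).gr γ i a ha
      · rw [map_zero]; exact Submodule.zero_mem _
      · intro a b ha hb; rw [map_add]; exact Submodule.add_mem _ ha hb
      · intro r a ha; rw [map_smul]; exact Submodule.smul_mem _ _ ha
    rw [extSpan_eq] at h2
    exact h2
  cyc {X} γ {j z} hz := (g.action X).cyc γ j _ ⟨z, hz, rfl⟩
  tr {X} γ a := (g.action X).tr γ a
  nat {X Y} γ f a := (g.map f γ a).symm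

lemma tate_iff (g : Galois V L Γ) {j : ℕ} {c : Ext L V.K (V.H X)} :
    c ∈ Tate g X j ↔ (galFam g).P X j c := by
  unfold Tate tateSet OpFam.P
  rw [Set.mem_ofPred_eq, extSpan_eq]
  exact Iff.rfl

/-- The element `c` as a class for the extended cohomology. -/
noncomputable def tb (L : Type v) [Field L] [Algebra V.K L] (c : V.H X) : (baseW V L).H X :=
  te L c

lemma tb_mul (a b : V.H X) : tb L (a * b) = tb L a * tb L b := toExt_mul a b

lemma tb_pow (D : X.Cycles) (n : ℕ) : tb L (V.cl X D ^ n) = (baseW V L).cl X D ^ n := by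
  induction n with
  | zero => rw [pow_zero, pow_zero]; rfl
  | succ n ih => rw [pow_succ, pow_succ, ← ih, tb_mul]; rfl

lemma tate_div (g : Galois V L Γ) {D : X.Cycles} (hD : X.IsCyc 1 D) (hHL : HardLefschetz V X D)
    {j : ℕ} (hj : 2 * j ≤ X.dim) {x : V.H X} (hx : x ∈ V.gr X (2 * j))
    (h : te L (V.cl X D ^ (X.dim - 2 * j) * x) ∈ Tate g X (X.dim - j)) :
    te L x ∈ Tate g X j := by
  have h1 : (galFam g).P X (X.dim - j) (tb L (V.cl X D ^ (X.dim - 2 * j) * x)) :=
    (tate_iff g).1 h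
  rw [tb_mul, tb_pow] at h1
  exact (tate_iff g).2 (OpFam.div hD (base_hardLefschetz hD hHL) hj
    (Submodule.tmul_mem_baseChange_of_mem _ hx) h1)

/-- The linear combinations of classes of `Q`. -/
noncomputable def spanPred (L : Type v) [Field L] [Algebra V.K L] (Q : ClassPred V) :
    ClassPred (baseW V L) where
  P X j c := c ∈ (extSpan L {a | Q.P X j a} : Submodule L (Ext L V.K (V.H X)))
  gr {X j c} hc := by
    have h1 : (extSpan L {a | Q.P X j a} : Submodule L (Ext L V.K (V.H X))) ≤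
        extSpan L (V.gr X (2 * j) : Set (V.H X)) :=
      Submodule.span_mono (Set.image_mono fun a ha => Q.gr ha)
    have h2 := h1 hc
    rw [extSpan_eq] at h2
    exact h2
  zero := Submodule.zero_mem _
  add ha hb := Submodule.add_mem _ ha hb
  smul r a ha := Submodule.smul_mem _ r ha
  cl {X j z} hz := Submodule.subset_span ⟨V.cl X z, Q.cl hz, rfl⟩
  mul {X i j a b} ha hb := by
    have key : ∀ a b : Ext L V.K (V.H X), a ∈ extSpan L {a | Q.P X i a} →
        b ∈ extSpan L {a | Q.P X j a} → a * b ∈ extSpan L {a | Q.P X (i + j) a} := by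
      intro a b ha hb
      refine extSpan_ind (p := fun a : Ext L V.K (V.H X) =>
        a * b ∈ extSpan L {a | Q.P X (i + j) a}) ?_ ?_ ?_ ?_ ha
      · intro a ha
        refine extSpan_ind (p := fun b : Ext L V.K (V.H X) => te L a * b ∈
          extSpan L {a | Q.P X (i + j) a}) ?_ ?_ ?_ ?_ hb
        · intro b hb
          rw [← toExt_mul]
          exact Submodule.subset_span ⟨_, Q.mul ha hb, rfl⟩
        · rw [mul_zero]; exact Submodule.zero_mem _
        · intro c d hc hd; rw [mul_add]; exact Submodule.add_mem _ hc hd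
        · intro r c hc; rw [mul_smul_comm]; exact Submodule.smul_mem _ _ hc
      · rw [zero_mul]; exact Submodule.zero_mem _
      · intro c d hc hd; rw [add_mul]; exact Submodule.add_mem _ hc hd
      · intro r c hc; rw [smul_mul_assoc]; exact Submodule.smul_mem _ _ hc
    exact key a b ha hb
  map {X Y} f {j a} ha := by
    refine extSpan_ind (p := fun a : Ext L V.K (V.H Y) => (baseW V L).map f a ∈
      (extSpan L {a | Q.P X j a} : Submodule L (Ext L V.K (V.H X)))) ?_ ?_ ?_ ?_ ha
    · intro a ha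
      rw [base_map]
      exact Submodule.subset_span ⟨_, Q.map f ha, rfl⟩
    · have h : (baseW V L).map f (0 : Ext L V.K (V.H Y)) = (0 : Ext L V.K (V.H X)) := map_zero _
      rw [h]; exact Submodule.zero_mem _
    · intro c d hc hd
      have h : (baseW V L).map f (c + d : Ext L V.K (V.H Y)) =
        ((baseW V L).map f c + (baseW V L).map f d : Ext L V.K (V.H X)) := map_add _ _ _
      rw [h]; exact Submodule.add_mem _ hc hd
    · intro r c hc
      have h : (extMap L (V.map f)) (r • c) = r • (extMap L (V.map f)) c := map_smul _ _ _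
      change (extMap L (V.map f)) (r • c) ∈ _
      rw [h]; exact Submodule.smul_mem _ _ hc
  push {X Y} f {j l} hl a ha := by
    refine extSpan_ind (p := fun a : Ext L V.K (V.H X) => (baseW V L).push f a ∈
      (extSpan L {a | Q.P Y l a} : Submodule L (Ext L V.K (V.H Y)))) ?_ ?_ ?_ ?_ ha
    · intro a ha
      rw [base_push]
      exact Submodule.subset_span ⟨_, Q.push f hl ha, rfl⟩
    · have h : (baseW V L).push f (0 : Ext L V.K (V.H X)) = (0 : Ext L V.K (V.H Y)) := map_zero _
      rw [h]; exact Submodule.zero_mem _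
    · intro c d hc hd
      have h : (baseW V L).push f (c + d : Ext L V.K (V.H X)) =
        ((baseW V L).push f c + (baseW V L).push f d : Ext L V.K (V.H Y)) := map_add _ _ _
      rw [h]; exact Submodule.add_mem _ hc hd
    · intro r c hc
      have h : (extLin L (V.push f)) (r • c) = r • (extLin L (V.push f)) c := map_smul _ _ _
      change (extLin L (V.push f)) (r • c) ∈ _
      rw [h]; exact Submodule.smul_mem _ _ hc

lemma spanPred_sp (Q : ClassPred V) (X : 𝒱.Obj) :
    (spanPred L Q).sys.C X = (Q.sys.base L).C X := by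
  change Submodule.span L {c : Ext L V.K (V.H X) | ∃ j, c ∈ extSpan L {a | Q.P X j a}} =
    ((Submodule.span V.K {c | ∃ j, Q.P X j c}).baseChange L : Submodule L (L ⊗[V.K] V.H X))
  rw [← extSpan_sp]
  apply le_antisymm
  · rw [Submodule.span_le]
    rintro c ⟨j, hc⟩
    have h1 : {a | Q.P X j a} ⊆ {c | ∃ j, Q.P X j c} := fun a ha => ⟨j, ha⟩
    exact Submodule.span_mono (Set.image_mono h1) hc
  · unfold extSpan
    rw [Submodule.span_le]
    rintro _ ⟨a, ⟨j, ha⟩, rfl⟩
    exact Submodule.subset_span ⟨j, Submodule.subset_span ⟨a, ha, rfl⟩⟩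

lemma spanPred_nondeg {Q : ClassPred V} (h : Q.sys.Nondeg X) : (spanPred L Q).sys.Nondeg X := by
  intro x hx hxy
  have h1 := h.base (L := L)
  refine h1 x (by rw [← spanPred_sp]; exact hx) fun y hy => hxy y (by rw [spanPred_sp]; exact hy)

lemma spanPred_dim (Q : ClassPred V) (X : 𝒱.Obj) :
    dimBy (baseW V L) (spanPred L Q).P X = dimBy V Q.P X := by
  rw [ClassPred.dimBy_eq, ClassPred.dimBy_eq, spanPred_sp]
  exact Sys.finrank_base L X

lemma gal_dim (g : Galois V L Γ) (X : 𝒱.Obj) :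
    dimBy (baseW V L) (galFam g).pred.P X = tateDim g X := by
  have h : ({c | ∃ j, (galFam g).P X j c} : Set (Ext L V.K (V.H X))) =
      {c | ∃ j, c ∈ Tate g X j} := by
    ext c
    exact exists_congr fun j => (tate_iff g).symm
  change Set.finrank L ({c | ∃ j, (galFam g).P X j c} : Set (Ext L V.K (V.H X))) = _
  rw [h]
  rfl

/-- The classes which are Tate classes form a system. -/
lemma tate_system (g : Galois V L Γ) : IsSystem V (fun Z j => {c | te L c ∈ Tate g Z j}) where
  stable Z :=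
    { cyc := by rintro j _ ⟨z, hz, rfl⟩; exact (tate_iff g).2 ((galFam g).pred.cl hz)
      add := fun j a ha b hb => by
        change te L (a + b) ∈ Tate g Z j
        rw [toExt_add]
        exact (tate_iff g).2 ((galFam g).pred.add ((tate_iff g).1 ha) ((tate_iff g).1 hb))
      smul := fun j r a ha => by
        change te L (r • a) ∈ Tate g Z j
        rw [toExt_smul]
        exact (tate_iff g).2 ((galFam g).pred.smul (algebraMap V.K L r) ((tate_iff g).1 ha))
      mul := fun i j a ha b hb => by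
        change te L (a * b) ∈ Tate g Z (i + j)
        rw [toExt_mul]
        exact (tate_iff g).2 ((galFam g).pred.mul ((tate_iff g).1 ha) ((tate_iff g).1 hb))
      lef := by
        rintro j hj _ ⟨D, hD, rfl⟩ hHL x hx h
        exact tate_div g hD hHL hj hx h }
  map {Y Z} f :=
    { map := fun j b hb => by
        change te L (V.map f b) ∈ Tate g Y j
        rw [← base_map]
        exact (tate_iff g).2 ((galFam g).pred.map f ((tate_iff g).1 hb))
      push := fun j l hl a ha => by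
        change te L (V.push f a) ∈ Tate g Z l
        rw [← base_push]
        exact (tate_iff g).2 ((galFam g).pred.push f hl ((tate_iff g).1 ha)) }

/-- The motivated classes are a system of Hodge classes which are Tate classes. -/
theorem mot_isMotivic [Algebra V.K ℝ] (Ψ : HodgeStr V) (g : Galois V L Γ) :
    IsMotivic Ψ g (Motivated V) where
  sys := mot_system V
  hodge _ _ _ hc := hc _ (hodge_system Ψ)
  tate _ _ _ hc := hc _ (tate_system g)

lemma spanCycles_natCast (V : WeilCohomology.{u, v} ops) (X : 𝒱.Obj) (j : ℕ) :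
    spanCycles V X (j : ℤ) = Submodule.span V.K (algClasses V X j) := by
  unfold spanCycles algClasses
  congr 1
  ext c
  constructor
  · rintro ⟨p, hp, z, hz, rfl⟩
    obtain rfl : p = j := by exact_mod_cast hp
    exact ⟨z, hz, rfl⟩
  · rintro ⟨z, hz, rfl⟩
    exact ⟨j, rfl, z, hz, rfl⟩

/-- The images. -/
noncomputable abbrev imOf (P : ∀ Z : 𝒱.Obj, ℕ → V.H Z → Prop) (X : 𝒱.Obj)
    (c : Σ m, Ext L V.K (V.H (pw X m))) (n : ℕ) : Set (Ext L V.K (V.H (pw X n))) :=
  imagesExt (fun Z j => {z | P Z j z}) X c n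

lemma images_le (Q : ClassPred V) {r : ℕ} (c : Fin r → Σ m, Ext L V.K (V.H (pw X m))) (n : ℕ)
    {z : Ext L V.K (V.H (pw X n))}
    (hz : z ∈ genOver (baseW V L) (spanPred L Q).P X (r := r) c n) :
    z ∈ extSpan L {a | ∃ j, Q.P (pw X n) j a} ⊔
      Submodule.span L (⋃ i, imOf Q.P X (c i) n) := by
  let T : Submodule (baseW V L).K ((baseW V L).H (pw X n)) :=
    (extSpan L {a | ∃ j, Q.P (pw X n) j a} ⊔
      Submodule.span L (⋃ i, imOf Q.P X (c i) n) : Submodule L (Ext L V.K (V.H (pw X n))))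
  have h1 : genOver (baseW V L) (spanPred L Q).P X (r := r) c n ≤ T := by
    unfold genOver
    apply Submodule.span_le.2
    rintro z (⟨j, hz⟩ | hz)
    · have h2 : {a | Q.P (pw X n) j a} ⊆ {a | ∃ j, Q.P (pw X n) j a} := fun a ha => ⟨j, ha⟩
      have h3 : ∀ z : Ext L V.K (V.H (pw X n)), z ∈ extSpan L {a | Q.P (pw X n) j a} →
          z ∈ extSpan L {a | ∃ j, Q.P (pw X n) j a} ⊔
            Submodule.span L (⋃ i, imOf Q.P X (c i) n) := fun z hz =>
        Submodule.mem_sup_left (Submodule.span_mono (Set.image_mono h2) hz)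
      exact h3 z hz
    · have h4 : ∀ z : Ext L V.K (V.H (pw X n)),
          z ∈ Submodule.span L (⋃ i, imOf Q.P X (c i) n) →
          z ∈ extSpan L {a | ∃ j, Q.P (pw X n) j a} ⊔
            Submodule.span L (⋃ i, imOf Q.P X (c i) n) := fun z hz =>
        Submodule.mem_sup_right hz
      apply h4
      obtain ⟨i, hz⟩ := Set.mem_iUnion.1 hz
      obtain ⟨j, y, hy, rfl⟩ := hz
      let f : Ext L V.K (V.H ((pw X (c i).1).prod (pw X n))) → Ext L V.K (V.H (pw X n)) :=
        fun y => extLin L (V.push (snd (pw X (c i).1) (pw X n)))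
          (y * extMap L (V.map (fst (pw X (c i).1) (pw X n))) (c i).2)
      change f y ∈ _
      refine extSpan_ind (p := fun y => f y ∈
        Submodule.span L (⋃ i, imOf Q.P X (c i) n)) ?_ ?_ ?_ ?_ hy
      · intro a ha
        apply Submodule.subset_span
        exact Set.mem_iUnion.2 ⟨i, j, a, ha, rfl⟩
      · have : f 0 = 0 := by simp only [f]; rw [zero_mul, map_zero]
        rw [this]; exact Submodule.zero_mem _
      · intro a b ha hb
        have : f (a + b) = f a + f b := by simp only [f]; rw [add_mul, map_add]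
        rw [this]; exact Submodule.add_mem _ ha hb
      · intro r a ha
        have : f (r • a) = r • f a := by simp only [f]; rw [smul_mul_assoc, map_smul]
        rw [this]; exact Submodule.smul_mem _ _ ha
  exact h1 hz

/-- **The tower law** for Tate classes. -/
theorem gal_tower (Q : ClassPred V) (g : Galois V L Γ)
    (hT : ∀ {Z : 𝒱.Obj} {j : ℕ} {c : V.H Z}, Q.P Z j c → te L c ∈ Tate g Z j) (X : 𝒱.Obj)
    [Nontrivial (V.H X)] (hQ : ∀ n, Q.sys.Nondeg (pw X n)) :
    ∃ N M : ℕ∞, 1 ≤ N ∧ 1 ≤ M ∧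
      HasIndex (fun n => tateDim g (pw X n)) (fun n => dimBy V Q.P (pw X n)) N ∧
      HasIndex (fun n => dimBy V Q.P (pw X n)) (fun n => cycRank ops (pw X n)) M ∧
      HasIndex (fun n => tateDim g (pw X n)) (fun n => cycRank ops (pw X n)) (N * M) ∧
      (N = 1 ↔ ∀ n, SpannedBy (Tate g (pw X n)) (fun j => {z | Q.P (pw X n) j z})) ∧
      (M = 1 ↔ ∀ n j c, Q.P (pw X n) j c → c ∈ spanCycles V (pw X n) j) ∧
      (N ≠ 1 → AtMostHalf (fun n => dimBy V Q.P (pw X n)) (fun n => tateDim g (pw X n))) ∧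
      (M ≠ 1 → AtMostHalf (fun n => algDim V (pw X n)) (fun n => dimBy V Q.P (pw X n))) ∧
      (N ≠ ⊤ → TateGenerated g (fun Z j => {z | Q.P Z j z}) X N) := by
  have hNT : Nontrivial (L ⊗[V.K] V.H X) := by
    apply Module.nontrivial_of_finrank_pos (R := L)
    rw [Module.finrank_baseChange]
    exact Module.finrank_pos
  have : Nontrivial ((baseW V L).H X) := hNT
  have hQR : ∀ {Z : 𝒱.Obj} {j : ℕ} {c : (baseW V L).H Z}, (spanPred L Q).P Z j c →
      (galFam g).pred.P Z j c := by
    intro Z j c hc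
    have h1 : ∀ c : Ext L V.K (V.H Z), c ∈ extSpan L {a | Q.P Z j a} → c ∈ Tate g Z j := by
      intro c hc
      refine extSpan_ind (p := fun c => c ∈ Tate g Z j) ?_ ?_ ?_ ?_ hc
      · intro a ha; exact hT ha
      · exact (tate_iff g).2 ((galFam g).pred.zero)
      · intro a b ha hb
        exact (tate_iff g).2 ((galFam g).pred.add ((tate_iff g).1 ha) ((tate_iff g).1 hb))
      · intro r a ha
        exact (tate_iff g).2 ((galFam g).pred.smul r ((tate_iff g).1 ha))
    exact (tate_iff g).1 (h1 c hc)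
  obtain ⟨N, M', h1, -, h3, h4, h5, h6, -, h8, -, h10, -⟩ :=
    (spanPred L Q).tower (galFam g).pred hQR X fun n => spanPred_nondeg (hQ n)
  obtain ⟨-, M, -, k2, -, k4, -, -, k7, -, k9, -, -⟩ := Q.tower Q (fun h => h) X hQ
  simp only [spanPred_dim, gal_dim] at h3 h4 h5 h8
  have hM : M' = M := by
    have := tendsto_nhds_unique h4 k4
    exact_mod_cast this
  subst hM
  refine ⟨N, M', h1, k2, h3, k4, h5, h6.trans ?_, k7, h8, k9, fun hN => ?_⟩
  · refine forall_congr' fun n => forall_congr' fun j => forall_congr' fun c => ?_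
    exact imp_congr (tate_iff g).symm Iff.rfl
  · obtain ⟨r, c, hr, hc, hG⟩ := h10 hN
    refine ⟨r, c, hr, fun i => ?_, fun n j z hz => images_le Q c n (hG n j z ((tate_iff g).1 hz))⟩
    obtain ⟨j, hj⟩ := hc i
    exact ⟨j, (tate_iff g).2 hj⟩

/-- The law for systems of classes which define motives. -/
theorem motivic_tower [Algebra V.K ℝ] {Ψ : HodgeStr V} {g : Galois V L Γ}
    {P : ∀ Z : 𝒱.Obj, ℕ → Set (V.H Z)} (hP : IsMotivic Ψ g P) (X : 𝒱.Obj) [Nontrivial (V.H X)] :
    ∃ N M : ℕ∞, 1 ≤ N ∧ 1 ≤ M ∧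
      HasIndex (fun n => tateDim g (pw X n)) (fun n => dimBy V P (pw X n)) N ∧
      HasIndex (fun n => dimBy V P (pw X n)) (fun n => cycRank ops (pw X n)) M ∧
      HasIndex (fun n => tateDim g (pw X n)) (fun n => cycRank ops (pw X n)) (N * M) ∧
      (N = 1 ↔ ∀ n, SpannedBy (Tate g (pw X n)) (P (pw X n))) ∧
      (M = 1 ↔ ∀ n, InSpan V.K (P (pw X n)) (algClasses V (pw X n))) ∧
      (N ≠ 1 → AtMostHalf (fun n => dimBy V P (pw X n)) (fun n => tateDim g (pw X n))) ∧
      (M ≠ 1 → AtMostHalf (fun n => algDim V (pw X n)) (fun n => dimBy V P (pw X n))) ∧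
      (N ≠ ⊤ → TateGenerated g P X N) := by
  obtain ⟨N, M, h1, h2, h3, h4, h5, h6, h7, h8, h9, h10⟩ :=
    gal_tower (sysPred hP.sys fun Z j c hc => (hP.hodge Z j c hc).1) g
      (fun {Z j c} h => hP.tate Z j c h) X fun n => by
        obtain ⟨D, hD⟩ := sys_hr Ψ hP.sys (fun Z j c hc => hP.hodge Z j c hc) (pw X n)
        exact hD.nondeg
  refine ⟨N, M, h1, h2, h3, h4, h5, h6, ?_, h8, h9, h10⟩
  rw [h7]
  refine forall_congr' fun n => forall_congr' fun j => forall_congr' fun c => ?_
  rw [spanCycles_natCast]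
  exact Iff.rfl

end Pool.Agent.Y133.Gal
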