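import Pool.Agent.H914R2.KDefs
import Pool.Agent.Y133.Half.HalfDefs
import Pool.Agent.Y133.Half.DDefs
import Pool.Agent.Y129.GDefs

/-!
# Hodge structures on a Weil cohomology theory and Hodge classes: definitions

In the intended use `k` is the field of complex numbers, the varieties are the smooth projective
ones and `W` is the cohomology of the complex manifolds with rational coefficients, `W.K = ℚ`.
-/

open CategoryTheory AlgebraicGeometry

open scoped TensorProduct

universe u v

namespace Pool.Agent.Y133.Hdg

open Pool.Agent.H914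

section Alg

/-- The algebra `A` with real coefficients. -/
def RC (K A : Type*) [Field K] [Algebra K ℝ] [Ring A] [Algebra K A] := ℝ ⊗[K] A

variable {K : Type*} [Field K] [Algebra K ℝ] {A B : Type*} [Ring A] [Algebra K A] [Ring B]
  [Algebra K B]

/-- The ring structure. -/
noncomputable def rcRing : Ring (RC K A) := (Algebra.TensorProduct.instRing : Ring (ℝ ⊗[K] A))

noncomputable instance : Ring (RC K A) := rcRing

/-- The structure of an algebra over the real numbers. -/
noncomputable def rcAlgebra : Algebra ℝ (RC K A) :=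
  (Algebra.TensorProduct.leftAlgebra : Algebra ℝ (ℝ ⊗[K] A))

noncomputable instance : Algebra ℝ (RC K A) := rcAlgebra

/-- The element `c` of `A` as an element of the algebra with real coefficients. -/
noncomputable def toRC (c : A) : RC K A := (1 : ℝ) ⊗ₜ[K] c

/-- The extension of an algebra homomorphism to real coefficients. -/
noncomputable def mapRC (f : A →ₐ[K] B) : RC K A →ₐ[ℝ] RC K B :=
  Algebra.TensorProduct.map (AlgHom.id ℝ ℝ) f

/-- The element `c` is of type `(j, j)`: it is multiplied by `|t| ^ (2 j)` under the action `h` of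
every nonzero complex number `t`. -/
def IsType (h : ℂˣ → (RC K A →ₐ[ℝ] RC K A)) (j : ℕ) (c : A) : Prop :=
  ∀ t : ℂˣ, h t (toRC c) = (‖(t : ℂ)‖ ^ (2 * j)) • toRC c

/-- The formal properties of the action `h` of the group of the nonzero complex numbers on the
cohomology with real coefficients of a variety of dimension `d`, where `t` acts on the component
`H^(p,q)` as multiplication by `t ^ p * conj t ^ q`: it is an action by algebra automorphisms which
respects the degree, and the elements of degree `2 d` and those of `C j` (the classes of the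
algebraic cycles of codimension `j`) are of type `(d, d)` and `(j, j)`. -/
structure IsHodgeAction (G : ℕ → Submodule K A) (d : ℕ) (C : ℕ → Set A)
    (h : ℂˣ → (RC K A →ₐ[ℝ] RC K A)) : Prop where
  one : h 1 = AlgHom.id ℝ _
  mul : ∀ s t, h (s * t) = (h s).comp (h t)
  gr : ∀ t i, ∀ c ∈ G i, h t (toRC c) ∈ Submodule.span ℝ (toRC '' (G i : Set A))
  deg : ∀ c ∈ G (2 * d), IsType h d c
  cyc : ∀ j, ∀ c ∈ C j, IsType h j c

/-- The class `L` satisfies the hard Lefschetz theorem and the Hodge-Riemann relations for the
primitive elements of type `(j, j)`. -/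
structure IsPolarization (G : ℕ → Submodule K A) (d : ℕ) (t : A →ₗ[K] K)
    (h : ℂˣ → (RC K A →ₐ[ℝ] RC K A)) (L : A) : Prop where
  hard : HardLef G d (LinearMap.mulLeft K L)
  pos : ∀ j, 2 * j ≤ d → ∀ x ∈ G (2 * j), IsType h j x → L ^ (d - 2 * j + 1) * x = 0 → x ≠ 0 →
    0 < (-1 : ℝ) ^ j * algebraMap K ℝ (t (L ^ (d - 2 * j) * x * x))

/-- The extension of `f` to real coefficients commutes with the actions. -/
def Equivariant (f : A →ₐ[K] B) (h : ℂˣ → (RC K A →ₐ[ℝ] RC K A))
    (h' : ℂˣ → (RC K B →ₐ[ℝ] RC K B)) : Prop :=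
  ∀ t, (h' t).comp (mapRC f) = (mapRC f).comp (h t)

end Alg

open Pool.Agent.H914.VarClass Pool.Agent.H914.VarClass.Obj Pool.Agent.H914.WeilCohomology
open Pool.Agent.Y129 (pw genBy)
open Pool.Agent.Y133.Half (dimOf)

variable {k : Type u} [Field k] {𝒱 : VarClass k} {ops : CycleOps 𝒱}

/-- Hodge structures on the cohomology: for each variety an action of the group of nonzero complex
numbers on the cohomology with real coefficients, compatible with pull-backs, such that each variety
carries a divisor (an ample one) whose class satisfies the hard Lefschetz theorem and the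
Hodge-Riemann relations for the primitive classes of type `(j, j)`. -/
structure HodgeStr (W : WeilCohomology.{u, v} ops) [Algebra W.K ℝ] where
  /-- the action -/
  h : ∀ X : 𝒱.Obj, ℂˣ → (RC W.K (W.H X) →ₐ[ℝ] RC W.K (W.H X))
  action : ∀ X, IsHodgeAction (W.gr X) X.dim (algClasses W X) (h X)
  map : ∀ {X Y : 𝒱.Obj} (f : X ⟶ Y), Equivariant (W.map f) (h Y) (h X)
  polar : ∀ X, ∃ L ∈ algClasses W X 1, IsPolarization (W.gr X) X.dim (W.tr X) (h X) L

variable {W : WeilCohomology.{u, v} ops} [Algebra W.K ℝ]

/-- The Hodge classes of degree `2 j`: the classes in `H^(2 j)(X)` of type `(j, j)`. -/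
def IsHodge (Ψ : HodgeStr W) (X : 𝒱.Obj) (j : ℕ) (c : W.H X) : Prop :=
  c ∈ W.gr X (2 * j) ∧ IsType (Ψ.h X) j c

/-- The Hodge conjecture for `X` in degree `2 j`. -/
def HodgeIn (Ψ : HodgeStr W) (X : 𝒱.Obj) (j : ℕ) : Prop :=
  ∀ c, IsHodge Ψ X j c → c ∈ spanCycles W X j

/-- The dimension of the space spanned by the Hodge classes of all degrees. -/
noncomputable def hodgeDim (Ψ : HodgeStr W) (X : 𝒱.Obj) : ℕ := dimOf W {c | ∃ j, IsHodge Ψ X j c}

/-- There are `r` Hodge classes on powers of `X`, where `r + 1 ≤ N`, such that all Hodge classes on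
all powers of `X` are linear combinations of classes of algebraic cycles and of images of these `r`
classes under algebraic correspondences. -/
def HodgeGenerated (Ψ : HodgeStr W) (X : 𝒱.Obj) (N : ℕ∞) : Prop :=
  ∃ (r : ℕ) (c : Fin r → Σ m, W.H (pw X m)), (r : ℕ∞) + 1 ≤ N ∧
    (∀ i, ∃ j, IsHodge Ψ (pw X (c i).1) j (c i).2) ∧
    ∀ n j z, IsHodge Ψ (pw X n) j z → z ∈ genBy W X c n

end Pool.Agent.Y133.Hdg
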