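import Pool.Agent.Y133.Half.PredSys
import Pool.Agent.Y133.Half.HodgeHR
import Pool.Agent.Y133.Half.HdgDefs

/-!
# The index law for Hodge classes
-/

open CategoryTheory AlgebraicGeometry Filter Topology

open scoped ENNReal TensorProduct

universe u v

namespace Pool.Agent.Y133.Hdg

open Module
open Pool.Agent.H914 Pool.Agent.H914.VarClass Pool.Agent.H914.VarClass.Obj
  Pool.Agent.H914.WeilCohomology Pool.Agent.W458.MF Pool.Agent.W536.RR Pool.Agent.H281R3.HT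
open Pool.Agent.Y133.Half (ClassPred cycRank dimOf pwIso129 homEqNum_iff algSys hodgeSpan HR mapR
  HodgeSystem eq_alg_iff algDim AtMostHalf)
open Pool.Agent.Y129 (pw genBy)

variable {k : Type u} [Field k] {𝒱 : VarClass k} {ops : CycleOps 𝒱}
  {W : WeilCohomology.{u, v} ops} [Algebra W.K ℝ] {X Y Z : 𝒱.Obj}

/-- The Hodge structures in terms of tensor products. -/
noncomputable def HodgeStr.sys (Ψ : HodgeStr W) : HodgeSystem W where
  h X t := (show HR W X →ₐ[ℝ] HR W X from Ψ.h X t)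
  h_one X := (Ψ.action X).one
  h_mul X := (Ψ.action X).mul
  gr_mem {X} t {i c} hc := by
    have h1 := (Ψ.action X).gr t i c hc
    rw [Submodule.baseChange_eq_span]
    exact h1
  nat {X Y} f t y := congrArg (fun g => g y) (Ψ.map f t)
  cyc {X j z} hz t := (Ψ.action X).cyc j _ ⟨z, hz, rfl⟩ t
  deg {X c} hc t := (Ψ.action X).deg c hc t
  polar X := by
    obtain ⟨_, ⟨D, hD, rfl⟩, h1⟩ := Ψ.polar X
    exact ⟨D, hD, h1.hard, fun j hj x hx ht => h1.pos j hj x hx ht⟩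

lemma isHodge_iff {Ψ : HodgeStr W} {j : ℕ} {c : W.H X} :
    IsHodge Ψ X j c ↔ Half.IsHodge Ψ.sys X j c := Iff.rfl

/-- The Hodge classes. -/
noncomputable def hodgePred (Ψ : HodgeStr W) : ClassPred W where
  P := IsHodge Ψ
  gr h := h.1
  zero {X j} := isHodge_iff.2 Half.IsHodge.zero
  add ha hb := isHodge_iff.2 ((isHodge_iff.1 ha).add (isHodge_iff.1 hb))
  smul r _ h := isHodge_iff.2 ((isHodge_iff.1 h).smul r)
  cl h := isHodge_iff.2 (Half.IsHodge.cl h)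
  mul ha hb := isHodge_iff.2 ((isHodge_iff.1 ha).mul (isHodge_iff.1 hb))
  map f _ _ h := isHodge_iff.2 ((isHodge_iff.1 h).map f)
  push {X Y} f {j l} hl _ h := by
    have h1 := (isHodge_iff.1 h).push f (by omega)
    rw [show j + Y.dim - X.dim = l by omega] at h1
    exact isHodge_iff.2 h1

variable (Ψ : HodgeStr W)

/-- If the Hodge conjecture holds for `X` then homological and numerical equivalence agree. -/
lemma homEqNum_of_hodge (h : ∀ j, HodgeIn Ψ X j) : HomEqNum W X := by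
  rw [homEqNum_iff, eq_bot_iff]
  intro c hc
  obtain ⟨h1, h2⟩ := hc
  rw [Submodule.mem_bot]
  refine hodgeSpan.nondeg (Ψ := Ψ.sys) (Half.alg_le_hodge Ψ.sys X h1) fun y hy => h2 y ?_
  refine hodgeSpan.ind (Ψ := Ψ.sys) (q := fun y => y ∈ algSpan W X) ?_ ?_ ?_ hy
  · intro j x hx
    exact Pool.Agent.Y129.span_le_algSpan j (h j x hx)
  · exact Submodule.zero_mem _
  · intro a b ha hb; exact Submodule.add_mem _ ha hb

lemma hodgeIn_iff : (∀ j, HodgeIn Ψ X j) ↔ (Half.hodgeSys Ψ.sys).C X = algSpan W X :=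
  (ClassPred.sp_eq_iff (Q := hodgePred Ψ) X).symm

lemma hodgeDim_pw (n : ℕ) :
    hodgeDim Ψ (pw X n) = finrank W.K (hodgeSpan Ψ.sys (Half.pw X n)) :=
  (Half.hodgeSys Ψ.sys).finrank_C_iso (pwIso129 X n)

omit [Algebra W.K ℝ] in
lemma algDim_pw (n : ℕ) : algDim W (pw X n) = finrank W.K (algSpan W (Half.pw X n)) := by
  rw [Half.algDim_eq]
  exact (algSys W).finrank_C_iso (pwIso129 X n)

/-- **The index law for Hodge classes.** -/
theorem hodge_index (X : 𝒱.Obj) [Nontrivial (W.H X)] : ∃ N : ℕ∞, 1 ≤ N ∧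
      Tendsto (fun n => (hodgeDim Ψ (pw X n) : ℝ≥0∞) / cycRank ops (pw X n)) atTop
        (𝓝 (N : ℝ≥0∞)) ∧
      (∀ n, (hodgeDim Ψ (pw X (2 * n + 1)) : ℝ≥0∞) / cycRank ops (pw X (2 * n + 1)) ≤
        (N : ℝ≥0∞)) ∧
      (N = 1 ↔ ∀ n j, HodgeIn Ψ (pw X n) j) ∧
      (N ≠ 1 → AtMostHalf (fun n => algDim W (pw X n)) (fun n => hodgeDim Ψ (pw X n))) ∧
      (N ≠ ⊤ → (∀ n, HomEqNum W (pw X n)) ∧ HodgeGenerated Ψ X N) := by
  obtain ⟨N, h1, h2, h3, h4, h5⟩ := (hodgePred Ψ).index X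
  have h4' : N = 1 ↔ ∀ n j, HodgeIn Ψ (pw X n) j := by
    rw [h4]
    constructor
    · intro h n j c hc
      exact (h n).1 j c hc
    · intro h n
      exact ⟨fun j c hc => h n j c hc, homEqNum_of_hodge Ψ (h n)⟩
  refine ⟨N, h1, h2, h3, h4', ?_, h5⟩
  intro hN ε hε
  rcases Half.hodge_half Ψ.sys X with h | h
  · exfalso
    apply hN
    rw [h4']
    intro n
    rw [hodgeIn_iff]
    have h6 := fun n => (hodgeIn_iff (X := Half.pw X n) Ψ).1 (h n)
    apply (eq_alg_iff (T := Half.hodgeSys Ψ.sys) (fun Z => Half.alg_le_hodge Ψ.sys Z) _).2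
    have h7 := (eq_alg_iff (T := Half.hodgeSys Ψ.sys)
      (fun Z => Half.alg_le_hodge Ψ.sys Z) _).1 (h6 n)
    have h8 : finrank W.K ((Half.hodgeSys Ψ.sys).C (pw X n)) =
      finrank W.K ((Half.hodgeSys Ψ.sys).C (Half.pw X n)) := hodgeDim_pw Ψ n
    have h9 := algDim_pw (W := W) (X := X) n
    rw [Half.algDim_eq] at h9
    rw [h9, h8, h7]
  · obtain ⟨n₀, hn₀⟩ := h ε hε
    refine ⟨n₀, fun n hn => ?_⟩
    change (algDim W (pw X n) : ℝ) ≤ (1 / 2 + ε) * (hodgeDim Ψ (pw X n) : ℝ)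
    rw [hodgeDim_pw, algDim_pw]
    exact hn₀ n hn

end Pool.Agent.Y133.Hdg
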