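import Pool.Agent.H914R2.KDefs
import Pool.Agent.Y133.Half.HalfDefs

/-!
# Hodge structures on a Weil cohomology theory and Hodge classes: definitions

In the intended use `k` is the field of complex numbers, the varieties are the smooth projective
ones and `W` is the cohomology of the complex manifolds with rational coefficients, `W.K = ℚ`.
-/

open CategoryTheory AlgebraicGeometry

open scoped TensorProduct

universe u v

namespace Pool.Agent.Y133.Half

open Pool.Agent.H914 Pool.Agent.H914.VarClass Pool.Agent.H914.VarClass.Obj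
  Pool.Agent.H914.WeilCohomology

variable {k : Type u} [Field k] {𝒱 : VarClass k} {ops : CycleOps 𝒱}

/-- The cohomology with real coefficients. -/
abbrev HR (W : WeilCohomology.{u, v} ops) [Algebra W.K ℝ] (X : 𝒱.Obj) : Type v :=
  ℝ ⊗[W.K] W.H X

/-- The pull-back in the cohomology with real coefficients. -/
noncomputable def mapR (W : WeilCohomology.{u, v} ops) [Algebra W.K ℝ] {X Y : 𝒱.Obj}
    (f : X ⟶ Y) : HR W Y →ₐ[ℝ] HR W X :=
  Algebra.TensorProduct.map (AlgHom.id ℝ ℝ) (W.map f)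

/-- Hodge structures on the cohomology: the group of nonzero complex numbers acts on the cohomology
with real coefficients of each variety by automorphisms of the graded algebra, where `t` acts on the
component `H^(p,q)` of `H^(p+q)` as multiplication by `t ^ p * conj t ^ q`. The action commutes with
pull-backs, classes of algebraic cycles of codimension `j` are multiplied by `|t| ^ (2 j)` (that is,
they are of type `(j, j)`), and so are the classes of top degree `2 dim X`. Each variety carries a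
divisor (an ample one) whose class satisfies the hard Lefschetz theorem and the Hodge-Riemann
relations for the primitive classes of type `(j, j)`. -/
structure HodgeSystem (W : WeilCohomology.{u, v} ops) [Algebra W.K ℝ] where
  /-- the action -/
  h : ∀ X : 𝒱.Obj, ℂˣ → (HR W X →ₐ[ℝ] HR W X)
  h_one : ∀ X, h X 1 = AlgHom.id ℝ _
  h_mul : ∀ X s t, h X (s * t) = (h X s).comp (h X t)
  gr_mem : ∀ {X : 𝒱.Obj} (t : ℂˣ) {i : ℕ} {c : W.H X}, c ∈ W.gr X i →
    h X t (1 ⊗ₜ[W.K] c) ∈ (W.gr X i).baseChange ℝ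
  nat : ∀ {X Y : 𝒱.Obj} (f : X ⟶ Y) (t : ℂˣ) (y : HR W Y),
    h X t (mapR W f y) = mapR W f (h Y t y)
  cyc : ∀ {X : 𝒱.Obj} {j : ℕ} {z : X.Cycles}, X.IsCyc j z → ∀ t : ℂˣ,
    h X t (1 ⊗ₜ[W.K] W.cl X z) = (‖(t : ℂ)‖ ^ (2 * j)) • (1 ⊗ₜ[W.K] W.cl X z)
  deg : ∀ {X : 𝒱.Obj} {c : W.H X}, c ∈ W.gr X (2 * X.dim) → ∀ t : ℂˣ,
    h X t (1 ⊗ₜ[W.K] c) = (‖(t : ℂ)‖ ^ (2 * X.dim)) • (1 ⊗ₜ[W.K] c)
  polar : ∀ X : 𝒱.Obj, ∃ D : X.Cycles, X.IsCyc 1 D ∧ HardLefschetz W X D ∧
    ∀ j, 2 * j ≤ X.dim → ∀ x ∈ W.gr X (2 * j),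
      (∀ t : ℂˣ, h X t (1 ⊗ₜ[W.K] x) = (‖(t : ℂ)‖ ^ (2 * j)) • (1 ⊗ₜ[W.K] x)) →
      W.cl X D ^ (X.dim - 2 * j + 1) * x = 0 → x ≠ 0 →
      0 < (-1 : ℝ) ^ j * algebraMap W.K ℝ (W.tr X (W.cl X D ^ (X.dim - 2 * j) * x * x))

variable {W : WeilCohomology.{u, v} ops} [Algebra W.K ℝ]

/-- The Hodge classes of degree `2 j`: the classes in `H^(2 j)(X)` of type `(j, j)`. -/
def IsHodge (Ψ : HodgeSystem W) (X : 𝒱.Obj) (j : ℕ) (c : W.H X) : Prop :=
  c ∈ W.gr X (2 * j) ∧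
    ∀ t : ℂˣ, Ψ.h X t (1 ⊗ₜ[W.K] c) = (‖(t : ℂ)‖ ^ (2 * j)) • (1 ⊗ₜ[W.K] c)

/-- The Hodge conjecture for `X` in degree `2 j`. -/
def HodgeIn (Ψ : HodgeSystem W) (X : 𝒱.Obj) (j : ℕ) : Prop :=
  ∀ c, IsHodge Ψ X j c → c ∈ spanCycles W X j

/-- The Hodge classes of all degrees. -/
def hodgeSet (Ψ : HodgeSystem W) (X : 𝒱.Obj) : Set (W.H X) := {c | ∃ j, IsHodge Ψ X j c}

/-- The dimension of the space spanned by the Hodge classes of all degrees. -/
noncomputable def hodgeDim (Ψ : HodgeSystem W) (X : 𝒱.Obj) : ℕ := dimOf W (hodgeSet Ψ X)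

end Pool.Agent.Y133.Half
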