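import Pool.Agent.Y133.Half.Index
import Pool.Agent.Y129.Gal2

/-!
# The index of a system of classes and finite generation
-/

open CategoryTheory AlgebraicGeometry Filter Topology

open scoped ENNReal

universe u v

namespace Pool.Agent.Y133.Half

open Module
open Pool.Agent.H914 Pool.Agent.H914.VarClass Pool.Agent.H914.VarClass.Obj
  Pool.Agent.H914.WeilCohomology Pool.Agent.H281R3.HT

variable {k : Type u} [Field k] {𝒱 : VarClass k} {ops : CycleOps 𝒱}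
  {W : WeilCohomology.{u, v} ops} {X Z Z' : 𝒱.Obj}

/-- **The index of a system of classes** which contains the algebraic classes. -/
theorem Sys.full_index (T : Sys W) (hT : ∀ Z, algSpan W Z ≤ T.C Z) (X : 𝒱.Obj)
    [Nontrivial (W.H X)] : ∃ N : ℕ∞, 1 ≤ N ∧
      Tendsto (fun n => (finrank W.K (T.C (Pool.Agent.Y129.pw X n)) : ℝ≥0∞) /
        cycRank ops (Pool.Agent.Y129.pw X n)) atTop (𝓝 (N : ℝ≥0∞)) ∧
      (∀ n, (finrank W.K (T.C (Pool.Agent.Y129.pw X (2 * n + 1))) : ℝ≥0∞) /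
        cycRank ops (Pool.Agent.Y129.pw X (2 * n + 1)) ≤ (N : ℝ≥0∞)) ∧
      (N = 1 ↔ ∀ n, T.C (Pool.Agent.Y129.pw X n) = algSpan W (Pool.Agent.Y129.pw X n) ∧
        HomEqNum W (Pool.Agent.Y129.pw X n)) ∧
      (N ≠ ⊤ → (∀ n, HomEqNum W (Pool.Agent.Y129.pw X n)) ∧
        ∀ Q : ∀ n, Set (W.H (Pool.Agent.Y129.pw X n)),
          (∀ n, T.C (Pool.Agent.Y129.pw X n) = Submodule.span W.K (Q n)) →
          ∃ (r : ℕ) (c : Fin r → Σ m, W.H (Pool.Agent.Y129.pw X m)), (r : ℕ∞) + 1 ≤ N ∧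
            (∀ i, (c i).2 ∈ Q (c i).1) ∧
            ∀ n, T.C (Pool.Agent.Y129.pw X n) ≤ Pool.Agent.Y129.genBy W X c n) := by
  have hst := stable_of_sys hT X
  have hA : ∀ n, algSpan W (Pool.Agent.Y129.pw X n) ≤ T.C (Pool.Agent.Y129.pw X n) :=
    fun n => hT _
  obtain ⟨N, h1, h2, h3, h4, h5⟩ := stable_index hst hA
  refine ⟨N, h1, h2, h3, h4, fun hN => ⟨h5 hN, fun Q hQ => ?_⟩⟩
  have h6 : Pool.Agent.Y129.IsIndex W X (fun n => T.C (Pool.Agent.Y129.pw X n)) N := by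
    rw [Pool.Agent.Y129.IsIndex]
    simp only [Pool.Agent.Y129.numRank_eq_sum]
    exact h2
  obtain ⟨r, c, hr, hc, hG⟩ := Pool.Agent.Y129.exists_generators hst hA h6 hN Q hQ
  refine ⟨r, c, hr, hc, fun n => ?_⟩
  rw [hG n]
  exact Pool.Agent.Y129.genSys_le_genBy c n

end Pool.Agent.Y133.Half
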