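import Pool.Agent.Y133.Half.Sys

/-!
# Isomorphisms between products, ranks of external products of idempotents
-/

open CategoryTheory AlgebraicGeometry

universe u v

namespace Pool.Agent.Y133.Half

open Module
open Pool.Agent.H914 Pool.Agent.H914.VarClass Pool.Agent.H914.VarClass.Obj
  Pool.Agent.H914.WeilCohomology

variable {k : Type u} [Field k] {𝒱 : VarClass k} {ops : CycleOps 𝒱}
  {W : WeilCohomology.{u, v} ops} {X Y Z Z' P Q M N : 𝒱.Obj}

lemma prod_hom_ext {f g : Z ⟶ X.prod Y} (h1 : f ≫ fst X Y = g ≫ fst X Y)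
    (h2 : f ≫ snd X Y = g ≫ snd X Y) : f = g := by
  apply SmVar.hom_ext
  exact CategoryTheory.Limits.pullback.hom_ext (congrArg SmVar.Hom.hom h1)
    (congrArg SmVar.Hom.hom h2)

lemma comp_lift {A B : 𝒱.Obj} (h : A ⟶ B) (f : B ⟶ X) (g : B ⟶ Y) :
    h ≫ Obj.lift f g = Obj.lift (h ≫ f) (h ≫ g) := by
  apply prod_hom_ext
  · rw [Category.assoc, Obj.lift_fst, Obj.lift_fst]
  · rw [Category.assoc, Obj.lift_snd, Obj.lift_snd]

lemma lift_eta : Obj.lift (fst X Y) (snd X Y) = 𝟙 (X.prod Y) := by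
  apply prod_hom_ext
  · rw [Obj.lift_fst, Category.id_comp]
  · rw [Obj.lift_snd, Category.id_comp]

lemma lift_eta' (f : Z ⟶ X.prod Y) : Obj.lift (f ≫ fst X Y) (f ≫ snd X Y) = f := by
  rw [← comp_lift, lift_eta, Category.comp_id]

namespace Sys

variable (S : Sys W)

/-- Ranks of intersection forms do not change under isomorphisms. -/
theorem rk_F_iso (θ : Z' ≅ Z) {u : Module.End W.K (W.H Z)} {u' : Module.End W.K (W.H Z')}
    (h : ∀ x, u' (W.map θ.hom x) = W.map θ.hom (u x)) : rk (S.F Z' u') = rk (S.F Z u) := by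
  have hinv : ∀ x : W.H Z', W.map θ.hom (W.map θ.inv x) = x := by
    intro x
    rw [← W.map_comp, θ.hom_inv_id, W.map_id]
  set w : W.H Z := W.push θ.hom 1 with hw
  have hwS : w ∈ S.C Z := S.push _ (S.one Z')
  set v : W.H Z := W.map θ.inv (W.push θ.inv 1) with hv
  have hvS : v ∈ S.C Z := S.map _ (S.push _ (S.one Z))
  have hwv : w * v = 1 := by
    have h1 : W.push θ.hom (W.push θ.inv (1 : W.H Z)) = 1 := by
      rw [← W.push_comp, θ.inv_hom_id, W.push_id]
    have h2 : W.push θ.inv (1 : W.H Z) = 1 * W.map θ.hom v := by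
      rw [hv, hinv, one_mul]
    rw [h2, W.push_mul] at h1
    exact h1
  let m : S.C Z →ₗ[W.K] S.C Z := (LinearMap.mulLeft W.K w).restrict fun c hc => S.mul hwS hc
  have hm : Function.Surjective m := by
    rintro ⟨c, hc⟩
    refine ⟨⟨v * c, S.mul hvS hc⟩, Subtype.ext ?_⟩
    change w * (v * c) = c
    rw [← mul_assoc, hwv, one_mul]
  have hθ : Function.Surjective (S.mapS θ.hom) := by
    rintro ⟨c, hc⟩
    exact ⟨⟨_, S.map θ.inv hc⟩, Subtype.ext (hinv c)⟩
  have h1 : (S.F Z' u').compl₁₂ (S.mapS θ.hom) (S.mapS θ.hom) =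
      (S.F Z u).compl₁₂ LinearMap.id m := by
    apply LinearMap.ext
    intro c
    apply LinearMap.ext
    intro d
    rw [LinearMap.compl₁₂_apply, LinearMap.compl₁₂_apply, F_apply, F_apply]
    change W.tr Z' (u' (W.map θ.hom (c : W.H Z)) * W.map θ.hom (d : W.H Z)) =
      W.tr Z (u (c : W.H Z) * (w * (d : W.H Z)))
    have h2 := W.tr_push θ.hom 1 (u (c : W.H Z) * (d : W.H Z))
    rw [h, ← map_mul, ← one_mul (W.map θ.hom _), ← h2, ← hw, ← mul_assoc, ← mul_assoc,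
      PH.even_comm (S.even hwS)]
  rw [← rk_comp (S.F Z' u') hθ hθ, h1, rk_comp (S.F Z u) (f := LinearMap.id)
    Function.surjective_id hm]

end Sys

section Isos

/-- `Y × (P × Y') ≅ P × (Y × Y')`. -/
noncomputable def θ₁ (Y P Y' : 𝒱.Obj) : Y.prod (P.prod Y') ≅ P.prod (Y.prod Y') where
  hom := Obj.lift (snd _ _ ≫ fst _ _) (Obj.lift (fst _ _) (snd _ _ ≫ snd _ _))
  inv := Obj.lift (snd _ _ ≫ fst _ _) (Obj.lift (fst _ _) (snd _ _ ≫ snd _ _))
  hom_inv_id := by
    apply prod_hom_ext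
    · simp
    · apply prod_hom_ext <;> simp
  inv_hom_id := by
    apply prod_hom_ext
    · simp
    · apply prod_hom_ext <;> simp

/-- `(P × Y) × (P' × Y') ≅ (P × P') × (Y × Y')`. -/
noncomputable def θ₂ (P Y P' Y' : 𝒱.Obj) :
    (P.prod Y).prod (P'.prod Y') ≅ (P.prod P').prod (Y.prod Y') where
  hom := Obj.lift (Obj.lift (fst _ _ ≫ fst _ _) (snd _ _ ≫ fst _ _))
    (Obj.lift (fst _ _ ≫ snd _ _) (snd _ _ ≫ snd _ _))
  inv := Obj.lift (Obj.lift (fst _ _ ≫ fst _ _) (snd _ _ ≫ fst _ _))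
    (Obj.lift (fst _ _ ≫ snd _ _) (snd _ _ ≫ snd _ _))
  hom_inv_id := by
    apply prod_hom_ext <;> apply prod_hom_ext <;> simp
  inv_hom_id := by
    apply prod_hom_ext <;> apply prod_hom_ext <;> simp

/-- `(P × Q) × Z ≅ P × (Q × Z)`. -/
noncomputable def θ₃ (P Q Z : 𝒱.Obj) : (P.prod Q).prod Z ≅ P.prod (Q.prod Z) where
  hom := Obj.lift (fst _ _ ≫ fst _ _) (Obj.lift (fst _ _ ≫ snd _ _) (snd _ _))
  inv := Obj.lift (Obj.lift (fst _ _) (snd _ _ ≫ fst _ _)) (snd _ _ ≫ snd _ _)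
  hom_inv_id := by
    apply prod_hom_ext
    · apply prod_hom_ext <;> simp
    · simp
  inv_hom_id := by
    apply prod_hom_ext
    · simp
    · apply prod_hom_ext <;> simp

end Isos

end Pool.Agent.Y133.Half
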