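import Pool.Agent.Y133.Half.Desc

/-!
# Lower bounds from chains of stable subspaces
-/

open CategoryTheory AlgebraicGeometry

universe u v

namespace Pool.Agent.Y133.Half

open Module
open Pool.Agent.H914 Pool.Agent.H914.VarClass Pool.Agent.H914.VarClass.Obj
  Pool.Agent.H914.WeilCohomology

variable {k : Type u} [Field k] {𝒱 : VarClass k} {ops : CycleOps 𝒱}
  {W : WeilCohomology.{u, v} ops} {P Q Z Z' P' X : 𝒱.Obj}

lemma map_inj_of_iso (θ : Z' ≅ Z) : Function.Injective (W.map θ.hom) := by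
  intro x y h
  have h1 := congrArg (W.map θ.inv) h
  rwa [← W.map_comp, ← W.map_comp, θ.inv_hom_id, W.map_id, W.map_id] at h1

lemma finrank_iso (θ : Z' ≅ Z) : finrank W.K (W.H Z') = finrank W.K (W.H Z) := by
  apply le_antisymm
  · exact LinearMap.finrank_le_finrank_of_injective (f := (W.map θ.symm.hom).toLinearMap)
      (map_inj_of_iso θ.symm)
  · exact LinearMap.finrank_le_finrank_of_injective (f := (W.map θ.hom).toLinearMap)
      (map_inj_of_iso θ)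

namespace Sys

variable (S : Sys W)

lemma finrank_C_le (f : Z' ⟶ Z) (hf : Function.Injective (W.map f)) :
    finrank W.K (S.C Z) ≤ finrank W.K (S.C Z') := by
  refine LinearMap.finrank_le_finrank_of_injective (f := S.mapS f) ?_
  intro x y h
  exact Subtype.ext (hf (congrArg Subtype.val h))

lemma finrank_C_iso (θ : Z' ≅ Z) : finrank W.K (S.C Z') = finrank W.K (S.C Z) :=
  le_antisymm (S.finrank_C_le θ.symm.hom (map_inj_of_iso θ.symm))
    (S.finrank_C_le θ.hom (map_inj_of_iso θ))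

/-- All numerically trivial operators on an object isomorphic to a power are nilpotent. -/
lemma nilpotent_iso (hpos : ∀ l, 0 < S.al X l)
    (hB : ∀ c : ℝ, 0 ≤ c → c < (finrank W.K (W.H X) : ℝ) ^ 2 →
      ∃ l₀, ∀ l ≥ l₀, c * S.al X l ≤ S.al X (l + 1))
    (hX : 0 < finrank W.K (W.H X)) {m : ℕ} (θ : P ≅ pw X m) (h1 : (1 : W.H P) ≠ 0)
    {x : Module.End W.K (W.H P)} (hx : x ∈ S.NOp P P) : IsNilpotent x := by
  have hE := NOp.ext_left (Q := P) hx
  have h1' : ∀ l, S.a ((P.prod P).prod ((pw X l).prod (pw X l))) = S.al X (l + (m + 1)) := by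
    intro l
    rw [S.a_iso (prodCongr (prodCongr θ θ ≪≫ pwAdd X m m) (Iso.refl _))]
    exact S.a_pw X (by ring)
  have h2 : finrank W.K (W.H (P.prod P)) = finrank W.K (W.H X) ^ (2 * (m + 1)) := by
    rw [finrank_prod, finrank_iso θ, finrank_pw, ← pow_add]
    congr 1
    ring
  obtain ⟨n, hn⟩ := S.nilpotent_of hpos hB hX h1' h2 hE
  refine ⟨n, ?_⟩
  rw [extOp_pow] at hn
  apply LinearMap.ext
  intro y
  have h3 := congrArg (fun f : Module.End W.K (W.H (P.prod P)) => f (xp W y 1)) hn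
  simp only [extOp_xp, LinearMap.zero_apply, Module.End.one_apply] at h3
  exact xp_eq_zero_right h1 h3

/-- **Lower bound.** A chain of `l + 1` stable subspaces of classes of `T` on a power of `X` of the
same parity bounds the dimension of the classes of `T` by `(l - ε)` times the rank of the
intersection form on the classes of `S`. -/
theorem lower {T : Sys W} (hST : ∀ X, S.C X ≤ T.C X)
    (hB : ∀ c : ℝ, 0 ≤ c → c < (finrank W.K (W.H X) : ℝ) ^ 2 →
      ∃ l₀, ∀ l ≥ l₀, c * S.al X l ≤ S.al X (l + 1))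
    (hX : 0 < finrank W.K (W.H X)) {m : ℕ} (θ : P ≅ pw X m)
    (M : ℕ → Submodule W.K (W.H P)) (hM : ∀ n, ∀ a ∈ S.Op P P, ∀ m ∈ M n, a m ∈ M n) (l : ℕ)
    (hlt : ∀ n < l, M n < M (n + 1)) (hT : M l ≤ T.C P) {ε : ℝ} (hε : 0 < ε) :
    ∃ n₀ : ℕ, ∀ n ≥ n₀, n % 2 = m % 2 →
      ((l : ℝ) - ε) * S.a (pw X n) ≤ finrank W.K (T.C (pw X n)) := by
  set b := finrank W.K (W.H X) with hb
  have hb1 : (1 : ℝ) ≤ b := by exact_mod_cast hX
  set m₀ := m % 2 with hm₀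
  obtain ⟨j, hj⟩ : ∃ j, m + m₀ + 2 = 2 * j := ⟨(m + m₀ + 2) / 2, by omega⟩
  have hl0 : (0 : ℝ) < l + 1 := by positivity
  set δ : ℝ := ε / (l + 1) with hδ
  have hδ0 : 0 < δ := div_pos hε hl0
  have hB2 : (0 : ℝ) < (b : ℝ) ^ 2 := by positivity
  obtain ⟨c, hc0, hcB, hc⟩ := exists_close hB2 j hδ0
  obtain ⟨l₀, hl₀⟩ := hB c hc0 hcB
  refine ⟨2 * l₀ + m₀ + 2, fun n hn hpar => ?_⟩
  obtain ⟨l', hl'⟩ : ∃ l', n = m₀ + (l' + l' + 1) + 1 := ⟨(n - m₀ - 2) / 2, by omega⟩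
  have hl'0 : l' ≥ l₀ := by omega
  set Y := pw X l' with hY
  set P₀ := pw X m₀ with hP₀
  let φ : P₀.prod (Y.prod Y) ≅ pw X n :=
    prodCongr (Iso.refl _) (pwAdd X l' l') ≪≫ pwAdd X m₀ (l' + l' + 1) ≪≫
      eqToIso (congrArg (pw X) hl'.symm)
  obtain ⟨g, hg, hs⟩ := S.key_chain hST P (P₀.prod (Y.prod Y)) M hM l hlt hT
  rw [T.finrank_C_iso φ] at hs
  have hdP : finrank W.K (W.H P) = b ^ (m + 1) := by rw [finrank_iso θ, finrank_pw]
  have hdP₀ : finrank W.K (W.H P₀) = b ^ (m₀ + 1) := finrank_pw _ _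
  have hal : S.a (Y.prod Y) = S.al X l' := rfl
  have haP : S.a ((P.prod P₀).prod (Y.prod Y)) = S.al X (l' + j) := by
    rw [S.a_iso (prodCongr (prodCongr θ (Iso.refl _) ≪≫ pwAdd X m m₀) (Iso.refl _))]
    exact S.a_pw X (by omega)
  have hup : S.a (pw X n) ≤ b ^ (m₀ + 1) * S.al X l' := by
    rw [← S.a_iso φ, ← hdP₀]
    exact S.a_le _ _
  have hpow := ratio_pow hc0 hl₀ j l' hl'0
  have hr : ∀ i ∈ Finset.range l, ((b : ℝ) ^ (m₀ + 1) - δ) * S.al X l' ≤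
      S.r P (g i) (P₀.prod (Y.prod Y)) := by
    intro i hi
    obtain ⟨h1, h2, h3⟩ := hg i (Finset.mem_range.1 hi)
    have h4 := S.r_lower (P₀ := P₀) h1 h2 h3 Y
    rw [haP, hdP, hdP₀, hal] at h4
    have h5 : (S.al X (l' + j) : ℝ) + (b : ℝ) ^ (m₀ + 1) * S.al X l' ≤
        S.r P (g i) (P₀.prod (Y.prod Y)) + (b : ℝ) ^ (m + 1) * (b : ℝ) ^ (m₀ + 1) *
          S.al X l' := by exact_mod_cast h4
    have h6 : (b : ℝ) ^ (m + 1) * (b : ℝ) ^ (m₀ + 1) = ((b : ℝ) ^ 2) ^ j := by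
      rw [← pow_add, ← pow_mul]
      congr 1
      omega
    rw [h6] at h5
    have h7 : (0 : ℝ) ≤ S.al X l' := Nat.cast_nonneg _
    nlinarith [mul_le_mul_of_nonneg_right hc.le h7]
  have hsum : (l : ℝ) * (((b : ℝ) ^ (m₀ + 1) - δ) * S.al X l') ≤
      finrank W.K (T.C (pw X n)) := by
    calc (l : ℝ) * (((b : ℝ) ^ (m₀ + 1) - δ) * S.al X l')
        = ∑ i ∈ Finset.range l, ((b : ℝ) ^ (m₀ + 1) - δ) * S.al X l' := by
          rw [Finset.sum_const, Finset.card_range, nsmul_eq_mul]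
      _ ≤ ∑ i ∈ Finset.range l, (S.r P (g i) (P₀.prod (Y.prod Y)) : ℝ) :=
          Finset.sum_le_sum hr
      _ ≤ _ := by exact_mod_cast hs
  rcases le_or_gt ((l : ℝ) - ε) 0 with h | h
  · exact (mul_nonpos_of_nonpos_of_nonneg h (Nat.cast_nonneg _)).trans (Nat.cast_nonneg _)
  · refine le_trans ?_ hsum
    have hup' : (S.a (pw X n) : ℝ) ≤ (b : ℝ) ^ (m₀ + 1) * S.al X l' := by exact_mod_cast hup
    have h8 : ((l : ℝ) - ε) * S.a (pw X n) ≤ ((l : ℝ) - ε) * ((b : ℝ) ^ (m₀ + 1) * S.al X l') :=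
      mul_le_mul_of_nonneg_left hup' h.le
    refine h8.trans ?_
    have h9 : (l : ℝ) * δ ≤ ε * (b : ℝ) ^ (m₀ + 1) := by
      have h10 : (1 : ℝ) ≤ (b : ℝ) ^ (m₀ + 1) := one_le_pow₀ hb1
      have h11 : (l : ℝ) * δ ≤ ε := by
        rw [hδ, ← mul_div_assoc, div_le_iff₀ hl0]
        nlinarith
      nlinarith
    have h12 : (0 : ℝ) ≤ S.al X l' := Nat.cast_nonneg _
    nlinarith [mul_le_mul_of_nonneg_right h9 h12]

end Sys

end Pool.Agent.Y133.Half
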