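import Pool.Agent.Y133.Half.Growth

/-!
# The zero-one-half law for systems of classes on the powers of a variety
-/

open CategoryTheory AlgebraicGeometry

universe u v

namespace Pool.Agent.Y133.Half

open Module
open Pool.Agent.H914 Pool.Agent.H914.VarClass Pool.Agent.H914.VarClass.Obj
  Pool.Agent.H914.WeilCohomology

variable {k : Type u} [Field k] {𝒱 : VarClass k} {ops : CycleOps 𝒱}
  {W : WeilCohomology.{u, v} ops} {P Q Z Z' P' X : 𝒱.Obj}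

lemma one_ne_zero_of {x : W.H P} (hx : x ≠ 0) : (1 : W.H P) ≠ 0 := by
  intro h
  apply hx
  rw [← one_mul x, h, zero_mul]

lemma ne_zero_of_tr {x : W.H P} (hx : W.tr P x = 1) : x ≠ 0 := by
  rintro rfl
  rw [map_zero] at hx
  exact zero_ne_one hx

namespace Sys

variable (S T : Sys W)

lemma exists_lam {l : W.H X} (hl : l ∈ S.C X) (hl1 : W.tr X l = 1) :
    ∀ n, ∃ m ∈ S.C (pw X n), W.tr (pw X n) m = 1
  | 0 => ⟨l, hl, hl1⟩
  | n + 1 => by
    obtain ⟨m, hm, hm1⟩ := exists_lam hl hl1 n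
    refine ⟨(xp W m l : W.H ((pw X n).prod X)), xp_mem_C S hm hl, ?_⟩
    have h := tr_xp (W := W) m l
    rw [hm1, hl1, mul_one] at h
    exact h

lemma a_pos {m : W.H Z} (hm : m ∈ S.C Z) (hm1 : W.tr Z m = 1) : 0 < S.a Z := by
  rw [Nat.pos_iff_ne_zero]
  intro h
  have h1 : LinearMap.range (S.F Z 1) = ⊥ := Submodule.finrank_eq_zero.1 h
  have h2 : S.F Z 1 = 0 := LinearMap.range_eq_bot.1 h1
  have h3 : S.F Z 1 ⟨1, S.one Z⟩ ⟨m, hm⟩ = 0 := by rw [h2]; rfl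
  rw [F_apply] at h3
  change W.tr Z (1 * m) = 0 at h3
  rw [one_mul, hm1] at h3
  exact one_ne_zero h3

/-- The conclusion from a small rank of the intersection form. -/
lemma finrank_le_of {S T : Sys W} (hST : ∀ X, S.C X ≤ T.C X) (hT : Nondeg T Z) {ε : ℝ}
    (h : (S.a Z : ℝ) ≤ 2 * ε * finrank W.K (T.C Z)) :
    (finrank W.K (S.C Z) : ℝ) ≤ (1 / 2 + ε) * finrank W.K (T.C Z) := by
  have h1 := S.a_add_num Z
  have h2 := S.finrank_ge hST hT
  have h3 : (S.a Z : ℝ) + 2 * finrank W.K (S.Num Z) ≤ finrank W.K (T.C Z) := by exact_mod_cast h2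
  have h4 : (S.a Z : ℝ) + finrank W.K (S.Num Z) = finrank W.K (S.C Z) := by exact_mod_cast h1
  rw [← h4]
  linarith

lemma exists_desc {S T : Sys W} (hST : ∀ X, S.C X ≤ T.C X) (h1 : (1 : W.H X) ≠ 0) {q : ℕ}
    {z : W.H (pw X q)} (hz : z ∈ S.Num (pw X q)) (hz0 : z ≠ 0) {l : W.H (pw X q)}
    (hl : l ∈ S.C (pw X q)) (hl1 : W.tr (pw X q) l = 1) (N p : ℕ) :
    ∃ (m : ℕ) (P : 𝒱.Obj), m % 2 = p % 2 ∧ Nonempty (P ≅ pw X m) ∧ Desc S T P N := by
  have key : ∀ N, ∃ (m : ℕ) (P : 𝒱.Obj), Nonempty (P ≅ pw X m) ∧ Desc S T P N := by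
    intro N
    induction N with
    | zero => exact ⟨0, X, ⟨Iso.refl _⟩, Desc.zero h1⟩
    | succ N ih =>
      obtain ⟨m, P, ⟨θ⟩, hP⟩ := ih
      exact ⟨m + q + 1, P.prod (pw X q), ⟨prodCongr θ (Iso.refl _) ≪≫ pwAdd X m q⟩,
        hP.succ hST hz hz0 hl hl1⟩
  obtain ⟨m, P, ⟨θ⟩, hP⟩ := key N
  by_cases h : m % 2 = p % 2
  · exact ⟨m, P, h, ⟨θ⟩, hP⟩
  · exact ⟨m + 1, P.prod X, by omega, ⟨prodCongr θ (Iso.refl _) ≪≫ pwAdd X m 0⟩, hP.prod h1⟩

lemma lt_succ {S T : Sys W} (hST : ∀ X, S.C X ≤ T.C X) {l : W.H X} (hl : l ∈ S.C X)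
    (hl1 : W.tr X l = 1) {m : ℕ} (h : S.C (pw X m) < T.C (pw X m)) :
    S.C (pw X (m + 1)) < T.C (pw X (m + 1)) := by
  refine lt_of_le_of_ne (hST _) fun heq => ?_
  obtain ⟨t, ht, ht'⟩ := SetLike.exists_of_lt h
  apply ht'
  have h1 : (xp W t l : W.H ((pw X m).prod X)) ∈ T.C ((pw X m).prod X) := xp_mem_C T ht (hST _ hl)
  have h2 : T.C ((pw X m).prod X) = S.C ((pw X m).prod X) := heq.symm
  rw [h2] at h1
  have h3 := S.push (fst (pw X m) X) h1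
  rwa [push_fst _ _ (S.even hl), hl1, one_smul] at h3

lemma lower_parity {S T : Sys W} (hST : ∀ X, S.C X ≤ T.C X)
    (hB : ∀ c : ℝ, 0 ≤ c → c < (finrank W.K (W.H X) : ℝ) ^ 2 →
      ∃ l₀, ∀ l ≥ l₀, c * S.al X l ≤ S.al X (l + 1))
    (hX : 0 < finrank W.K (W.H X)) (l : ℕ)
    (h : ∀ p : ℕ, ∃ (m : ℕ) (P : 𝒱.Obj) (M : ℕ → Submodule W.K (W.H P)),
      m % 2 = p % 2 ∧ Nonempty (P ≅ pw X m) ∧ (∀ n, ∀ a ∈ S.Op P P, ∀ m ∈ M n, a m ∈ M n) ∧
      (∀ n < l, M n < M (n + 1)) ∧ M l ≤ T.C P) {ε : ℝ} (hε : 0 < ε) :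
    ∃ n₀ : ℕ, ∀ n ≥ n₀, ((l : ℝ) - ε) * S.a (pw X n) ≤ finrank W.K (T.C (pw X n)) := by
  have key : ∀ p : ℕ, ∃ n₀ : ℕ, ∀ n ≥ n₀, n % 2 = p % 2 →
      ((l : ℝ) - ε) * S.a (pw X n) ≤ finrank W.K (T.C (pw X n)) := by
    intro p
    obtain ⟨m, P, M, hm, ⟨θ⟩, hM, hlt, hMT⟩ := h p
    obtain ⟨n₀, hn₀⟩ := S.lower hST hB hX θ M hM l hlt hMT hε
    exact ⟨n₀, fun n hn hp => hn₀ n hn (hp.trans hm.symm)⟩
  obtain ⟨n₁, h₁⟩ := key 0
  obtain ⟨n₂, h₂⟩ := key 1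
  refine ⟨max n₁ n₂, fun n hn => ?_⟩
  rcases Nat.mod_two_eq_zero_or_one n with h | h
  · exact h₁ n ((le_max_left _ _).trans hn) h
  · exact h₂ n ((le_max_right _ _).trans hn) h

/-- If the ratios of the sequence `al` are bounded away from the square of the Betti number, the
rank of the intersection form is negligible. -/
lemma small_of {S T : Sys W} {c : ℝ} (hc : 0 ≤ c)
    (hcB : c < (finrank W.K (W.H X) : ℝ) ^ 2) (h : ∀ l, (S.al X (l + 1) : ℝ) ≤ c * S.al X l)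
    (hX : 0 < finrank W.K (W.H X)) {ε : ℝ} (hε : 0 < ε) :
    ∃ n₀ : ℕ, ∀ n ≥ n₀, (S.a (pw X n) : ℝ) ≤ ε * finrank W.K (T.C (pw X n)) := by
  set b := finrank W.K (W.H X) with hb
  obtain ⟨l₀, hl₀⟩ := exp_lt hc hcB (b ^ 2) (C := (S.al X 0 : ℝ)) hε
  refine ⟨2 * l₀ + 4, fun n hn => ?_⟩
  obtain ⟨m₀, l, hm₀, hl'⟩ : ∃ m₀ l, m₀ ≤ 1 ∧ n = m₀ + (l + l + 1) + 1 :=
    ⟨n % 2, (n - n % 2 - 2) / 2, by omega, by omega⟩
  have hl : l ≥ l₀ := by omega
  set Y := pw X l with hY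
  set P₀ := pw X m₀ with hP₀
  let φ : P₀.prod (Y.prod Y) ≅ pw X n :=
    prodCongr (Iso.refl _) (pwAdd X l l) ≪≫ pwAdd X m₀ (l + l + 1) ≪≫
      eqToIso (congrArg (pw X) hl'.symm)
  have hup : S.a (pw X n) ≤ b ^ (m₀ + 1) * S.al X l := by
    rw [← S.a_iso φ, ← finrank_pw]
    exact S.a_le _ _
  have hlow : finrank W.K (T.C (Y.prod Y)) ≤ finrank W.K (T.C (pw X n)) := by
    rw [← T.finrank_C_iso φ]
    apply T.finrank_C_le (snd P₀ (Y.prod Y))
    intro x y hxy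
    have h2 : ∀ m, (1 : W.H (pw X m)) ≠ 0 := by
      intro m
      have : Nontrivial (W.H (pw X m)) := by
        apply Module.nontrivial_of_finrank_pos (R := W.K)
        rw [finrank_pw]
        exact Nat.pow_pos hX
      exact one_ne_zero
    have h3 : xp W (1 : W.H P₀) (x - y) = 0 := by
      rw [xp, map_one, one_mul, map_sub, hxy, sub_self]
    exact sub_eq_zero.1 (xp_eq_zero_left (h2 m₀) h3)
  have hg := T.growth X l
  have hg' : (b : ℝ) ^ (2 * (l + 1)) ≤ finrank W.K (T.C (Y.prod Y)) * ((l + 2 : ℕ) : ℝ) ^ (b ^ 2) := by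
    exact_mod_cast hg
  have h4 := hl₀ l hl
  have h5 := geom_bound hc h l
  have hb1 : (1 : ℝ) ≤ b := by exact_mod_cast hX
  have h6 : (S.a (pw X n) : ℝ) ≤ (b : ℝ) ^ 2 * S.al X l := by
    have h7 : (S.a (pw X n) : ℝ) ≤ (b : ℝ) ^ (m₀ + 1) * S.al X l := by exact_mod_cast hup
    refine h7.trans (mul_le_mul_of_nonneg_right ?_ (Nat.cast_nonneg _))
    exact pow_le_pow_right₀ hb1 (by omega)
  have h8 : (0 : ℝ) < ((l + 2 : ℕ) : ℝ) ^ (b ^ 2) := by positivity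
  have h9 : ((l + 2 : ℕ) : ℝ) = (l : ℝ) + 2 := by push_cast; ring
  have h10 : (S.a (pw X n) : ℝ) * ((l + 2 : ℕ) : ℝ) ^ (b ^ 2) ≤
      (ε * finrank W.K (T.C (Y.prod Y))) * ((l + 2 : ℕ) : ℝ) ^ (b ^ 2) := by
    calc (S.a (pw X n) : ℝ) * ((l + 2 : ℕ) : ℝ) ^ (b ^ 2)
        ≤ ((b : ℝ) ^ 2 * (c ^ l * S.al X 0)) * ((l + 2 : ℕ) : ℝ) ^ (b ^ 2) := by
          refine mul_le_mul_of_nonneg_right (h6.trans ?_) h8.le
          exact mul_le_mul_of_nonneg_left h5 (by positivity)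
      _ = (b : ℝ) ^ 2 * (S.al X 0 * c ^ l * ((l : ℝ) + 2) ^ (b ^ 2)) := by rw [h9]; ring
      _ ≤ (b : ℝ) ^ 2 * (ε * ((b : ℝ) ^ 2) ^ l) := mul_le_mul_of_nonneg_left h4 (by positivity)
      _ = ε * (b : ℝ) ^ (2 * (l + 1)) := by ring
      _ ≤ ε * (finrank W.K (T.C (Y.prod Y)) * ((l + 2 : ℕ) : ℝ) ^ (b ^ 2)) :=
          mul_le_mul_of_nonneg_left hg' hε.le
      _ = _ := by ring
  have h11 := le_of_mul_le_mul_right h10 h8
  refine h11.trans (mul_le_mul_of_nonneg_left ?_ hε.le)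
  exact_mod_cast hlow

/-- **The zero-one-half law.** Let `S ≤ T` be systems of classes and assume that the pairing on the
classes of `T` on the powers of `X` is nondegenerate. Either all classes of `T` on all powers of `X`
belong to `S`, or asymptotically at least half of the classes of `T` on the powers of `X` do not
belong to `S`. -/
theorem half (hST : ∀ X, S.C X ≤ T.C X) (X : 𝒱.Obj) (hT : ∀ n, Nondeg T (pw X n)) :
    (∀ n, S.C (pw X n) = T.C (pw X n)) ∨ ∀ ε : ℝ, 0 < ε → ∃ n₀ : ℕ, ∀ n ≥ n₀,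
      (finrank W.K (S.C (pw X n)) : ℝ) ≤ (1 / 2 + ε) * finrank W.K (T.C (pw X n)) := by
  by_cases hZ : ∀ l ∈ S.C X, W.tr X l = 0
  · -- no class of degree zero: all classes are numerically trivial
    right
    intro ε hε
    refine ⟨0, fun n _ => ?_⟩
    have h1 : ∀ c ∈ S.C (pw X n), W.tr (pw X n) c = 0 := by
      intro c hc
      have h2 := W.tr_push (prj X n 0) c 1
      rw [mul_one, map_one, mul_one] at h2
      rw [← h2]
      exact hZ _ (S.push _ hc)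
    have h2 : S.a (pw X n) = 0 := by
      have h3 : S.F (pw X n) 1 = 0 := by
        apply LinearMap.ext
        intro c
        apply LinearMap.ext
        intro d
        exact h1 _ (S.mul c.2 d.2)
      rw [a, h3, rk]
      simp
    apply finrank_le_of hST (hT n)
    rw [h2, Nat.cast_zero]
    positivity
  push Not at hZ
  obtain ⟨l', hl', hl'0⟩ := hZ
  obtain ⟨l, hl, hl1⟩ : ∃ l ∈ S.C X, W.tr X l = 1 :=
    ⟨(W.tr X l')⁻¹ • l', Submodule.smul_mem _ _ hl', by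
      rw [map_smul, smul_eq_mul, inv_mul_cancel₀ hl'0]⟩
  have h1 : (1 : W.H X) ≠ 0 := one_ne_zero_of (ne_zero_of_tr hl1)
  have hX : 0 < finrank W.K (W.H X) := by
    have : Nontrivial (W.H X) := ⟨⟨1, 0, h1⟩⟩
    exact Module.finrank_pos
  have hpos : ∀ n, 0 < S.al X n := by
    intro n
    obtain ⟨m, hm, hm1⟩ := S.exists_lam hl hl1 n
    refine S.a_pos (xp_mem_C S hm hm) ?_
    rw [tr_xp, hm1, mul_one]
  rcases ratio_dichotomy hpos (S.al_convex X) ((finrank W.K (W.H X) : ℝ) ^ 2) with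
    ⟨c, hc, hcB, h⟩ | hB
  · right
    intro ε hε
    obtain ⟨n₀, hn₀⟩ := small_of (T := T) hc hcB h hX (ε := 2 * ε) (by positivity)
    exact ⟨n₀, fun n hn => finrank_le_of hST (hT n) (hn₀ n hn)⟩
  by_cases hN : ∃ q, S.Num (pw X q) ≠ ⊥
  · -- numerically trivial classes
    right
    intro ε hε
    obtain ⟨q, hq⟩ := hN
    obtain ⟨z, hz, hz0⟩ := Submodule.exists_mem_ne_zero_of_ne_bot hq
    obtain ⟨m, hm, hm1⟩ := S.exists_lam hl hl1 q
    obtain ⟨N, hN⟩ := exists_nat_gt (1 / (2 * ε))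
    have key := lower_parity hST hB hX (N + 1) (fun p => by
      obtain ⟨m', P, hm', ⟨θ⟩, hP⟩ := exists_desc hST h1 hz hz0 hm hm1 N p
      have h1P : (1 : W.H P) ≠ 0 := by
        have : Nontrivial (W.H P) := by
          apply Module.nontrivial_of_finrank_pos (R := W.K)
          rw [finrank_iso θ, finrank_pw]
          exact Nat.pow_pos hX
        exact one_ne_zero
      obtain ⟨M, hM, hlt, hMT⟩ := hP.chain hST fun x hx => S.nilpotent_iso hpos hB hX θ h1P hx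
      exact ⟨m', P, M, hm', ⟨θ⟩, hM, hlt, hMT⟩) one_pos
    obtain ⟨n₀, hn₀⟩ := key
    refine ⟨n₀, fun n hn => finrank_le_of hST (hT n) ?_⟩
    have h2 := hn₀ n hn
    have h3 : (((N + 1 : ℕ) : ℝ) - 1) = N := by push_cast; ring
    rw [h3] at h2
    have h4 : (0 : ℝ) ≤ S.a (pw X n) := Nat.cast_nonneg _
    have h5 : (S.a (pw X n) : ℝ) = 2 * ε * (1 / (2 * ε) * S.a (pw X n)) := by
      field_simp
    rw [h5]
    apply mul_le_mul_of_nonneg_left _ (by positivity)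
    exact (mul_le_mul_of_nonneg_right hN.le h4).trans h2
  push Not at hN
  by_cases heq : ∀ n, S.C (pw X n) = T.C (pw X n)
  · exact Or.inl heq
  right
  intro ε hε
  push Not at heq
  obtain ⟨m, hm⟩ := heq
  have hm' : S.C (pw X m) < T.C (pw X m) := lt_of_le_of_ne (hST _) hm
  set δ := min ε 1 with hδ
  have hδ0 : 0 < δ := lt_min hε one_pos
  obtain ⟨n₀, hn₀⟩ := lower_parity (T := T) hST hB hX 2 (fun p => by
    obtain ⟨m', hm'p, hlt⟩ : ∃ m', m' % 2 = p % 2 ∧ S.C (pw X m') < T.C (pw X m') := by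
      by_cases h : m % 2 = p % 2
      · exact ⟨m, h, hm'⟩
      · exact ⟨m + 1, by omega, lt_succ hST hl hl1 hm'⟩
    refine ⟨m', pw X m', fun n => match n with
      | 0 => ⊥
      | 1 => S.C (pw X m')
      | _ + 2 => T.C (pw X m'), hm'p, ⟨Iso.refl _⟩, ?_, ?_, le_rfl⟩
    · rintro (_ | _ | n) a ha x hx
      · rw [(Submodule.mem_bot _).1 hx, map_zero]; exact Submodule.zero_mem _
      · exact Op.apply (T := S) (fun _ => le_rfl) ha hx
      · exact Op.apply hST ha hx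
    · intro n hn
      interval_cases n
      · rw [bot_lt_iff_ne_bot]
        intro h
        obtain ⟨y, hy, hy1⟩ := S.exists_lam hl hl1 m'
        change S.C (pw X m') = ⊥ at h
        rw [h, Submodule.mem_bot] at hy
        exact ne_zero_of_tr hy1 hy
      · exact hlt) hδ0
  refine ⟨n₀, fun n hn => ?_⟩
  have h2 := hn₀ n hn
  have h3 := S.a_add_num (pw X n)
  rw [hN n, finrank_bot, add_zero] at h3
  rw [← h3]
  have h4 : (0 : ℝ) ≤ S.a (pw X n) := Nat.cast_nonneg _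
  have h5 : (0 : ℝ) ≤ 1 / 2 + ε := by positivity
  have h6 : (1 : ℝ) ≤ (1 / 2 + ε) * (((2 : ℕ) : ℝ) - δ) := by
    have h7 : δ ≤ ε := min_le_left _ _
    have h8 : δ ≤ 1 := min_le_right _ _
    push_cast
    nlinarith
  calc (S.a (pw X n) : ℝ) = 1 * S.a (pw X n) := (one_mul _).symm
    _ ≤ ((1 / 2 + ε) * (((2 : ℕ) : ℝ) - δ)) * S.a (pw X n) :=
        mul_le_mul_of_nonneg_right h6 h4
    _ = (1 / 2 + ε) * ((((2 : ℕ) : ℝ) - δ) * S.a (pw X n)) := by ring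
    _ ≤ _ := mul_le_mul_of_nonneg_left h2 h5

end Sys

end Pool.Agent.Y133.Half
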