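import Pool.Agent.Y133.Half.Pow

/-!
# Numerically trivial classes and operators
-/

open CategoryTheory AlgebraicGeometry

universe u v

namespace Pool.Agent.Y133.Half

open Module
open Pool.Agent.H914 Pool.Agent.H914.VarClass Pool.Agent.H914.VarClass.Obj
  Pool.Agent.H914.WeilCohomology

variable {k : Type u} [Field k] {𝒱 : VarClass k} {ops : CycleOps 𝒱}
  {W : WeilCohomology.{u, v} ops} {X Y Z P Q R : 𝒱.Obj}

lemma push_fst (a : W.H X) (b : W.H Y) (hb : b ∈ PH W Y 0) :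
    W.push (fst X Y) (xp W a b) = W.tr Y b • a := by
  apply W.tr_ext
  intro c
  rw [W.tr_push, xp, mul_assoc, PH.even_comm (PH.map _ hb), ← mul_assoc, ← map_mul, W.tr_prod,
    smul_mul_assoc, map_smul, smul_eq_mul, mul_comm]

namespace Sys

variable (S : Sys W)

/-- The numerically trivial classes. -/
def Num (Z : 𝒱.Obj) : Submodule W.K (W.H Z) where
  carrier := {c | c ∈ S.C Z ∧ ∀ d ∈ S.C Z, W.tr Z (c * d) = 0}
  zero_mem' := ⟨Submodule.zero_mem _, fun d _ => by rw [zero_mul, map_zero]⟩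
  add_mem' := fun {a b} ha hb => ⟨Submodule.add_mem _ ha.1 hb.1, fun d hd => by
    rw [add_mul, map_add, ha.2 d hd, hb.2 d hd, add_zero]⟩
  smul_mem' := fun r a ha => ⟨Submodule.smul_mem _ _ ha.1, fun d hd => by
    rw [smul_mul_assoc, map_smul, ha.2 d hd, smul_zero]⟩

variable {S}

lemma Num.mem {c : W.H Z} (h : c ∈ S.Num Z) : c ∈ S.C Z := h.1

lemma Num.mul {c d : W.H Z} (hc : c ∈ S.Num Z) (hd : d ∈ S.C Z) : c * d ∈ S.Num Z :=
  ⟨S.mul hc.1 hd, fun e he => by rw [mul_assoc]; exact hc.2 _ (S.mul hd he)⟩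

lemma Num.mul' {c d : W.H Z} (hc : c ∈ S.C Z) (hd : d ∈ S.Num Z) : c * d ∈ S.Num Z := by
  rw [PH.even_comm (S.even hc)]; exact Num.mul hd hc

lemma Num.map (f : X ⟶ Y) {c : W.H Y} (hc : c ∈ S.Num Y) : W.map f c ∈ S.Num X :=
  ⟨S.map f hc.1, fun d hd => by
    rw [PH.even_comm (PH.map f (S.even hc.1)), ← W.tr_push, PH.even_comm (S.even (S.push f hd))]
    exact hc.2 _ (S.push f hd)⟩

lemma Num.push (f : X ⟶ Y) {c : W.H X} (hc : c ∈ S.Num X) : W.push f c ∈ S.Num Y :=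
  ⟨S.push f hc.1, fun d hd => by rw [W.tr_push]; exact hc.2 _ (S.map f hd)⟩

variable (S)

/-- The operators given by numerically trivial classes. -/
noncomputable def NOp (X Y : 𝒱.Obj) : Submodule W.K (W.H X →ₗ[W.K] W.H Y) :=
  (S.Num (X.prod Y)).map (corrL W X Y)

variable {S}

lemma mem_NOp {u : W.H X →ₗ[W.K] W.H Y} : u ∈ S.NOp X Y ↔ ∃ c ∈ S.Num (X.prod Y), W.corr c = u :=
  Submodule.mem_map

lemma NOp.corr {c : W.H (X.prod Y)} (hc : c ∈ S.Num (X.prod Y)) : W.corr c ∈ S.NOp X Y :=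
  mem_NOp.2 ⟨c, hc, rfl⟩

lemma NOp.op {u : W.H X →ₗ[W.K] W.H Y} (hu : u ∈ S.NOp X Y) : u ∈ S.Op X Y := by
  obtain ⟨c, hc, rfl⟩ := mem_NOp.1 hu
  exact Op.corr hc.1

lemma NOp.comp_left {u : W.H Y →ₗ[W.K] W.H Z} {w : W.H X →ₗ[W.K] W.H Y} (hu : u ∈ S.Op Y Z)
    (hw : w ∈ S.NOp X Y) : u ∘ₗ w ∈ S.NOp X Z := by
  obtain ⟨d, hd, rfl⟩ := mem_Op.1 hu
  obtain ⟨c, hc, rfl⟩ := mem_NOp.1 hw
  rw [← corr_comp' c (S.even hd)]
  exact NOp.corr (Num.push _ (Num.mul (Num.map _ hc) (S.map _ hd)))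

lemma NOp.comp_right {u : W.H Y →ₗ[W.K] W.H Z} {w : W.H X →ₗ[W.K] W.H Y} (hu : u ∈ S.NOp Y Z)
    (hw : w ∈ S.Op X Y) : u ∘ₗ w ∈ S.NOp X Z := by
  obtain ⟨d, hd, rfl⟩ := mem_NOp.1 hu
  obtain ⟨c, hc, rfl⟩ := mem_Op.1 hw
  rw [← corr_comp' c (S.even hd.1)]
  exact NOp.corr (Num.push _ (Num.mul' (S.map _ hc) (Num.map _ hd)))

lemma NOp.trace {u : W.H Y →ₗ[W.K] W.H X} {w : W.H X →ₗ[W.K] W.H Y} (hu : u ∈ S.NOp Y X)
    (hw : w ∈ S.Op X Y) :
    LinearMap.trace W.K (W.H X) (par (W.isInternal X) ∘ₗ u ∘ₗ w) = 0 := by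
  obtain ⟨d, hd, rfl⟩ := mem_NOp.1 hu
  obtain ⟨c, hc, rfl⟩ := mem_Op.1 hw
  rw [trace_corr_corr]
  exact hd.2 _ (S.map _ hc)

lemma NOp.ext_left {x : Module.End W.K (W.H P)} (hx : x ∈ S.NOp P P) :
    extOp W x (1 : Module.End W.K (W.H Q)) ∈ S.NOp (P.prod Q) (P.prod Q) := by
  obtain ⟨c, hc, rfl⟩ := mem_NOp.1 hx
  have h : (1 : Module.End W.K (W.H Q)) = W.corr (W.push (diag Q) (1 : W.H Q)) :=
    corr_diag_one.symm
  rw [h, ← corr_ext_class c (S.even diag_mem)]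
  exact NOp.corr (Num.mul (Num.map _ hc) (S.map _ diag_mem))

lemma NOp.ext_right {x : Module.End W.K (W.H Q)} (hx : x ∈ S.NOp Q Q) :
    extOp W (1 : Module.End W.K (W.H P)) x ∈ S.NOp (P.prod Q) (P.prod Q) := by
  obtain ⟨c, hc, rfl⟩ := mem_NOp.1 hx
  have h : (1 : Module.End W.K (W.H P)) = W.corr (W.push (diag P) (1 : W.H P)) :=
    corr_diag_one.symm
  rw [h, ← corr_ext_class _ (S.even hc.1)]
  exact NOp.corr (Num.mul' (S.map _ diag_mem) (Num.map _ hc))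

/-- Pull-backs are operators of the system. -/
lemma Op.map (f : X ⟶ Y) : (W.map f).toLinearMap ∈ S.Op Y X := by
  have h : W.corr (W.push (Obj.lift f (𝟙 X)) (1 : W.H X)) = (W.map f).toLinearMap := by
    apply LinearMap.ext
    intro a
    rw [corr_apply, ← W.push_mul, one_mul, ← W.map_comp, ← W.push_comp,
      Obj.lift_fst, Obj.lift_snd, W.push_id]
    rfl
  rw [← h]
  exact Op.corr (S.push _ (S.one X))

variable (S)

lemma a_add_num (Z : 𝒱.Obj) : S.a Z + finrank W.K (S.Num Z) = finrank W.K (S.C Z) := by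
  have h := LinearMap.finrank_range_add_finrank_ker (S.F Z 1)
  have h1 : finrank W.K (LinearMap.ker (S.F Z 1)) = finrank W.K (S.Num Z) := by
    have h2 : (LinearMap.ker (S.F Z 1)).map (S.C Z).subtype = S.Num Z := by
      ext x
      constructor
      · rintro ⟨c, hc, rfl⟩
        refine ⟨c.2, fun d hd => ?_⟩
        exact congrArg (fun f : S.C Z →ₗ[W.K] W.K => f ⟨d, hd⟩) (LinearMap.mem_ker.1 hc)
      · rintro ⟨hx, hx'⟩
        refine ⟨⟨x, hx⟩, ?_, rfl⟩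
        rw [SetLike.mem_coe, LinearMap.mem_ker]
        apply LinearMap.ext
        intro d
        exact hx' d d.2
    rw [← h2]
    exact (Submodule.equivMapOfInjective _ (Submodule.subtype_injective _) _).finrank_eq
  rw [h1] at h
  exact h

/-- The pairing on the classes of the system `T` on `Z` is perfect. -/
def Nondeg (T : Sys W) (Z : 𝒱.Obj) : Prop :=
  ∀ x ∈ T.C Z, (∀ y ∈ T.C Z, W.tr Z (x * y) = 0) → x = 0

lemma finrank_ge {T : Sys W} (hST : ∀ X, S.C X ≤ T.C X) (hT : Nondeg T Z) :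
    S.a Z + 2 * finrank W.K (S.Num Z) ≤ finrank W.K (T.C Z) := by
  -- the pairing of `T` with itself
  have hinj : Function.Injective (T.F Z 1) := by
    rw [← LinearMap.ker_eq_bot, LinearMap.ker_eq_bot']
    intro c hc
    apply Subtype.ext
    refine hT c c.2 fun y hy => ?_
    exact congrArg (fun f : T.C Z →ₗ[W.K] W.K => f ⟨y, hy⟩) hc
  have hsurj : Function.Surjective (T.F Z 1) :=
    (LinearMap.injective_iff_surjective_of_finrank_eq_finrank
      (Subspace.dual_finrank_eq).symm).1 hinj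
  let i : S.C Z →ₗ[W.K] T.C Z := Submodule.inclusion (hST Z)
  have hi : Function.Injective i := Submodule.inclusion_injective _
  let Λ : T.C Z →ₗ[W.K] (S.C Z →ₗ[W.K] W.K) := i.dualMap ∘ₗ T.F Z 1
  have hΛ : Function.Surjective Λ :=
    (LinearMap.dualMap_surjective_of_injective hi).comp hsurj
  have h1 := LinearMap.finrank_range_add_finrank_ker Λ
  rw [LinearMap.range_eq_top.2 hΛ, finrank_top] at h1
  have h2 : finrank W.K (S.C Z →ₗ[W.K] W.K) = finrank W.K (S.C Z) :=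
    Subspace.dual_finrank_eq
  have h3 : finrank W.K (S.Num Z) ≤ finrank W.K (LinearMap.ker Λ) := by
    have h4 : S.Num Z ≤ (LinearMap.ker Λ).map (T.C Z).subtype := by
      intro x hx
      refine ⟨⟨x, hST Z hx.1⟩, ?_, rfl⟩
      rw [SetLike.mem_coe, LinearMap.mem_ker]
      apply LinearMap.ext
      intro d
      exact hx.2 d d.2
    refine (Submodule.finrank_mono h4).trans ?_
    exact Submodule.finrank_map_le _ _
  have h5 := S.a_add_num Z
  rw [h2] at h1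
  omega

end Sys

end Pool.Agent.Y133.Half
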