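import Pool.Agent.Y133.Half.PairPow

/-!
# Extension of the coefficients of a system of classes
-/

open CategoryTheory AlgebraicGeometry Filter Topology

open scoped TensorProduct

universe u v

namespace Pool.Agent.Y133.Half

open Module
open Pool.Agent.H914 Pool.Agent.H914.VarClass Pool.Agent.H914.VarClass.Obj
  Pool.Agent.H914.WeilCohomology

section Alg

variable {K : Type*} [Field K] {A : Type*} [Ring A] [Algebra K A] {L : Type*} [Field L]
  [Algebra K L] {C : Submodule K A}

lemma base_mul_mem (hC : ∀ {a b}, a ∈ C → b ∈ C → a * b ∈ C) {x y : L ⊗[K] A}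
    (hx : x ∈ C.baseChange L) (hy : y ∈ C.baseChange L) : x * y ∈ C.baseChange L := by
  refine base_induction (P := fun x => x * y ∈ C.baseChange L) ?_ ?_ ?_ hx
  · rw [zero_mul]; exact Submodule.zero_mem _
  · intro x x' hx hx'
    rw [add_mul]; exact Submodule.add_mem _ hx hx'
  · intro l a ha
    refine base_induction (P := fun y => l ⊗ₜ[K] a * y ∈ C.baseChange L) ?_ ?_ ?_ hy
    · rw [mul_zero]; exact Submodule.zero_mem _
    · intro x y hx hy
      rw [mul_add]; exact Submodule.add_mem _ hx hy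
    · intro l' a' ha'
      rw [Algebra.TensorProduct.tmul_mul_tmul]
      exact Submodule.tmul_mem_baseChange_of_mem _ (hC ha ha')

lemma base_nondeg [FiniteDimensional K C] (t : A →ₗ[K] K) (hcomm : ∀ a ∈ C, ∀ b, a * b = b * a)
    (h : ∀ x ∈ C, (∀ y ∈ C, t (x * y) = 0) → x = 0) {x : L ⊗[K] A}
    (hx : x ∈ C.baseChange L) (hxy : ∀ y ∈ C.baseChange L, formBase L t (x * y) = 0) : x = 0 := by
  classical
  let e := Module.finBasis K C
  let F : C →ₗ[K] (C →ₗ[K] K) := LinearMap.mk₂ K (fun c d => t ((c : A) * (d : A)))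
    (fun c c' d => by rw [Submodule.coe_add, add_mul, map_add])
    (fun r c d => by rw [Submodule.coe_smul, smul_mul_assoc, map_smul])
    (fun c d d' => by rw [Submodule.coe_add, mul_add, map_add])
    (fun r c d => by rw [Submodule.coe_smul, mul_smul_comm, map_smul])
  have hinj : Function.Injective F := by
    rw [← LinearMap.ker_eq_bot, LinearMap.ker_eq_bot']
    intro c hc
    apply Subtype.ext
    refine h c c.2 fun y hy => ?_
    exact congrArg (fun f : C →ₗ[K] K => f ⟨y, hy⟩) hc
  have hsurj : Function.Surjective F :=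
    (LinearMap.injective_iff_surjective_of_finrank_eq_finrank
      (Subspace.dual_finrank_eq).symm).1 hinj
  have hdual : ∀ j, ∃ f ∈ C, ∀ i, t ((e i : A) * f) = if i = j then 1 else 0 := by
    intro j
    obtain ⟨f, hf⟩ := hsurj (e.coord j)
    refine ⟨f, f.2, fun i => ?_⟩
    have h1 := congrArg (fun g : C →ₗ[K] K => g (e i)) hf
    change t ((f : A) * (e i : A)) = e.coord j (e i) at h1
    rw [hcomm _ (e i).2, h1, Basis.coord_apply, Basis.repr_self, Finsupp.single_apply]
  have hrep : ∃ l : Fin (finrank K C) → L, x = ∑ i, l i ⊗ₜ[K] (e i : A) := by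
    refine base_induction (P := fun x : L ⊗[K] A =>
      ∃ l : Fin (finrank K C) → L, x = ∑ i, l i ⊗ₜ[K] (e i : A)) ?_ ?_ ?_ hx
    · exact ⟨0, by simp⟩
    · rintro _ _ ⟨l, rfl⟩ ⟨l', rfl⟩
      refine ⟨l + l', ?_⟩
      rw [← Finset.sum_add_distrib]
      exact Finset.sum_congr rfl fun i _ => (TensorProduct.add_tmul _ _ _).symm
    · intro l a ha
      refine ⟨fun i => l * algebraMap K L (e.repr ⟨a, ha⟩ i), ?_⟩
      have h1 : (a : A) = ∑ i, e.repr ⟨a, ha⟩ i • (e i : A) := by
        have h2 := congrArg Subtype.val (e.sum_repr ⟨a, ha⟩)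
        simp only [AddSubmonoidClass.coe_finset_sum, Submodule.coe_smul] at h2
        exact h2.symm
      conv_lhs => rw [h1]
      rw [TensorProduct.tmul_sum]
      refine Finset.sum_congr rfl fun i _ => ?_
      rw [TensorProduct.tmul_smul, TensorProduct.smul_tmul', Algebra.smul_def, mul_comm]
  obtain ⟨l, rfl⟩ := hrep
  have hl : ∀ j, l j = 0 := by
    intro j
    obtain ⟨f, hf, hfe⟩ := hdual j
    have h1 := hxy ((1 : L) ⊗ₜ[K] f) (Submodule.tmul_mem_baseChange_of_mem (1 : L) hf)
    have h2 : (∑ i, l i ⊗ₜ[K] (e i : A)) * ((1 : L) ⊗ₜ[K] f) =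
        ∑ i, l i ⊗ₜ[K] ((e i : A) * f) := by
      rw [Finset.sum_mul]
      refine Finset.sum_congr rfl fun i _ => ?_
      rw [Algebra.TensorProduct.tmul_mul_tmul, mul_one]
    have h5 : ∀ i, formBase L t (l i ⊗ₜ[K] ((e i : A) * f)) = if i = j then l i else 0 := by
      intro i
      rw [formBase_tmul, hfe]
      split_ifs <;> simp
    rw [h2, map_sum, Finset.sum_congr rfl fun i _ => h5 i] at h1
    simpa using h1
  simp [hl]

end Alg

variable {k : Type u} [Field k] {𝒱 : VarClass k} {ops : CycleOps 𝒱}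
  {W : WeilCohomology.{u, v} ops} {X Y Z : 𝒱.Obj} {S T : Sys W} (L : Type v) [Field L]
  [Algebra W.K L]

lemma PH.base {b : ℕ} {x : W.H X} (hx : x ∈ PH W X b) (l : L) :
    ((l ⊗ₜ[W.K] x : L ⊗[W.K] W.H X) : (baseW W L).H X) ∈ PH (baseW W L) X b := by
  refine PH.ind (p := fun x => ((l ⊗ₜ[W.K] x : L ⊗[W.K] W.H X) : (baseW W L).H X) ∈
    PH (baseW W L) X b) ?_ ?_ ?_ hx
  · intro i hi x hx
    refine PH.of' (W := baseW W L) hi ?_
    exact Submodule.tmul_mem_baseChange_of_mem l hx
  · rw [TensorProduct.tmul_zero]; exact Submodule.zero_mem _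
  · intro x y hx hy
    rw [TensorProduct.tmul_add]; exact Submodule.add_mem _ hx hy

namespace Sys

/-- The extension of the coefficients of a system of classes. -/
noncomputable def base (S : Sys W) : Sys (baseW W L) where
  C X := (S.C X).baseChange L
  even {X c} hc := by
    refine base_induction (P := fun c : L ⊗[W.K] W.H X => c ∈ PH (baseW W L) X 0) ?_ ?_ ?_ hc
    · exact Submodule.zero_mem _
    · intro x y hx hy; exact Submodule.add_mem _ hx hy
    · intro l a ha; exact PH.base L (S.even ha) l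
  one X := Submodule.tmul_mem_baseChange_of_mem (1 : L) (S.one X)
  mul {X c d} hc hd := base_mul_mem (C := S.C X) S.mul hc hd
  map {X Y} f c hc := by
    refine base_induction (P := fun c : L ⊗[W.K] W.H Y => (baseW W L).map f c ∈
      (S.C X).baseChange L) ?_ ?_ ?_ hc
    · have : (baseW W L).map f (0 : L ⊗[W.K] W.H Y) = (0 : L ⊗[W.K] W.H X) := map_zero _
      rw [this]; exact Submodule.zero_mem _
    · intro x y hx hy
      have : (baseW W L).map f (x + y : L ⊗[W.K] W.H Y) =
        ((baseW W L).map f x + (baseW W L).map f y : L ⊗[W.K] W.H X) := map_add _ _ _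
      rw [this]; exact Submodule.add_mem _ hx hy
    · intro l a ha
      have : (baseW W L).map f (l ⊗ₜ[W.K] a : L ⊗[W.K] W.H Y) =
        (l ⊗ₜ[W.K] W.map f a : L ⊗[W.K] W.H X) := Algebra.TensorProduct.map_tmul _ _ _ _
      rw [this]
      exact Submodule.tmul_mem_baseChange_of_mem _ (S.map f ha)
  push {X Y} f c hc := by
    refine base_induction (P := fun c : L ⊗[W.K] W.H X => (baseW W L).push f c ∈
      (S.C Y).baseChange L) ?_ ?_ ?_ hc
    · have : (baseW W L).push f (0 : L ⊗[W.K] W.H X) = (0 : L ⊗[W.K] W.H Y) := map_zero _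
      rw [this]; exact Submodule.zero_mem _
    · intro x y hx hy
      have : (baseW W L).push f (x + y : L ⊗[W.K] W.H X) =
        ((baseW W L).push f x + (baseW W L).push f y : L ⊗[W.K] W.H Y) := map_add _ _ _
      rw [this]; exact Submodule.add_mem _ hx hy
    · intro l a ha
      have : (baseW W L).push f (l ⊗ₜ[W.K] a : L ⊗[W.K] W.H X) =
        (l ⊗ₜ[W.K] W.push f a : L ⊗[W.K] W.H Y) := LinearMap.baseChange_tmul _ _ _
      rw [this]
      exact Submodule.tmul_mem_baseChange_of_mem _ (S.push f ha)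

lemma base_le (hST : ∀ X, S.C X ≤ T.C X) (X : 𝒱.Obj) : (S.base L).C X ≤ (T.base L).C X :=
  Submodule.baseChange_mono L (hST X)

lemma finrank_base (X : 𝒱.Obj) :
    finrank (baseW W L).K ((S.base L).C X) = finrank W.K (S.C X) :=
  Pool.Agent.Y129.finrank_baseChange L (S.C X)

lemma Nondeg.base (h : Nondeg S Z) : Nondeg (S.base L) Z := by
  intro x hx hxy
  exact base_nondeg (L := L) (W.tr Z) (fun a ha b => PH.even_comm (S.even ha) b) h hx hxy

end Sys

end Pool.Agent.Y133.Half
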