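import Pool.Agent.Y133.Half.PairBase
import Pool.Agent.Y129.Gen

/-!
# The index of a pair of systems of classes
-/

open CategoryTheory AlgebraicGeometry Filter Topology

open scoped ENNReal TensorProduct

universe u v

namespace Pool.Agent.Y133.Half

open Module
open Pool.Agent.H914 Pool.Agent.H914.VarClass Pool.Agent.H914.VarClass.Obj
  Pool.Agent.H914.WeilCohomology
open Pool.Agent.Y129 (IsCat perp nd sand IsPowers IsStable sand_one)

variable {k : Type u} [Field k] {𝒱 : VarClass k} {ops : CycleOps 𝒱}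
  {W : WeilCohomology.{u, v} ops} {X Y Z Z' P Q : 𝒱.Obj} {S T : Sys W}

namespace Sys

/-- A family of subspaces of the cohomology of the powers of `X` which is stable under the
operators of the system `S`. -/
def Stab (S : Sys W) (X : 𝒱.Obj) (G : ∀ n, Submodule W.K (W.H (pw X n))) : Prop :=
  ∀ m n, ∀ f ∈ S.Op (pw X m) (pw X n), ∀ a ∈ G m, f a ∈ G n

lemma stab_self : S.Stab X fun n => S.C (pw X n) :=
  fun _ _ _ hf _ ha => Op.apply (fun _ => le_rfl) hf ha

lemma stab_of_le (hST : ∀ X, S.C X ≤ T.C X) : S.Stab X fun n => T.C (pw X n) :=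
  fun _ _ _ hf _ ha => Op.apply hST hf ha

/-- The extension of the coefficients of a family of subspaces. -/
noncomputable def bf (L : Type v) [Field L] [Algebra W.K L]
    (G : ∀ n, Submodule W.K (W.H (pw X n))) (n : ℕ) :
    Submodule (baseW W L).K ((baseW W L).H (pw X n)) := (G n).baseChange L

lemma finrank_bf (L : Type v) [Field L] [Algebra W.K L]
    (G : ∀ n, Submodule W.K (W.H (pw X n))) (n : ℕ) :
    finrank (baseW W L).K (bf L G n) = finrank W.K (G n) :=
  Pool.Agent.Y129.finrank_baseChange L (G n)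

lemma Stab.base (L : Type v) [Field L] [Algebra W.K L] {G : ∀ n, Submodule W.K (W.H (pw X n))}
    (hG : S.Stab X G) : (S.base L).Stab X (bf L G) := by
  intro m n f hf a ha
  obtain ⟨c, hc, rfl⟩ := mem_Op.1 hf
  have ha' : a ∈ (G m).baseChange L := ha
  have key : ∀ c ∈ (S.C ((pw X m).prod (pw X n))).baseChange L,
      (baseW W L).corr c a ∈ (G n).baseChange L := by
    intro c hc
    refine base_induction (P := fun c : L ⊗[W.K] W.H ((pw X m).prod (pw X n)) =>
      (baseW W L).corr c a ∈ (G n).baseChange L) ?_ ?_ ?_ hc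
    · have h1 : (baseW W L).corr (0 : L ⊗[W.K] W.H ((pw X m).prod (pw X n))) = 0 := corr_zero _
      rw [h1]
      exact Submodule.zero_mem _
    · intro x y hx hy
      have h1 : (baseW W L).corr (x + y : L ⊗[W.K] W.H ((pw X m).prod (pw X n))) =
        (baseW W L).corr x + (baseW W L).corr y := (baseW W L).corr_add x y
      rw [h1]
      exact Submodule.add_mem _ hx hy
    · intro l d hd
      have e0 : (l ⊗ₜ[W.K] d : L ⊗[W.K] W.H ((pw X m).prod (pw X n))) = l • (1 ⊗ₜ[W.K] d) := by
        rw [TensorProduct.smul_tmul', smul_eq_mul, mul_one]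
      have e1 : (baseW W L).corr (l • (1 ⊗ₜ[W.K] d) :
          L ⊗[W.K] W.H ((pw X m).prod (pw X n))) = (show (baseW W L).K from l) •
            (baseW W L).corr ((1 ⊗ₜ[W.K] d) : L ⊗[W.K] W.H ((pw X m).prod (pw X n))) :=
        (baseW W L).corr_smul l _
      have e2 : (baseW W L).corr ((1 ⊗ₜ[W.K] d) : L ⊗[W.K] W.H ((pw X m).prod (pw X n))) =
          (W.corr d).baseChange L :=
        corrOp_base (L := L) (W.map (fst (pw X m) (pw X n))) (W.push (snd (pw X m) (pw X n))) d
      rw [e0, e1, e2]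
      refine Submodule.smul_mem _ l ?_
      refine base_induction (P := fun a : L ⊗[W.K] W.H (pw X m) =>
        (W.corr d).baseChange L a ∈ (G n).baseChange L) ?_ ?_ ?_ ha'
      · rw [map_zero]; exact Submodule.zero_mem _
      · intro x y hx hy
        rw [map_add]; exact Submodule.add_mem _ hx hy
      · intro l a ha
        rw [LinearMap.baseChange_tmul]
        exact Submodule.tmul_mem_baseChange_of_mem _ (hG m n _ (Op.corr hd) a ha)
  exact key c hc

lemma isPowers_base [Nontrivial (W.H X)] (hS : ∀ n, Nondeg S (pw X n)) (L : Type v) [Field L]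
    [Algebra W.K L] :
    IsPowers (H := fun n => (baseW W L).H (pw X n)) ((S.base L).CP X)
      (fun n => finrank W.K (S.C (pw X n))) (finrank (baseW W L).K ((baseW W L).H X)) := by
  have hnt : Nontrivial ((baseW W L).H X) := Pool.Agent.Y129.nontrivial_base L
  have h1 := isPowers (S := S.base L) (X := X) (fun n => (hS n).base L)
  simp only [S.finrank_base] at h1
  exact h1

/-- **The ratio law** for a nondegenerate system. -/
theorem stab_law [Nontrivial (W.H X)] (hS : ∀ n, Nondeg S (pw X n))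
    {G : ∀ n, Submodule W.K (W.H (pw X n))} (hG : S.Stab X G) :
    (∃ N : ℕ, (∀ n, finrank W.K (G (2 * n + 1)) ≤ N * finrank W.K (S.C (pw X (2 * n + 1)))) ∧
      Tendsto (fun n => (finrank W.K (G n) : ℝ) / finrank W.K (S.C (pw X n))) atTop
        (𝓝 (N : ℝ))) ∨
    Tendsto (fun n => (finrank W.K (G n) : ℝ) / finrank W.K (S.C (pw X n))) atTop atTop := by
  have hcl : IsAlgClosed (baseW W (AlgebraicClosure W.K)).K :=
    (inferInstance : IsAlgClosed (AlgebraicClosure W.K))
  have h1 := (isPowers_base hS (AlgebraicClosure W.K)).law (hG.base (AlgebraicClosure W.K))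
  simp only [finrank_bf] at h1
  exact h1

/-- **The gap** for a nondegenerate system. -/
theorem stab_gap [Nontrivial (W.H X)] (hS : ∀ n, Nondeg S (pw X n))
    {G' G : ∀ n, Submodule W.K (W.H (pw X n))} (hG' : S.Stab X G') (hG : S.Stab X G)
    (hle : ∀ n, G' n ≤ G n) {m : ℕ} (hne : G' m ≠ G m) {N' N : ℝ}
    (h1 : Tendsto (fun n => (finrank W.K (G' n) : ℝ) / finrank W.K (S.C (pw X n))) atTop (𝓝 N'))
    (h2 : Tendsto (fun n => (finrank W.K (G n) : ℝ) / finrank W.K (S.C (pw X n))) atTop (𝓝 N)) :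
    N' + 1 ≤ N := by
  have hcl : IsAlgClosed (baseW W (AlgebraicClosure W.K)).K :=
    (inferInstance : IsAlgClosed (AlgebraicClosure W.K))
  refine (isPowers_base hS (AlgebraicClosure W.K)).gap_limit (hG'.base _) (hG.base _)
    (fun n => Submodule.baseChange_mono _ (hle n)) (m := m) ?_ (N' := N') (N := N) ?_ ?_
  · intro h
    apply hne
    apply Submodule.eq_of_le_of_finrank_le (hle m)
    rw [← finrank_bf (AlgebraicClosure W.K) G', ← finrank_bf (AlgebraicClosure W.K) G, h]
  · simp only [finrank_bf]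
    exact h1
  · simp only [finrank_bf]
    exact h2

lemma finrank_pos_pw [Nontrivial (W.H X)] (S : Sys W) (n : ℕ) :
    0 < finrank W.K (S.C (pw X n)) := by
  have h3 : Nontrivial (W.H (pw X n)) := by
    apply Module.nontrivial_of_finrank_pos (R := W.K)
    rw [finrank_pw]
    exact pow_pos Module.finrank_pos _
  rw [Module.finrank_pos_iff]
  exact ⟨⟨⟨1, S.one (pw X n)⟩, 0, fun h => one_ne_zero (congrArg Subtype.val h)⟩⟩

/-- The index of a stable family. -/
def IsInd (S : Sys W) (X : 𝒱.Obj) (G : ∀ n, Submodule W.K (W.H (pw X n))) (N : ℕ∞) : Prop :=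
  Tendsto (fun n => (finrank W.K (G n) : ℝ≥0∞) / finrank W.K (S.C (pw X n))) atTop
    (𝓝 (N : ℝ≥0∞))

/-- **The index** of a stable family which contains a nondegenerate system. -/
theorem stab_index [Nontrivial (W.H X)] (hS : ∀ n, Nondeg S (pw X n))
    {G : ∀ n, Submodule W.K (W.H (pw X n))} (hG : S.Stab X G) (hSG : ∀ n, S.C (pw X n) ≤ G n) :
    ∃ N : ℕ∞, 1 ≤ N ∧ S.IsInd X G N ∧
      (∀ n, (finrank W.K (G (2 * n + 1)) : ℝ≥0∞) / finrank W.K (S.C (pw X (2 * n + 1))) ≤
        (N : ℝ≥0∞)) ∧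
      (N = 1 ↔ ∀ n, G n = S.C (pw X n)) := by
  have hpos : ∀ n, 0 < finrank W.K (S.C (pw X n)) := S.finrank_pos_pw
  have hdiv : ∀ n, ENNReal.ofReal ((finrank W.K (G n) : ℝ) / finrank W.K (S.C (pw X n))) =
      (finrank W.K (G n) : ℝ≥0∞) / finrank W.K (S.C (pw X n)) := by
    intro n
    rw [ENNReal.ofReal_div_of_pos (by exact_mod_cast hpos n), ENNReal.ofReal_natCast,
      ENNReal.ofReal_natCast]
  obtain ⟨N, h1, h2⟩ : ∃ N : ℕ∞, S.IsInd X G N ∧
      (∀ n, (finrank W.K (G (2 * n + 1)) : ℝ≥0∞) / finrank W.K (S.C (pw X (2 * n + 1))) ≤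
        (N : ℝ≥0∞)) := by
    rcases stab_law hS hG with ⟨N, h1, h2⟩ | h1
    · refine ⟨N, ?_, fun n => ?_⟩
      · have h3 := ENNReal.tendsto_ofReal h2
        simp only [hdiv, ENNReal.ofReal_natCast] at h3
        simpa [IsInd] using h3
      · rw [ENNReal.div_le_iff (by exact_mod_cast (hpos _).ne') (ENNReal.natCast_ne_top _)]
        rw [ENat.toENNReal_coe]
        exact_mod_cast h1 n
    · refine ⟨⊤, ?_, fun n => le_top⟩
      have h3 := ENNReal.tendsto_ofReal_atTop.comp h1
      have h4 : (ENNReal.ofReal ∘ fun n => (finrank W.K (G n) : ℝ) /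
          finrank W.K (S.C (pw X n))) =
          fun n => (finrank W.K (G n) : ℝ≥0∞) / finrank W.K (S.C (pw X n)) := by
        funext n
        exact hdiv n
      rw [h4] at h3
      simpa [IsInd] using h3
  have hone : ∀ n, (1 : ℝ≥0∞) ≤ (finrank W.K (G n) : ℝ≥0∞) / finrank W.K (S.C (pw X n)) := by
    intro n
    rw [ENNReal.le_div_iff_mul_le (Or.inl (by exact_mod_cast (hpos _).ne'))
      (Or.inl (ENNReal.natCast_ne_top _)), one_mul]
    exact_mod_cast Submodule.finrank_mono (hSG n)
  refine ⟨N, ?_, h1, h2, ?_, ?_⟩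
  · have h3 := (hone 1).trans (h2 0)
    rw [← ENat.toENNReal_one, ENat.toENNReal_le] at h3
    exact h3
  · rintro rfl
    have h3 : ∀ n, G (2 * n + 1) = S.C (pw X (2 * n + 1)) := by
      intro n
      refine (Submodule.eq_of_le_of_finrank_le (hSG _) ?_).symm
      have := h2 n
      rw [ENNReal.div_le_iff (by exact_mod_cast (hpos _).ne') (ENNReal.natCast_ne_top _),
        ENat.toENNReal_one, one_mul] at this
      exact_mod_cast this
    intro n
    rcases Nat.even_or_odd' n with ⟨m, hm | hm⟩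
    · subst hm
      have hX : Nondeg S X := hS 0
      obtain ⟨z, hz, hz1⟩ := exists_tr_one hX
      apply le_antisymm _ (hSG _)
      intro c hc
      have h6 : W.map (fst (pw X (2 * m)) X) c ∈ G (2 * m + 1) :=
        hG (2 * m) (2 * m + 1) _ (Op.map (fst (pw X (2 * m)) X)) c hc
      rw [h3 m] at h6
      rw [← push_fst_mul (P := pw X (2 * m)) c hz hz1]
      exact S.push _ (S.mul (S.map _ hz) h6)
    · subst hm
      exact h3 m
  · intro h3
    have h4 : ∀ n, (finrank W.K (G n) : ℝ≥0∞) / finrank W.K (S.C (pw X n)) = 1 := by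
      intro n
      rw [h3 n]
      apply ENNReal.div_self
      · exact_mod_cast (hpos n).ne'
      · exact ENNReal.natCast_ne_top _
    rw [IsInd] at h1
    simp only [h4] at h1
    have h5 := tendsto_nhds_unique h1 tendsto_const_nhds
    have h6 : ((N : ℕ∞) : ℝ≥0∞) = ((1 : ℕ∞) : ℝ≥0∞) := by
      rw [h5]; simp
    exact ENat.toENNReal_inj.1 h6

end Sys

end Pool.Agent.Y133.Half
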