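import Pool.Agent.H914R2.ExtOp

/-!
# Even and odd classes, and the trace formula for two correspondences
-/

open CategoryTheory AlgebraicGeometry

universe u v

namespace Pool.Agent.Y133.Half

open Pool.Agent.H914 Pool.Agent.H914.VarClass Pool.Agent.H914.VarClass.Obj
  Pool.Agent.H914.WeilCohomology

variable {k : Type u} [Field k] {𝒱 : VarClass k} {ops : CycleOps 𝒱}
  {W : WeilCohomology.{u, v} ops} {X Y Z M N : 𝒱.Obj}

/-- The sums of classes of degrees of the parity of `b`. -/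
def PH (W : WeilCohomology.{u, v} ops) (X : 𝒱.Obj) (b : ℕ) : Submodule W.K (W.H X) :=
  ⨆ (i : ℕ) (_ : i % 2 = b % 2), W.gr X i

lemma PH.of {i : ℕ} {x : W.H X} (hx : x ∈ W.gr X i) : x ∈ PH W X i :=
  Submodule.mem_iSup_of_mem i (Submodule.mem_iSup_of_mem rfl hx)

lemma PH.of' {i b : ℕ} (h : i % 2 = b % 2) {x : W.H X} (hx : x ∈ W.gr X i) : x ∈ PH W X b :=
  Submodule.mem_iSup_of_mem i (Submodule.mem_iSup_of_mem h hx)

lemma PH.congr {b c : ℕ} (h : b % 2 = c % 2) {x : W.H X} (hx : x ∈ PH W X b) : x ∈ PH W X c := by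
  unfold PH at hx ⊢
  rw [← h]; exact hx

lemma PH.ind {b : ℕ} {p : W.H X → Prop} (h1 : ∀ i, i % 2 = b % 2 → ∀ x ∈ W.gr X i, p x)
    (h0 : p 0) (h2 : ∀ x y, p x → p y → p (x + y)) {x : W.H X} (hx : x ∈ PH W X b) : p x := by
  unfold PH at hx
  refine Submodule.iSup_induction _ (motive := p) hx (fun i x hx => ?_) h0 h2
  refine Submodule.iSup_induction _ (motive := p) hx (fun hi x hx => h1 i hi x hx) h0 h2

lemma PH.mul {a b : ℕ} {x y : W.H X} (hx : x ∈ PH W X a) (hy : y ∈ PH W X b) :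
    x * y ∈ PH W X (a + b) := by
  refine PH.ind (p := fun x => x * y ∈ PH W X (a + b)) ?_ ?_ ?_ hx
  · intro i hi x hx
    refine PH.ind (p := fun y => x * y ∈ PH W X (a + b)) ?_ ?_ ?_ hy
    · intro j hj y hy
      exact PH.of' (by omega) (W.mul_mem hx hy)
    · rw [mul_zero]; exact Submodule.zero_mem _
    · intro y y' hy hy'; rw [mul_add]; exact Submodule.add_mem _ hy hy'
  · rw [zero_mul]; exact Submodule.zero_mem _
  · intro y y' hy hy'; rw [add_mul]; exact Submodule.add_mem _ hy hy'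

lemma PH.map (f : X ⟶ Y) {a : ℕ} {x : W.H Y} (hx : x ∈ PH W Y a) : W.map f x ∈ PH W X a := by
  refine PH.ind (p := fun x => W.map f x ∈ PH W X a) ?_ ?_ ?_ hx
  · intro i hi x hx; exact PH.of' hi (W.map_mem f hx)
  · rw [map_zero]; exact Submodule.zero_mem _
  · intro y y' hy hy'; rw [map_add]; exact Submodule.add_mem _ hy hy'

lemma PH.push (f : X ⟶ Y) {a : ℕ} {x : W.H X} (hx : x ∈ PH W X a) : W.push f x ∈ PH W Y a := by
  refine PH.ind (p := fun x => W.push f x ∈ PH W Y a) ?_ ?_ ?_ hx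
  · intro i hi x hx
    have h := W.push_mem f hx
    by_cases hd : 0 ≤ (i : ℤ) + 2 * ((Y.dim : ℤ) - X.dim)
    · obtain ⟨j, hj⟩ := Int.eq_ofNat_of_zero_le hd
      rw [hj] at h
      have h' : W.push f x ∈ W.gr Y j := by
        have := h
        rwa [grZ_natCast] at this
      exact PH.of' (by omega) h'
    · rw [grZ_of_neg (by omega)] at h
      rw [(Submodule.mem_bot _).1 h]
      exact Submodule.zero_mem _
  · rw [map_zero]; exact Submodule.zero_mem _
  · intro y y' hy hy'; rw [map_add]; exact Submodule.add_mem _ hy hy'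

lemma neg_pow_congr {K : Type*} [Field K] {a b : ℕ} (h : a % 2 = b % 2) :
    (-1 : K) ^ a = (-1 : K) ^ b := by
  rw [← Nat.div_add_mod a 2, ← Nat.div_add_mod b 2, h, pow_add, pow_add, pow_mul, pow_mul]
  simp

/-- Graded commutativity. -/
lemma PH.comm {a b : ℕ} {x y : W.H X} (hx : x ∈ PH W X a) (hy : y ∈ PH W X b) :
    x * y = (-1 : W.K) ^ (a * b) • (y * x) := by
  refine PH.ind (p := fun x => x * y = (-1 : W.K) ^ (a * b) • (y * x)) ?_ ?_ ?_ hx
  · intro i hi x hx
    refine PH.ind (p := fun y => x * y = (-1 : W.K) ^ (a * b) • (y * x)) ?_ ?_ ?_ hy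
    · intro j hj y hy
      rw [W.comm hx hy]
      congr 1
      apply neg_pow_congr
      rw [Nat.mul_mod, hi, hj, ← Nat.mul_mod]
    · simp
    · intro y y' hy hy'; rw [mul_add, hy, hy', add_mul, smul_add]
  · simp
  · intro y y' hy hy'; rw [add_mul, hy, hy', mul_add, smul_add]

lemma PH.even_comm {x : W.H X} (hx : x ∈ PH W X 0) (y : W.H X) : x * y = y * x := by
  refine PH.ind (p := fun x => x * y = y * x) ?_ ?_ ?_ hx
  · intro i hi x hx
    obtain ⟨j, rfl⟩ : ∃ j, i = 2 * j := ⟨i / 2, by omega⟩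
    exact W.even_comm hx y
  · simp
  · intro y y' hy hy'; rw [add_mul, hy, hy', mul_add]

lemma PH.par {a : ℕ} {x : W.H X} (hx : x ∈ PH W X a) :
    H914.par (W.isInternal X) x = (-1 : W.K) ^ a • x := by
  refine PH.ind (p := fun x => H914.par (W.isInternal X) x = (-1 : W.K) ^ a • x) ?_ ?_ ?_ hx
  · intro i hi x hx
    rw [H914.par, scal_apply _ _ hx, neg_pow_congr hi]
  · simp
  · intro y y' hy hy'; rw [map_add, hy, hy', smul_add]

/-- The operator preserves the parity. -/
def Ev (W : WeilCohomology.{u, v} ops) {X Y : 𝒱.Obj} (u : W.H X →ₗ[W.K] W.H Y) : Prop :=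
  ∀ b, ∀ x ∈ PH W X b, u x ∈ PH W Y b

lemma Ev.comp {u : W.H Y →ₗ[W.K] W.H Z} {w : W.H X →ₗ[W.K] W.H Y} (hu : Ev W u) (hw : Ev W w) :
    Ev W (u ∘ₗ w) := fun b x hx => hu b _ (hw b x hx)

lemma Ev.id : Ev W (LinearMap.id : W.H X →ₗ[W.K] W.H X) := fun _ _ hx => hx

lemma Ev.par_comm {u : W.H X →ₗ[W.K] W.H Y} (hu : Ev W u) :
    (par (W.isInternal Y)) ∘ₗ u = u ∘ₗ (par (W.isInternal X)) := by
  apply gr_ext (W.isInternal X)
  intro i x hx
  have hx' := PH.of (W := W) hx
  rw [LinearMap.comp_apply, LinearMap.comp_apply, PH.par hx', PH.par (hu i x hx'), map_smul]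

lemma Ev.corr {c : W.H (X.prod Y)} (hc : c ∈ PH W (X.prod Y) 0) : Ev W (W.corr c) := by
  intro b x hx
  rw [corr_apply]
  have := PH.mul hc (PH.map (fst X Y) hx)
  rw [zero_add] at this
  exact PH.push _ this

/-- The external product of classes. -/
noncomputable def xp (W : WeilCohomology.{u, v} ops) {X Y : 𝒱.Obj} (x : W.H X) (y : W.H Y) : W.H (X.prod Y) :=
  W.map (fst X Y) x * W.map (snd X Y) y

lemma xp_def (x : W.H X) (y : W.H Y) : xp W x y = W.map (fst X Y) x * W.map (snd X Y) y := rfl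

lemma xp_add_left (x x' : W.H X) (y : W.H Y) : xp W (x + x') y = xp W x y + xp W x' y := by
  rw [xp, map_add, add_mul]; rfl

lemma xp_add_right (x : W.H X) (y y' : W.H Y) : xp W x (y + y') = xp W x y + xp W x y' := by
  rw [xp, map_add, mul_add]; rfl

lemma xp_smul_left (c : W.K) (x : W.H X) (y : W.H Y) : xp W (c • x) y = c • xp W x y := by
  rw [xp, map_smul, smul_mul_assoc]; rfl

lemma xp_smul_right (c : W.K) (x : W.H X) (y : W.H Y) : xp W x (c • y) = c • xp W x y := by
  rw [xp, map_smul, mul_smul_comm]; rfl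

lemma xp_mul {b c : ℕ} (x x' : W.H X) (y y' : W.H Y) (hy : y ∈ PH W Y b)
    (hx' : x' ∈ PH W X c) :
    xp W x y * xp W x' y' = (-1 : W.K) ^ (b * c) • xp W (x * x') (y * y') := by
  rw [xp, xp, xp, mul_assoc, ← mul_assoc (W.map (snd X Y) y), PH.comm (PH.map _ hy) (PH.map _ hx'),
    map_mul (W.map (fst X Y)), map_mul (W.map (snd X Y))]
  simp only [mul_assoc, smul_mul_assoc, mul_smul_comm]

lemma xp_mem {a b : ℕ} {x : W.H X} {y : W.H Y} (hx : x ∈ PH W X a) (hy : y ∈ PH W Y b) :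
    xp W x y ∈ PH W (X.prod Y) (a + b) := PH.mul (PH.map _ hx) (PH.map _ hy)

lemma tr_xp (x : W.H X) (y : W.H Y) : W.tr (X.prod Y) (xp W x y) = W.tr X x * W.tr Y y :=
  W.tr_prod x y

/-- The trace of an odd class vanishes. -/
lemma PH.tr_odd {a : ℕ} {x : W.H X} (hx : x ∈ PH W X a) (ha : a % 2 = 1) : W.tr X x = 0 := by
  refine PH.ind (p := fun x => W.tr X x = 0) ?_ ?_ ?_ hx
  · intro i hi x hx
    exact W.tr_eq_zero hx (by omega)
  · exact map_zero _
  · intro y y' hy hy'; rw [map_add, hy, hy', add_zero]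

/-- The operator given by an external product. -/
lemma corr_xp {b c : ℕ} (x : W.H X) {y : W.H Y} (hy : y ∈ PH W Y b) {z : W.H X}
    (hz : z ∈ PH W X c) : W.corr (xp W x y) z = ((-1 : W.K) ^ (b * c) * W.tr X (x * z)) • y := by
  rw [corr_apply, xp, mul_assoc, PH.comm (PH.map (snd X Y) hy) (PH.map (fst X Y) hz), mul_smul_comm,
    ← mul_assoc, ← map_mul, map_smul, push_snd, smul_smul]

/-- Induction on classes on a product. -/
lemma xp_induction {p : W.H (X.prod Y) → Prop} (hadd : ∀ a b, p a → p b → p (a + b))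
    (h : ∀ i j, ∀ a ∈ PH W X i, ∀ b ∈ PH W Y j, p (xp W a b)) (c : W.H (X.prod Y)) : p c :=
  W.kunneth_induction hadd (fun i j a ha b hb => h i j a (PH.of ha) b (PH.of hb)) c

/-- The trace formula for two correspondences in opposite directions. -/
theorem trace_corr_corr (c : W.H (N.prod M)) (d : W.H (M.prod N)) :
    LinearMap.trace W.K (W.H M) (par (W.isInternal M) ∘ₗ W.corr c ∘ₗ W.corr d) =
      W.tr (N.prod M) (c * W.map (swap N M) d) := by
  refine xp_induction (p := fun c => LinearMap.trace W.K (W.H M)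
    (par (W.isInternal M) ∘ₗ W.corr c ∘ₗ W.corr d) =
      W.tr (N.prod M) (c * W.map (swap N M) d)) ?_ ?_ c
  · intro a b ha hb
    rw [corr_add, LinearMap.add_comp, LinearMap.comp_add, map_add, ha, hb, add_mul, map_add]
  intro i j a ha b hb
  refine xp_induction (p := fun d => LinearMap.trace W.K (W.H M)
    (par (W.isInternal M) ∘ₗ W.corr (xp W a b) ∘ₗ W.corr d) =
      W.tr (N.prod M) (xp W a b * W.map (swap N M) d)) ?_ ?_ d
  · intro c d hc hd
    rw [corr_add, LinearMap.comp_add, LinearMap.comp_add, map_add, hc, hd, map_add, mul_add,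
      map_add]
  intro l m b' hb' a' ha'
  -- the composite is a multiple of an operator of rank one
  have e1 : par (W.isInternal M) ∘ₗ W.corr (xp W a b) ∘ₗ W.corr (xp W b' a') =
      ((-1 : W.K) ^ (j + j * m) * W.tr N (a * a')) •
        (((-1 : W.K) ^ (m * l) • (W.tr M ∘ₗ LinearMap.mulLeft W.K b')).smulRight b) := by
    apply gr_ext (W.isInternal M)
    intro q y hy
    have hy' := PH.of (W := W) hy
    rw [LinearMap.comp_apply, LinearMap.comp_apply, corr_xp b' ha' hy', map_smul,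
      corr_xp a hb ha', map_smul, map_smul, PH.par hb]
    simp only [LinearMap.smul_apply, LinearMap.smulRight_apply, LinearMap.comp_apply,
      LinearMap.mulLeft_apply, smul_eq_mul, smul_smul]
    congr 1
    by_cases hq : (l + q) % 2 = 0
    · have h1 : (-1 : W.K) ^ (m * q) = (-1 : W.K) ^ (m * l) := by
        apply neg_pow_congr
        rw [Nat.mul_mod, Nat.mul_mod m l]
        have : q % 2 = l % 2 := by omega
        rw [this]
      rw [h1, pow_add]
      ring
    · have h1 : W.tr M (b' * y) = 0 := PH.tr_odd (PH.mul hb' hy') (by omega)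
      rw [h1]
      ring
  rw [e1, map_smul, LinearMap.trace_smulRight, LinearMap.smul_apply, LinearMap.comp_apply,
    LinearMap.mulLeft_apply, smul_eq_mul, smul_eq_mul]
  -- the other side
  have e2 : W.map (swap N M) (xp W b' a') = (-1 : W.K) ^ (l * m) • xp W a' b' := by
    rw [xp, map_mul (W.map (swap N M)), ← W.map_comp, ← W.map_comp, swap_fst, swap_snd,
      PH.comm (PH.map (snd N M) hb') (PH.map (fst N M) ha')]
    rfl
  rw [e2, mul_smul_comm, map_smul, xp_mul _ _ _ _ hb ha', map_smul, tr_xp, smul_eq_mul,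
    smul_eq_mul]
  by_cases hlj : (l + j) % 2 = 0
  · have h1 : b * b' = (-1 : W.K) ^ (j * l) • (b' * b) := PH.comm hb hb'
    rw [h1, map_smul, smul_eq_mul]
    have h2 : (-1 : W.K) ^ (j * l) = (-1 : W.K) ^ j := by
      apply neg_pow_congr
      rcases Nat.even_or_odd j with h | h
      · have hj : j % 2 = 0 := Nat.even_iff.1 h
        rw [Nat.mul_mod, hj, zero_mul, Nat.zero_mod]
      · have hj : j % 2 = 1 := Nat.odd_iff.1 h
        have hl : l % 2 = 1 := by omega
        rw [Nat.mul_mod, hj, hl]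
    have h3 : (-1 : W.K) ^ (m * l) = (-1 : W.K) ^ (l * m) := by rw [mul_comm]
    rw [h2, h3, pow_add]
    ring
  · have h1 : W.tr M (b' * b) = 0 := PH.tr_odd (PH.mul hb' hb) (by omega)
    have h2 : W.tr M (b * b') = 0 := PH.tr_odd (PH.mul hb hb') (by omega)
    rw [h1, h2]
    ring

end Pool.Agent.Y133.Half
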