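import Pool.Agent.Y133.Half.PerDefs
import Pool.Agent.Y133.Half.PredSys
import Pool.Agent.Y133.Half.HodgeSys

/-!
# The index law for de Rham-Betti classes
-/

open CategoryTheory AlgebraicGeometry Filter Topology

open scoped ENNReal TensorProduct

universe u v

namespace Pool.Agent.Y133.Per

open Module
open Pool.Agent.H914 Pool.Agent.H914.VarClass Pool.Agent.H914.VarClass.Obj
  Pool.Agent.H914.WeilCohomology Pool.Agent.W458.MF Pool.Agent.W536.RR Pool.Agent.H281R3.HT
open Pool.Agent.Y133.Half (ClassPred cycRank dimOf)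
open Pool.Agent.Y129 (pw genBy)

section Lin

variable {F : Subfield ℂ} {V : Type*} [AddCommGroup V] [Module ℂ V] [FiniteDimensional ℂ V]

/-- A subspace over `F` which spans, and on which a nondegenerate form has values in `F`, contains
all vectors whose products with its elements are in `F`. -/
lemma mem_of_pair (U : Submodule F V) (hD : Submodule.span ℂ (U : Set V) = ⊤)
    (B : V →ₗ[ℂ] V →ₗ[ℂ] ℂ) (hB : ∀ v, (∀ w, B v w = 0) → v = 0)
    (hDB : ∀ v ∈ U, ∀ w ∈ U, B v w ∈ F) {v : V} (hv : ∀ w ∈ U, B v w ∈ F) : v ∈ U := by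
  classical
  obtain ⟨s, hs, hspan, hli⟩ := exists_linearIndependent ℂ (U : Set V)
  rw [hD] at hspan
  have hfin : Finite s := hli.finite
  have : Fintype s := Fintype.ofFinite s
  have hsD : ∀ i : s, (i : V) ∈ U := fun i => hs i.2
  let e : Basis s ℂ V := Basis.mk hli (by rw [Subtype.range_coe, hspan])
  have he : ∀ i, e i = (i : V) := fun i => by rw [Basis.mk_apply]
  let R : Matrix s s F := fun i j => ⟨B (i : V) (j : V), hDB _ (hsD i) _ (hsD j)⟩
  have hdet : R.det ≠ 0 := by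
    intro h0
    have h1 : (R.map (algebraMap F ℂ)).det = 0 := by
      rw [← RingHom.mapMatrix_apply, ← RingHom.map_det, h0, map_zero]
    obtain ⟨x, hx, hx0⟩ := Matrix.exists_vecMul_eq_zero_iff.2 h1
    apply hx
    have h2 : ∑ i, x i • e i = 0 := by
      apply hB
      intro w
      have h3 : ∀ j, B (∑ i, x i • e i) (e j) = 0 := by
        intro j
        have h4 := congrFun hx0 j
        rw [Matrix.vecMul, dotProduct] at h4
        rw [map_sum, LinearMap.sum_apply]
        rw [Pi.zero_apply] at h4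
        rw [← h4]
        apply Finset.sum_congr rfl
        intro i _
        rw [map_smul, LinearMap.smul_apply, smul_eq_mul, he, he]
        rfl
      have h5 : B (∑ i, x i • e i) = 0 := e.ext fun j => by rw [h3, LinearMap.zero_apply]
      rw [h5, LinearMap.zero_apply]
    have h6 := Fintype.linearIndependent_iff.1 e.linearIndependent x h2
    funext i
    exact h6 i
  let t : s → F := fun j => ⟨B v (j : V), hv _ (hsD j)⟩
  let y : s → F := Matrix.vecMul t R⁻¹
  have hy : Matrix.vecMul y R = t := by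
    rw [Matrix.vecMul_vecMul, Matrix.nonsing_inv_mul _ (isUnit_iff_ne_zero.2 hdet),
      Matrix.vecMul_one]
  have hv' : v = ∑ i, (y i) • (i : V) := by
    rw [← sub_eq_zero]
    apply hB
    intro w
    have h3 : ∀ j, B (v - ∑ i, (y i) • (i : V)) (e j) = 0 := by
      intro j
      have h4 := congrArg (fun z : F => (z : ℂ)) (congrFun hy j)
      rw [Matrix.vecMul, dotProduct] at h4
      rw [map_sub, LinearMap.sub_apply, map_sum, LinearMap.sum_apply, he, sub_eq_zero]
      have h5 : ((t j : F) : ℂ) = B v (j : V) := rfl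
      rw [← h5, ← h4]
      push_cast
      apply Finset.sum_congr rfl
      intro i _
      have h6 : (y i) • (i : V) = ((y i : F) : ℂ) • (i : V) := rfl
      rw [h6, map_smul, LinearMap.smul_apply, smul_eq_mul]
    have h5 : B (v - ∑ i, (y i) • (i : V)) = 0 :=
      e.ext fun j => by rw [h3, LinearMap.zero_apply]
    rw [h5, LinearMap.zero_apply]
  rw [hv']
  exact Submodule.sum_mem _ fun i _ => Submodule.smul_mem _ _ (hsD i)

end Lin

lemma twoPiI_ne : twoPiI ≠ 0 := Complex.two_pi_I_ne_zero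

section Alg

variable {K : Type*} [Field K] [Algebra K ℂ] {A B : Type*} [Ring A] [Algebra K A] [Ring B]
  [Algebra K B]

lemma baseTr_tm (t : A →ₗ[K] K) (r : ℂ) (c : A) :
    baseTr t (tm r c) = r * algebraMap K ℂ (t c) := by
  have h : baseTr t (tm r c) =
      TensorProduct.AlgebraTensorModule.rid K ℂ ℂ (t.baseChange ℂ (r ⊗ₜ[K] c)) := rfl
  rw [h, LinearMap.baseChange_tmul, TensorProduct.AlgebraTensorModule.rid_tmul,
    Algebra.smul_def, mul_comm]

lemma baseMap_tm (f : A →ₐ[K] B) (r : ℂ) (c : A) : baseMap f (tm r c) = tm r (f c) :=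
  Algebra.TensorProduct.map_tmul _ _ _ _

lemma tm_mul (r s : ℂ) (c d : A) : (tm r c * tm s d : Base K A) = tm (r * s) (c * d) :=
  Algebra.TensorProduct.tmul_mul_tmul _ _ _ _

lemma smul_tm (r s : ℂ) (c : A) : (r • tm s c : Base K A) = tm (r * s) c :=
  TensorProduct.smul_tmul' _ _ _

lemma tm_add (r : ℂ) (c d : A) : (tm r (c + d) : Base K A) = tm r c + tm r d :=
  TensorProduct.tmul_add _ _ _

lemma tm_zero (r : ℂ) : (tm r (0 : A) : Base K A) = 0 := TensorProduct.tmul_zero _ _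

lemma tm_smul (r : ℂ) (s : K) (c : A) : (tm r (s • c) : Base K A) = algebraMap K ℂ s • tm r c := by
  rw [smul_tm, ← Algebra.smul_def]
  exact (TensorProduct.smul_tmul s r c).symm

lemma base_ind {p : Base K A → Prop} (h0 : p 0) (h1 : ∀ (r : ℂ) (c : A), p (tm r c))
    (h2 : ∀ a b, p a → p b → p (a + b)) (a : Base K A) : p a :=
  TensorProduct.induction_on (motive := p) a h0 h1 h2

lemma baseTr_nondeg [Module.Finite K A] (t : A →ₗ[K] K)
    (hd : ∀ φ : Dual K A, ∃ y, ∀ x, t (x * y) = φ x) {a : Base K A}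
    (h : ∀ b, baseTr t (a * b) = 0) : a = 0 := by
  let e := Module.finBasis K A
  have h1 : ∀ i, (e.baseChange ℂ).repr a i = 0 := by
    intro i
    obtain ⟨y, hy⟩ := hd (e.coord i)
    have h4 : ∀ z : Base K A, baseTr t (z * tm 1 y) = (e.baseChange ℂ).repr z i := by
      intro z
      refine base_ind (p := fun z => baseTr t (z * tm 1 y) =
        (e.baseChange ℂ).repr z i) ?_ ?_ ?_ z
      · rw [zero_mul, map_zero]
        exact (congrArg (fun f => f i) (map_zero (e.baseChange ℂ).repr)).symm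
      · intro r c
        rw [tm_mul, baseTr_tm, hy, mul_one]
        have h6 : (e.baseChange ℂ).repr (r ⊗ₜ[K] c) i = e.repr c i • r :=
          Basis.baseChange_repr_tmul _ _ _ _ _
        have h7 : (e.baseChange ℂ).repr (tm r c) i = (e.baseChange ℂ).repr (r ⊗ₜ[K] c) i := rfl
        rw [h7, h6, Basis.coord_apply, Algebra.smul_def, mul_comm]
      · intro a b ha hb
        rw [add_mul, map_add, ha, hb]
        exact (congrArg (fun f => f i) (map_add (e.baseChange ℂ).repr a b)).symm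
    rw [← h4]
    exact h _
  have h5 : (e.baseChange ℂ).repr a = 0 := Finsupp.ext h1
  exact (e.baseChange ℂ).repr.map_eq_zero_iff.1 h5

instance [Module.Finite K A] : FiniteDimensional ℂ (Base K A) :=
  inferInstanceAs (FiniteDimensional ℂ (ℂ ⊗[K] A))

end Alg

variable {k : Type u} [Field k] {𝒱 : VarClass k} {ops : CycleOps 𝒱}
  {W : WeilCohomology.{u, v} ops} [Algebra W.K ℂ] {F : Subfield ℂ} {X Y Z : 𝒱.Obj}

lemma tr_pushC (f : X ⟶ Y) (s : ℂ) (a : W.H X) (b : Base W.K (W.H Y)) :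
    baseTr (W.tr Y) (tm s (W.push f a) * b) =
      baseTr (W.tr X) (tm s a * baseMap (W.map f) b) := by
  refine base_ind (p := fun b => baseTr (W.tr Y) (tm s (W.push f a) * b) =
      baseTr (W.tr X) (tm s a * baseMap (W.map f) b)) ?_ ?_ ?_ b
  · rw [map_zero, mul_zero, mul_zero, map_zero, map_zero]
  · intro r d
    rw [baseMap_tm, tm_mul, tm_mul, baseTr_tm, baseTr_tm, W.tr_push]
  · intro b b' hb hb'
    rw [mul_add, map_add, hb, hb', map_add, mul_add, map_add]

/-- The de Rham cohomology as a subspace. -/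
def dRSub (D : DeRham W F) (X : 𝒱.Obj) : Submodule F (Base W.K (W.H X)) where
  carrier := D.dR X
  add_mem' ha hb := (D.form X).add _ ha _ hb
  zero_mem' := (D.form X).zero
  smul_mem' r _ ha := (D.form X).smul r.1 r.2 _ ha

/-- Membership in the de Rham cohomology can be tested with the pairing. -/
lemma mem_dR (D : DeRham W F) {v : Base W.K (W.H X)}
    (hv : ∀ w ∈ D.dR X, ∃ r ∈ F, baseTr (W.tr X) (v * w) = twoPiI ^ X.dim * r) :
    v ∈ D.dR X := by
  have h0 : twoPiI ^ X.dim ≠ 0 := pow_ne_zero _ twoPiI_ne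
  let B : Base W.K (W.H X) →ₗ[ℂ] Base W.K (W.H X) →ₗ[ℂ] ℂ :=
    (twoPiI ^ X.dim)⁻¹ • ((LinearMap.mul ℂ (Base W.K (W.H X))).compr₂ (baseTr (W.tr X)))
  have hBe : ∀ v w, B v w = (twoPiI ^ X.dim)⁻¹ * baseTr (W.tr X) (v * w) := fun v w => rfl
  have key : ∀ v w r, baseTr (W.tr X) (v * w) = twoPiI ^ X.dim * r → B v w = r := by
    intro v w r h
    rw [hBe, h, ← mul_assoc, inv_mul_cancel₀ h0, one_mul]
  refine mem_of_pair (dRSub D X) (D.form X).span B ?_ ?_ ?_
  · intro v hv
    apply baseTr_nondeg _ (Pool.Agent.Y133.Half.exists_dual_class W)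
    intro b
    have h1 := hv b
    rw [hBe] at h1
    exact (mul_eq_zero.1 h1).resolve_left (inv_ne_zero h0)
  · intro v hv w hw
    obtain ⟨r, hr, h⟩ := (D.form X).tr _ ((D.form X).mul v hv w hw)
    rw [key v w r h]
    exact hr
  · intro w hw
    obtain ⟨r, hr, h⟩ := hv w hw
    rw [key v w r h]
    exact hr

variable {D : DeRham W F}

lemma IsDRB.zero {j : ℕ} : IsDRB D X j 0 := by
  refine ⟨Submodule.zero_mem _, ?_⟩
  rw [twist, tm_zero]
  exact (D.form X).zero

lemma IsDRB.add {j : ℕ} {a b : W.H X} (ha : IsDRB D X j a) (hb : IsDRB D X j b) :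
    IsDRB D X j (a + b) := by
  refine ⟨Submodule.add_mem _ ha.1 hb.1, ?_⟩
  rw [twist, tm_add]
  exact (D.form X).add _ ha.2 _ hb.2

lemma IsDRB.smul {j : ℕ} (r : W.K) {a : W.H X} (ha : IsDRB D X j a) : IsDRB D X j (r • a) := by
  refine ⟨Submodule.smul_mem _ _ ha.1, ?_⟩
  rw [twist, tm_smul]
  exact (D.form X).smul _ ((D.form X).scal r) _ ha.2

lemma IsDRB.cl {j : ℕ} {z : X.Cycles} (hz : X.IsCyc j z) : IsDRB D X j (W.cl X z) :=
  ⟨W.cl_mem hz, (D.form X).cyc j _ ⟨z, hz, rfl⟩⟩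

lemma IsDRB.mul {i j : ℕ} {a b : W.H X} (ha : IsDRB D X i a) (hb : IsDRB D X j b) :
    IsDRB D X (i + j) (a * b) := by
  refine ⟨?_, ?_⟩
  · have := W.mul_mem ha.1 hb.1
    rwa [show 2 * i + 2 * j = 2 * (i + j) by ring] at this
  · have h1 := (D.form X).mul _ ha.2 _ hb.2
    rwa [twist, twist, tm_mul, ← pow_add] at h1

lemma IsDRB.map {j : ℕ} (f : X ⟶ Y) {a : W.H Y} (ha : IsDRB D Y j a) :
    IsDRB D X j (W.map f a) := by
  refine ⟨W.map_mem f ha.1, ?_⟩
  have h1 := D.map f _ ha.2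
  rwa [twist, baseMap_tm] at h1

lemma IsDRB.push {j l : ℕ} (f : X ⟶ Y) (hl : l + X.dim = j + Y.dim) {a : W.H X}
    (ha : IsDRB D X j a) : IsDRB D Y l (W.push f a) := by
  refine ⟨?_, ?_⟩
  · have h2 := W.push_mem f ha.1
    have e1 : ((2 * j : ℕ) : ℤ) + 2 * ((Y.dim : ℤ) - X.dim) = ((2 * l : ℕ) : ℤ) := by
      push_cast; omega
    rw [e1, grZ_natCast] at h2
    exact h2
  · apply mem_dR
    intro w hw
    obtain ⟨r, hr, h⟩ := (D.form X).tr _ ((D.form X).mul _ ha.2 _ (D.map f w hw))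
    refine ⟨r, hr, ?_⟩
    rw [twist, tr_pushC]
    rw [twist] at h
    have h3 : ∀ s t : ℂ, t * baseTr (W.tr X) (tm s a * baseMap (W.map f) w) =
        baseTr (W.tr X) (tm (t * s) a * baseMap (W.map f) w) := by
      intro s t
      rw [← smul_tm, smul_mul_assoc, map_smul, smul_eq_mul]
    have h1 : twoPiI ^ X.dim * baseTr (W.tr X) (tm (twoPiI ^ l) a * baseMap (W.map f) w) =
        twoPiI ^ X.dim * (twoPiI ^ Y.dim * r) := by
      rw [h3, ← pow_add, add_comm X.dim l, hl, add_comm j, pow_add, ← h3, h]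
      ring
    exact mul_left_cancel₀ (pow_ne_zero _ twoPiI_ne) h1

variable (D)

/-- The de Rham-Betti classes. -/
noncomputable def drbPred : ClassPred W where
  P := IsDRB D
  gr h := h.1
  zero := IsDRB.zero
  add := IsDRB.add
  smul := IsDRB.smul
  cl := IsDRB.cl
  mul := IsDRB.mul
  map f _ _ h := IsDRB.map f h
  push f _ _ hl _ h := IsDRB.push f hl h

/-- **The index law for de Rham-Betti classes.** -/
theorem drb_index (X : 𝒱.Obj) [Nontrivial (W.H X)] : ∃ N : ℕ∞, 1 ≤ N ∧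
      Tendsto (fun n => (drbDim D (pw X n) : ℝ≥0∞) / cycRank ops (pw X n)) atTop
        (𝓝 (N : ℝ≥0∞)) ∧
      (∀ n, (drbDim D (pw X (2 * n + 1)) : ℝ≥0∞) / cycRank ops (pw X (2 * n + 1)) ≤
        (N : ℝ≥0∞)) ∧
      (N = 1 ↔ ∀ n, (∀ j, GPC D (pw X n) j) ∧ HomEqNum W (pw X n)) ∧
      (N ≠ ⊤ → (∀ n, HomEqNum W (pw X n)) ∧ DRBGenerated D X N) :=
  (drbPred D).index X

end Pool.Agent.Y133.Per
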