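import Pool.Agent.H914R2.KDefs
import Pool.Agent.Y133.Half.DDefs
import Pool.Agent.Y129.GDefs

/-!
# De Rham structures on a Weil cohomology theory and de Rham-Betti classes: definitions

In the intended use `k` is the field of algebraic numbers, `W` is the cohomology of the complex
manifolds with rational coefficients, `F` is the field of algebraic numbers in `ℂ`, and
`dR X` is the algebraic de Rham cohomology of `X`, as a subset of the cohomology with complex
coefficients.
-/

open CategoryTheory AlgebraicGeometry

open scoped TensorProduct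

universe u v

namespace Pool.Agent.Y133.Per

/-- The number `2 π i`. -/
noncomputable def twoPiI : ℂ := 2 * Real.pi * Complex.I

section Alg

/-- The algebra `A` with complex coefficients. -/
def Base (K A : Type*) [Field K] [Algebra K ℂ] [Ring A] [Algebra K A] := ℂ ⊗[K] A

variable {K : Type*} [Field K] [Algebra K ℂ] {A B : Type*} [Ring A] [Algebra K A] [Ring B]
  [Algebra K B]

/-- The ring structure. -/
noncomputable def baseRing : Ring (Base K A) := (Algebra.TensorProduct.instRing : Ring (ℂ ⊗[K] A))

noncomputable instance : Ring (Base K A) := baseRing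

/-- The structure of an algebra over the complex numbers. -/
noncomputable def baseAlgebra : Algebra ℂ (Base K A) :=
  (Algebra.TensorProduct.leftAlgebra : Algebra ℂ (ℂ ⊗[K] A))

noncomputable instance : Algebra ℂ (Base K A) := baseAlgebra

/-- The extension of an algebra homomorphism to complex coefficients. -/
noncomputable def baseMap (f : A →ₐ[K] B) : Base K A →ₐ[ℂ] Base K B :=
  Algebra.TensorProduct.map (AlgHom.id ℂ ℂ) f

/-- The extension of a functional to complex coefficients. -/
noncomputable def baseTr (t : A →ₗ[K] K) : Base K A →ₗ[ℂ] ℂ :=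
  (TensorProduct.AlgebraTensorModule.rid K ℂ ℂ).toLinearMap ∘ₗ t.baseChange ℂ

/-- The element `r c`. -/
noncomputable def tm (r : ℂ) (c : A) : Base K A := r ⊗ₜ[K] c

/-- The element `(2 π i) ^ j c`. -/
noncomputable def twist (j : ℕ) (c : A) : Base K A := tm (twoPiI ^ j) c

/-- The formal properties of the de Rham cohomology `S`, a subspace over the field `F` of the
cohomology with complex coefficients of a variety of dimension `d` with orientation `t`, where `C j`
is the set of the classes of the algebraic cycles of codimension `j`. -/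
structure IsDeRham (F : Subfield ℂ) (d : ℕ) (t : A →ₗ[K] K) (C : ℕ → Set A)
    (S : Set (Base K A)) : Prop where
  zero : 0 ∈ S
  add : ∀ a ∈ S, ∀ b ∈ S, a + b ∈ S
  smul : ∀ r ∈ F, ∀ a ∈ S, r • a ∈ S
  scal : ∀ r : K, algebraMap K ℂ r ∈ F
  span : Submodule.span ℂ S = ⊤
  mul : ∀ a ∈ S, ∀ b ∈ S, a * b ∈ S
  cyc : ∀ j, ∀ c ∈ C j, twist j c ∈ S
  tr : ∀ a ∈ S, ∃ r ∈ F, baseTr t a = twoPiI ^ d * r

/-- The extension of `f` to complex coefficients maps `S` into `T`. -/
def MapsInto (f : A →ₐ[K] B) (S : Set (Base K A)) (T : Set (Base K B)) : Prop :=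
  ∀ a ∈ S, baseMap f a ∈ T

/-- The element `c` of `U` satisfies `(2 π i) ^ j c ∈ S`. -/
def IsPeriod (U : Submodule K A) (S : Set (Base K A)) (j : ℕ) (c : A) : Prop :=
  c ∈ U ∧ twist j c ∈ S

end Alg

open Pool.Agent.H914 Pool.Agent.H914.VarClass Pool.Agent.H914.VarClass.Obj
  Pool.Agent.H914.WeilCohomology
open Pool.Agent.Y129 (pw genBy)
open Pool.Agent.Y133.Half (dimOf)

variable {k : Type u} [Field k] {𝒱 : VarClass k} {ops : CycleOps 𝒱}

/-- A de Rham structure: for each variety `X` a subspace `dR X` over the field `F` which spans the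
cohomology with complex coefficients, is stable under products and pull-backs, contains the classes
`(2 π i) ^ j cl(z)` of the algebraic cycles `z` of codimension `j`, and on which the values of the
orientation lie in `(2 π i) ^ dim X F`. The coefficients of `W` lie in `F`. -/
structure DeRham (W : WeilCohomology.{u, v} ops) [Algebra W.K ℂ] (F : Subfield ℂ) where
  /-- the de Rham cohomology -/
  dR : ∀ X : 𝒱.Obj, Set (Base W.K (W.H X))
  form : ∀ X, IsDeRham F X.dim (W.tr X) (algClasses W X) (dR X)
  map : ∀ {X Y : 𝒱.Obj} (f : X ⟶ Y), MapsInto (W.map f) (dR Y) (dR X)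

variable {W : WeilCohomology.{u, v} ops} [Algebra W.K ℂ] {F : Subfield ℂ}

/-- The de Rham-Betti classes of codimension `j`: the classes `c` in `H^(2 j)(X)` such that
`(2 π i) ^ j c` lies in the de Rham cohomology. -/
def IsDRB (D : DeRham W F) (X : 𝒱.Obj) (j : ℕ) (c : W.H X) : Prop :=
  IsPeriod (W.gr X (2 * j)) (D.dR X) j c

/-- The Grothendieck period conjecture `GPC^j` for `X`. -/
def GPC (D : DeRham W F) (X : 𝒱.Obj) (j : ℕ) : Prop :=
  ∀ c, IsDRB D X j c → c ∈ spanCycles W X j

/-- The dimension of the space spanned by the de Rham-Betti classes of all codimensions. -/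
noncomputable def drbDim (D : DeRham W F) (X : 𝒱.Obj) : ℕ := dimOf W {c | ∃ j, IsDRB D X j c}

/-- There are `r` de Rham-Betti classes on powers of `X`, where `r + 1 ≤ N`, such that all de
Rham-Betti classes on all powers of `X` are linear combinations of classes of algebraic cycles and
of images of these `r` classes under algebraic correspondences. -/
def DRBGenerated (D : DeRham W F) (X : 𝒱.Obj) (N : ℕ∞) : Prop :=
  ∃ (r : ℕ) (c : Fin r → Σ m, W.H (pw X m)), (r : ℕ∞) + 1 ≤ N ∧
    (∀ i, ∃ j, IsDRB D (pw X (c i).1) j (c i).2) ∧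
    ∀ n j z, IsDRB D (pw X n) j z → z ∈ genBy W X c n

end Pool.Agent.Y133.Per
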