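import Pool.Agent.Y133.Half.Schur
import Pool.Agent.Y133.Half.PwDefs

/-!
# Powers of a variety
-/

open CategoryTheory AlgebraicGeometry

universe u v

namespace Pool.Agent.Y133.Half

open Module
open Pool.Agent.H914 Pool.Agent.H914.VarClass Pool.Agent.H914.VarClass.Obj
  Pool.Agent.H914.WeilCohomology

variable {k : Type u} [Field k] {𝒱 : VarClass k} {ops : CycleOps 𝒱}
  {W : WeilCohomology.{u, v} ops}

/-- Products of isomorphisms. -/
noncomputable def prodCongr {X X' Y Y' : 𝒱.Obj} (α : X ≅ X') (β : Y ≅ Y') :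
    X.prod Y ≅ X'.prod Y' where
  hom := Obj.lift (fst _ _ ≫ α.hom) (snd _ _ ≫ β.hom)
  inv := Obj.lift (fst _ _ ≫ α.inv) (snd _ _ ≫ β.inv)
  hom_inv_id := by apply prod_hom_ext <;> simp
  inv_hom_id := by apply prod_hom_ext <;> simp

/-- The exchange of the factors. -/
noncomputable def prodComm (X Y : 𝒱.Obj) : X.prod Y ≅ Y.prod X where
  hom := Obj.lift (snd _ _) (fst _ _)
  inv := Obj.lift (snd _ _) (fst _ _)
  hom_inv_id := by apply prod_hom_ext <;> simp
  inv_hom_id := by apply prod_hom_ext <;> simp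

/-- `X^(m+1) × X^(n+1) ≅ X^(m+n+2)`. -/
noncomputable def pwAdd (X : 𝒱.Obj) (m : ℕ) : ∀ n, (pw X m).prod (pw X n) ≅ pw X (m + n + 1)
  | 0 => Iso.refl _
  | n + 1 => (θ₃ (pw X m) (pw X n) X).symm ≪≫ prodCongr (pwAdd X m n) (Iso.refl X)

lemma finrank_prod (X Y : 𝒱.Obj) : finrank W.K (W.H (X.prod Y)) =
    finrank W.K (W.H X) * finrank W.K (W.H Y) := by
  rw [← (kappa W X Y).finrank_eq, Module.finrank_tensorProduct]

lemma finrank_pw (X : 𝒱.Obj) (n : ℕ) :
    finrank W.K (W.H (pw X n)) = finrank W.K (W.H X) ^ (n + 1) := by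
  induction n with
  | zero => rw [zero_add, pow_one]; rfl
  | succ n ih => rw [pw, finrank_prod, ih, ← pow_succ]

/-- `X^(m+1) × (X^(l+1) × X^(l+1)) ≅ X^(n+1) × X^(n+1)` if `m + 2 l + 1 = 2 n`. -/
noncomputable def pwIso (X : 𝒱.Obj) {m l n : ℕ} (h : m + 2 * l + 1 = 2 * n) :
    (pw X m).prod ((pw X l).prod (pw X l)) ≅ (pw X n).prod (pw X n) :=
  prodCongr (Iso.refl _) (pwAdd X l l) ≪≫ pwAdd X m (l + l + 1) ≪≫
    eqToIso (congrArg (pw X) (show m + (l + l + 1) + 1 = n + n + 1 by omega)) ≪≫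
      (pwAdd X n n).symm

namespace Sys

variable (S : Sys W) (X : 𝒱.Obj)

/-- The rank of the intersection form on the classes on `X^(2l+2)`. -/
noncomputable def al (l : ℕ) : ℕ := S.a ((pw X l).prod (pw X l))

lemma a_pw {m l n : ℕ} (h : m + 2 * l + 1 = 2 * n) :
    S.a ((pw X m).prod ((pw X l).prod (pw X l))) = S.al X n := S.a_iso (pwIso X h)

lemma rank_one (P : 𝒱.Obj) :
    finrank W.K (LinearMap.range (1 : Module.End W.K (W.H P))) = finrank W.K (W.H P) := by
  have h2 : LinearMap.range (1 : Module.End W.K (W.H P)) = ⊤ := LinearMap.range_id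
  rw [h2, finrank_top]

/-- A class on a factor, pulled back. -/
lemma xp_mem_C (T : Sys W) {P Q : 𝒱.Obj} {x : W.H P} {y : W.H Q} (hx : x ∈ T.C P)
    (hy : y ∈ T.C Q) : xp W x y ∈ T.C (P.prod Q) := T.mul (T.map _ hx) (T.map _ hy)

lemma a_le (P Y : 𝒱.Obj) :
    S.a (P.prod (Y.prod Y)) ≤ finrank W.K (W.H P) * S.a (Y.prod Y) := by
  rw [← S.r_one, ← rank_one P]
  exact S.r_le_rank Op.id rfl Y

lemma al_succ_le (l : ℕ) : S.al X (l + 1) ≤ finrank W.K (W.H X) ^ 2 * S.al X l := by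
  rw [← S.a_pw X (m := 1) (l := l) (n := l + 1) (by ring), ← finrank_pw (W := W) X 1]
  exact S.a_le _ _

lemma al_convex (l : ℕ) : S.al X (l + 1) ^ 2 ≤ S.al X (l + 2) * S.al X l := by
  have h := S.cs (P := pw X 1) (g := 1) (g' := 1) Op.id rfl Adj.one (pw X l)
  rw [extOp_one, r_one, r_one, S.a_pw X (m := 1) (l := l) (n := l + 1) (by ring)] at h
  have h2 : S.a (((pw X 1).prod (pw X 1)).prod ((pw X l).prod (pw X l))) = S.al X (l + 2) := by
    rw [S.a_iso (prodCongr (pwAdd X 1 1) (Iso.refl _))]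
    exact S.a_pw X (m := 3) (by ring)
  rw [h2] at h
  exact h

/-- The part cut out by an idempotent. -/
lemma r_lower {P P₀ : 𝒱.Obj} {g : Module.End W.K (W.H P)} (hg : g ∈ S.Op P P)
    (hgg : g ∘ₗ g = g) (h0 : g ≠ 0) (Y : 𝒱.Obj) :
    S.a ((P.prod P₀).prod (Y.prod Y)) + finrank W.K (W.H P₀) * S.a (Y.prod Y) ≤
      S.r P g (P₀.prod (Y.prod Y)) +
        finrank W.K (W.H P) * finrank W.K (W.H P₀) * S.a (Y.prod Y) := by
  set G : Module.End W.K (W.H (P.prod P₀)) := extOp W g 1 with hG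
  have hGm : G ∈ S.Op (P.prod P₀) (P.prod P₀) := Op.ext hg Op.id
  have h11 : (1 : Module.End W.K (W.H P₀)) ∘ₗ 1 = 1 := rfl
  have hGG : G * G = G := by
    rw [hG, extOp_mul, mul_one]
    change extOp W (g ∘ₗ g) 1 = _
    rw [hgg]
  have hG' : (1 - G) ∘ₗ (1 - G) = 1 - G := by
    change (1 - G) * (1 - G) = 1 - G
    rw [mul_sub, sub_mul, sub_mul, hGG]
    simp
  have h1 := S.r_add_le (Z := Y.prod Y) G (1 - G)
  rw [add_sub_cancel, r_one] at h1
  have h2 := S.r_le_rank (g := 1 - G) (Submodule.sub_mem _ Op.id hGm) hG' Y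
  have h3 : S.r (P.prod P₀) G (Y.prod Y) = S.r P g (P₀.prod (Y.prod Y)) := S.r_assoc g
  have h4 : finrank W.K (LinearMap.range G) = finrank W.K (LinearMap.range g) *
      finrank W.K (W.H P₀) := by
    rw [hG, finrank_extOp hgg h11, rank_one]
  have h5 : finrank W.K (LinearMap.range (1 - G)) + finrank W.K (LinearMap.range G) =
      finrank W.K (W.H P) * finrank W.K (W.H P₀) := by
    have e1 := trace_idem hG'
    have e2 := trace_idem (K := W.K) (f := G) hGG
    rw [map_sub, e2, Module.End.one_eq_id, LinearMap.trace_id, finrank_prod] at e1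
    have e3 : ((finrank W.K (LinearMap.range (1 - G)) + finrank W.K (LinearMap.range G) : ℕ) :
        W.K) = ((finrank W.K (W.H P) * finrank W.K (W.H P₀) : ℕ) : W.K) := by
      rw [Nat.cast_add]
      have : (finrank W.K (LinearMap.range (1 - G)) : W.K) =
        ((finrank W.K (W.H P) * finrank W.K (W.H P₀) : ℕ) : W.K) -
          (finrank W.K (LinearMap.range G) : W.K) := e1.symm
      rw [this]
      ring
    exact_mod_cast e3
  have h6 : 1 ≤ finrank W.K (LinearMap.range g) := by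
    rw [Nat.one_le_iff_ne_zero]
    intro h
    apply h0
    have := Submodule.finrank_eq_zero.1 h
    exact LinearMap.range_eq_bot.1 this
  have h7 : finrank W.K (W.H P₀) ≤ finrank W.K (LinearMap.range G) := by
    rw [h4]
    exact Nat.le_mul_of_pos_left _ h6
  have h8 : finrank W.K (LinearMap.range (1 - G)) * S.a (Y.prod Y) +
      finrank W.K (W.H P₀) * S.a (Y.prod Y) ≤
        finrank W.K (W.H P) * finrank W.K (W.H P₀) * S.a (Y.prod Y) := by
    rw [← add_mul, ← h5]
    exact Nat.mul_le_mul_right _ (Nat.add_le_add_left h7 _)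
  rw [h3] at h1
  omega

end Sys

end Pool.Agent.Y133.Half
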