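import Pool.Agent.Y133.Half.CS

/-!
# The bound by the rank
-/

open CategoryTheory AlgebraicGeometry

universe u v

namespace Pool.Agent.Y133.Half

open Module
open Pool.Agent.H914 Pool.Agent.H914.VarClass Pool.Agent.H914.VarClass.Obj
  Pool.Agent.H914.WeilCohomology

lemma le_of_pow_bound {r m D : ℕ} (h : ∀ j : ℕ, r ^ (2 ^ j) ≤ m ^ (2 ^ j) * D) : r ≤ m := by
  by_contra hlt
  push Not at hlt
  rcases Nat.eq_zero_or_pos m with hm | hm
  · subst hm
    have := h 0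
    simp at this
    omega
  · have hm' : (0 : ℝ) < m := by exact_mod_cast hm
    have h1 : ∀ j : ℕ, 1 + (2 ^ j : ℕ) * (1 / (m : ℝ)) ≤ D := by
      intro j
      have h2 : 1 + ((2 ^ j : ℕ) : ℝ) * (1 / (m : ℝ)) ≤ (1 + 1 / (m : ℝ)) ^ (2 ^ j) := by
        apply one_add_mul_le_pow
        have : (0 : ℝ) < 1 / m := by positivity
        linarith
      have h3 : (1 + 1 / (m : ℝ)) ^ (2 ^ j) ≤ D := by
        have h4 : ((m : ℝ) + 1) ^ (2 ^ j) ≤ (m : ℝ) ^ (2 ^ j) * D := by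
          have h5 : ((m + 1 : ℕ) : ℝ) ^ (2 ^ j) ≤ (r : ℝ) ^ (2 ^ j) := by
            apply pow_le_pow_left₀ (by positivity)
            exact_mod_cast hlt
          have h6 : ((r ^ (2 ^ j) : ℕ) : ℝ) ≤ ((m ^ (2 ^ j) * D : ℕ) : ℝ) := by
            exact_mod_cast h j
          push_cast at h5 h6
          exact h5.trans h6
        have h7 : (1 + 1 / (m : ℝ)) = ((m : ℝ) + 1) / m := by field_simp
        rw [h7, div_pow, div_le_iff₀ (by positivity)]
        linarith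
      exact h2.trans h3
    obtain ⟨j, hj⟩ := pow_unbounded_of_one_lt ((D : ℝ) * m) (one_lt_two)
    have h8 := h1 j
    have h9 : (D : ℝ) < ((2 ^ j : ℕ) : ℝ) * (1 / (m : ℝ)) := by
      rw [mul_one_div, lt_div_iff₀ hm']
      push_cast
      exact hj
    linarith

namespace Sys

variable {k : Type u} [Field k] {𝒱 : VarClass k} {ops : CycleOps 𝒱}
  {W : WeilCohomology.{u, v} ops} (S : Sys W)

lemma exists_adj' {P : 𝒱.Obj} {g : Module.End W.K (W.H P)} (hg : g ∈ S.Op P P) :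
    ∃ g' ∈ S.Op P P, Adj W g' g := by
  obtain ⟨g', hg', h⟩ := Op.exists_adj hg
  exact ⟨g', hg', h.symm (Op.ev hg) (Op.ev hg')⟩

lemma pow_bound (Y : 𝒱.Obj) (j : ℕ) : ∀ (P : 𝒱.Obj) (g : Module.End W.K (W.H P)),
    g ∈ S.Op P P → g ∘ₗ g = g → S.r P g (Y.prod Y) ^ (2 ^ j) * S.a (Y.prod Y) ≤
      finrank W.K (LinearMap.range g) ^ (2 ^ j) * finrank W.K (W.H (Y.prod Y)) *
        S.a (Y.prod Y) ^ (2 ^ j) := by
  induction j with
  | zero =>
    intro P g _ hgg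
    simp only [pow_zero, pow_one]
    exact Nat.mul_le_mul_right _ (S.r_le g hgg)
  | succ j ih =>
    intro P g hg hgg
    obtain ⟨g', hg', hadj⟩ := S.exists_adj' hg
    have h1 := S.cs hg hgg hadj Y
    have hgg' := hadj.idem hgg
    have hE : extOp W g' g ∘ₗ extOp W g' g = extOp W g' g := by
      have := extOp_mul (W := W) g' g' g g
      change extOp W g' g * extOp W g' g = _
      rw [this]
      change extOp W (g' ∘ₗ g') (g ∘ₗ g) = _
      rw [hgg, hgg']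
    have h2 := ih (P.prod P) (extOp W g' g) (Op.ext hg' hg) hE
    rw [finrank_extOp hgg' hgg, hadj.finrank_eq] at h2
    set α := S.a (Y.prod Y)
    set D := finrank W.K (W.H (Y.prod Y))
    set ρ := S.r P g (Y.prod Y)
    set ρ' := S.r (P.prod P) (extOp W g' g) (Y.prod Y)
    set m := finrank W.K (LinearMap.range g)
    calc ρ ^ (2 ^ (j + 1)) * α = (ρ ^ 2) ^ (2 ^ j) * α := by rw [← pow_mul, pow_succ, mul_comm 2]
      _ ≤ (ρ' * α) ^ (2 ^ j) * α := Nat.mul_le_mul_right _ (Nat.pow_le_pow_left h1 _)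
      _ = (ρ' ^ (2 ^ j) * α) * α ^ (2 ^ j) := by rw [mul_pow]; ring
      _ ≤ ((m * m) ^ (2 ^ j) * D * α ^ (2 ^ j)) * α ^ (2 ^ j) := Nat.mul_le_mul_right _ h2
      _ = m ^ (2 ^ (j + 1)) * D * α ^ (2 ^ (j + 1)) := by
        rw [pow_succ 2 j, pow_mul, pow_mul]
        ring

/-- **The rank bound.** -/
theorem r_le_rank {P : 𝒱.Obj} {g : Module.End W.K (W.H P)} (hg : g ∈ S.Op P P) (hgg : g ∘ₗ g = g)
    (Y : 𝒱.Obj) : S.r P g (Y.prod Y) ≤ finrank W.K (LinearMap.range g) * S.a (Y.prod Y) := by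
  rcases Nat.eq_zero_or_pos (S.a (Y.prod Y)) with h0 | h0
  · obtain ⟨g', hg', hadj⟩ := S.exists_adj' hg
    have h1 := S.cs hg hgg hadj Y
    rw [h0, mul_zero] at h1
    rw [h0, mul_zero]
    have : S.r P g (Y.prod Y) ^ 2 = 0 := Nat.le_zero.1 h1
    exact (pow_eq_zero_iff two_ne_zero).1 this |>.le
  · apply le_of_pow_bound (D := finrank W.K (W.H (Y.prod Y)))
    intro j
    have h := S.pow_bound Y j P g hg hgg
    calc S.r P g (Y.prod Y) ^ (2 ^ j) ≤ S.r P g (Y.prod Y) ^ (2 ^ j) * S.a (Y.prod Y) :=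
          Nat.le_mul_of_pos_right _ h0
      _ ≤ _ := h
      _ = (finrank W.K (LinearMap.range g) * S.a (Y.prod Y)) ^ (2 ^ j) *
          finrank W.K (W.H (Y.prod Y)) := by rw [mul_pow]; ring

end Sys

end Pool.Agent.Y133.Half
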