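import Pool.Agent.Y133.Half.Par
import Pool.Agent.Y133.Half.Key

/-!
# Systems of classes stable under products, pull-backs and push-forwards
-/

open CategoryTheory AlgebraicGeometry

universe u v

namespace Pool.Agent.Y133.Half

open Module
open Pool.Agent.H914 Pool.Agent.H914.VarClass Pool.Agent.H914.VarClass.Obj
  Pool.Agent.H914.WeilCohomology

variable {k : Type u} [Field k] {𝒱 : VarClass k} {ops : CycleOps 𝒱}
  {W : WeilCohomology.{u, v} ops} {X Y Z P Q M N : 𝒱.Obj}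

/-- A system of subspaces of the cohomology of all varieties, consisting of sums of classes of even
degrees, stable under products, pull-backs and push-forwards. -/
structure Sys (W : WeilCohomology.{u, v} ops) where
  /-- the classes on `X` -/
  C : ∀ X : 𝒱.Obj, Submodule W.K (W.H X)
  even : ∀ {X : 𝒱.Obj} {c : W.H X}, c ∈ C X → c ∈ PH W X 0
  one : ∀ X : 𝒱.Obj, (1 : W.H X) ∈ C X
  mul : ∀ {X : 𝒱.Obj} {c d : W.H X}, c ∈ C X → d ∈ C X → c * d ∈ C X
  map : ∀ {X Y : 𝒱.Obj} (f : X ⟶ Y) {c : W.H Y}, c ∈ C Y → W.map f c ∈ C X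
  push : ∀ {X Y : 𝒱.Obj} (f : X ⟶ Y) {c : W.H X}, c ∈ C X → W.push f c ∈ C Y

/-- The map from classes on `X × Y` to operators. -/
noncomputable def corrL (W : WeilCohomology.{u, v} ops) (X Y : 𝒱.Obj) :
    W.H (X.prod Y) →ₗ[W.K] (W.H X →ₗ[W.K] W.H Y) where
  toFun := W.corr
  map_add' := W.corr_add
  map_smul' := W.corr_smul

lemma swap_swap (c : W.H (X.prod Y)) : W.map (swap X Y) (W.map (swap Y X) c) = c := by
  refine W.kunneth_induction (p := fun c => W.map (swap X Y) (W.map (swap Y X) c) = c) ?_ ?_ c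
  · intro a b ha hb; rw [map_add, map_add, ha, hb]
  · intro i j a _ b _
    rw [map_mul (W.map (swap Y X)), ← W.map_comp, ← W.map_comp, swap_fst, swap_snd,
      map_mul (W.map (swap X Y)), ← W.map_comp, ← W.map_comp, swap_fst, swap_snd]

lemma corr_comp' (c : W.H (X.prod Y)) {d : W.H (Y.prod Z)} (hd : d ∈ PH W (Y.prod Z) 0) :
    W.corr (W.push (p13 X Y Z) (W.map (p12 X Y Z) c * W.map (p23 X Y Z) d)) =
      W.corr d ∘ₗ W.corr c := by
  refine PH.ind (p := fun d => W.corr (W.push (p13 X Y Z) (W.map (p12 X Y Z) c *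
    W.map (p23 X Y Z) d)) = W.corr d ∘ₗ W.corr c) ?_ ?_ ?_ hd
  · intro i hi d hd
    obtain ⟨j, rfl⟩ : ∃ j, i = 2 * j := ⟨i / 2, by omega⟩
    exact W.corr_comp c hd
  · rw [map_zero, mul_zero, map_zero, corr_zero, corr_zero, LinearMap.zero_comp]
  · intro a b ha hb
    rw [map_add, mul_add, map_add, corr_add, ha, hb, corr_add, LinearMap.add_comp]

lemma tr_corr' {c : W.H (X.prod Y)} (hc : c ∈ PH W (X.prod Y) 0) (a : W.H X) (b : W.H Y) :
    W.tr Y (W.corr c a * b) = W.tr X (a * W.corr (W.map (swap Y X) c) b) := by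
  refine PH.ind (p := fun c => W.tr Y (W.corr c a * b) =
    W.tr X (a * W.corr (W.map (swap Y X) c) b)) ?_ ?_ ?_ hc
  · intro i hi c hc
    obtain ⟨j, rfl⟩ : ∃ j, i = 2 * j := ⟨i / 2, by omega⟩
    exact tr_corr_swap hc a b
  · rw [corr_zero, map_zero, corr_zero]; simp
  · intro c d hc hd
    rw [corr_add, LinearMap.add_apply, add_mul, map_add, hc, hd, map_add, corr_add,
      LinearMap.add_apply, mul_add, map_add]

/-- `u` and `u'` are adjoint. -/
def Adj (W : WeilCohomology.{u, v} ops) {X Y : 𝒱.Obj} (u : W.H X →ₗ[W.K] W.H Y)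
    (u' : W.H Y →ₗ[W.K] W.H X) : Prop :=
  ∀ a b, W.tr Y (u a * b) = W.tr X (a * u' b)

/-- External products of operators as correspondences. -/
lemma corr_extOp {a a' : Module.End W.K (W.H X)} (ha : Adj W a a') (ha' : Ev W a')
    {b : Module.End W.K (W.H Y)} (hb : Ev W b) (c : W.H (X.prod Y)) :
    W.corr (extOp W a b c) = b ∘ₗ W.corr c ∘ₗ a' := by
  refine xp_induction (p := fun c => W.corr (extOp W a b c) = b ∘ₗ W.corr c ∘ₗ a') ?_ ?_ c
  · intro c d hc hd
    rw [map_add, corr_add, hc, hd, corr_add, LinearMap.add_comp, LinearMap.comp_add]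
  intro i j x hx y hy
  apply gr_ext (W.isInternal X)
  intro q z hz
  have hz' := PH.of (W := W) hz
  rw [xp, extOp_tmul]
  change W.corr (xp W (a x) (b y)) z = b (W.corr (xp W x y) (a' z))
  rw [corr_xp _ (hb _ _ hy) hz', corr_xp _ hy (ha' _ _ hz'), map_smul, ha]

namespace Sys

variable (S : Sys W)

/-- The operators given by the classes of the system. -/
noncomputable def Op (X Y : 𝒱.Obj) : Submodule W.K (W.H X →ₗ[W.K] W.H Y) :=
  (S.C (X.prod Y)).map (corrL W X Y)

variable {S}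

lemma mem_Op {u : W.H X →ₗ[W.K] W.H Y} : u ∈ S.Op X Y ↔ ∃ c ∈ S.C (X.prod Y), W.corr c = u :=
  Submodule.mem_map

lemma Op.corr {c : W.H (X.prod Y)} (hc : c ∈ S.C (X.prod Y)) : W.corr c ∈ S.Op X Y :=
  mem_Op.2 ⟨c, hc, rfl⟩

lemma comp_mem {c : W.H (X.prod Y)} {d : W.H (Y.prod Z)} (hc : c ∈ S.C (X.prod Y))
    (hd : d ∈ S.C (Y.prod Z)) :
    W.push (p13 X Y Z) (W.map (p12 X Y Z) c * W.map (p23 X Y Z) d) ∈ S.C (X.prod Z) :=
  S.push _ (S.mul (S.map _ hc) (S.map _ hd))

lemma Op.comp {u : W.H Y →ₗ[W.K] W.H Z} {w : W.H X →ₗ[W.K] W.H Y} (hu : u ∈ S.Op Y Z)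
    (hw : w ∈ S.Op X Y) : u ∘ₗ w ∈ S.Op X Z := by
  obtain ⟨d, hd, rfl⟩ := mem_Op.1 hu
  obtain ⟨c, hc, rfl⟩ := mem_Op.1 hw
  rw [← corr_comp' c (S.even hd)]
  exact Op.corr (comp_mem hc hd)

lemma diag_mem : W.push (diag X) (1 : W.H X) ∈ S.C (X.prod X) := S.push _ (S.one X)

lemma corr_diag_one : W.corr (W.push (diag X) (1 : W.H X)) = LinearMap.id := by
  apply LinearMap.ext
  intro a
  rw [W.corr_diag, one_mul]
  rfl

lemma Op.id : (LinearMap.id : W.H X →ₗ[W.K] W.H X) ∈ S.Op X X := by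
  rw [← corr_diag_one]
  exact Op.corr diag_mem

lemma Op.ev {u : W.H X →ₗ[W.K] W.H Y} (hu : u ∈ S.Op X Y) : Ev W u := by
  obtain ⟨c, hc, rfl⟩ := mem_Op.1 hu
  exact Ev.corr (S.even hc)

lemma Op.exists_adj {u : W.H X →ₗ[W.K] W.H Y} (hu : u ∈ S.Op X Y) :
    ∃ u' ∈ S.Op Y X, Adj W u u' := by
  obtain ⟨c, hc, rfl⟩ := mem_Op.1 hu
  exact ⟨_, Op.corr (S.map (swap Y X) hc), tr_corr' (S.even hc)⟩

lemma Op.apply {T : Sys W} (hST : ∀ X, S.C X ≤ T.C X) {u : W.H X →ₗ[W.K] W.H Y}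
    (hu : u ∈ S.Op X Y) {x : W.H X} (hx : x ∈ T.C X) : u x ∈ T.C Y := by
  obtain ⟨c, hc, rfl⟩ := mem_Op.1 hu
  rw [corr_apply]
  exact T.push _ (T.mul (hST _ hc) (T.map _ hx))

lemma corr_ext_class (c : W.H (X.prod X)) {d : W.H (Y.prod Y)} (hd : d ∈ PH W (Y.prod Y) 0) :
    W.corr (W.map (q1 X Y) c * W.map (q2 X Y) d) = extOp W (W.corr c) (W.corr d) := by
  apply ext_kunneth_lin
  intro a b
  rw [extOp_tmul]
  refine PH.ind (p := fun d => W.corr (W.map (q1 X Y) c * W.map (q2 X Y) d)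
    (W.map (fst X Y) a * W.map (snd X Y) b) =
      W.map (fst X Y) (W.corr c a) * W.map (snd X Y) (W.corr d b)) ?_ ?_ ?_ hd
  · intro i hi d hd
    obtain ⟨j, rfl⟩ : ∃ j, i = 2 * j := ⟨i / 2, by omega⟩
    exact corr_ext c hd a b
  · rw [map_zero, mul_zero, corr_zero, corr_zero]; simp
  · intro d d' hd hd'
    rw [map_add, mul_add, corr_add, LinearMap.add_apply, hd, hd', corr_add,
      LinearMap.add_apply, map_add, mul_add]

lemma Op.ext {a : Module.End W.K (W.H X)} {b : Module.End W.K (W.H Y)} (ha : a ∈ S.Op X X)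
    (hb : b ∈ S.Op Y Y) : extOp W a b ∈ S.Op (X.prod Y) (X.prod Y) := by
  obtain ⟨c, hc, rfl⟩ := mem_Op.1 ha
  obtain ⟨d, hd, rfl⟩ := mem_Op.1 hb
  rw [← corr_ext_class c (S.even hd)]
  exact Op.corr (S.mul (S.map _ hc) (S.map _ hd))

/-- The spaces of operators between the members of a family of varieties. -/
noncomputable def cat (S : Sys W) {ι : Type} [Fintype ι] [DecidableEq ι] (X : ι → 𝒱.Obj) :
    Cat W.K (fun i => W.H (X i)) where
  p i := par (W.isInternal (X i))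
  p_sq _ := par_mul_par _
  S i j := S.Op (X j) (X i)
  one _ := Op.id
  mul ha hb := Op.comp ha hb
  comm ha := (Op.ev ha).par_comm

/-- The form `tr (u c * c')` on the classes of the system. -/
noncomputable def F (S : Sys W) (Z : 𝒱.Obj) (u : Module.End W.K (W.H Z)) :
    S.C Z →ₗ[W.K] S.C Z →ₗ[W.K] W.K :=
  LinearMap.mk₂ W.K (fun c d => W.tr Z (u c * d))
    (fun c c' d => by rw [Submodule.coe_add, map_add, add_mul, map_add])
    (fun r c d => by rw [Submodule.coe_smul, map_smul, smul_mul_assoc, map_smul])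
    (fun c d d' => by rw [Submodule.coe_add, mul_add, map_add])
    (fun r c d => by rw [Submodule.coe_smul, mul_smul_comm, map_smul])

lemma F_apply (u : Module.End W.K (W.H Z)) (c d : S.C Z) :
    S.F Z u c d = W.tr Z (u (c : W.H Z) * (d : W.H Z)) := rfl

/-- The map from classes to operators. -/
noncomputable def corrS (S : Sys W) (X Y : 𝒱.Obj) : S.C (X.prod Y) →ₗ[W.K] S.Op X Y :=
  (corrL W X Y).submoduleMap (S.C (X.prod Y))

lemma corrS_surjective : Function.Surjective (S.corrS X Y) :=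
  LinearMap.submoduleMap_surjective _ _

/-- The pull-back of classes. -/
noncomputable def mapS (S : Sys W) (f : X ⟶ Y) : S.C Y →ₗ[W.K] S.C X :=
  (W.map f).toLinearMap.restrict fun _ hc => S.map f hc

/-- The form `tr (p g u g' v)` on pairs of operators in opposite directions. -/
noncomputable def BO (S : Sys W) (M N : 𝒱.Obj) (g : Module.End W.K (W.H M))
    (g' : Module.End W.K (W.H N)) : S.Op N M →ₗ[W.K] S.Op M N →ₗ[W.K] W.K :=
  LinearMap.mk₂ W.K (fun u v => LinearMap.trace W.K (W.H M) (par (W.isInternal M) ∘ₗ g ∘ₗ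
      (u : W.H N →ₗ[W.K] W.H M) ∘ₗ g' ∘ₗ (v : W.H M →ₗ[W.K] W.H N)))
    (fun u u' v => by
      simp only [Submodule.coe_add, LinearMap.add_comp, LinearMap.comp_add, map_add])
    (fun c u v => by
      simp only [Submodule.coe_smul, LinearMap.smul_comp, LinearMap.comp_smul, map_smul])
    (fun u v v' => by
      simp only [Submodule.coe_add, LinearMap.comp_add, map_add])
    (fun c u v => by
      simp only [Submodule.coe_smul, LinearMap.comp_smul, map_smul])

lemma BO_apply (g : Module.End W.K (W.H M)) (g' : Module.End W.K (W.H N)) (u : S.Op N M)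
    (v : S.Op M N) : S.BO M N g g' u v = LinearMap.trace W.K (W.H M)
      (par (W.isInternal M) ∘ₗ g ∘ₗ (u : W.H N →ₗ[W.K] W.H M) ∘ₗ g' ∘ₗ
        (v : W.H M →ₗ[W.K] W.H N)) := rfl

lemma cat_B (S : Sys W) {ι : Type} [Fintype ι] [DecidableEq ι] (X : ι → 𝒱.Obj) (i j : ι)
    (g : Module.End W.K (W.H (X i))) (g' : Module.End W.K (W.H (X j))) :
    rk (A := (S.cat X).S i j) (B := (S.cat X).S j i) ((S.cat X).B i j g g') =
      rk (A := S.Op (X j) (X i)) (B := S.Op (X i) (X j)) (S.BO (X i) (X j) g g') := rfl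

/-- The rank of the form of a pair of idempotents as a rank of an intersection form. -/
theorem rk_BO (S : Sys W) {g : Module.End W.K (W.H M)} (hg : Ev W g)
    {g' g'' : Module.End W.K (W.H N)} (hg' : Ev W g') (hadj : Adj W g'' g') :
    rk (A := S.Op N M) (B := S.Op M N) (S.BO M N g g') =
      rk (S.F (N.prod M) (extOp W g'' g)) := by
  have h1 : (S.BO M N g g').compl₁₂ (S.corrS N M) (S.corrS M N) =
      (S.F (N.prod M) (extOp W g'' g)).compl₁₂ LinearMap.id (S.mapS (swap N M)) := by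
    apply LinearMap.ext
    intro c
    apply LinearMap.ext
    intro d
    rw [LinearMap.compl₁₂_apply, LinearMap.compl₁₂_apply, BO_apply, F_apply]
    change LinearMap.trace W.K (W.H M) (par (W.isInternal M) ∘ₗ g ∘ₗ
      W.corr (c : W.H _) ∘ₗ g' ∘ₗ W.corr (d : W.H _)) = W.tr _ (extOp W g'' g (c : W.H _) *
        W.map (swap N M) (d : W.H _))
    rw [← trace_corr_corr, corr_extOp hadj hg' hg]
    rfl
  have h2 : Function.Surjective (S.mapS (swap N M)) := by
    rintro ⟨c, hc⟩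
    exact ⟨⟨_, S.map (swap M N) hc⟩, Subtype.ext (swap_swap c)⟩
  have h3 := rk_comp (A := S.Op N M) (B := S.Op M N) (S.BO M N g g') (S.corrS_surjective (X := N) (Y := M))
    (S.corrS_surjective (X := M) (Y := N))
  have h4 := rk_comp (S.F (N.prod M) (extOp W g'' g)) (f := LinearMap.id)
    Function.surjective_id h2
  rw [← h3, h1, h4]

end Sys

end Pool.Agent.Y133.Half
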