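import Pool.Agent.Y133.Half.SS

/-!
# Algebras with a trace form

The rank of a bilinear form, and the Cauchy-Schwarz inequality for the ranks of the forms
`τ (e x f y)` on a finite-dimensional algebra with a trace `τ` vanishing on nilpotent elements.
-/

namespace Pool.Agent.Y133.Half

open Module

section Rank

variable {K A B A' B' : Type*} [Field K] [AddCommGroup A] [Module K A] [AddCommGroup B]
  [Module K B] [AddCommGroup A'] [Module K A'] [AddCommGroup B'] [Module K B']

/-- The rank of a bilinear form. -/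
noncomputable def rk (β : A →ₗ[K] B →ₗ[K] K) : ℕ := finrank K (LinearMap.range β)

/-- Pulling back along surjections does not change the rank. -/
lemma rk_comp [FiniteDimensional K A] [FiniteDimensional K B] (β : A →ₗ[K] B →ₗ[K] K)
    {f : A' →ₗ[K] A} {g : B' →ₗ[K] B} (hf : Function.Surjective f) (hg : Function.Surjective g) :
    rk (β.compl₁₂ f g) = rk β := by
  have h1 : LinearMap.range (β.compl₁₂ f g) = (LinearMap.range β).map g.dualMap := by
    ext φ
    constructor
    · rintro ⟨x, rfl⟩
      exact ⟨β (f x), ⟨f x, rfl⟩, rfl⟩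
    · rintro ⟨_, ⟨a, rfl⟩, rfl⟩
      obtain ⟨x, rfl⟩ := hf a
      exact ⟨x, rfl⟩
  have h2 : Function.Injective g.dualMap := LinearMap.dualMap_injective_of_surjective hg
  rw [rk, h1]
  exact (Submodule.equivMapOfInjective _ h2 _).finrank_eq.symm

lemma rk_comp_le [FiniteDimensional K A] [FiniteDimensional K B] [FiniteDimensional K A']
    [FiniteDimensional K B'] (β : A →ₗ[K] B →ₗ[K] K)
    (f : A' →ₗ[K] A) (g : B' →ₗ[K] B) : rk (β.compl₁₂ f g) ≤ rk β := by
  have h1 : LinearMap.range (β.compl₁₂ f g) ≤ (LinearMap.range β).map g.dualMap := by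
    rintro _ ⟨x, rfl⟩
    exact ⟨β (f x), ⟨f x, rfl⟩, rfl⟩
  exact (Submodule.finrank_mono h1).trans (Submodule.finrank_map_le _ _)

lemma rk_add_le [FiniteDimensional K A] [FiniteDimensional K B] (β γ : A →ₗ[K] B →ₗ[K] K) :
    rk (β + γ) ≤ rk β + rk γ := by
  have h1 : LinearMap.range (β + γ) ≤ LinearMap.range β ⊔ LinearMap.range γ := by
    rintro _ ⟨x, rfl⟩
    exact Submodule.add_mem_sup ⟨x, rfl⟩ ⟨x, rfl⟩
  exact (Submodule.finrank_mono h1).trans (Submodule.finrank_add_le_finrank_add_finrank _ _)

/-- The rank is the rank of the flipped form. -/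
lemma rk_flip [FiniteDimensional K A] [FiniteDimensional K B] (β : A →ₗ[K] B →ₗ[K] K) :
    rk β.flip = rk β := by
  have h : β.flip = β.dualMap ∘ₗ (Module.Dual.eval K B) := by
    apply LinearMap.ext; intro b; apply LinearMap.ext; intro a; rfl
  have h2 : LinearMap.range β.flip = LinearMap.range β.dualMap := by
    rw [h]
    exact LinearMap.range_comp_of_range_eq_top _ (LinearMap.range_eq_top.2
      (Module.evalEquiv K B).surjective)
  rw [rk, h2, LinearMap.finrank_range_dualMap_eq_finrank_range]
  rfl

end Rank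

section Tr

variable (K E : Type*) [Field K] [Ring E] [Algebra K E]

/-- A trace on an algebra which vanishes on nilpotent elements. -/
structure Tr where
  /-- the trace -/
  τ : E →ₗ[K] K
  cyc : ∀ x y, τ (x * y) = τ (y * x)
  nil : ∀ x, IsNilpotent x → τ x = 0

variable {K E} (t : Tr K E)

/-- The radical of the trace form. -/
def Tr.rad : Ideal E where
  carrier := {x | ∀ y, t.τ (x * y) = 0}
  zero_mem' := fun y => by simp
  add_mem' := fun {a b} ha hb y => by rw [add_mul, map_add, ha, hb, add_zero]
  smul_mem' := fun a x hx y => by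
    rw [smul_eq_mul, mul_assoc, t.cyc, mul_assoc]
    exact hx _

lemma Tr.mem_rad {x : E} : x ∈ t.rad ↔ ∀ y, t.τ (x * y) = 0 := Iff.rfl

instance : t.rad.IsTwoSided where
  mul_mem_of_left b ha y := by rw [mul_assoc]; exact ha _

/-- The form `τ (e x f y)`. -/
noncomputable def Tr.form (e f : E) : E →ₗ[K] E →ₗ[K] K :=
  (LinearMap.mul K E).compr₂ t.τ ∘ₗ pc e f

lemma Tr.form_apply (e f x y : E) : t.form e f x y = t.τ (e * (x * f) * y) := rfl

variable [FiniteDimensional K E]

instance : IsSemisimpleRing (E ⧸ t.rad) := by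
  have : IsArtinianRing E := IsArtinianRing.of_finite K E
  have hnil : IsNilpotent (Ring.jacobson E) := IsSemiprimaryRing.isNilpotent
  obtain ⟨N, hN⟩ := hnil
  have hle : Ring.jacobson E ≤ t.rad := by
    intro x hx y
    apply t.nil
    have h1 : x * y ∈ Ring.jacobson E := Ideal.mul_mem_right _ _ hx
    have h2 : ∀ n : ℕ, (x * y) ^ (n + 1) ∈ (Ring.jacobson E) ^ (n + 1) := by
      intro n
      induction n with
      | zero => rw [Submodule.pow_one, pow_one]; exact h1
      | succ n ih =>
        rw [pow_succ, Submodule.pow_succ]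
        exact Ideal.mul_mem_mul ih h1
    refine ⟨N + 1, ?_⟩
    have h3 := h2 N
    rw [Submodule.pow_succ, hN] at h3
    have h4 : (0 : Ideal E) * Ring.jacobson E = ⊥ := by
      rw [eq_bot_iff, Ideal.mul_le]
      intro r hr s _
      have : r = 0 := hr
      rw [this, zero_mul]
      exact Submodule.zero_mem _
    rw [h4] at h3
    exact h3
  have hs : Function.Surjective (Ideal.Quotient.factor hle) :=
    Ideal.Quotient.factor_surjective hle
  exact RingHom.isSemisimpleRing_of_surjective _ hs

lemma Tr.rk_form (e f : E) :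
    rk (t.form e f) = dm K (Ideal.Quotient.mk t.rad e) (Ideal.Quotient.mk t.rad f) := by
  let π : E →ₗ[K] (E ⧸ t.rad) := (Ideal.Quotient.mkₐ K t.rad).toLinearMap
  have hπ : Function.Surjective π := Ideal.Quotient.mkₐ_surjective K t.rad
  have h1 : LinearMap.ker (t.form e f) = LinearMap.ker (π ∘ₗ pc e f) := by
    ext x
    rw [LinearMap.mem_ker, LinearMap.mem_ker, LinearMap.comp_apply]
    have h2 : π (pc e f x) = 0 ↔ pc (K := K) e f x ∈ t.rad := Ideal.Quotient.eq_zero_iff_mem
    rw [h2, t.mem_rad]
    constructor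
    · intro h y
      exact congrArg (fun g : E →ₗ[K] K => g y) h
    · intro h
      exact LinearMap.ext h
  have h3 : π ∘ₗ pc e f = pc (Ideal.Quotient.mk t.rad e) (Ideal.Quotient.mk t.rad f) ∘ₗ π := by
    apply LinearMap.ext
    intro x
    change Ideal.Quotient.mk t.rad (e * (x * f)) = _
    rw [map_mul, map_mul]
    rfl
  have h4 : LinearMap.range (π ∘ₗ pc e f) =
      LinearMap.range (pc (K := K) (Ideal.Quotient.mk t.rad e) (Ideal.Quotient.mk t.rad f)) := by
    rw [h3]
    exact LinearMap.range_comp_of_range_eq_top _ (LinearMap.range_eq_top.2 hπ)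
  have h5 := LinearMap.finrank_range_add_finrank_ker (t.form e f)
  have h6 := LinearMap.finrank_range_add_finrank_ker (π ∘ₗ pc e f)
  rw [rk, dm, ← h4]
  rw [h1] at h5
  omega

variable [IsAlgClosed K] [CharZero K]

/-- The Cauchy-Schwarz inequality for the ranks of trace forms. -/
theorem Tr.rk_sq_le {e f : E} (he : e * e = e) (hf : f * f = f) :
    rk (t.form e f) ^ 2 ≤ rk (t.form e e) * rk (t.form f f) := by
  rw [t.rk_form, t.rk_form, t.rk_form]
  apply dm_sq_le
  · rw [← map_mul, he]
  · rw [← map_mul, hf]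

end Tr

end Pool.Agent.Y133.Half
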